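import Pool.Agent.CritPer.M.Wf

/-!
Small orbits: existence, and the period tends to infinity.
-/

open Set Filter Topology Polynomial MeasureTheory

namespace Pool.Agent.CritPer.M

open Pool.Agent.CritPer.L

/-- A bound of `q` on the square `[0,A]^2`. -/
private theorem small_qf_bound (S : ℝ[X]) (n : ℕ) {u v A : ℝ} (hu : 0 ≤ u) (huA : u ≤ A)
    (hv : 0 ≤ v) (hvA : v ≤ A) :
    |qf S n u v| ≤ (1 + ∑ j ∈ Finset.range (n + 1), |S.coeff j|) * A ^ n := by
  have hA : 0 ≤ A := hu.trans huA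
  unfold qf
  refine (Finset.abs_sum_le_sum_abs _ _).trans ?_
  have h1 : ∑ j ∈ Finset.range (n + 1), |S.coeff j * u ^ (n - j) * v ^ j| ≤
      ∑ j ∈ Finset.range (n + 1), |S.coeff j| * A ^ n := by
    refine Finset.sum_le_sum fun j hj => ?_
    have hj' : j ≤ n := Nat.lt_succ_iff.1 (Finset.mem_range.1 hj)
    rw [abs_mul, abs_mul, abs_of_nonneg (pow_nonneg hu _), abs_of_nonneg (pow_nonneg hv _),
      mul_assoc]
    refine mul_le_mul_of_nonneg_left ?_ (abs_nonneg _)
    have e : A ^ n = A ^ (n - j) * A ^ j := by rw [← pow_add, Nat.sub_add_cancel hj']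
    rw [e]
    exact mul_le_mul (pow_le_pow_left₀ hu huA _) (pow_le_pow_left₀ hv hvA _) (pow_nonneg hv _)
      (pow_nonneg hA _)
  rw [← Finset.sum_mul] at h1
  have h2 : 0 ≤ A ^ n := pow_nonneg hA n
  nlinarith

private theorem small_C_pos (S : ℝ[X]) (n : ℕ) :
    0 < 1 + ∑ j ∈ Finset.range (n + 1), |S.coeff j| := by
  have : 0 ≤ ∑ j ∈ Finset.range (n + 1), |S.coeff j| := Finset.sum_nonneg fun j _ => abs_nonneg _
  linarith

private theorem small_le {S : ℝ[X]} {n : ℕ} (hn : 1 ≤ n) {a : ℝ} (ha : 0 < a)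
    (ha1 : a ≤ 1) (haC : (1 + ∑ j ∈ Finset.range (n + 1), |S.coeff j|) * a ≤ 1) :
    (1 + ∑ j ∈ Finset.range (n + 1), |S.coeff j|) * a ^ n ≤ 1 := by
  have h1 : a ^ n ≤ a := by
    calc a ^ n ≤ a ^ 1 := pow_le_pow_of_le_one ha.le ha1 hn
      _ = a := pow_one a
  exact (mul_le_mul_of_nonneg_left h1 (small_C_pos S n).le).trans haC

private theorem small_bdd {S : ℝ[X]} {n : ℕ} (hn : 1 ≤ n) {a : ℝ} (ha : 0 < a)
    (ha1 : a ≤ 1) (haC : (1 + ∑ j ∈ Finset.range (n + 1), |S.coeff j|) * a ≤ 1) {c : ℝ}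
    (hc : 0 ≤ c) {v : ℝ → ℝ} (hv : IsW S n c a v) : ∀ u ∈ Icc c a, v u ≤ a - u := by
  have key := le_of_barrier (S := S) (n := n) (c := c) (b := a) (v := v) (m := fun u => a - u)
    (m' := fun _ => -1) hv.cont (by fun_prop) (fun u hu => hv.derAt hu)
    (fun u _ => by simpa using (hasDerivAt_id u).const_sub a) (by rw [hv.zero]; simp)
    (fun u hu => ?_)
  · exact key
  · have h1 := small_qf_bound S n (u := u) (v := a - u) (A := a) (hc.trans hu.1.le) hu.2.le
      (by linarith [hu.2]) (by linarith [hu.1])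
    have h2 := small_le (S := S) hn ha ha1 haC
    have h3 := le_abs_self (qf S n u (a - u))
    show -1 ≤ -(qf S n u (a - u))
    linarith

theorem ok_small {S : ℝ[X]} {n : ℕ} (hn : 1 ≤ n) (h0 : 0 < S.coeff 0) :
    ∃ a1 : ℝ, 0 < a1 ∧ ∀ a ∈ Ioc 0 a1, Ok S n a ∧ ∀ u ∈ Icc 0 a, vs S n a u ≤ a := by
  have hC := small_C_pos S n
  refine ⟨min 1 (1 / (1 + ∑ j ∈ Finset.range (n + 1), |S.coeff j|)),
    lt_min one_pos (by positivity), fun a ha => ?_⟩
  have ha1 : a ≤ 1 := ha.2.trans (min_le_left _ _)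
  have haC : (1 + ∑ j ∈ Finset.range (n + 1), |S.coeff j|) * a ≤ 1 := by
    have h2 : a ≤ 1 / (1 + ∑ j ∈ Finset.range (n + 1), |S.coeff j|) := ha.2.trans (min_le_right _ _)
    rw [le_div_iff₀ hC] at h2
    linarith
  have hok : Ok S n a := by
    refine ⟨hn, h0, ha.1, ?_⟩
    refine ex_of_bdd h0 le_rfl ha.1 ha.1.le (fun c' hc' v hv u hu => ?_)
    have := small_bdd hn ha.1 ha1 haC hc'.1.le hv u hu
    linarith [hu.1, hc'.1]
  refine ⟨hok, fun u hu => ?_⟩
  have := small_bdd hn ha.1 ha1 haC le_rfl hok.isW u hu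
  linarith [hu.1]

theorem Ts_small {S : ℝ[X]} {n : ℕ} (hn : 1 ≤ n) (h0 : 0 < S.coeff 0) (k : ℕ) :
    Tendsto (Ts S n k) (𝓝[>] 0) atTop := by
  obtain ⟨a1, ha1, hsm⟩ := ok_small (S := S) hn h0
  set C : ℝ := 1 + ∑ j ∈ Finset.range (n + 1), |S.coeff j| with hCdef
  have hC : 0 < C := small_C_pos S n
  -- lower bound
  have hlow : ∀ a ∈ Ioc 0 (min a1 1), 2 * Real.pi / (Real.sqrt (C * a) * 2 ^ k) ≤ Ts S n k a := by
    intro a ha
    obtain ⟨hok, hle⟩ := hsm a ⟨ha.1, ha.2.trans (min_le_left _ _)⟩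
    have ha' : a ≤ 1 := ha.2.trans (min_le_right _ _)
    have hpow : a ^ n ≤ a := by
      calc a ^ n ≤ a ^ 1 := pow_le_pow_of_le_one ha.1.le ha' hn
        _ = a := pow_one a
    have hws : ∀ t ∈ Icc (0 : ℝ) 1, ws S n a t ≤ C * a := by
      intro t ht
      unfold ws
      have hb : ∀ r ∈ uIoc (0 : ℝ) 1,
          ‖qf S n (a * (t + (1 - t) * r)) (vs S n a (a * (t + (1 - t) * r)))‖ ≤ C * a := by
        intro r hr
        rw [uIoc_of_le zero_le_one] at hr
        have hmem : a * (t + (1 - t) * r) ∈ Icc 0 a := by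
          refine Wf.mem hok.ha ⟨?_, ?_⟩
          · nlinarith [ht.1, ht.2, hr.1, mul_nonneg (sub_nonneg.2 ht.2) hr.1.le]
          · nlinarith [ht.1, ht.2, hr.2, mul_nonneg (sub_nonneg.2 ht.2) (sub_nonneg.2 hr.2)]
        have h1 := small_qf_bound S n hmem.1 hmem.2 (hok.nonneg hmem) (hle _ hmem)
        rw [Real.norm_eq_abs]
        exact h1.trans (mul_le_mul_of_nonneg_left hpow hC.le)
      have h2 := intervalIntegral.norm_integral_le_of_norm_le_const hb
      rw [sub_zero, abs_one, mul_one] at h2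
      exact (le_abs_self _).trans h2
    have hint : ∀ p : ℝ, 1 / (Real.sqrt (C * a) * 2 ^ k) ≤
        1 / (Wr S n a p * (a * Real.cos p ^ 2 + Vp S n a p) ^ k) := by
      intro p
      have hW := Wr_pos hok p
      have huv := uv_pos hok p
      have h1 : Wr S n a p ≤ Real.sqrt (C * a) := Real.sqrt_le_sqrt (hws _ (Wf.cos_mem p))
      have h2 : a * Real.cos p ^ 2 + Vp S n a p ≤ 2 := by
        have h3 : Vp S n a p ≤ a := hle _ (Wf.mem hok.ha (Wf.cos_mem p))
        have h4 := (Wf.cos_mem p).2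
        nlinarith [ha.1]
      refine one_div_le_one_div_of_le (by positivity) ?_
      exact mul_le_mul h1 (pow_le_pow_left₀ huv.le h2 k) (by positivity) (Real.sqrt_nonneg _)
    have hcontI : Continuous (fun p => 1 / (Wr S n a p * (a * Real.cos p ^ 2 + Vp S n a p) ^ k)) := by
      refine continuous_const.div ?_ (fun p => ?_)
      · exact (continuous_Wr hok).mul (((by fun_prop : Continuous fun p : ℝ =>
          a * Real.cos p ^ 2).add (continuous_Vp hok)).pow k)
      · have := Wr_pos hok p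
        have := uv_pos hok p
        positivity
    have h5 : (∫ _ in (0 : ℝ)..(2 * Real.pi), 1 / (Real.sqrt (C * a) * 2 ^ k)) ≤ Ts S n k a := by
      unfold Ts
      exact intervalIntegral.integral_mono_on (by positivity) (by simp)
        (hcontI.intervalIntegrable _ _) (fun p _ => hint p)
    rw [intervalIntegral.integral_const, sub_zero, smul_eq_mul, mul_one_div] at h5
    exact h5
  have hev : ∀ᶠ a in 𝓝[>] (0 : ℝ), 2 * Real.pi / (Real.sqrt (C * a) * 2 ^ k) ≤ Ts S n k a := by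
    filter_upwards [Ioc_mem_nhdsGT (lt_min ha1 one_pos)] with a ha
    exact hlow a ha
  refine tendsto_atTop_mono' _ hev ?_
  have h1 : Tendsto (fun a : ℝ => Real.sqrt (C * a) * 2 ^ k) (𝓝[>] 0) (𝓝[>] 0) := by
    rw [tendsto_nhdsWithin_iff]
    constructor
    · have h2 : Continuous (fun a : ℝ => Real.sqrt (C * a) * 2 ^ k) := by fun_prop
      have h3 := h2.tendsto 0
      simp only [mul_zero, Real.sqrt_zero, zero_mul] at h3
      exact h3.mono_left nhdsWithin_le_nhds
    · filter_upwards [self_mem_nhdsWithin] with a ha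
      have ha' : 0 < a := ha
      have : 0 < Real.sqrt (C * a) := Real.sqrt_pos.2 (mul_pos hC ha')
      exact mul_pos this (by positivity)
  have h2 := h1.inv_tendsto_nhdsGT_zero
  have h3 := h2.const_mul_atTop (show (0 : ℝ) < 2 * Real.pi by positivity)
  refine h3.congr fun a => ?_
  simp only [Pi.inv_apply]
  rw [div_eq_mul_inv]

end Pool.Agent.CritPer.M
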