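import Pool.Agent.CritPer.M.Dom
import Pool.Agent.CritPer.L.Center

open Set Filter Topology Polynomial MeasureTheory

namespace Pool.Agent.CritPer.M

open Pool.Agent.CritPer.L

variable {S : ℝ[X]} {n : ℕ} {a b : ℝ}

/-- If some orbit is not closed, the closed orbits are unbounded. -/
theorem exists_unbounded (hn : 1 ≤ n) (h0 : 0 < S.coeff 0) {a' : ℝ} (ha' : 0 < a')
    (h : ¬ Ok S n a') (M : ℝ) : ∃ b u, Ok S n b ∧ u ∈ Icc 0 b ∧ M < vs S n b u := by
  obtain ⟨a1, ha1, hok1⟩ := ok_small hn h0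
  have hne : {a | Ok S n a}.Nonempty := ⟨a1, (hok1 a1 ⟨ha1, le_rfl⟩).1⟩
  have hbd : BddAbove {a | Ok S n a} := by
    refine ⟨a', fun a ha => ?_⟩
    by_contra hlt
    exact h (Ok.mono ha ha' (not_le.1 hlt).le)
  set s := sSup {a | Ok S n a} with hs
  have hs0 : 0 < s := lt_of_lt_of_le ha1 (le_csSup hbd (hok1 a1 ⟨ha1, le_rfl⟩).1)
  have hlow : ∀ b, 0 < b → b < s → Ok S n b := by
    intro b hb hbs
    obtain ⟨a, ha, hba⟩ := exists_lt_of_lt_csSup hne hbs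
    exact Ok.mono ha hb hba.le
  have hsn : ¬ Ok S n s := by
    intro hok
    have h1 : ∀ᶠ b in 𝓝[>] s, Ok S n b := nhdsWithin_le_nhds hok.eventually
    obtain ⟨b, hb, hsb⟩ := (h1.and self_mem_nhdsWithin).exists
    exact absurd (le_csSup hbd hb) (not_le.2 hsb)
  have hex : ¬ Ex S n 0 s := fun hex => hsn ⟨hn, h0, hs0, hex⟩
  obtain ⟨u1, hu1, v, hv, hM⟩ := exists_large h0 le_rfl hs0 hex M
  have hc := vv_continuousAt hu1.2 ⟨v, hv⟩
  have h1 : M < vv S n s u1 := by rwa [vv_eq hv (left_mem_Icc.2 hu1.2.le)]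
  have h2 : ∀ᶠ b in 𝓝[<] s, M < vv S n b u1 :=
    nhdsWithin_le_nhds (hc.eventually (lt_mem_nhds h1))
  have h3 : ∀ᶠ b in 𝓝[<] s, u1 < b := nhdsWithin_le_nhds (lt_mem_nhds hu1.2)
  obtain ⟨b, ⟨hb1, hb2⟩, hb3⟩ := ((h2.and h3).and self_mem_nhdsWithin).exists
  have hok := hlow b (hu1.1.trans hb2) hb3
  refine ⟨b, u1, hok, ⟨hu1.1.le, hb2.le⟩, ?_⟩
  rwa [← hok.vv_eq ⟨hu1.1.le, hb2.le⟩]

theorem not_isBounded_Dom (hn : 1 ≤ n) (h0 : 0 < S.coeff 0) {a' : ℝ} (ha' : 0 < a')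
    (h : ¬ Ok S n a') : ¬ Bornology.IsBounded (Dom S n) := by
  intro hb
  obtain ⟨R, hR⟩ := hb.exists_norm_le
  obtain ⟨b, u, hok, hu, hM⟩ := exists_unbounded hn h0 ha' h ((|R| + 1) ^ 2)
  have hu' : u < b := by
    refine lt_of_le_of_ne hu.2 fun he => ?_
    rw [he, hok.self] at hM
    exact absurd hM (not_lt.2 (sq_nonneg _))
  have hmem : ((Real.sqrt u, |R| + 1) : ℝ × ℝ) ∈ Dom S n := by
    refine ⟨b, hok, ?_, ?_⟩
    · simpa [Real.sq_sqrt hu.1] using hu'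
    · simpa [Real.sq_sqrt hu.1] using hM
  have h1 := hR _ hmem
  rw [Prod.norm_def] at h1
  have h2 := (le_max_right _ _).trans h1
  simp only [Real.norm_eq_abs] at h2
  have h3 := le_abs_self (|R| + 1)
  have h4 := le_abs_self R
  linarith

theorem surrounds_crv (h : Ok S n (b ^ 2)) (hb : 0 < b) : Surrounds (range (crv S n b)) := by
  have hb2 : 0 < b ^ 2 := h.ha
  obtain ⟨B, hB⟩ : ∃ B, ∀ u ∈ Icc 0 (b ^ 2), vs S n (b ^ 2) u ≤ B := by
    obtain ⟨B, hB⟩ := isCompact_Icc.exists_bound_of_continuousOn h.contOn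
    exact ⟨B, fun u hu => (le_abs_self _).trans (hB u hu)⟩
  constructor
  · intro h0
    rw [mem_range_crv h hb] at h0
    have h1 := h.pos (u := 0) ⟨le_rfl, hb2⟩
    have h2 := h0.2
    simp only [Prod.fst_zero, Prod.snd_zero] at h2
    rw [zero_pow two_ne_zero] at h2
    linarith
  · obtain ⟨G, hG⟩ : ∃ G : ℝ × ℝ → ℝ, G = fun z => vs S n (b ^ 2) (min (z.1 ^ 2) (b ^ 2)) :=
      ⟨_, rfl⟩
    have hGc : Continuous G := by
      rw [hG]
      refine h.contOn.comp_continuous (by fun_prop) ?_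
      intro z
      exact ⟨le_min (sq_nonneg _) hb2.le, min_le_right _ _⟩
    have hGe : ∀ z : ℝ × ℝ, z.1 ^ 2 ≤ b ^ 2 → G z = vs S n (b ^ 2) (z.1 ^ 2) := by
      intro z hz
      rw [hG]
      simp only
      rw [min_eq_left hz]
    obtain ⟨D, hD⟩ : ∃ D : Set (ℝ × ℝ), D = {z | z.1 ^ 2 < b ^ 2 ∧ z.2 ^ 2 < G z} := ⟨_, rfl⟩
    have hc1 : Continuous (fun z : ℝ × ℝ => z.1 ^ 2) := by fun_prop
    have hc2 : Continuous (fun z : ℝ × ℝ => z.2 ^ 2) := by fun_prop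
    have hDo : IsOpen D := by
      rw [hD]
      exact IsOpen.inter (isOpen_lt hc1 continuous_const) (isOpen_lt hc2 hGc)
    have hEc : IsClosed {z : ℝ × ℝ | z.1 ^ 2 ≤ b ^ 2 ∧ z.2 ^ 2 ≤ G z} :=
      IsClosed.inter (isClosed_le hc1 continuous_const) (isClosed_le hc2 hGc)
    have hDE : closure D ⊆ {z : ℝ × ℝ | z.1 ^ 2 ≤ b ^ 2 ∧ z.2 ^ 2 ≤ G z} := by
      refine closure_minimal ?_ hEc
      intro z hz
      rw [hD] at hz
      exact ⟨hz.1.le, hz.2.le⟩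
    have h0D : (0 : ℝ × ℝ) ∈ D := by
      rw [hD]
      refine ⟨by simpa using hb2, ?_⟩
      rw [hGe 0 (by simpa using hb2.le)]
      have h1 := h.pos (u := 0) ⟨le_rfl, hb2⟩
      simpa using h1
    have hsub : connectedComponentIn (range (crv S n b))ᶜ (0 : ℝ × ℝ) ⊆ D := by
      rcases eq_or_ne (connectedComponentIn (range (crv S n b))ᶜ (0 : ℝ × ℝ)) ∅ with he | he
      · rw [he]
        exact empty_subset _
      have hne : (0 : ℝ × ℝ) ∈ (range (crv S n b))ᶜ := by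
        by_contra hcon
        exact he (connectedComponentIn_eq_empty hcon)
      refine isPreconnected_connectedComponentIn.subset_of_closure_inter_subset hDo
        ⟨0, mem_connectedComponentIn hne, h0D⟩ ?_
      rintro z ⟨hz1, hz2⟩
      have hz3 := hDE hz1
      have hz4 : z ∉ range (crv S n b) := connectedComponentIn_subset _ _ hz2
      rw [mem_range_crv h hb] at hz4
      have h5 : z.2 ^ 2 ≤ vs S n (b ^ 2) (z.1 ^ 2) := by
        rw [← hGe z hz3.1]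
        exact hz3.2
      have h6 : z.2 ^ 2 < vs S n (b ^ 2) (z.1 ^ 2) := lt_of_le_of_ne h5 fun he => hz4 ⟨hz3.1, he⟩
      rw [hD]
      refine ⟨lt_of_le_of_ne hz3.1 fun he => ?_, ?_⟩
      · rw [he, h.self] at h6
        exact absurd h6 (not_lt.2 (sq_nonneg _))
      · rw [hGe z hz3.1]
        exact h6
    refine (Metric.isBounded_closedBall (x := (0 : ℝ × ℝ)) (r := b + Real.sqrt B)).subset
      (hsub.trans ?_)
    intro z hz
    rw [hD] at hz
    have h1 : |z.1| ≤ b := abs_le_of_sq_le_sq hz.1.le hb.le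
    have h2 : |z.2| ≤ Real.sqrt B := by
      refine Real.abs_le_sqrt ?_
      refine hz.2.le.trans ?_
      rw [hGe z hz.1.le]
      exact hB _ ⟨sq_nonneg _, hz.1.le⟩
    rw [mem_closedBall_zero_iff, Prod.norm_def]
    refine max_le ?_ ?_
    · rw [Real.norm_eq_abs]
      linarith [Real.sqrt_nonneg B]
    · rw [Real.norm_eq_abs]
      linarith

/-- the orbit of a point of `range (crv S n b)` -/
theorem cen_orbit (h : Ok S n (b ^ 2)) (k : ℕ) (hb : 0 < b) {z : ℝ × ℝ}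
    (hz : z ∈ range (crv S n b)) :
    ∃ γ : ℝ → ℝ × ℝ, IsPerSol (vf (PL k) (QL S n k)) γ ∧ γ 0 = z ∧
      range γ = range (crv S n b) ∧ (b, 0) ∈ range γ := by
  obtain ⟨δ, hδ, hδ0, hδr, hδp, hT, hδm⟩ := exists_orbit h k hb
  rw [← hδr] at hz
  obtain ⟨s, hs⟩ := hz
  have hran : range (fun t => δ (t + s)) = range δ := by
    ext w
    constructor
    · rintro ⟨t, rfl⟩
      exact ⟨t + s, rfl⟩
    · rintro ⟨t, rfl⟩
      refine ⟨t - s, ?_⟩
      simp only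
      rw [sub_add_cancel]
  refine ⟨fun t => δ (t + s), ⟨hδ.shift s, ⟨Ts S n k (b ^ 2), hT, fun t => ?_⟩, ?_⟩, ?_, ?_, ?_⟩
  · simp only
    rw [show t + Ts S n k (b ^ 2) + s = (t + s) + Ts S n k (b ^ 2) by ring, hδp]
  · by_contra hcon
    push Not at hcon
    have hc : ∀ t, δ t = δ s := by
      intro t
      have := hcon (t - s)
      simpa using this
    have h1 : δ (Ts S n k (b ^ 2) / 2) = δ 0 := by rw [hc, hc 0]
    obtain ⟨m, hm⟩ := hδm _ h1
    have h2 : ((m : ℝ) - 1 / 2) * Ts S n k (b ^ 2) = 0 := by linarith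
    rcases mul_eq_zero.1 h2 with h3 | h3
    · have h4 : (2 * m : ℝ) = 1 := by linarith
      have h5 : (2 * m : ℤ) = 1 := by exact_mod_cast h4
      omega
    · exact hT.ne' h3
  · simp only
    rw [zero_add, hs]
  · rw [hran, hδr]
  · rw [hran]
    exact ⟨0, hδ0⟩

/-- A solution whose range meets `range (crv S n b)` has that range. -/
theorem range_eq_of_mem (h : Ok S n (b ^ 2)) (k : ℕ) (hb : 0 < b) {γ : ℝ → ℝ × ℝ}
    (hγ : IsSol (vf (PL k) (QL S n k)) γ) {z : ℝ × ℝ} (hz : z ∈ range (crv S n b))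
    (hz' : z ∈ range γ) : range γ = range (crv S n b) := by
  obtain ⟨δ, hδ, hδ0, hδr, -⟩ := cen_orbit h k hb hz
  obtain ⟨s, hs⟩ := hz'
  have h1 : δ = fun t => γ (t + s) :=
    IsSol.unique (contDiff_vf _ _) hδ.1 (hγ.shift s) (by rw [hδ0, zero_add, hs])
  rw [← hδr, h1]
  ext w
  constructor
  · rintro ⟨t, rfl⟩
    exact ⟨t - s, by simp⟩
  · rintro ⟨t, rfl⟩
    exact ⟨t + s, rfl⟩

theorem cen_mem (b : ℝ) : ((b, 0) : ℝ × ℝ) ∈ range (crv S n b) :=
  ⟨0, by simp [crv]⟩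

/-- A periodic orbit surrounding the origin which meets the positive half axis at `(b,0)` is
one of the closed orbits `crv`. -/
theorem ok_of_surrounds (hn : 1 ≤ n) (h0 : 0 < S.coeff 0) (k : ℕ) {γ : ℝ → ℝ × ℝ}
    (hγ : IsSol (vf (PL k) (QL S n k)) γ) (hs : Surrounds (range γ)) (hb : 0 < b)
    (hmem : (b, 0) ∈ range γ) : Ok S n (b ^ 2) := by
  by_contra hcon
  have hb2 : 0 < b ^ 2 := by positivity
  apply not_isBounded_Dom hn h0 hb2 hcon
  refine hs.2.subset (isPreconnected_Dom.subset_connectedComponentIn (zero_mem_Dom hn h0) ?_)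
  intro z hz hzγ
  have hz0 : z ≠ 0 := fun he => hs.1 (he ▸ hzγ)
  obtain ⟨c, hc, hok, hzc⟩ := (mem_Dom_iff hn h0 hz0).1 hz
  rw [range_eq_of_mem hok k hc hγ hzc hzγ, mem_range_crv hok hc] at hmem
  apply hcon
  refine hok.mono hb2 hmem.1

theorem cyc_L (hn : 1 ≤ n) (h0 : 0 < S.coeff 0) (k : ℕ) :
    insert 0 (cyc (vf (PL k) (QL S n k))) = Dom S n := by
  ext z
  constructor
  · rintro (rfl | ⟨γ, hγ, hγ0, hγs⟩)
    · exact zero_mem_Dom hn h0
    · by_cases hz : z = 0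
      · rw [hz]
        exact zero_mem_Dom hn h0
      rw [mem_Dom_iff hn h0 hz]
      obtain ⟨b, hb, hbγ⟩ := Surrounds.meets hγs
      have hok := ok_of_surrounds hn h0 k hγ.1 hγs hb hbγ
      refine ⟨b, hb, hok, ?_⟩
      rw [← range_eq_of_mem hok k hb hγ.1 (cen_mem b) hbγ]
      exact ⟨0, hγ0⟩
  · intro hz
    by_cases hz0 : z = 0
    · left
      exact hz0
    · right
      obtain ⟨b, hb, hok, hzb⟩ := (mem_Dom_iff hn h0 hz0).1 hz
      obtain ⟨γ, hγ, hγ0, hγr, -⟩ := cen_orbit hok k hb hzb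
      refine ⟨γ, hγ, hγ0, ?_⟩
      rw [hγr]
      exact surrounds_crv hok hb

theorem isCenter_L (hn : 1 ≤ n) (h0 : 0 < S.coeff 0) (k : ℕ) :
    IsCenter (vf (PL k) (QL S n k)) := by
  constructor
  · rw [vf_L]
    simp
  · have h1 : Dom S n ∈ 𝓝 (0 : ℝ × ℝ) := isOpen_Dom.mem_nhds (zero_mem_Dom hn h0)
    filter_upwards [mem_nhdsWithin_of_mem_nhds h1, self_mem_nhdsWithin] with z hz hz0
    rw [← cyc_L hn h0 k] at hz
    rcases hz with hz | hz
    · exact absurd hz hz0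
    · exact hz

theorem cen_annulus (hn : 1 ≤ n) (h0 : 0 < S.coeff 0) (k : ℕ) :
    annulus (vf (PL k) (QL S n k)) = Dom S n := by
  unfold annulus
  rw [cyc_L hn h0 k, isOpen_Dom.interior_eq]
  exact isPreconnected_Dom.connectedComponentIn (zero_mem_Dom hn h0)

/-- The interval of parameters. -/
def Prm (S : ℝ[X]) (n : ℕ) : Set ℝ := {b | 0 < b ∧ Ok S n (b ^ 2)}

theorem isOpen_Prm : IsOpen (Prm S n) := by
  rw [isOpen_iff_mem_nhds]
  rintro b ⟨hb, hok⟩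
  have h1 : Tendsto (fun b : ℝ => b ^ 2) (𝓝 b) (𝓝 (b ^ 2)) := by
    apply Continuous.tendsto
    fun_prop
  filter_upwards [lt_mem_nhds hb, h1.eventually hok.eventually] with c hc1 hc2
  exact ⟨hc1, hc2⟩

theorem ordConnected_Prm : (Prm S n).OrdConnected := by
  refine ⟨fun x hx y hy z hz => ?_⟩
  have hz0 : 0 < z := lt_of_lt_of_le hx.1 hz.1
  exact ⟨hz0, hy.2.mono (by positivity) (pow_le_pow_left₀ hz0.le hz.2 2)⟩

theorem isParam_L (hn : 1 ≤ n) (h0 : 0 < S.coeff 0) (k : ℕ) :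
    IsParam (vf (PL k) (QL S n k)) (Prm S n) (fun b => (b, 0)) where
  isOpen := isOpen_Prm
  ordConnected := ordConnected_Prm
  nonempty := by
    obtain ⟨a1, ha1, h⟩ := ok_small hn h0
    refine ⟨Real.sqrt a1, Real.sqrt_pos.2 ha1, ?_⟩
    rw [Real.sq_sqrt ha1.le]
    exact (h a1 ⟨ha1, le_rfl⟩).1
  smooth := by fun_prop
  mem := by
    rintro s ⟨hs', hok⟩
    have h0' : ((s, 0) : ℝ × ℝ) ≠ 0 := fun he => hs'.ne' (congrArg Prod.fst he)
    refine ⟨?_, h0'⟩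
    rw [cen_annulus hn h0 k, mem_Dom_iff hn h0 h0']
    exact ⟨s, hs', hok, cen_mem s⟩
  transversal := by
    rintro s ⟨hs', -⟩
    have h1 : HasDerivAt (fun b : ℝ => ((b, 0) : ℝ × ℝ)) (1, 0) s :=
      (hasDerivAt_id s).prodMk (hasDerivAt_const s 0)
    rw [h1.deriv, vf_L]
    simp only [one_mul, zero_mul, sub_zero]
    rw [zero_pow two_ne_zero, qf_zero, add_zero]
    have h3 : 0 < s * (S.coeff 0 * (s ^ 2) ^ n) * (s ^ 2) ^ k := by positivity
    linarith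
  unique := by
    intro z hz hz0
    rw [cen_annulus hn h0 k, mem_Dom_iff hn h0 hz0] at hz
    obtain ⟨b, hb, hok, hzb⟩ := hz
    obtain ⟨γ, hγ, hγ0, hγr, hγb⟩ := cen_orbit hok k hb hzb
    refine ⟨b, ⟨⟨hb, hok⟩, γ, hγ.1, hγ0, hγb⟩, ?_⟩
    rintro s ⟨hs, δ, hδ, hδ0, hδs⟩
    have h1 : δ = γ := IsSol.unique (contDiff_vf _ _) hδ hγ.1 (by rw [hδ0, hγ0])
    rw [h1, hγr] at hδs
    exact crv_disjoint hs.1 hb hs.2 hok (cen_mem s) hδs

end Pool.Agent.CritPer.M
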