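import Mathlib

/-!
Counting isolated critical points of an analytic function which alternately decreases and
increases on disjoint intervals.
-/

open Set Filter Topology

namespace Pool.Agent.CritPer.M

theorem count_pairs {T : ℝ → ℝ} {I : Set ℝ} (hI : I.OrdConnected)
    (hT : ∀ b ∈ I, AnalyticAt ℝ T b) {M : ℕ} {a b : ℕ → ℝ}
    (hab : ∀ i < M, a i ∈ I ∧ b i ∈ I ∧ a i < b i ∧ 0 < (-1 : ℝ) ^ (i + 1) * (T (b i) - T (a i)))
    (hba : ∀ i, i + 1 < M → b i ≤ a (i + 1)) :
    ((M - 1 : ℕ) : ℕ∞) ≤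
      {s | s ∈ I ∧ deriv T s = 0 ∧ ∀ᶠ r in 𝓝[≠] s, deriv T r ≠ 0}.encard := by
  have he : ∀ i, ∃ e, i < M → (a i < e ∧ e < b i ∧ e ∈ I ∧ 0 < (-1 : ℝ) ^ (i + 1) * deriv T e) := by
    intro i
    by_cases hi : i < M
    · obtain ⟨ha, hb, hlt, halt⟩ := hab i hi
      obtain ⟨e, he, hde⟩ := exists_deriv_eq_slope T hlt
        (fun x hx => (hT x (hI.out ha hb hx)).continuousAt.continuousWithinAt)
        (fun x hx => (hT x (hI.out ha hb ⟨hx.1.le, hx.2.le⟩)).differentiableAt.differentiableWithinAt)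
      refine ⟨e, fun _ => ⟨he.1, he.2, hI.out ha hb ⟨he.1.le, he.2.le⟩, ?_⟩⟩
      rw [hde, ← mul_div_assoc]
      exact div_pos halt (sub_pos.2 hlt)
    · exact ⟨0, fun h => absurd h hi⟩
  choose e he using he
  have hz : ∀ i, ∃ z, i + 1 < M → (e i < z ∧ z < e (i + 1) ∧ deriv T z = 0) := by
    intro i
    by_cases hi : i + 1 < M
    · obtain ⟨h1, h2, h2I, h3⟩ := he i (by omega)
      obtain ⟨h4, h5, h5I, h6⟩ := he (i + 1) hi
      have hlt : e i < e (i + 1) := h2.trans (lt_of_le_of_lt (hba i hi) h4)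
      have hcont : ContinuousOn (deriv T) (Icc (e i) (e (i + 1))) := by
        intro x hx
        exact (hT x (hI.out h2I h5I hx)).deriv.continuousAt.continuousWithinAt
      rcases Nat.even_or_odd i with hev | hod
      · have e1 : (-1 : ℝ) ^ (i + 1) = -1 := (hev.add_one).neg_one_pow
        have e2 : (-1 : ℝ) ^ (i + 1 + 1) = 1 := (hev.add_one.add_one).neg_one_pow
        rw [e1] at h3
        rw [e2] at h6
        have := intermediate_value_Ioo hlt.le hcont
        obtain ⟨z, hz, hz0⟩ := this (show (0 : ℝ) ∈ Ioo (deriv T (e i)) (deriv T (e (i + 1))) from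
          ⟨by linarith, by linarith⟩)
        exact ⟨z, fun _ => ⟨hz.1, hz.2, hz0⟩⟩
      · have e1 : (-1 : ℝ) ^ (i + 1) = 1 := (hod.add_one).neg_one_pow
        have e2 : (-1 : ℝ) ^ (i + 1 + 1) = -1 := (hod.add_one.add_one).neg_one_pow
        rw [e1] at h3
        rw [e2] at h6
        have := intermediate_value_Ioo' hlt.le hcont
        obtain ⟨z, hz, hz0⟩ := this (show (0 : ℝ) ∈ Ioo (deriv T (e (i + 1))) (deriv T (e i)) from
          ⟨by linarith, by linarith⟩)
        exact ⟨z, fun _ => ⟨hz.1, hz.2, hz0⟩⟩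
    · exact ⟨0, fun h => absurd h hi⟩
  choose z hz using hz
  have hmono : ∀ i, i + 2 < M → z i < z (i + 1) := fun i hi =>
    (hz i (by omega)).2.1.trans (hz (i + 1) hi).1
  have hlt : ∀ j, j + 1 < M → ∀ i < j, z i < z j := by
    intro j
    induction j with
    | zero => intro _ i hi; omega
    | succ j ih =>
      intro hj i hi
      rcases Nat.lt_succ_iff_lt_or_eq.1 hi with h | h
      · exact (ih (by omega) i h).trans (hmono j (by omega))
      · subst h
        exact hmono i (by omega)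
  have hinj : InjOn z (Set.Iio (M - 1)) := by
    intro i hi j hj hij
    rw [mem_Iio] at hi hj
    rcases lt_trichotomy i j with h | h | h
    · exact absurd hij (hlt j (by omega) i h).ne
    · exact h
    · exact absurd hij (hlt i (by omega) j h).ne'
  have hmaps : MapsTo z (Set.Iio (M - 1))
      {s | s ∈ I ∧ deriv T s = 0 ∧ ∀ᶠ r in 𝓝[≠] s, deriv T r ≠ 0} := by
    intro i hi
    rw [mem_Iio] at hi
    obtain ⟨h1, h2, h2I, h3⟩ := he i (by omega)
    obtain ⟨h4, h5, h5I, h6⟩ := he (i + 1) (by omega)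
    obtain ⟨h7, h8, h9⟩ := hz i (by omega)
    have hzI : z i ∈ I := hI.out h2I h5I ⟨h7.le, h8.le⟩
    refine ⟨hzI, h9, ?_⟩
    by_contra hcon
    have hfreq : ∃ᶠ r in 𝓝[≠] (z i), deriv T r = 0 := fun h => hcon h
    have hd : AnalyticOnNhd ℝ (deriv T) I := fun b hb => (hT b hb).deriv
    have hz0 : EqOn (deriv T) 0 I :=
      hd.eqOn_zero_of_preconnected_of_frequently_eq_zero hI.isPreconnected hzI hfreq
    have h10 : deriv T (e i) = 0 := hz0 h2I
    rw [h10, mul_zero] at h3
    exact lt_irrefl _ h3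
  have h := encard_le_encard_of_injOn hmaps hinj
  have hc : (Set.Iio (M - 1)).encard = ((M - 1 : ℕ) : ℕ∞) := by
    rw [← Set.Finite.cast_ncard_eq (Set.finite_Iio _)]
    congr 1
    rw [Set.ncard_eq_toFinset_card']
    simp
  rw [hc] at h
  exact h

end Pool.Agent.CritPer.M
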