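import Pool.Agent.CritPer.M.Wf
import Pool.Agent.CritPer.L.Per

/-!
The period depends analytically on the coefficients and on `a`.
-/

open Set Filter Topology Polynomial MeasureTheory
open scoped ContDiff

namespace Pool.Agent.CritPer.M

open Pool.Agent.CritPer.L

namespace PerAux

/-- The Banach algebra `C([0,1])`. -/
abbrev E := C(Icc (0 : ℝ) 1, ℝ)

theorem exists_sqrt {P : Type*} [NormedAddCommGroup P] [NormedSpace ℝ P] {w : P → E} {a0 : P}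
    (hw : ContDiffAt ℝ ω w a0) (hpos : ∀ t, 0 < w a0 t) :
    ∃ s : P → E, ContDiffAt ℝ ω s a0 ∧ ∀ᶠ a in 𝓝 a0, (∀ t, 0 < s a t) ∧ s a * s a = w a := by
  have hs0pos : ∀ t, 0 < Real.sqrt (w a0 t) := fun t => Real.sqrt_pos.2 (hpos t)
  let s0 : E := ⟨fun t => Real.sqrt (w a0 t), (w a0).continuous.sqrt⟩
  let i0 : E := ⟨fun t => 1 / (2 * Real.sqrt (w a0 t)),
    continuous_const.div (continuous_const.mul (w a0).continuous.sqrt)
      fun t => (mul_pos two_pos (hs0pos t)).ne'⟩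
  have hi1 : i0 * (s0 + s0) = 1 := by
    ext t
    have h1 : Real.sqrt (w a0 t) ≠ 0 := (hs0pos t).ne'
    change 1 / (2 * Real.sqrt (w a0 t)) * (Real.sqrt (w a0 t) + Real.sqrt (w a0 t)) = 1
    field_simp
    ring
  have hi2 : (s0 + s0) * i0 = 1 := by rw [mul_comm]; exact hi1
  let F : E → E := fun s => s * s
  have hF0 : F s0 = w a0 := by
    ext t
    exact Real.mul_self_sqrt (hpos t).le
  let D : E ≃L[ℝ] E := ContinuousLinearEquiv.equivOfInverse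
    (ContinuousLinearMap.mul ℝ E (s0 + s0)) (ContinuousLinearMap.mul ℝ E i0)
    (fun x => by
      simp only [ContinuousLinearMap.mul_apply']
      rw [← mul_assoc, hi1, one_mul])
    (fun x => by
      simp only [ContinuousLinearMap.mul_apply']
      rw [← mul_assoc, hi2, one_mul])
  have hFc : ContDiffAt ℝ ω F s0 := contDiffAt_id.mul contDiffAt_id
  have hFd : HasFDerivAt F (D : E →L[ℝ] E) s0 := by
    have h1 := (hasFDerivAt_id (𝕜 := ℝ) s0).mul (hasFDerivAt_id (𝕜 := ℝ) s0)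
    refine h1.congr_fderiv ?_
    ext1 x
    change s0 * x + s0 * x = (s0 + s0) * x
    ring
  have hn : (ω : WithTop ℕ∞) ≠ 0 := by simp
  have hst := hFc.hasStrictFDerivAt' hFd hn
  let G : E → E := hFc.localInverse hFd hn
  have hG : ContDiffAt ℝ ω G (F s0) := hFc.to_localInverse hFd hn
  have hG0 : G (F s0) = s0 := hFc.localInverse_apply_image hFd hn
  rw [hF0] at hG hG0
  have hright : ∀ᶠ y in 𝓝 (w a0), F (G y) = y := by
    have := hst.eventually_right_inverse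
    rw [hF0] at this
    exact this
  refine ⟨fun a => G (w a), hG.comp a0 hw, ?_⟩
  have hcw : Tendsto w (𝓝 a0) (𝓝 (w a0)) := hw.continuousAt
  have hcs : Tendsto (fun a => G (w a)) (𝓝 a0) (𝓝 s0) := by
    have := hG.continuousAt.tendsto.comp hcw
    rw [hG0] at this
    exact this
  have hopen : IsOpen {f : E | MapsTo f univ (Ioi 0)} :=
    ContinuousMap.isOpen_setOfPred_mapsTo isCompact_univ isOpen_Ioi
  have hmem : s0 ∈ {f : E | MapsTo f univ (Ioi 0)} := fun t _ => hs0pos t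
  filter_upwards [hcw.eventually hright, hcs.eventually (hopen.mem_nhds hmem)] with a h1 h2
  exact ⟨fun t => h2 (mem_univ t), h1⟩

end PerAux

open PerAux L.Per in
theorem exists_Theta {S0 : ℝ[X]} {n : ℕ} {a0 : ℝ} (h : Ok S0 n a0) (k : ℕ) :
    ∃ Θ : (Fin (n + 1) → ℝ) × ℝ → ℝ, ContDiffAt ℝ ω Θ (cf S0 n, a0) ∧
      ∀ᶠ p in 𝓝 ((cf S0 n, a0) : (Fin (n + 1) → ℝ) × ℝ), ∀ S : ℝ[X], cf S n = p.1 →
        Ok S n p.2 ∧ Ts S n k p.2 = Θ p := by
  obtain ⟨φ, hφ, hφ0, hφe⟩ := dep h.ha h.isW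
  set p0 : (Fin (n + 1) → ℝ) × ℝ := (cf S0 n, a0) with hp0
  let j : (Fin (n + 1) → ℝ) × ℝ → (Fin (n + 1) → ℝ) × ℝ × ℝ := fun p => (p.1, 0, p.2)
  have hj : ContDiff ℝ ω j := by
    show ContDiff ℝ ω (fun p : (Fin (n + 1) → ℝ) × ℝ => ((p.1, 0, p.2) :
      (Fin (n + 1) → ℝ) × ℝ × ℝ))
    fun_prop
  have hjt : Tendsto j (𝓝 p0) (𝓝 (cf S0 n, 0, a0)) := hj.continuous.tendsto p0
  let ψ : (Fin (n + 1) → ℝ) × ℝ → PerAux.E := fun p => φ (j p)
  have hψ : ContDiffAt ℝ ω ψ p0 := ContDiffAt.comp (g := φ) (f := j) p0 hφ hj.contDiffAt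
  have hc0 : ∀ᶠ p : (Fin (n + 1) → ℝ) × ℝ in 𝓝 p0, 0 < p.1 0 ∧ 0 < p.2 := by
    have h1 : Continuous (fun p : (Fin (n + 1) → ℝ) × ℝ => p.1 0) := by fun_prop
    have h2 : Continuous (fun p : (Fin (n + 1) → ℝ) × ℝ => p.2) := by fun_prop
    filter_upwards [h1.continuousAt.eventually (lt_mem_nhds (show 0 < p0.1 0 from h.c0)),
      h2.continuousAt.eventually (lt_mem_nhds (show 0 < p0.2 from h.ha))] with p hp1 hp2
    exact ⟨hp1, hp2⟩
  have hok : ∀ᶠ p : (Fin (n + 1) → ℝ) × ℝ in 𝓝 p0, ∀ S : ℝ[X], cf S n = p.1 →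
      Ok S n p.2 ∧ ∀ t : Icc (0 : ℝ) 1, ψ p t = vs S n p.2 (p.2 * t) := by
    filter_upwards [hjt.eventually hφe, hc0] with p hp1 hp2 S hS
    have hw := hp1.2 S hS
    have h1 : Ok S n p.2 := by
      refine ⟨h.hn, ?_, hp2.2, _, hw⟩
      have h3 := hp2.1
      rw [← hS] at h3
      exact h3
    refine ⟨h1, fun t => ?_⟩
    have h4 := h1.eq_of_isW le_rfl hw (u := p.2 * t)
      ⟨mul_nonneg hp2.2.le t.2.1, mul_le_of_le_one_right hp2.2.le t.2.2⟩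
    rw [← h4]
    show ψ p t = IccExtend zero_le_one (φ (p.1, 0, p.2)) ((p.2 * t - 0) / (p.2 - 0))
    rw [sub_zero, sub_zero, mul_div_cancel_left₀ _ hp2.2.ne', IccExtend_of_mem _ _ t.2]
  let ι : PerAux.E := ⟨fun t => (t : ℝ), continuous_subtype_val⟩
  obtain ⟨A, hA⟩ := exists_op (X := Icc (0 : ℝ) 1) (fun t r => (t : ℝ) + (1 - t) * r)
    (by unfold Function.uncurry; fun_prop) 1
  obtain ⟨L, hL⟩ := exists_op (X := Unit) (fun _ p => Real.cos p ^ 2)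
    (by unfold Function.uncurry; fun_prop) (2 * Real.pi)
  let Ql : (Fin (n + 1) → ℝ) × ℝ → PerAux.E := fun p => ∑ i : Fin (n + 1),
    p.1 i • ((p.2 • ι) ^ (n - (i : ℕ)) * (ψ p) ^ (i : ℕ))
  have hι : ContDiffAt ℝ ω (fun p : (Fin (n + 1) → ℝ) × ℝ => p.2 • ι) p0 :=
    contDiffAt_snd.smul contDiffAt_const
  have hQ : ContDiffAt ℝ ω Ql p0 := by
    refine ContDiffAt.sum fun i _ => ?_
    have h1 : ContDiff ℝ ω (fun p : (Fin (n + 1) → ℝ) × ℝ => p.1 i) := by fun_prop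
    exact h1.contDiffAt.smul ((hι.pow _).mul (hψ.pow _))
  have hw : ContDiffAt ℝ ω (fun b => A (Ql b)) p0 := A.contDiff.contDiffAt.comp p0 hQ
  have hAw : ∀ᶠ b : (Fin (n + 1) → ℝ) × ℝ in 𝓝 p0, ∀ S : ℝ[X], cf S n = b.1 →
      ∀ t : Icc (0 : ℝ) 1, A (Ql b) t = ws S n b.2 t := by
    filter_upwards [hok] with b hb S hS t
    obtain ⟨-, hb2⟩ := hb S hS
    rw [hA]
    unfold ws
    refine intervalIntegral.integral_congr fun r hr => ?_
    rw [uIcc_of_le zero_le_one] at hr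
    have hmem : (t : ℝ) + (1 - t) * r ∈ Icc (0 : ℝ) 1 := by
      have h0 := t.2.1
      have h1 := t.2.2
      constructor
      · exact add_nonneg h0 (mul_nonneg (by linarith) hr.1)
      · nlinarith [mul_le_mul_of_nonneg_left hr.2 (sub_nonneg.2 h1)]
    rw [IccExtend_of_mem _ _ hmem]
    have h3 := hb2 ⟨_, hmem⟩
    change (∑ i : Fin (n + 1), b.1 i • ((b.2 • ι) ^ (n - (i : ℕ)) * (ψ b) ^ (i : ℕ)) : PerAux.E)
      ⟨_, hmem⟩ = _
    rw [ContinuousMap.sum_apply]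
    unfold qf
    rw [Finset.sum_range]
    refine Finset.sum_congr rfl fun i _ => ?_
    rw [ContinuousMap.smul_apply, ContinuousMap.mul_apply, ContinuousMap.pow_apply,
      ContinuousMap.pow_apply, ContinuousMap.smul_apply, h3, smul_eq_mul, smul_eq_mul, mul_assoc,
      ← hS]
    rfl
  have hwpos : ∀ t : Icc (0 : ℝ) 1, 0 < A (Ql p0) t := by
    intro t
    rw [hAw.self_of_nhds S0 rfl t]
    exact ws_pos h t.2
  obtain ⟨s, hs, hse⟩ := PerAux.exists_sqrt hw hwpos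
  have hsW : ∀ᶠ b : (Fin (n + 1) → ℝ) × ℝ in 𝓝 p0, ∀ S : ℝ[X], cf S n = b.1 →
      ∀ t : Icc (0 : ℝ) 1, s b t = Real.sqrt (ws S n b.2 t) := by
    filter_upwards [hse, hAw] with b hb hb2 S hS t
    rw [← hb2 S hS t, ← hb.2, ContinuousMap.mul_apply, Real.sqrt_mul_self (hb.1 t).le]
  let g : (Fin (n + 1) → ℝ) × ℝ → PerAux.E := fun b => s b * (b.2 • ι + ψ b) ^ k
  have hg : ContDiffAt ℝ ω g p0 := hs.mul ((hι.add hψ).pow k)
  have hgpos0 : ∀ t : Icc (0 : ℝ) 1, 0 < g p0 t := by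
    intro t
    change 0 < s p0 t * (a0 * (t : ℝ) + ψ p0 t) ^ k
    refine mul_pos (hse.self_of_nhds.1 t) (pow_pos ?_ k)
    rw [(hok.self_of_nhds S0 rfl).2 t]
    show 0 < a0 * (t : ℝ) + vs S0 n a0 (a0 * t)
    rcases t.2.2.eq_or_lt with h1 | h1
    · rw [h1, mul_one, h.self, add_zero]
      exact h.ha
    · refine add_pos_of_nonneg_of_pos (mul_nonneg h.ha.le t.2.1) (h.pos ⟨?_, ?_⟩)
      · exact mul_nonneg h.ha.le t.2.1
      · nlinarith [h.ha]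
  have hopen : IsOpen {f : PerAux.E | MapsTo f univ (Ioi 0)} :=
    ContinuousMap.isOpen_setOfPred_mapsTo isCompact_univ isOpen_Ioi
  have hgpos : ∀ᶠ b in 𝓝 p0, ∀ t : Icc (0 : ℝ) 1, 0 < g b t := by
    have hmem : g p0 ∈ {f : PerAux.E | MapsTo f univ (Ioi 0)} := fun t _ => hgpos0 t
    filter_upwards [hg.continuousAt.eventually (hopen.mem_nhds hmem)] with b hb t
    exact hb (mem_univ t)
  have hinv : ContDiffAt ℝ ω (fun b => Ring.inverse (g b)) p0 := by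
    obtain ⟨u, hu⟩ := isUnit_of_pos hgpos0
    have h1 : ContDiffAt ℝ ω Ring.inverse (g p0) := by
      rw [← hu]
      exact contDiffAt_ringInverse ℝ u
    exact h1.comp p0 hg
  have hL1 : ContDiffAt ℝ ω (fun b => L (Ring.inverse (g b))) p0 :=
    L.contDiff.contDiffAt.comp p0 hinv
  let ev : C(Unit, ℝ) →L[ℝ] ℝ := ContinuousMap.evalCLM ℝ ()
  have hfin : ContDiffAt ℝ ω (fun b => ev (L (Ring.inverse (g b)))) p0 :=
    ev.contDiff.contDiffAt.comp p0 hL1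
  refine ⟨_, hfin, ?_⟩
  filter_upwards [hgpos, hsW, hok] with b hb1 hb2 hb3 S hS
  refine ⟨(hb3 S hS).1, ?_⟩
  change Ts S n k b.2 = L (Ring.inverse (g b)) ()
  rw [hL]
  unfold Ts
  refine intervalIntegral.integral_congr fun p _ => ?_
  have hmem : Real.cos p ^ 2 ∈ Icc (0 : ℝ) 1 := ⟨sq_nonneg _, Real.cos_sq_le_one p⟩
  rw [IccExtend_of_mem _ _ hmem, ringInverse_apply hb1]
  change _ = 1 / (s b ⟨_, hmem⟩ * (b.2 * (Real.cos p ^ 2) + ψ b ⟨_, hmem⟩) ^ k)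
  rw [hb2 S hS, (hb3 S hS).2]
  rfl

theorem analyticAt_Ts {S : ℝ[X]} {n : ℕ} {a : ℝ} (h : Ok S n a) (k : ℕ) :
    AnalyticAt ℝ (Ts S n k) a := by
  obtain ⟨Θ, h1, h2⟩ := exists_Theta h k
  have h3 : ContDiffAt ℝ ω (fun b : ℝ => Θ (cf S n, b)) a :=
    h1.comp a (contDiffAt_const.prodMk contDiffAt_id)
  refine (h3.congr_of_eventuallyEq ?_).analyticAt
  have h4 : Tendsto (fun b : ℝ => ((cf S n, b) : (Fin (n + 1) → ℝ) × ℝ)) (𝓝 a)
      (𝓝 (cf S n, a)) := by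
    apply Continuous.tendsto
    fun_prop
  filter_upwards [h4.eventually h2] with b hb
  exact (hb S rfl).2

/-- Continuity of the period in the coefficients of the family. -/
theorem Ts_fam {S : ℝ[X]} {d n : ℕ} {ε0 δ0 a : ℝ} (h : Ok (fam S d ε0 δ0) n a) (k : ℕ) {η : ℝ}
    (hη : 0 < η) : ∀ᶠ p in 𝓝 ((ε0, δ0) : ℝ × ℝ), Ok (fam S d p.1 p.2) n a ∧
      |Ts (fam S d p.1 p.2) n k a - Ts (fam S d ε0 δ0) n k a| < η := by
  obtain ⟨Θ, h1, h2⟩ := exists_Theta h k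
  have h4 : Tendsto (fun p : ℝ × ℝ => ((cf (fam S d p.1 p.2) n, a) : (Fin (n + 1) → ℝ) × ℝ))
      (𝓝 (ε0, δ0)) (𝓝 (cf (fam S d ε0 δ0) n, a)) := by
    have h5 : Continuous (fun p : ℝ × ℝ => ((cf (fam S d p.1 p.2) n, a) :
        (Fin (n + 1) → ℝ) × ℝ)) := (continuous_cf_fam S d n).prodMk continuous_const
    exact h5.tendsto (ε0, δ0)
  have h6 := (h1.continuousAt.tendsto.comp h4)
  have h7 := Metric.tendsto_nhds.1 h6 η hη
  have h8 : Ts (fam S d ε0 δ0) n k a = Θ (cf (fam S d ε0 δ0) n, a) :=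
    (h2.self_of_nhds (fam S d ε0 δ0) rfl).2
  filter_upwards [h4.eventually h2, h7] with p hp1 hp2
  refine ⟨(hp1 _ rfl).1, ?_⟩
  rw [(hp1 _ rfl).2, h8, ← Real.dist_eq]
  exact hp2

end Pool.Agent.CritPer.M
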