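import Pool.Agent.CritPer.M.Esc

/-!
The first step: `1 - K^(d-1) + δ K^d`.
-/

open Set Filter Topology Polynomial MeasureTheory

namespace Pool.Agent.CritPer.M

open Pool.Agent.CritPer.L

theorem fam_one {d n : ℕ} (hd : 2 ≤ d) (hdn : d ≤ n) : Fam 1 d n :=
  ⟨hd, hdn, by simpa using hd, by simp⟩

private theorem base_ineq (N : ℕ) {x : ℝ} (hx : 0 ≤ x) :
    (x - 1) ^ 2 ≤ 1 - ((N : ℝ) + 2) * x ^ (N + 1) + ((N : ℝ) + 1) * x ^ (N + 2) := by
  induction N with
  | zero =>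
    have e : 1 - (((0 : ℕ) : ℝ) + 2) * x ^ (0 + 1) + (((0 : ℕ) : ℝ) + 1) * x ^ (0 + 2) =
        (x - 1) ^ 2 := by
      push_cast
      ring
    exact e.ge
  | succ N ih =>
    have h1 : 0 ≤ (x - 1) * (x ^ (N + 2) - x) := by
      rcases le_total 1 x with h | h
      · have h2 : x ^ 1 ≤ x ^ (N + 2) := pow_le_pow_right₀ h (by omega)
        rw [pow_one] at h2
        exact mul_nonneg (by linarith) (by linarith)
      · have h2 : x ^ (N + 2) ≤ x ^ 1 := pow_le_pow_of_le_one hx h (by omega)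
        rw [pow_one] at h2
        exact mul_nonneg_of_nonpos_of_nonpos (by linarith) (by linarith)
    have h3 : 0 ≤ x * (1 - ((N : ℝ) + 2) * x ^ (N + 1) + ((N : ℝ) + 1) * x ^ (N + 2)) :=
      mul_nonneg hx ((sq_nonneg _).trans ih)
    have e : 1 - (((N + 1 : ℕ) : ℝ) + 2) * x ^ (N + 1 + 1) +
        (((N + 1 : ℕ) : ℝ) + 1) * x ^ (N + 1 + 2) =
        x * (1 - ((N : ℝ) + 2) * x ^ (N + 1) + ((N : ℝ) + 1) * x ^ (N + 2)) +
        (x - 1) * (x ^ (N + 2) - x) + (x - 1) ^ 2 := by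
      push_cast
      ring
    rw [e]
    linarith

private theorem base_kappa (N : ℕ) : ∃ κ : ℝ, 1 ≤ κ ∧ κ ^ (N + 1) = (N : ℝ) + 2 := by
  refine ⟨((N : ℝ) + 2) ^ ((((N + 1 : ℕ) : ℝ))⁻¹), ?_, ?_⟩
  · exact Real.one_le_rpow (by have : (0 : ℝ) ≤ N := Nat.cast_nonneg N
                               linarith) (by positivity)
  · exact Real.rpow_inv_natCast_pow (by positivity) (by omega)

private theorem base_eval (N : ℕ) (δ K : ℝ) :
    (fam 1 (N + 2) 1 δ).eval K = 1 - K ^ (N + 1) + δ * K ^ (N + 2) := by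
  rw [eval_fam]
  simp

/-- the critical member is bounded below -/
private theorem base_low (N : ℕ) {κ : ℝ} (hκ : 1 ≤ κ) (hκN : κ ^ (N + 1) = (N : ℝ) + 2) {K : ℝ}
    (hK : 0 ≤ K) :
    (K / κ - 1) ^ 2 ≤ 1 - K ^ (N + 1) + ((N : ℝ) + 1) / (((N : ℝ) + 2) * κ) * K ^ (N + 2) := by
  have hκ0 : 0 < κ := by linarith
  have hN : (0 : ℝ) < (N : ℝ) + 2 := by positivity
  have h := base_ineq N (x := K / κ) (by positivity)
  have e1 : K ^ (N + 1) = ((N : ℝ) + 2) * (K / κ) ^ (N + 1) := by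
    rw [div_pow, hκN]
    field_simp
  have e2 : ((N : ℝ) + 1) / (((N : ℝ) + 2) * κ) * K ^ (N + 2) =
      ((N : ℝ) + 1) * (K / κ) ^ (N + 2) := by
    have e3 : κ ^ (N + 2) = ((N : ℝ) + 2) * κ := by rw [pow_succ, hκN]
    rw [div_pow, e3]
    field_simp
  rw [e2, e1]
  exact h

private theorem base_quad {κ K : ℝ} (hκ : 1 ≤ κ) (hK : 0 ≤ K) :
    1 / (4 * κ ^ 2) * (1 + K) ^ 2 ≤ (K / κ - 1) ^ 2 + K := by
  have hκ0 : 0 < κ := by linarith
  have e : (K / κ - 1) ^ 2 + K = 1 / (4 * κ ^ 2) * (4 * ((K - κ) ^ 2 + K * κ ^ 2)) := by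
    field_simp
  rw [e]
  refine mul_le_mul_of_nonneg_left ?_ (by positivity)
  have h1 : 0 ≤ (κ - 1) ^ 2 * K := by positivity
  have h2 : 0 ≤ (κ - 1) * (κ + 1) := mul_nonneg (by linarith) (by linarith)
  nlinarith [sq_nonneg (K - 1)]

private theorem base_esc (N : ℕ) {n : ℕ} (hdn : N + 2 ≤ n) {κ : ℝ} (hκ : 1 ≤ κ)
    (hκN : κ ^ (N + 1) = (N : ℝ) + 2) :
    Esc (fam 1 (N + 2) 1 (((N : ℝ) + 1) / (((N : ℝ) + 2) * κ))) n := by
  have hF : Fam 1 (N + 2) n := fam_one (by omega) hdn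
  have hκ0 : 0 < κ := by linarith
  set δ : ℝ := ((N : ℝ) + 1) / (((N : ℝ) + 2) * κ) with hδ
  set c : ℝ := 1 / (4 * κ ^ 2) with hc
  have hc0 : 0 < c := by positivity
  have ha1 : 1 < Real.exp (1 / c) := Real.one_lt_exp_iff.2 (by positivity)
  refine ⟨1, Real.exp (1 / c), one_pos, ha1, ?_⟩
  rintro ⟨v, hv⟩
  set a : ℝ := Real.exp (1 / c) with ha
  have hS0 : 0 < (fam 1 (N + 2) 1 δ).coeff 0 := by
    rw [hF.coeff_zero]
    exact one_pos
  have hv0 : ∀ u ∈ Icc 1 a, 0 ≤ v u := fun u hu => hv.nonneg hS0 zero_le_one hu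
  have hmono : MonotoneOn (fun u => u / (u + v u) - c * Real.log u) (Icc 1 a) := by
    have hder : ∀ u ∈ Ioo 1 a, HasDerivAt (fun u => u / (u + v u) - c * Real.log u)
        ((1 * (u + v u) - u * (1 + -(qf (fam 1 (N + 2) 1 δ) n u (v u)))) / (u + v u) ^ 2 -
          c * u⁻¹) u := by
      intro u hu
      have hu0 : 0 < u := by linarith [hu.1]
      have h1 := hv0 u ⟨hu.1.le, hu.2.le⟩
      have h2 : HasDerivAt (fun u => u + v u) (1 + -(qf (fam 1 (N + 2) 1 δ) n u (v u))) u :=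
        (hasDerivAt_id u).add (hv.derAt hu)
      have h3 : HasDerivAt (fun u : ℝ => u / (u + v u))
          ((1 * (u + v u) - u * (1 + -(qf (fam 1 (N + 2) 1 δ) n u (v u)))) / (u + v u) ^ 2) u :=
        (hasDerivAt_id u).div h2 (by linarith : u + v u ≠ 0)
      exact h3.sub ((Real.hasDerivAt_log hu0.ne').const_mul c)
    refine monotoneOn_of_deriv_nonneg (convex_Icc 1 a) ?_ ?_ ?_
    · refine ContinuousOn.sub (ContinuousOn.div continuousOn_id (continuousOn_id.add hv.cont) ?_)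
        (ContinuousOn.mul continuousOn_const (Real.continuousOn_log.mono ?_))
      · intro u hu
        have := hv0 u hu
        have h1 := hu.1
        linarith
      · intro u hu
        have h1 := hu.1
        simp only [mem_compl_iff, mem_singleton_iff]
        linarith
    · rw [interior_Icc]
      intro u hu
      exact (hder u hu).differentiableAt.differentiableWithinAt
    · rw [interior_Icc]
      intro u hu
      have hu0 : 0 < u := by linarith [hu.1]
      have h1 := hv0 u ⟨hu.1.le, hu.2.le⟩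
      rw [(hder u hu).deriv]
      have hK : 0 ≤ v u / u := by positivity
      have h2 := base_low N hκ hκN hK
      have h3 := base_quad hκ hK
      have h4 : qf (fam 1 (N + 2) 1 δ) n u (v u) =
          u ^ n * (1 - (v u / u) ^ (N + 1) + δ * (v u / u) ^ (N + 2)) := by
        rw [qf_eq ((hF.natDegree 1 δ).trans hdn) hu0.ne', base_eval]
      set Sv : ℝ := 1 - (v u / u) ^ (N + 1) + δ * (v u / u) ^ (N + 2) with hSv
      have h5 : 0 ≤ Sv := (sq_nonneg _).trans h2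
      have h6 : (1 : ℝ) ≤ u ^ n := one_le_pow₀ hu.1.le
      have h7 : c * (1 + v u / u) ^ 2 ≤ u ^ n * Sv + v u / u := by
        have : Sv ≤ u ^ n * Sv := le_mul_of_one_le_left h5 h6
        linarith
      rw [h4]
      have h8 : (1 * (u + v u) - u * (1 + -(u ^ n * Sv))) / (u + v u) ^ 2 =
          (u ^ n * Sv + v u / u) / (u * (1 + v u / u) ^ 2) := by
        have : u + v u ≠ 0 := by linarith
        have h9 : u + v u = u * (1 + v u / u) := by field_simp
        have h10 : (1 + v u / u) ≠ 0 := by positivity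
        rw [h9]
        field_simp
        ring
      rw [h8]
      have h9 : 0 < (1 + v u / u) ^ 2 := by positivity
      have h10 : c * u⁻¹ ≤ (u ^ n * Sv + v u / u) / (u * (1 + v u / u) ^ 2) := by
        rw [le_div_iff₀ (by positivity)]
        calc c * u⁻¹ * (u * (1 + v u / u) ^ 2) = c * (1 + v u / u) ^ 2 := by
              field_simp
          _ ≤ _ := h7
      linarith
  have h1 := hmono (left_mem_Icc.2 ha1.le) (right_mem_Icc.2 ha1.le) ha1.le
  simp only [hv.zero, add_zero, Real.log_one, mul_zero, sub_zero] at h1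
  have ha0 : a ≠ 0 := by positivity
  rw [div_self ha0, ha, Real.log_exp] at h1
  have h2 : c * (1 / c) = 1 := by field_simp
  rw [h2, sub_self] at h1
  have h3 := hv0 1 (left_mem_Icc.2 ha1.le)
  have h4 : 0 < 1 / (1 + v 1) := by positivity
  linarith

private theorem base_root (N : ℕ) {κ : ℝ} (hκ : 1 ≤ κ)
    (hκN : κ ^ (N + 1) = (N : ℝ) + 2) {δ : ℝ} (hδ0 : 0 < δ)
    (hδ : δ < ((N : ℝ) + 1) / (((N : ℝ) + 2) * κ)) : Root (fam 1 (N + 2) 1 δ) := by
  have hκ0 : 0 < κ := by linarith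
  have hN : (0 : ℝ) < (N : ℝ) + 2 := by positivity
  have hN0 : (0 : ℝ) ≤ (N : ℝ) := Nat.cast_nonneg N
  have e3 : κ ^ (N + 2) = ((N : ℝ) + 2) * κ := by rw [pow_succ, hκN]
  refine ⟨κ, hκ0, ?_, ?_⟩
  · rw [base_eval, hκN, e3]
    rw [lt_div_iff₀ (by positivity)] at hδ
    linarith
  · intro K hK
    have hder : K * (fam 1 (N + 2) 1 δ).derivative.eval K =
        -(((N : ℝ) + 1) * K ^ (N + 1)) + δ * (((N : ℝ) + 2) * K ^ (N + 2)) := by
      have : (fam 1 (N + 2) 1 δ) = 1 - C 1 * X ^ (N + 1) + C δ * X ^ (N + 2) := rfl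
      rw [this]
      simp only [derivative_add, derivative_sub, derivative_one, derivative_C_mul,
        derivative_X_pow, eval_add, eval_sub, eval_mul, eval_C, eval_pow, eval_X, eval_zero]
      push_cast
      ring
    rw [hder, base_eval]
    rcases hK.1.eq_or_lt with h0 | h0
    · rw [← h0]
      simp
    · have h1 : δ * K ^ (N + 2) < ((N : ℝ) + 1) / (((N : ℝ) + 2) * κ) * K ^ (N + 2) :=
        mul_lt_mul_of_pos_right hδ (by positivity)
      have e1 : K ^ (N + 1) = ((N : ℝ) + 2) * (K / κ) ^ (N + 1) := by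
        rw [div_pow, hκN]
        field_simp
      have e2 : ((N : ℝ) + 1) / (((N : ℝ) + 2) * κ) * K ^ (N + 2) =
          ((N : ℝ) + 1) * (K / κ) ^ (N + 2) := by
        rw [div_pow, e3]
        field_simp
      rw [e2] at h1
      have hx0 : 0 ≤ K / κ := by positivity
      have hx1 : K / κ ≤ 1 := by
        rw [div_le_one hκ0]
        exact hK.2
      have h2 : (K / κ) ^ (N + 2) ≤ (K / κ) ^ (N + 1) := pow_le_pow_of_le_one hx0 hx1 (by omega)
      have h3 : (K / κ) ^ (N + 1) ≤ 1 := pow_le_one₀ hx0 hx1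
      have h4 : ((N : ℝ) + 1) * (δ * K ^ (N + 2)) <
          ((N : ℝ) + 1) * (((N : ℝ) + 1) * (K / κ) ^ (N + 2)) :=
        mul_lt_mul_of_pos_left h1 (by positivity)
      have h5 : ((N : ℝ) + 1) * (((N : ℝ) + 1) * (K / κ) ^ (N + 2)) ≤
          ((N : ℝ) + 1) * (((N : ℝ) + 1) * (K / κ) ^ (N + 1)) := by gcongr
      rw [e1]
      nlinarith

theorem esc_base {d n : ℕ} (hd : 2 ≤ d) (hdn : d ≤ n) :
    ∃ δ0 : ℝ, 0 < δ0 ∧ Esc (fam 1 d 1 δ0) n ∧ ∀ δ, 0 < δ → δ < δ0 → Root (fam 1 d 1 δ) := by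
  obtain ⟨N, rfl⟩ : ∃ N, d = N + 2 := ⟨d - 2, by omega⟩
  obtain ⟨κ, hκ, hκN⟩ := base_kappa N
  have hκ0 : 0 < κ := by linarith
  set δc : ℝ := ((N : ℝ) + 1) / (((N : ℝ) + 2) * κ) with hδc
  have hδc0 : 0 < δc := by positivity
  have hE := base_esc N hdn hκ hκN
  rw [← hδc] at hE
  have h1 := esc_eventually (fam_one hd hdn) hδc0 hE
  have h2 : Tendsto (fun x : ℝ => ((1, x) : ℝ × ℝ)) (𝓝 δc) (𝓝 (1, δc)) := by
    have : Continuous (fun x : ℝ => ((1, x) : ℝ × ℝ)) := by fun_prop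
    exact this.tendsto δc
  have h3 := h2.eventually h1
  obtain ⟨ε, hε, h4⟩ := Metric.eventually_nhds_iff.1 h3
  set δ0 : ℝ := max (δc / 2) (δc - ε / 2) with hδ0
  have h5 : δ0 < δc := max_lt (by linarith) (by linarith)
  refine ⟨δ0, lt_of_lt_of_le (by positivity) (le_max_left _ _), h4 ?_, fun δ hδ hlt => ?_⟩
  · rw [Real.dist_eq, abs_lt]
    constructor
    · have : δc - ε / 2 ≤ δ0 := le_max_right _ _
      linarith
    · linarith
  · exact base_root N hκ hκN hδ (hlt.trans h5)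

end Pool.Agent.CritPer.M
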