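import Pool.Agent.CritPer.M.Defs
import Pool.Agent.CritPer.L.Volt

/-!
Analytic dependence of the solution on the coefficients and on both end points.
-/

open Set Filter Topology Polynomial MeasureTheory
open scoped ContDiff

namespace Pool.Agent.CritPer.M

open Pool.Agent.CritPer.L

namespace DepAux

/-- The Banach space `C([0,1])`. -/
abbrev E := C(Icc (0 : ℝ) 1, ℝ)

/-- The space of parameters. -/
abbrev PP (n : ℕ) := (Fin (n + 1) → ℝ) × ℝ × ℝ

/-- The identity function in `C([0,1])`. -/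
def ii : E := ⟨fun t => (t : ℝ), continuous_subtype_val⟩

/-- `t ↦ c + (a - c) t`. -/
noncomputable def uu {n : ℕ} (p : PP n) : E := p.2.1 • (1 : E) + (p.2.2 - p.2.1) • ii

/-- `t ↦ q(c + (a-c) t, y(t))`. -/
noncomputable def GG {n : ℕ} (p : PP n) (y : E) : E :=
  ∑ i : Fin (n + 1), p.1 i • (uu p ^ (n - (i : ℕ)) * y ^ (i : ℕ))

theorem uu_apply {n : ℕ} (p : PP n) (t : Icc (0 : ℝ) 1) :
    uu p t = p.2.1 + (p.2.2 - p.2.1) * t := by
  simp [uu, ii]

theorem GG_apply {n : ℕ} (p : PP n) (y : E) (t : Icc (0 : ℝ) 1) {S : ℝ[X]} (hS : cf S n = p.1) :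
    GG p y t = qf S n (p.2.1 + (p.2.2 - p.2.1) * t) (y t) := by
  unfold GG qf
  rw [ContinuousMap.coe_sum, Finset.sum_apply, Finset.sum_range]
  refine Finset.sum_congr rfl fun i _ => ?_
  rw [← uu_apply, ← hS]
  simp only [ContinuousMap.coe_smul, ContinuousMap.coe_mul, ContinuousMap.coe_pow, Pi.smul_apply,
    Pi.mul_apply, Pi.pow_apply, smul_eq_mul, cf]
  ring

/-- The equation. -/
noncomputable def Phi {n : ℕ} (V : E →L[ℝ] E) (z : PP n × E) : E :=
  z.2 - (z.1.2.2 - z.1.2.1) • V (GG z.1 z.2)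

theorem contDiff_uu {n : ℕ} : ContDiff ℝ ω (fun p : PP n => uu p) := by
  unfold uu
  fun_prop

theorem contDiff_GG {n : ℕ} : ContDiff ℝ ω (fun z : PP n × E => GG z.1 z.2) := by
  unfold GG
  refine ContDiff.sum fun i _ => ?_
  have h1 : ContDiff ℝ ω (fun z : PP n × E => z.1.1 i) := by fun_prop
  have h2 : ContDiff ℝ ω (fun z : PP n × E => uu z.1) := contDiff_uu.comp contDiff_fst
  exact h1.smul ((h2.pow _).mul (contDiff_snd.pow _))

theorem contDiff_Phi {n : ℕ} (V : E →L[ℝ] E) : ContDiff ℝ ω (Phi (n := n) V) := by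
  unfold Phi
  have h1 : ContDiff ℝ ω (fun z : PP n × E => z.1.2.2 - z.1.2.1) := by fun_prop
  exact contDiff_snd.sub (h1.smul (V.contDiff.comp contDiff_GG))

theorem hasFDerivAt_GG {n : ℕ} (p : PP n) (y : E) :
    ∃ γ : E, HasFDerivAt (fun y => GG p y) (ContinuousLinearMap.mul ℝ _ γ) y := by
  unfold GG
  have h1 : ∀ i ∈ (Finset.univ : Finset (Fin (n + 1))), HasFDerivAt
      (fun y : E => p.1 i • (uu p ^ (n - (i : ℕ)) * y ^ (i : ℕ)))
      (ContinuousLinearMap.mul ℝ _ (p.1 i • (uu p ^ (n - (i : ℕ)) *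
        ((i : ℕ) • y ^ ((i : ℕ) - 1))))) y := by
    intro i _
    have h2 := (((hasFDerivAt_pow (𝕜 := ℝ) (i : ℕ) (x := y)).const_mul
      (uu p ^ (n - (i : ℕ)))).const_smul (p.1 i))
    refine h2.congr_fderiv ?_
    ext h t
    simp only [_root_.smul_apply, ContinuousLinearMap.id_apply, smul_eq_mul,
      ContinuousLinearMap.mul_apply', ContinuousMap.coe_smul, ContinuousMap.coe_mul, Pi.smul_apply,
      Pi.mul_apply]
    ring
  refine ⟨∑ i : Fin (n + 1), p.1 i • (uu p ^ (n - (i : ℕ)) * ((i : ℕ) • y ^ ((i : ℕ) - 1))),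
    (HasFDerivAt.fun_sum h1).congr_fderiv ?_⟩
  rw [map_sum]

/-- The partial derivative of the equation is a Volterra operator. -/
theorem isInvertible_Phi {n : ℕ} {V : E →L[ℝ] E}
    (hV : ∀ (f : E) (t : Icc (0 : ℝ) 1),
      V f t = ∫ s in (t : ℝ)..1, IccExtend zero_le_one f s) (z : PP n × E) :
    (fderiv ℝ (Phi V) z ∘L .inr ℝ (PP n) E).IsInvertible := by
  obtain ⟨γ, hγ⟩ := hasFDerivAt_GG z.1 z.2
  have h1 : HasFDerivAt (fun y => Phi V (z.1, y))
      (fderiv ℝ (Phi V) z ∘L .inr ℝ (PP n) E) z.2 := by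
    have h2 : HasFDerivAt (Phi V) (fderiv ℝ (Phi V) z) (z.1, z.2) :=
      ((contDiff_Phi V).differentiable (by simp)).differentiableAt.hasFDerivAt
    exact h2.comp z.2 (hasFDerivAt_prodMk_right z.1 z.2)
  have h3 : HasFDerivAt (fun y => Phi V (z.1, y))
      (ContinuousLinearMap.id ℝ _ - (z.1.2.2 - z.1.2.1) • V ∘L (ContinuousLinearMap.mul ℝ _ γ)) z.2 := by
    unfold Phi
    exact (hasFDerivAt_id _).sub (((V.hasFDerivAt).comp z.2 hγ).const_smul (z.1.2.2 - z.1.2.1))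
  rw [h1.unique h3]
  set r := z.1.2.2 - z.1.2.1 with hr
  have hb := volterra_bij hV (r • γ)
  set L : E →L[ℝ] E :=
    ContinuousLinearMap.id ℝ _ - r • V ∘L (ContinuousLinearMap.mul ℝ _ γ) with hL
  have hfun : ∀ h, L h = h - V ((r • γ) * h) := by
    intro h
    rw [hL]
    simp only [_root_.sub_apply, ContinuousLinearMap.id_apply,
      _root_.smul_apply, ContinuousLinearMap.comp_apply,
      ContinuousLinearMap.mul_apply', smul_mul_assoc, map_smul]
  have hb' : Function.Bijective L := by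
    have : (L : E → E) = fun h => h - V ((r • γ) * h) := funext hfun
    rw [this]
    exact hb
  refine ⟨ContinuousLinearEquiv.ofBijective L (LinearMap.ker_eq_bot.2 hb'.1)
    (LinearMap.range_eq_top.2 hb'.2), ?_⟩
  rw [ContinuousLinearEquiv.coe_ofBijective]

/-- A solution of the equation gives the solution of the differential equation. -/
theorem isW_of_Phi {n : ℕ} {V : E →L[ℝ] E}
    (hV : ∀ (f : E) (t : Icc (0 : ℝ) 1),
      V f t = ∫ s in (t : ℝ)..1, IccExtend zero_le_one f s) {p : PP n} (hp : p.2.1 < p.2.2)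
    {S : ℝ[X]} (hS : cf S n = p.1) {y : E} (hy : Phi V (p, y) = 0) :
    IsW S n p.2.1 p.2.2 (fun u => IccExtend zero_le_one y ((u - p.2.1) / (p.2.2 - p.2.1))) := by
  set c := p.2.1 with hc
  set a := p.2.2 with ha
  have hr : 0 < a - c := sub_pos.2 hp
  set g : ℝ → ℝ := IccExtend zero_le_one (GG p y) with hg
  have hgc : Continuous g := (GG p y).continuous.Icc_extend'
  have h1 : ∀ t : Icc (0 : ℝ) 1, y t = (a - c) * ∫ s in (t : ℝ)..1, g s := by
    intro t
    have h2 : y = (a - c) • V (GG p y) := sub_eq_zero.1 hy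
    have h3 := congrArg (fun f : E => f t) h2
    simp only [ContinuousMap.coe_smul, Pi.smul_apply, smul_eq_mul] at h3
    rw [h3, hV]
  have hmem : ∀ u ∈ Icc c a, (u - c) / (a - c) ∈ Icc (0 : ℝ) 1 := fun u hu =>
    ⟨div_nonneg (sub_nonneg.2 hu.1) hr.le, (div_le_one hr).2 (by linarith [hu.2])⟩
  have h4 : ∀ u ∈ Icc c a, IccExtend zero_le_one y ((u - c) / (a - c)) =
      (a - c) * ∫ s in ((u - c) / (a - c))..1, g s := by
    intro u hu
    rw [IccExtend_of_mem _ _ (hmem u hu), h1]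
  refine ⟨?_, fun u hu => ?_⟩
  · rw [h4 a ⟨hp.le, le_rfl⟩, div_self hr.ne', intervalIntegral.integral_same, mul_zero]
  · have hu' := hmem u hu
    have h5 : HasDerivAt (fun u => (a - c) * ∫ s in ((u - c) / (a - c))..1, g s)
        (-(g ((u - c) / (a - c)))) u := by
      have h6 : HasDerivAt (fun x => ∫ s in x..1, g s) (-(g ((u - c) / (a - c))))
          ((u - c) / (a - c)) :=
        intervalIntegral.integral_hasDerivAt_left (hgc.intervalIntegrable _ _)
          hgc.stronglyMeasurable.stronglyMeasurableAtFilter hgc.continuousAt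
      have h7 := (h6.comp u (((hasDerivAt_id u).sub_const c).div_const (a - c))).const_mul (a - c)
      refine h7.congr_deriv ?_
      field_simp
    have h8 : g ((u - c) / (a - c)) =
        qf S n u (IccExtend zero_le_one y ((u - c) / (a - c))) := by
      rw [hg, IccExtend_of_mem _ _ hu', IccExtend_of_mem _ _ hu', GG_apply p y _ hS]
      congr 1
      rw [← hc, ← ha]
      simp only
      field_simp
      ring
    rw [← h8]
    exact h5.hasDerivWithinAt.congr (fun x hx => h4 x hx) (h4 u hu)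

/-- The rescaled solution, as an element of `C([0,1])`. -/
theorem exists_y0 {S0 : ℝ[X]} {n : ℕ} {c0 a0 : ℝ} (hca : c0 < a0) {v0 : ℝ → ℝ}
    (hv : IsW S0 n c0 a0 v0) : ∃ y : E, ∀ t : Icc (0 : ℝ) 1, y t = v0 (c0 + (a0 - c0) * t) := by
  have hr : 0 < a0 - c0 := sub_pos.2 hca
  refine ⟨⟨fun t => v0 (c0 + (a0 - c0) * t), hv.cont.comp_continuous (by fun_prop) fun t => ?_⟩,
    fun t => rfl⟩
  constructor
  · nlinarith [mul_nonneg hr.le t.2.1]
  · nlinarith [mul_le_mul_of_nonneg_left t.2.2 hr.le]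

theorem Phi_y0 {V : E →L[ℝ] E}
    (hV : ∀ (f : E) (t : Icc (0 : ℝ) 1),
      V f t = ∫ s in (t : ℝ)..1, IccExtend zero_le_one f s) {S0 : ℝ[X]} {n : ℕ} {c0 a0 : ℝ}
    (hca : c0 < a0) {v0 : ℝ → ℝ} (hv : IsW S0 n c0 a0 v0) {y : E}
    (hy : ∀ t : Icc (0 : ℝ) 1, y t = v0 (c0 + (a0 - c0) * t)) :
    Phi V (((cf S0 n, c0, a0) : PP n), y) = 0 := by
  have hr : 0 < a0 - c0 := sub_pos.2 hca
  unfold Phi
  rw [sub_eq_zero]
  ext t
  simp only [ContinuousMap.coe_smul, Pi.smul_apply, smul_eq_mul, hV]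
  set g : ℝ → ℝ := IccExtend zero_le_one (GG ((cf S0 n, c0, a0) : PP n) y) with hg
  have hgc : Continuous g := (GG ((cf S0 n, c0, a0) : PP n) y).continuous.Icc_extend'
  have hmem : ∀ s ∈ Icc (t : ℝ) 1, c0 + (a0 - c0) * s ∈ Icc c0 a0 := fun s hs => by
    have h0 := t.2.1
    constructor
    · nlinarith [mul_nonneg hr.le (h0.trans hs.1)]
    · nlinarith [mul_le_mul_of_nonneg_left hs.2 hr.le]
  have h1 : ∫ s in (t : ℝ)..1, -((a0 - c0) * g s) =
      v0 (c0 + (a0 - c0) * 1) - v0 (c0 + (a0 - c0) * t) := by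
    apply intervalIntegral.integral_eq_sub_of_hasDerivAt_of_le
      (f := fun s => v0 (c0 + (a0 - c0) * s)) t.2.2
    · exact hv.cont.comp (by fun_prop) hmem
    · intro s hs
      have hs' : s ∈ Icc (0 : ℝ) 1 := ⟨t.2.1.trans hs.1.le, hs.2.le⟩
      have hs0 : 0 < s := lt_of_le_of_lt t.2.1 hs.1
      have h2 : HasDerivAt v0 (-(qf S0 n (c0 + (a0 - c0) * s) (v0 (c0 + (a0 - c0) * s))))
          (c0 + (a0 - c0) * s) := by
        apply hv.derAt
        constructor
        · nlinarith [mul_pos hr hs0]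
        · nlinarith [mul_lt_mul_of_pos_left hs.2 hr]
      have h3 := h2.comp s (((hasDerivAt_id s).const_mul (a0 - c0)).const_add c0)
      refine h3.congr_deriv ?_
      rw [hg, IccExtend_of_mem _ _ hs', GG_apply (S := S0) _ _ _ rfl]
      simp only [hy]
      ring
    · exact ((continuous_const.mul hgc).neg).intervalIntegrable _ _
  rw [mul_one, show c0 + (a0 - c0) = a0 by ring, hv.zero, intervalIntegral.integral_neg,
    intervalIntegral.integral_const_mul] at h1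
  rw [hy t]
  linarith

end DepAux

open DepAux

theorem dep {S0 : ℝ[X]} {n : ℕ} {c0 a0 : ℝ} (hca : c0 < a0) {v0 : ℝ → ℝ}
    (hv : IsW S0 n c0 a0 v0) :
    ∃ ψ : (Fin (n + 1) → ℝ) × ℝ × ℝ → C(Icc (0 : ℝ) 1, ℝ),
      ContDiffAt ℝ ω ψ (cf S0 n, c0, a0) ∧
      (∀ t : Icc (0 : ℝ) 1, ψ (cf S0 n, c0, a0) t = v0 (c0 + (a0 - c0) * t)) ∧
      ∀ᶠ p in 𝓝 ((cf S0 n, c0, a0) : (Fin (n + 1) → ℝ) × ℝ × ℝ), p.2.1 < p.2.2 ∧
        ∀ S : ℝ[X], cf S n = p.1 → IsW S n p.2.1 p.2.2
          (fun u => IccExtend zero_le_one (ψ p) ((u - p.2.1) / (p.2.2 - p.2.1))) := by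
  obtain ⟨V, hV⟩ := exists_Vop
  obtain ⟨y, hy⟩ := exists_y0 hca hv
  set p0 : PP n := (cf S0 n, c0, a0) with hp0
  have hΦ0 : Phi V (p0, y) = 0 := Phi_y0 hV hca hv hy
  have cdf : ContDiffAt ℝ ω (Phi V) (p0, y) := (contDiff_Phi V).contDiffAt
  have hinv := isInvertible_Phi hV (p0, y)
  refine ⟨cdf.implicitFunction (by simp) hinv, cdf.contDiffAt_implicitFunction (by simp) hinv,
    fun t => ?_, ?_⟩
  · rw [cdf.implicitFunction_apply_self (by simp) hinv]
    exact hy t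
  have hlt : ∀ᶠ p in 𝓝 p0, p.2.1 < p.2.2 := by
    have h1 : Continuous (fun p : PP n => p.2.2 - p.2.1) := by fun_prop
    filter_upwards [h1.continuousAt.eventually (lt_mem_nhds (show 0 < p0.2.2 - p0.2.1 from
      sub_pos.2 hca))] with p hp
    linarith
  filter_upwards [cdf.eventually_apply_implicitFunction (by simp) hinv, hlt] with p h1 h2
  rw [hΦ0] at h1
  exact ⟨h2, fun S hS => isW_of_Phi hV h2 hS h1⟩

/-- The solution exists for nearby data and its value at the left end point is close. -/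
theorem dep_left {S0 : ℝ[X]} {n : ℕ} {c0 a0 : ℝ} (hca : c0 < a0) {v0 : ℝ → ℝ}
    (hv : IsW S0 n c0 a0 v0) {η : ℝ} (hη : 0 < η) :
    ∀ᶠ p in 𝓝 ((cf S0 n, c0, a0) : (Fin (n + 1) → ℝ) × ℝ × ℝ), p.2.1 < p.2.2 ∧
      ∀ S : ℝ[X], cf S n = p.1 → ∃ v, IsW S n p.2.1 p.2.2 v ∧ |v p.2.1 - v0 c0| < η := by
  obtain ⟨ψ, hψ, hψ0, hev⟩ := dep hca hv
  set z : Icc (0 : ℝ) 1 := ⟨0, le_rfl, zero_le_one⟩ with hz
  have h1 : ContinuousAt (fun p => ψ p z) (cf S0 n, c0, a0) :=
    (continuous_eval_const z).continuousAt.comp hψ.continuousAt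
  have h2 : ψ (cf S0 n, c0, a0) z = v0 c0 := by
    rw [hψ0]
    simp [hz]
  have h3 := Metric.tendsto_nhds.1 h1.tendsto η hη
  filter_upwards [hev, h3] with p hp1 hp2
  refine ⟨hp1.1, fun S hS => ⟨_, hp1.2 S hS, ?_⟩⟩
  simp only [sub_self, zero_div]
  rw [IccExtend_of_mem _ _ ⟨le_rfl, zero_le_one⟩]
  rw [h2, Real.dist_eq] at hp2
  exact hp2

theorem continuous_cf_fam (S : ℝ[X]) (d n : ℕ) :
    Continuous (fun p : ℝ × ℝ => cf (fam S d p.1 p.2) n) := by
  refine continuous_pi fun i => ?_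
  simp only [cf, coeff_fam]
  refine (continuous_const.sub ?_).add ?_
  · split_ifs
    · exact continuous_fst
    · exact continuous_const
  · split_ifs
    · exact continuous_snd
    · exact continuous_const

end Pool.Agent.CritPer.M
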