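import Pool.Agent.CritPer.M.Clamp
import Pool.Agent.CritPer.M.Dep

/-!
The solutions `vs S n a` for closed orbits.
-/

open Set Filter Topology Polynomial MeasureTheory

namespace Pool.Agent.CritPer.M

open Pool.Agent.CritPer.L

variable {S : ℝ[X]} {n : ℕ} {a b : ℝ}

theorem Ok.isV (h : Ok S n a) : IsV S n a (vs S n a) := by
  obtain ⟨v, hv⟩ := h.ex
  have hex : ∃ v, IsV S n a v := ⟨v, isW_zero_iff.1 hv⟩
  unfold vs
  rw [dif_pos hex]
  exact Classical.choose_spec hex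

theorem Ok.isW (h : Ok S n a) : IsW S n 0 a (vs S n a) := isW_zero_iff.2 h.isV

theorem Ok.self (h : Ok S n a) : vs S n a a = 0 := h.isV.zero

theorem Ok.deriv (h : Ok S n a) {u : ℝ} (hu : u ∈ Icc 0 a) :
    HasDerivWithinAt (vs S n a) (-(qf S n u (vs S n a u))) (Icc 0 a) u := h.isV.der u hu

theorem Ok.contOn (h : Ok S n a) : ContinuousOn (vs S n a) (Icc 0 a) := h.isW.cont

theorem Ok.pos (h : Ok S n a) {u : ℝ} (hu : u ∈ Ico 0 a) : 0 < vs S n a u :=
  h.isW.pos h.c0 le_rfl u hu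

theorem Ok.nonneg (h : Ok S n a) {u : ℝ} (hu : u ∈ Icc 0 a) : 0 ≤ vs S n a u :=
  h.isW.nonneg h.c0 le_rfl hu

theorem Ok.vv_eq (h : Ok S n a) {u : ℝ} (hu : u ∈ Icc 0 a) : vv S n a u = vs S n a u :=
  M.vv_eq h.isW hu

/-- Any solution on `[c,a]` is the restriction of `vs S n a`. -/
theorem Ok.eq_of_isW (h : Ok S n a) {c : ℝ} (hc : 0 ≤ c) {v : ℝ → ℝ} (hv : IsW S n c a v) {u : ℝ}
    (hu : u ∈ Icc c a) : v u = vs S n a u := by
  rw [← M.vv_eq hv hu, h.vv_eq ⟨hc.trans hu.1, hu.2⟩]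

theorem Ok.mono (h : Ok S n b) (ha : 0 < a) (hab : a ≤ b) : Ok S n a :=
  ⟨h.hn, h.c0, ha, (Ex.comparison h.c0 h.c0 le_rfl ha hab (fun _ _ _ _ => le_rfl) h.ex).1⟩

/-- The orbits are strictly nested. -/
theorem Ok.lt (ha : Ok S n a) (hb : Ok S n b) (hab : a < b) :
    ∀ u ∈ Icc 0 a, vs S n a u < vs S n b u := by
  have hsub : Icc 0 a ⊆ Icc 0 b := Icc_subset_Icc_right hab.le
  have ha' : a ∈ Icc 0 a := right_mem_Icc.2 ha.ha.le
  intro u hu
  by_contra hcon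
  rw [not_lt] at hcon
  have hpos : 0 < vs S n b a := hb.pos ⟨ha.ha.le, hab⟩
  have hc1 : ContinuousOn (fun u => vs S n b u - vs S n a u) (Icc u a) :=
    (hb.contOn.mono ((Icc_subset_Icc_left hu.1).trans hsub)).sub
      (ha.contOn.mono (Icc_subset_Icc_left hu.1))
  have hiv := intermediate_value_Icc hu.2 hc1
  have h0 : (0 : ℝ) ∈ Icc (vs S n b u - vs S n a u) (vs S n b a - vs S n a a) := by
    rw [ha.self]
    constructor <;> linarith
  obtain ⟨c, hc, hc0⟩ := hiv h0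
  have hc' : c ∈ Icc 0 a := ⟨hu.1.trans hc.1, hc.2⟩
  have := sol_unique S n (c := 0) (d := a) (v := vs S n b) (w := vs S n a)
    (fun x hx => (hb.deriv (hsub hx)).mono hsub) (fun x hx => ha.deriv hx) hc'
    (by simp only at hc0; linarith) a ha'
  rw [ha.self] at this
  linarith

/-- Closed orbits persist. -/
theorem Ok.eventually (h : Ok S n a) : ∀ᶠ b in 𝓝 a, Ok S n b := by
  have h1 := dep_left h.ha h.isW one_pos
  have h2 : Tendsto (fun b : ℝ => ((cf S n, 0, b) : (Fin (n + 1) → ℝ) × ℝ × ℝ)) (𝓝 a)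
      (𝓝 (cf S n, 0, a)) := by
    apply Continuous.tendsto
    fun_prop
  filter_upwards [h2.eventually h1, eventually_gt_nhds h.ha] with b hb hb0
  obtain ⟨v, hv, -⟩ := hb.2 S rfl
  exact ⟨h.hn, h.c0, hb0, v, hv⟩

/-- Existence on `[c,a]` persists. -/
theorem Ex.eventually {c : ℝ} (hca : c < a) (h : Ex S n c a) :
    ∀ᶠ b in 𝓝 a, c < b ∧ Ex S n c b := by
  obtain ⟨v, hv⟩ := h
  have h1 := dep_left hca hv one_pos
  have h2 : Tendsto (fun b : ℝ => ((cf S n, c, b) : (Fin (n + 1) → ℝ) × ℝ × ℝ)) (𝓝 a)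
      (𝓝 (cf S n, c, a)) := by
    apply Continuous.tendsto
    fun_prop
  filter_upwards [h2.eventually h1] with b hb
  obtain ⟨v, hv, -⟩ := hb.2 S rfl
  exact ⟨hb.1, v, hv⟩

/-- The value at `c` depends continuously on the end point. -/
theorem vv_continuousAt {c : ℝ} (hca : c < a) (h : Ex S n c a) :
    ContinuousAt (fun b => vv S n b c) a := by
  obtain ⟨v, hv⟩ := h
  have h2 : Tendsto (fun b : ℝ => ((cf S n, c, b) : (Fin (n + 1) → ℝ) × ℝ × ℝ)) (𝓝 a)
      (𝓝 (cf S n, c, a)) := by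
    apply Continuous.tendsto
    fun_prop
  rw [Metric.continuousAt_iff']
  intro η hη
  filter_upwards [h2.eventually (dep_left hca hv hη)] with b hb
  obtain ⟨w, hw, hw2⟩ := hb.2 S rfl
  rw [M.vv_eq hw (left_mem_Icc.2 hb.1.le), M.vv_eq hv (left_mem_Icc.2 hca.le), Real.dist_eq]
  exact hw2

/-- Continuity in `a` at fixed `u`, up to `a = u`. -/
theorem vs_continuousOn_left {u : ℝ} (hu : 0 ≤ u) :
    ContinuousOn (fun a => vs S n a u) {a | u ≤ a ∧ Ok S n a} := by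
  rintro a0 ⟨hua0, h⟩
  obtain ⟨ψ, hψ, -, hev⟩ := dep h.ha h.isW
  have ht : Tendsto (fun b : ℝ => ((cf S n, 0, b) : (Fin (n + 1) → ℝ) × ℝ × ℝ)) (𝓝 a0)
      (𝓝 (cf S n, 0, a0)) := by
    apply Continuous.tendsto
    fun_prop
  have hev' := ht.eventually hev
  have hψ' : ContinuousAt (fun a => ψ (cf S n, 0, a)) a0 :=
    ContinuousAt.comp (f := fun b : ℝ => ((cf S n, 0, b) : (Fin (n + 1) → ℝ) × ℝ × ℝ))
      (g := ψ) hψ.continuousAt ht
  have h1 : ContinuousAt (fun a => ψ (cf S n, 0, a) (projIcc (0 : ℝ) 1 zero_le_one (u / a))) a0 := by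
    have h2 : ContinuousAt (fun a => (ψ (cf S n, 0, a), projIcc (0 : ℝ) 1 zero_le_one (u / a))) a0 := by
      refine hψ'.prodMk ?_
      exact continuous_projIcc.continuousAt.comp (continuousAt_const.div continuousAt_id h.ha.ne')
    exact ContinuousAt.comp
      (f := fun a => (ψ (cf S n, 0, a), projIcc (0 : ℝ) 1 zero_le_one (u / a)))
      (g := fun p : C(Icc (0 : ℝ) 1, ℝ) × Icc (0 : ℝ) 1 => p.1 p.2) continuous_eval.continuousAt h2
  have key : ∀ a, u ≤ a → Ok S n a → (0 < a ∧ ∀ S' : ℝ[X], cf S' n = cf S n → IsW S' n 0 a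
      (fun u => IccExtend zero_le_one (ψ (cf S n, 0, a)) ((u - 0) / (a - 0)))) →
      vs S n a u = ψ (cf S n, 0, a) (projIcc (0 : ℝ) 1 zero_le_one (u / a)) := by
    intro a hua hok hw
    have h2 := hok.eq_of_isW le_rfl (hw.2 S rfl) (u := u) ⟨hu, hua⟩
    rw [← h2]
    simp only [sub_zero]
    rfl
  refine (h1.continuousWithinAt (s := {a | u ≤ a ∧ Ok S n a})).congr_of_eventuallyEq ?_ ?_
  · filter_upwards [mem_nhdsWithin_of_mem_nhds hev', self_mem_nhdsWithin] with a h3 h4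
    exact key a h4.1 h4.2 h3
  · exact key a0 hua0 h hev'.self_of_nhds

end Pool.Agent.CritPer.M
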