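import Pool.Agent.CritPer.M.Clamp

/-!
Large solutions: `ζ = v^(-(d-1))` satisfies `ζ' = (d-1) u^(n-d) Φ(u/v)`.
-/

open Set Filter Topology Polynomial MeasureTheory

namespace Pool.Agent.CritPer.M

open Pool.Agent.CritPer.L

/-- On `[0,y0]` the reversed polynomial lies between `m > 0` and `M`. -/
structure PhB (S : ℝ[X]) (d : ℕ) (y0 m M : ℝ) : Prop where
  hy : 0 < y0
  hm : 0 < m
  lo : ∀ y ∈ Icc 0 y0, m ≤ Ph S d y
  hi : ∀ y ∈ Icc 0 y0, Ph S d y ≤ M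

variable {S : ℝ[X]} {d n : ℕ} {y0 m M : ℝ}

/-- A solution which is large stays large (to the left). -/
theorem stay (hd : S.natDegree ≤ d) (hdn : d ≤ n) (hP : PhB S d y0 m M) {c a : ℝ} (hc : 0 ≤ c)
    {v : ℝ → ℝ} (hv : IsW S n c a v) {u1 : ℝ} (hu1 : u1 ∈ Icc c a) (hpos : 0 < v u1)
    (h1 : u1 ≤ y0 * v u1) : ∀ u ∈ Icc c u1, v u1 ≤ v u := by
  refine ge_of_barrier (S := S) (n := n) (m := fun _ => v u1) (m' := fun _ => 0)
    (hv.cont.mono (Icc_subset_Icc_right hu1.2)) continuousOn_const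
    (fun u hu => hv.derAt ⟨hu.1, hu.2.trans_le hu1.2⟩) (fun u _ => hasDerivAt_const u _) le_rfl ?_
  intro u hu
  have hu0 : 0 ≤ u := hc.trans hu.1.le
  rw [qf_Ph hd hdn hpos.ne']
  have h2 : u / v u1 ∈ Icc 0 y0 := ⟨div_nonneg hu0 hpos.le, by
    rw [div_le_iff₀ hpos]
    exact hu.2.le.trans h1⟩
  have h3 : 0 ≤ Ph S d (u / v u1) := hP.hm.le.trans (hP.lo _ h2)
  have : 0 ≤ u ^ (n - d) * v u1 ^ d * Ph S d (u / v u1) := by positivity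
  linarith

/-- the quotients stay in `[0,y0]` -/
theorem stay_mem (hd : S.natDegree ≤ d) (hdn : d ≤ n) (hP : PhB S d y0 m M) {c a : ℝ} (hc : 0 ≤ c)
    {v : ℝ → ℝ} (hv : IsW S n c a v) {u1 : ℝ} (hu1 : u1 ∈ Icc c a) (hpos : 0 < v u1)
    (h1 : u1 ≤ y0 * v u1) : ∀ u ∈ Icc c u1, 0 < v u ∧ u / v u ∈ Icc 0 y0 := by
  intro u hu
  have h2 := stay hd hdn hP hc hv hu1 hpos h1 u hu
  have h3 : 0 < v u := hpos.trans_le h2
  have hu0 : 0 ≤ u := hc.trans hu.1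
  refine ⟨h3, div_nonneg hu0 h3.le, ?_⟩
  rw [div_le_iff₀ h3]
  exact (hu.2.trans h1).trans (mul_le_mul_of_nonneg_left h2 hP.hy.le)

/-- the derivative of `ζ` -/
theorem zeta_der (hd2 : 2 ≤ d) (hd : S.natDegree ≤ d) (hdn : d ≤ n) {c a : ℝ} {v : ℝ → ℝ}
    (hv : IsW S n c a v) {u : ℝ} (hu : u ∈ Ioo c a) (hpos : 0 < v u) :
    HasDerivAt (fun u => 1 / v u ^ (d - 1)) (((d : ℝ) - 1) * u ^ (n - d) * Ph S d (u / v u)) u := by
  obtain ⟨e, rfl⟩ : ∃ e, d = e + 2 := ⟨d - 2, by omega⟩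
  have h1 := hv.derAt hu
  rw [qf_Ph hd hdn hpos.ne'] at h1
  have h2 : HasDerivAt (fun u => v u ^ (e + 1)) _ u := h1.pow (e + 1)
  have h3 := h2.fun_inv (pow_ne_zero _ hpos.ne')
  have h4 : (fun u => 1 / v u ^ (e + 2 - 1)) = fun u => (v u ^ (e + 1))⁻¹ := by
    funext u
    rw [one_div]
    rfl
  rw [h4]
  refine h3.congr_deriv ?_
  have h5 : v u ≠ 0 := hpos.ne'
  push_cast
  field_simp
  ring

/-- `ζ` is continuous -/
theorem zeta_cont {c a : ℝ} {v : ℝ → ℝ} (hv : IsW S n c a v) {u1 : ℝ} (hu1 : u1 ∈ Icc c a)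
    (h : ∀ u ∈ Icc c u1, 0 < v u) (k : ℕ) : ContinuousOn (fun u => 1 / v u ^ k) (Icc c u1) :=
  continuousOn_const.div ((hv.cont.mono (Icc_subset_Icc_right hu1.2)).pow k)
    (fun u hu => pow_ne_zero _ (h u hu).ne')

theorem pow_der (hdn : d ≤ n) (K u : ℝ) :
    HasDerivAt (fun u : ℝ => ((d : ℝ) - 1) * K / ((n : ℝ) - d + 1) * u ^ (n - d + 1))
      (((d : ℝ) - 1) * u ^ (n - d) * K) u := by
  have h1 : ((n : ℝ) - d + 1) = ((n - d + 1 : ℕ) : ℝ) := by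
    push_cast [Nat.cast_sub hdn]
    ring
  have h2 : ((n - d + 1 : ℕ) : ℝ) ≠ 0 := by positivity
  have h3 := (hasDerivAt_pow (n - d + 1) u).const_mul (((d : ℝ) - 1) * K / ((n : ℝ) - d + 1))
  refine h3.congr_deriv ?_
  rw [h1, Nat.add_sub_cancel]
  field_simp

/-- Growth of `ζ`, lower bound. -/
theorem zeta_lo (hd2 : 2 ≤ d) (hd : S.natDegree ≤ d) (hdn : d ≤ n) (hP : PhB S d y0 m M)
    {c a : ℝ} (hc : 0 ≤ c) {v : ℝ → ℝ} (hv : IsW S n c a v) {u1 : ℝ} (hu1 : u1 ∈ Icc c a)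
    (hpos : 0 < v u1) (h1 : u1 ≤ y0 * v u1) :
    ((d : ℝ) - 1) * m / ((n : ℝ) - d + 1) * (u1 ^ (n - d + 1) - c ^ (n - d + 1)) ≤
      1 / v u1 ^ (d - 1) - 1 / v c ^ (d - 1) := by
  have h2 := stay_mem hd hdn hP hc hv hu1 hpos h1
  have h3 : MonotoneOn (fun u => 1 / v u ^ (d - 1) - ((d : ℝ) - 1) * m / ((n : ℝ) - d + 1) * u ^ (n - d + 1))
      (Icc c u1) := by
    refine monotoneOn_of_deriv_nonneg (convex_Icc c u1)
      ((zeta_cont hv hu1 (fun u hu => (h2 u hu).1) _).sub (by fun_prop)) ?_ ?_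
    · rw [interior_Icc]
      intro u hu
      exact ((zeta_der hd2 hd hdn hv ⟨hu.1, hu.2.trans_le hu1.2⟩ (h2 u ⟨hu.1.le, hu.2.le⟩).1).fun_sub
        (pow_der hdn m u)).differentiableAt.differentiableWithinAt
    · rw [interior_Icc]
      intro u hu
      rw [((zeta_der hd2 hd hdn hv ⟨hu.1, hu.2.trans_le hu1.2⟩ (h2 u ⟨hu.1.le, hu.2.le⟩).1).fun_sub
        (pow_der hdn m u)).deriv]
      have h4 := hP.lo _ (h2 u ⟨hu.1.le, hu.2.le⟩).2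
      have h5 : 0 ≤ ((d : ℝ) - 1) * u ^ (n - d) := by
        have : (2 : ℝ) ≤ d := by exact_mod_cast hd2
        have hu0 : 0 ≤ u := hc.trans hu.1.le
        have := pow_nonneg hu0 (n - d)
        nlinarith
      nlinarith
  have h6 := h3 ⟨le_rfl, hu1.1⟩ ⟨hu1.1, le_rfl⟩ hu1.1
  simp only at h6
  rw [mul_sub]
  linarith

/-- Growth of `ζ`, upper bound. -/
theorem zeta_hi (hd2 : 2 ≤ d) (hd : S.natDegree ≤ d) (hdn : d ≤ n) (hP : PhB S d y0 m M)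
    {c a : ℝ} (hc : 0 ≤ c) {v : ℝ → ℝ} (hv : IsW S n c a v) {u1 : ℝ} (hu1 : u1 ∈ Icc c a)
    (hpos : 0 < v u1) (h1 : u1 ≤ y0 * v u1) :
    1 / v u1 ^ (d - 1) - 1 / v c ^ (d - 1) ≤
      ((d : ℝ) - 1) * M / ((n : ℝ) - d + 1) * (u1 ^ (n - d + 1) - c ^ (n - d + 1)) := by
  have h2 := stay_mem hd hdn hP hc hv hu1 hpos h1
  have h3 : AntitoneOn (fun u => 1 / v u ^ (d - 1) - ((d : ℝ) - 1) * M / ((n : ℝ) - d + 1) * u ^ (n - d + 1))
      (Icc c u1) := by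
    refine antitoneOn_of_deriv_nonpos (convex_Icc c u1)
      ((zeta_cont hv hu1 (fun u hu => (h2 u hu).1) _).sub (by fun_prop)) ?_ ?_
    · rw [interior_Icc]
      intro u hu
      exact ((zeta_der hd2 hd hdn hv ⟨hu.1, hu.2.trans_le hu1.2⟩ (h2 u ⟨hu.1.le, hu.2.le⟩).1).fun_sub
        (pow_der hdn M u)).differentiableAt.differentiableWithinAt
    · rw [interior_Icc]
      intro u hu
      rw [((zeta_der hd2 hd hdn hv ⟨hu.1, hu.2.trans_le hu1.2⟩ (h2 u ⟨hu.1.le, hu.2.le⟩).1).fun_sub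
        (pow_der hdn M u)).deriv]
      have h4 := hP.hi _ (h2 u ⟨hu.1.le, hu.2.le⟩).2
      have h5 : 0 ≤ ((d : ℝ) - 1) * u ^ (n - d) := by
        have : (2 : ℝ) ≤ d := by exact_mod_cast hd2
        have hu0 : 0 ≤ u := hc.trans hu.1.le
        have := pow_nonneg hu0 (n - d)
        nlinarith
      nlinarith
  have h6 := h3 ⟨le_rfl, hu1.1⟩ ⟨hu1.1, le_rfl⟩ hu1.1
  simp only at h6
  rw [mul_sub]
  linarith

/-- If `Φ` is nonincreasing, `ζ_a - ζ_b` is nonincreasing in `u` for two solutions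
`v_a ≤ v_b`. -/
theorem zeta_anti (hd2 : 2 ≤ d) (hd : S.natDegree ≤ d) (hdn : d ≤ n) (hP : PhB S d y0 m M)
    (hanti : AntitoneOn (Ph S d) (Icc 0 y0)) {c a b : ℝ} (hc : 0 ≤ c) {va vb : ℝ → ℝ}
    (hva : IsW S n c a va) (hvb : IsW S n c b vb) {u1 : ℝ} (hu1 : u1 ∈ Icc c a)
    (hu1b : u1 ∈ Icc c b) (hle : ∀ u ∈ Icc c u1, va u ≤ vb u) (hpos : 0 < va u1)
    (h1 : u1 ≤ y0 * va u1) :
    1 / va u1 ^ (d - 1) - 1 / vb u1 ^ (d - 1) ≤ 1 / va c ^ (d - 1) - 1 / vb c ^ (d - 1) := by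
  have h2 := stay_mem hd hdn hP hc hva hu1 hpos h1
  have hb1 : 0 < vb u1 := hpos.trans_le (hle u1 ⟨hu1.1, le_rfl⟩)
  have h2b := stay_mem hd hdn hP hc hvb hu1b hb1
    (h1.trans (mul_le_mul_of_nonneg_left (hle u1 ⟨hu1.1, le_rfl⟩) hP.hy.le))
  have h3 : AntitoneOn (fun u => 1 / va u ^ (d - 1) - 1 / vb u ^ (d - 1)) (Icc c u1) := by
    refine antitoneOn_of_deriv_nonpos (convex_Icc c u1)
      ((zeta_cont hva hu1 (fun u hu => (h2 u hu).1) _).sub (zeta_cont hvb hu1b (fun u hu => (h2b u hu).1) _)) ?_ ?_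
    · rw [interior_Icc]
      intro u hu
      exact ((zeta_der hd2 hd hdn hva ⟨hu.1, hu.2.trans_le hu1.2⟩ (h2 u ⟨hu.1.le, hu.2.le⟩).1).fun_sub
        (zeta_der hd2 hd hdn hvb ⟨hu.1, hu.2.trans_le hu1b.2⟩
          (h2b u ⟨hu.1.le, hu.2.le⟩).1)).differentiableAt.differentiableWithinAt
    · rw [interior_Icc]
      intro u hu
      rw [((zeta_der hd2 hd hdn hva ⟨hu.1, hu.2.trans_le hu1.2⟩ (h2 u ⟨hu.1.le, hu.2.le⟩).1).fun_sub
        (zeta_der hd2 hd hdn hvb ⟨hu.1, hu.2.trans_le hu1b.2⟩ (h2b u ⟨hu.1.le, hu.2.le⟩).1)).deriv]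
      have hu0 : 0 ≤ u := hc.trans hu.1.le
      have hu' : u ∈ Icc c u1 := ⟨hu.1.le, hu.2.le⟩
      have h4 := hanti (h2b u hu').2 (h2 u hu').2
        (div_le_div_of_nonneg_left hu0 (h2 u hu').1 (hle u hu'))
      have h5 : 0 ≤ ((d : ℝ) - 1) * u ^ (n - d) := by
        have : (2 : ℝ) ≤ d := by exact_mod_cast hd2
        have := pow_nonneg hu0 (n - d)
        nlinarith
      nlinarith
  exact h3 ⟨le_rfl, hu1.1⟩ ⟨hu1.1, le_rfl⟩ hu1.1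

end Pool.Agent.CritPer.M
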