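import Pool.Agent.CritPer.M.Cross

/-!
Existence of solutions which are bounded a priori (clamped field), and comparison.
-/

open Set Filter Topology Polynomial MeasureTheory

namespace Pool.Agent.CritPer.M

open Pool.Agent.CritPer.L

/-- clamping to `[0,c]` -/
private noncomputable def clp (c v : ℝ) : ℝ := max 0 (min v c)

private theorem clp_mem {c : ℝ} (hc : 0 ≤ c) (v : ℝ) : clp c v ∈ Icc 0 c :=
  ⟨le_max_left _ _, max_le hc (min_le_right _ _)⟩

private theorem clp_eq {c v : ℝ} (hv : v ∈ Icc 0 c) : clp c v = v := by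
  unfold clp
  rw [min_eq_left hv.2, max_eq_right hv.1]

private theorem clp_lip (c : ℝ) : LipschitzWith 1 (clp c) :=
  (LipschitzWith.id.min_const c).const_max 0

private theorem clamp_hasDeriv_qf (S : ℝ[X]) (n : ℕ) (u v : ℝ) :
    HasDerivAt (fun v => qf S n u v)
      (∑ j ∈ Finset.range (n + 1), S.coeff j * u ^ (n - j) * (j * v ^ (j - 1))) v := by
  unfold qf
  apply HasDerivAt.fun_sum
  intro j _
  exact (hasDerivAt_pow j v).const_mul _

private theorem clamp_qf_lip (S : ℝ[X]) (n : ℕ) (c0 a c : ℝ) :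
    ∃ K : NNReal, ∀ u ∈ Icc c0 a, LipschitzOnWith K (fun v => qf S n u v) (Icc 0 c) := by
  have hcont : Continuous (fun z : ℝ × ℝ =>
      ∑ j ∈ Finset.range (n + 1), S.coeff j * z.1 ^ (n - j) * (j * z.2 ^ (j - 1))) := by
    fun_prop
  obtain ⟨C, hC⟩ := (isCompact_Icc.prod isCompact_Icc :
    IsCompact (Icc c0 a ×ˢ Icc (0 : ℝ) c)).exists_bound_of_continuousOn hcont.continuousOn
  refine ⟨C.toNNReal, fun u hu => ?_⟩
  refine Convex.lipschitzOnWith_of_nnnorm_deriv_le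
    (fun v _ => (clamp_hasDeriv_qf S n u v).differentiableAt) (fun v hv => ?_) (convex_Icc 0 c)
  rw [(clamp_hasDeriv_qf S n u v).deriv, ← NNReal.coe_le_coe, coe_nnnorm]
  exact (hC (u, v) ⟨hu, hv⟩).trans (Real.le_coe_toNNReal C)

/-- If all solutions on `[c',a]`, `c < c'`, are bounded by the same `M`, there is one on `[c,a]`. -/
theorem ex_of_bdd {S : ℝ[X]} {n : ℕ} (h0 : 0 < S.coeff 0) {c a M : ℝ} (hc : 0 ≤ c) (hca : c < a)
    (hM : 0 ≤ M)
    (hbd : ∀ c' ∈ Ioo c a, ∀ v, IsW S n c' a v → ∀ u ∈ Icc c' a, v u ≤ M) : Ex S n c a := by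
  set B : ℝ := M + 1 with hB
  have hB0 : 0 < B := by linarith
  obtain ⟨K, hK⟩ := clamp_qf_lip S n c a B
  obtain ⟨C, hC⟩ := (isCompact_Icc.prod isCompact_Icc :
    IsCompact (Icc c a ×ˢ Icc (0 : ℝ) B)).exists_bound_of_continuousOn
      (continuous_qf S n).continuousOn
  have hC0 : 0 ≤ C := (norm_nonneg _).trans (hC (c, 0) ⟨⟨le_rfl, hca.le⟩, ⟨le_rfl, hB0.le⟩⟩)
  have hca' : 0 ≤ a - c := by linarith
  have hPL : IsPicardLindelof (fun u v => -(qf S n u (clp B v))) (tmin := c) (tmax := a)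
      ⟨a, hca.le, le_rfl⟩ 0 (C * (a - c)).toNNReal 0 C.toNNReal K := by
    refine ⟨fun u hu => ?_, fun v _ => ?_, fun u hu v _ => ?_, ?_⟩
    · have h1 := (hK u hu).comp ((clp_lip B).lipschitzOnWith
        (s := Metric.closedBall 0 ((C * (a - c)).toNNReal : ℝ)))
        (fun v _ => clp_mem hB0.le v)
      rw [mul_one] at h1
      exact h1.neg
    · have : Continuous (fun u => -(qf S n u (clp B v))) :=
        ((continuous_qf S n).comp (continuous_id.prodMk continuous_const)).neg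
      exact this.continuousOn
    · rw [norm_neg]
      exact (hC (u, clp B v) ⟨hu, clp_mem hB0.le v⟩).trans (Real.le_coe_toNNReal C)
    · rw [Real.coe_toNNReal _ hC0, Real.coe_toNNReal _ (mul_nonneg hC0 hca')]
      simp [hca']
  obtain ⟨w, hw0, hw⟩ := hPL.exists_eq_forall_mem_Icc_hasDerivWithinAt₀
  have hcont : ContinuousOn w (Icc c a) := fun u hu => (hw u hu).continuousWithinAt
  have hder : ∀ u ∈ Ioo c a, HasDerivAt w (-(qf S n u (clp B (w u)))) u := fun u hu =>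
    (hw u ⟨hu.1.le, hu.2.le⟩).hasDerivAt (Icc_mem_nhds hu.1 hu.2)
  have hw0' : w a = 0 := hw0
  have hlow : ∀ u ∈ Icc c a, 0 ≤ w u := by
    refine nonneg_of_cross (L := 0) hcont hder hw0'.ge (fun u hu hlt => ?_)
    have h1 : clp B (w u) = 0 := by
      unfold clp
      exact max_eq_left ((min_le_left _ _).trans hlt.le)
    rw [h1, qf_zero]
    have h2 : 0 ≤ S.coeff 0 * u ^ n := mul_nonneg h0.le (pow_nonneg (hc.trans hu.1.le) _)
    linarith
  have hup : ∀ u ∈ Icc c a, w u ≤ B := by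
    by_contra hcon
    push Not at hcon
    obtain ⟨u0, hu0, hu0B⟩ := hcon
    set T : Set ℝ := Icc c a ∩ w ⁻¹' (Ici B) with hT
    have hTc : IsClosed T := hcont.preimage_isClosed_of_isClosed isClosed_Icc isClosed_Ici
    have hTne : T.Nonempty := ⟨u0, hu0, hu0B.le⟩
    have hTb : BddAbove T := ⟨a, fun x hx => hx.1.2⟩
    have hu1T : sSup T ∈ T := hTc.csSup_mem hTne hTb
    set u1 := sSup T with hu1def
    have hu1B : B ≤ w u1 := hu1T.2
    have hu1a : u1 < a := by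
      rcases hu1T.1.2.eq_or_lt with h | h
      · rw [h, hw0'] at hu1B
        linarith
      · exact h
    have hlt : ∀ u, u1 < u → u ≤ a → w u < B := by
      intro u h1 h2
      by_contra h3
      push Not at h3
      exact absurd (le_csSup hTb (show u ∈ T from ⟨⟨hu1T.1.1.trans h1.le, h2⟩, h3⟩))
        (not_le.2 h1)
    have hle : ∀ u, u1 < u → u < a → w u ≤ M := by
      intro u h1 h2
      refine hbd u ⟨lt_of_le_of_lt hu1T.1.1 h1, h2⟩ w ⟨hw0', fun x hx => ?_⟩ u ⟨le_rfl, h2.le⟩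
      have hxc : x ∈ Icc c a := ⟨hu1T.1.1.trans (h1.le.trans hx.1), hx.2⟩
      have h3 := hw x hxc
      rw [clp_eq ⟨hlow x hxc, (hlt x (lt_of_lt_of_le h1 hx.1) hx.2).le⟩] at h3
      exact h3.mono (Icc_subset_Icc_left (hu1T.1.1.trans h1.le))
    have hiv := intermediate_value_Icc' hu1a.le (hcont.mono (Icc_subset_Icc_left hu1T.1.1))
    have hmem : M + 1 / 2 ∈ Icc (w a) (w u1) := by
      rw [hw0']
      constructor <;> linarith
    obtain ⟨x, hx, hxe⟩ := hiv hmem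
    rcases hx.1.eq_or_lt with h1 | h1
    · rw [← h1] at hxe
      linarith
    · rcases hx.2.eq_or_lt with h2 | h2
      · rw [h2, hw0'] at hxe
        linarith
      · have := hle x h1 h2
        linarith
  refine ⟨w, hw0', fun u hu => ?_⟩
  have h1 := hw u hu
  rwa [clp_eq ⟨hlow u hu, hup u hu⟩] at h1

/-- If there is no solution on `[c,a]`, the solution becomes arbitrarily large. -/
theorem exists_large {S : ℝ[X]} {n : ℕ} (h0 : 0 < S.coeff 0) {c a : ℝ} (hc : 0 ≤ c) (hca : c < a)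
    (h : ¬ Ex S n c a) (M : ℝ) : ∃ u1 ∈ Ioo c a, ∃ v, IsW S n u1 a v ∧ M < v u1 := by
  by_contra hcon
  push Not at hcon
  refine h (ex_of_bdd h0 hc hca (M := max M 0) (le_max_right _ _) fun c' hc' v hv u hu => ?_)
  rcases hu.2.eq_or_lt with h1 | h1
  · rw [h1, hv.zero]
    exact le_max_right _ _
  · exact (hcon u ⟨lt_of_lt_of_le hc'.1 hu.1, h1⟩ v (hv.mono hu.1)).trans (le_max_left _ _)

/-- Comparison. -/
theorem Ex.comparison {S1 S2 : ℝ[X]} {n : ℕ} (h1 : 0 < S1.coeff 0) (h2 : 0 < S2.coeff 0)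
    {c a b : ℝ} (hc : 0 ≤ c) (hca : c < a) (hab : a ≤ b)
    (hle : ∀ u v : ℝ, 0 ≤ u → 0 ≤ v → qf S1 n u v ≤ qf S2 n u v) (h : Ex S2 n c b) :
    Ex S1 n c a ∧ ∀ u ∈ Icc c a, vv S1 n a u ≤ vv S2 n b u := by
  obtain ⟨v2, hv2⟩ := h
  have key : ∀ c', c ≤ c' → c' ≤ a → ∀ v, IsW S1 n c' a v → ∀ u ∈ Icc c' a, v u ≤ v2 u := by
    intro c' hc' hc'a v hv
    refine le_of_barrier (S := S1) (n := n) (m := v2) (m' := fun u => -(qf S2 n u (v2 u)))
      hv.cont (hv2.cont.mono (Icc_subset_Icc hc' hab)) (fun u hu => hv.derAt hu)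
      (fun u hu => hv2.derAt ⟨lt_of_le_of_lt hc' hu.1, lt_of_lt_of_le hu.2 hab⟩) ?_
      (fun u hu => ?_)
    · rw [hv.zero]
      exact hv2.nonneg h2 hc ⟨hca.le, hab⟩
    · exact neg_le_neg (hle u (v2 u) (hc.trans (hc'.trans hu.1.le))
        (hv2.nonneg h2 hc ⟨hc'.trans hu.1.le, hu.2.le.trans hab⟩))
  obtain ⟨C, hC⟩ := isCompact_Icc.exists_bound_of_continuousOn hv2.cont
  have hC0 : 0 ≤ C := (norm_nonneg _).trans (hC c ⟨le_rfl, hca.le.trans hab⟩)
  have hex : Ex S1 n c a := by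
    refine ex_of_bdd h1 hc hca hC0 fun c' hc' v hv u hu => ?_
    exact (key c' hc'.1.le hc'.2.le v hv u hu).trans
      ((le_abs_self _).trans (hC u ⟨hc'.1.le.trans hu.1, hu.2.trans hab⟩))
  refine ⟨hex, fun u hu => ?_⟩
  obtain ⟨v1, hv1⟩ := hex
  rw [vv_eq hv1 hu, vv_eq hv2 ⟨hu.1, hu.2.trans hab⟩]
  exact key c le_rfl hca.le v1 hv1 u hu

end Pool.Agent.CritPer.M
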