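import Pool.Agent.CritPer.M.Defs

/-!
First crossing arguments: comparison of solutions with barriers.
-/

open Set Filter Topology Polynomial MeasureTheory

namespace Pool.Agent.CritPer.M

open Pool.Agent.CritPer.L

/-- If `D(a) ≥ 0` and `D' ≤ -L D` wherever `D < 0`, then `D ≥ 0` on `[c,a]`. -/
theorem nonneg_of_cross {D D' : ℝ → ℝ} {c a L : ℝ} (hc : ContinuousOn D (Icc c a))
    (hd : ∀ u ∈ Ioo c a, HasDerivAt D (D' u) u) (ha : 0 ≤ D a)
    (hL : ∀ u ∈ Ioo c a, D u < 0 → D' u ≤ -L * D u) : ∀ u ∈ Icc c a, 0 ≤ D u := by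
  intro u1 hu1
  by_contra hlt
  push Not at hlt
  have hc1 : ContinuousOn D (Icc u1 a) := hc.mono (Icc_subset_Icc hu1.1 le_rfl)
  set T : Set ℝ := Icc u1 a ∩ D ⁻¹' (Ici 0) with hT
  have hTc : IsClosed T := hc1.preimage_isClosed_of_isClosed isClosed_Icc isClosed_Ici
  have haT : a ∈ T := ⟨⟨hu1.2, le_rfl⟩, ha⟩
  have hbd : BddBelow T := ⟨u1, fun x hx => hx.1.1⟩
  have h2 : sInf T ∈ T := hTc.csInf_mem ⟨a, haT⟩ hbd
  set u2 := sInf T with hu2
  have hlow : ∀ u ∈ Ioo u1 u2, D u < 0 := by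
    intro u hu
    by_contra hge
    push Not at hge
    have : u ∈ T := ⟨⟨hu.1.le, hu.2.le.trans h2.1.2⟩, hge⟩
    exact absurd (csInf_le hbd this) (not_le.2 hu.2)
  have hanti : AntitoneOn (fun u => D u * Real.exp (L * u)) (Icc u1 u2) := by
    have hder : ∀ u ∈ Ioo u1 u2, HasDerivAt (fun u => D u * Real.exp (L * u))
        (D' u * Real.exp (L * u) + D u * (Real.exp (L * u) * L)) u := by
      intro u hu
      have hu' : u ∈ Ioo c a := ⟨lt_of_le_of_lt hu1.1 hu.1, lt_of_lt_of_le hu.2 h2.1.2⟩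
      have h3 : HasDerivAt (fun u => Real.exp (L * u)) (Real.exp (L * u) * L) u := by
        have := ((hasDerivAt_id u).const_mul L).exp
        simpa using this
      exact (hd u hu').mul h3
    refine antitoneOn_of_deriv_nonpos (convex_Icc u1 u2) ?_ ?_ ?_
    · exact (hc1.mono (Icc_subset_Icc le_rfl h2.1.2)).mul (by fun_prop)
    · rw [interior_Icc]
      intro u hu
      exact (hder u hu).differentiableAt.differentiableWithinAt
    · rw [interior_Icc]
      intro u hu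
      have hu' : u ∈ Ioo c a := ⟨lt_of_le_of_lt hu1.1 hu.1, lt_of_lt_of_le hu.2 h2.1.2⟩
      rw [(hder u hu).deriv]
      have h4 := hL u hu' (hlow u hu)
      have h5 := Real.exp_pos (L * u)
      nlinarith
  have h6 := hanti ⟨le_rfl, h2.1.1⟩ ⟨h2.1.1, le_rfl⟩ h2.1.1
  simp only at h6
  have h7 : 0 ≤ D u2 * Real.exp (L * u2) := mul_nonneg h2.2 (Real.exp_pos _).le
  have h8 : D u1 * Real.exp (L * u1) < 0 := mul_neg_of_neg_of_pos hlt (Real.exp_pos _)
  linarith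

/-- `q` is uniformly Lipschitz along two continuous functions. -/
theorem exists_lip (S : ℝ[X]) (n : ℕ) {c b : ℝ} {v m : ℝ → ℝ} (hv : ContinuousOn v (Icc c b))
    (hm : ContinuousOn m (Icc c b)) : ∃ L, 0 ≤ L ∧ ∀ u ∈ Icc c b,
      |qf S n u (v u) - qf S n u (m u)| ≤ L * |v u - m u| := by
  obtain ⟨R1, hR1⟩ := isCompact_Icc.exists_bound_of_continuousOn hv
  obtain ⟨R2, hR2⟩ := isCompact_Icc.exists_bound_of_continuousOn hm
  set R : ℝ := max (max R1 R2) 0 with hRdef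
  have hR : 0 ≤ R := le_max_right _ _
  set U : ℝ := max |c| |b| with hUdef
  have hU0 : 0 ≤ U := (abs_nonneg c).trans (le_max_left _ _)
  refine ⟨∑ j ∈ Finset.range (n + 1), |S.coeff j| * U ^ (n - j) * (j * R ^ (j - 1)),
    Finset.sum_nonneg fun j _ => by positivity, fun u hu => ?_⟩
  exact qf_lip S n hR (abs_le_max_abs_abs hu.1 hu.2)
    ((hR1 u hu).trans ((le_max_left _ _).trans (le_max_left _ _)))
    ((hR2 u hu).trans ((le_max_right _ _).trans (le_max_left _ _)))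

/-- Upper barrier: `m' ≤ -q(u,m)`, `v(b) ≤ m(b)` imply `v ≤ m` on `[c,b]`. -/
theorem le_of_barrier {S : ℝ[X]} {n : ℕ} {c b : ℝ} {v m m' : ℝ → ℝ}
    (hvc : ContinuousOn v (Icc c b)) (hmc : ContinuousOn m (Icc c b))
    (hv : ∀ u ∈ Ioo c b, HasDerivAt v (-(qf S n u (v u))) u)
    (hm : ∀ u ∈ Ioo c b, HasDerivAt m (m' u) u) (hb : v b ≤ m b)
    (h : ∀ u ∈ Ioo c b, m' u ≤ -(qf S n u (m u))) : ∀ u ∈ Icc c b, v u ≤ m u := by
  obtain ⟨L, -, hL⟩ := exists_lip S n hvc hmc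
  intro u hu
  have := nonneg_of_cross (D := fun u => m u - v u) (L := L) (hmc.sub hvc)
    (fun u hu => (hm u hu).sub (hv u hu)) (sub_nonneg.2 hb) (fun u hu hlt => ?_) u hu
  · linarith
  · have h1 := h u hu
    have h2 := hL u ⟨hu.1.le, hu.2.le⟩
    have h3 := le_of_abs_le h2
    rw [abs_of_nonneg (by linarith)] at h3
    nlinarith

/-- Lower barrier: `-q(u,m) ≤ m'`, `m(b) ≤ v(b)` imply `m ≤ v` on `[c,b]`. -/
theorem ge_of_barrier {S : ℝ[X]} {n : ℕ} {c b : ℝ} {v m m' : ℝ → ℝ}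
    (hvc : ContinuousOn v (Icc c b)) (hmc : ContinuousOn m (Icc c b))
    (hv : ∀ u ∈ Ioo c b, HasDerivAt v (-(qf S n u (v u))) u)
    (hm : ∀ u ∈ Ioo c b, HasDerivAt m (m' u) u) (hb : m b ≤ v b)
    (h : ∀ u ∈ Ioo c b, -(qf S n u (m u)) ≤ m' u) : ∀ u ∈ Icc c b, m u ≤ v u := by
  obtain ⟨L, -, hL⟩ := exists_lip S n hvc hmc
  intro u hu
  have := nonneg_of_cross (D := fun u => v u - m u) (L := L) (hvc.sub hmc)
    (fun u hu => (hv u hu).sub (hm u hu)) (sub_nonneg.2 hb) (fun u hu hlt => ?_) u hu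
  · linarith
  · have h1 := h u hu
    have h2 := hL u ⟨hu.1.le, hu.2.le⟩
    have h3 := (abs_le.1 h2).1
    rw [abs_of_nonpos (by linarith)] at h3
    nlinarith

/-- The remainder in `q(u,v) = S(0) u^n + v r(u,v)`. -/
noncomputable def rr (S : ℝ[X]) (n : ℕ) (u v : ℝ) : ℝ :=
  ∑ j ∈ Finset.range n, S.coeff (j + 1) * u ^ (n - (j + 1)) * v ^ j

theorem qf_rr (S : ℝ[X]) (n : ℕ) (u v : ℝ) :
    qf S n u v = S.coeff 0 * u ^ n + v * rr S n u v := by
  unfold qf rr
  rw [Finset.sum_range_succ', Finset.mul_sum, add_comm]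
  congr 1
  · simp
  · refine Finset.sum_congr rfl fun j _ => ?_
    ring

theorem continuous_rr (S : ℝ[X]) (n : ℕ) : Continuous (fun z : ℝ × ℝ => rr S n z.1 z.2) := by
  unfold rr
  fun_prop

/-- Positivity. -/
theorem IsW.pos {S : ℝ[X]} {n : ℕ} (h0 : 0 < S.coeff 0) {c a : ℝ} (hc0 : 0 ≤ c) {v : ℝ → ℝ}
    (hv : IsW S n c a v) : ∀ u ∈ Ico c a, 0 < v u := by
  intro u0 hu0
  have hca : c < a := lt_of_le_of_lt hu0.1 hu0.2
  have ha : 0 < a := lt_of_le_of_lt hc0 hca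
  have hc := hv.cont
  -- near a
  have hda : HasDerivWithinAt v (-(S.coeff 0 * a ^ n)) (Icc c a) a := by
    have := hv.der a ⟨hca.le, le_rfl⟩
    rwa [hv.zero, qf_zero] at this
  have hneg : -(S.coeff 0 * a ^ n) < 0 := by
    have : 0 < S.coeff 0 * a ^ n := by positivity
    linarith
  have hnear : ∃ a' < a, c ≤ a' ∧ ∀ u ∈ Ico a' a, 0 < v u := by
    have h1 := hasDerivWithinAt_iff_tendsto_slope.1 hda
    have h2 : ∀ᶠ u in 𝓝[Icc c a \ {a}] a, slope v a u < 0 := h1.eventually_lt_const hneg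
    rw [eventually_nhdsWithin_iff, Metric.eventually_nhds_iff] at h2
    obtain ⟨ε, hε, h3⟩ := h2
    refine ⟨max c (a - ε / 2), max_lt hca (by linarith), le_max_left _ _, fun u hu => ?_⟩
    have hu1 : c ≤ u := (le_max_left _ _).trans hu.1
    have hu2 : a - ε / 2 ≤ u := (le_max_right _ _).trans hu.1
    have h4 := h3 (y := u) (by rw [Real.dist_eq, abs_lt]; constructor <;> linarith [hu.2])
      ⟨⟨hu1, hu.2.le⟩, by simpa using hu.2.ne⟩
    rw [slope_def_field, hv.zero, sub_zero] at h4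
    by_contra hcon
    have h5 : 0 ≤ v u / (u - a) := div_nonneg_of_nonpos (not_lt.1 hcon) (by linarith [hu.2])
    linarith
  obtain ⟨a', ha', ha'0, hpos'⟩ := hnear
  by_contra hcon
  have hcon' : v u0 ≤ 0 := not_lt.1 hcon
  -- the last nonpositive point
  set Z : Set ℝ := {u | u ∈ Icc c a' ∧ v u ≤ 0} with hZ
  have hZc : IsCompact Z := by
    have h1 : ContinuousOn v (Icc c a') := hc.mono (Icc_subset_Icc le_rfl ha'.le)
    have h2 : IsClosed Z :=
      h1.preimage_isClosed_of_isClosed isClosed_Icc (isClosed_Iic (a := (0 : ℝ)))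
    exact isCompact_Icc.of_isClosed_subset h2 (fun u hu => hu.1)
  have hu0a' : u0 ≤ a' := by
    by_contra hlt
    exact absurd (hpos' u0 ⟨(not_le.1 hlt).le, hu0.2⟩) hcon
  have hZne : Z.Nonempty := ⟨u0, ⟨hu0.1, hu0a'⟩, hcon'⟩
  obtain ⟨u1, hu1, hmax⟩ := hZc.exists_isGreatest hZne
  have hu1a : u1 < a := hu1.1.2.trans_lt ha'
  have hpos1 : ∀ u ∈ Ioo u1 a, 0 < v u := by
    intro u hu
    by_contra hc1
    have hc2 : v u ≤ 0 := not_lt.1 hc1
    rcases le_or_gt u a' with h1 | h1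
    · have := hmax (show u ∈ Z from ⟨⟨hu1.1.1.trans hu.1.le, h1⟩, hc2⟩)
      linarith [hu.1]
    · exact hc1 (hpos' u ⟨h1.le, hu.2⟩)
  -- bound for the remainder
  obtain ⟨C, hC⟩ : ∃ C, ∀ u ∈ Icc c a, |rr S n u (v u)| ≤ C := by
    have h1 : ContinuousOn (fun u => rr S n u (v u)) (Icc c a) :=
      (continuous_rr S n).comp_continuousOn (continuousOn_id.prodMk hc)
    obtain ⟨C, hC⟩ := isCompact_Icc.exists_bound_of_continuousOn h1
    exact ⟨C, fun u hu => by simpa using hC u hu⟩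
  -- v e^{-Cu} is antitone on [u1,a]
  have hanti : AntitoneOn (fun u => v u * Real.exp (-C * u)) (Icc u1 a) := by
    have hder : ∀ u ∈ Ioo u1 a, HasDerivAt (fun u => v u * Real.exp (-C * u))
        (-(qf S n u (v u)) * Real.exp (-C * u) + v u * (Real.exp (-C * u) * (-C))) u := by
      intro u hu
      have h2 : HasDerivAt (fun u => Real.exp (-C * u)) (Real.exp (-C * u) * (-C)) u := by
        have := ((hasDerivAt_id u).const_mul (-C)).exp
        simpa using this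
      exact (hv.derAt ⟨lt_of_le_of_lt hu1.1.1 hu.1, hu.2⟩).mul h2
    refine antitoneOn_of_deriv_nonpos (convex_Icc _ _) ?_ ?_ ?_
    · exact (hc.mono (Icc_subset_Icc hu1.1.1 le_rfl)).mul (by fun_prop)
    · intro u hu
      rw [interior_Icc] at hu
      exact (hder u hu).differentiableAt.differentiableWithinAt
    · intro u hu
      rw [interior_Icc] at hu
      have hu0' : 0 < u := lt_of_le_of_lt (hc0.trans hu1.1.1) hu.1
      rw [(hder u hu).deriv, qf_rr]
      have h4 : -C ≤ rr S n u (v u) := (abs_le.1 (hC u ⟨hu1.1.1.trans hu.1.le, hu.2.le⟩)).1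
      have h5 := hpos1 u hu
      have h6 : 0 < S.coeff 0 * u ^ n := by positivity
      have h7 : -(S.coeff 0 * u ^ n + v u * rr S n u (v u)) - C * v u ≤ 0 := by nlinarith
      have h8 := Real.exp_pos (-C * u)
      nlinarith
  set um := (u1 + a) / 2 with hum
  have hm : um ∈ Ioo u1 a := ⟨by rw [hum]; linarith, by rw [hum]; linarith⟩
  have h1 := hanti (left_mem_Icc.2 hu1a.le) ⟨hm.1.le, hm.2.le⟩ hm.1.le
  have h2 : 0 < v um * Real.exp (-C * um) := mul_pos (hpos1 _ hm) (Real.exp_pos _)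
  have h3 : v u1 * Real.exp (-C * u1) ≤ 0 := mul_nonpos_of_nonpos_of_nonneg hu1.2 (Real.exp_pos _).le
  simp only at h1
  linarith

theorem IsW.nonneg {S : ℝ[X]} {n : ℕ} (h0 : 0 < S.coeff 0) {c a : ℝ} (hc : 0 ≤ c) {v : ℝ → ℝ}
    (hv : IsW S n c a v) {u : ℝ} (hu : u ∈ Icc c a) : 0 ≤ v u := by
  rcases hu.2.eq_or_lt with h1 | h1
  · rw [h1, hv.zero]
  · exact (hv.pos h0 hc u ⟨hu.1, h1⟩).le

end Pool.Agent.CritPer.M
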