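import Pool.Agent.CritPer.M.Inf0

/-!
Two large orbits approach each other exponentially fast.
-/

open Set Filter Topology Polynomial MeasureTheory

namespace Pool.Agent.CritPer.M

open Pool.Agent.CritPer.L

/-- The constants attached to the first positive root. -/
theorem Root.consts {S : ℝ[X]} (h0 : S.coeff 0 = 1) (hr : Root S) :
    ∃ κ κ2 c4 : ℝ, 0 < κ2 ∧ κ2 < κ ∧ 0 < c4 ∧ S.eval κ < 0 ∧
      (∀ K ∈ Icc 0 κ2, 1 / 2 ≤ S.eval K) ∧
      ∀ K ∈ Icc 0 κ, K * S.derivative.eval K - S.eval K ≤ -c4 := by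
  obtain ⟨κ, hκ, hneg, hs⟩ := hr
  obtain ⟨K0, hK0, hmax⟩ := isCompact_Icc.exists_isMaxOn (nonempty_Icc.2 hκ.le)
    (f := fun K : ℝ => K * S.derivative.eval K - S.eval K) (by fun_prop)
  have hc : ContinuousAt (fun K : ℝ => S.eval K) 0 := by fun_prop
  have h00 : S.eval 0 = 1 := by rw [← coeff_zero_eq_eval_zero, h0]
  have hev : ∀ᶠ K in 𝓝 (0 : ℝ), 1 / 2 < S.eval K := by
    apply hc.eventually (lt_mem_nhds _)
    simp only
    rw [h00]
    norm_num
  obtain ⟨ε, hε, hb⟩ := Metric.eventually_nhds_iff.1 hev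
  refine ⟨κ, min (ε / 2) (κ / 2), -(K0 * S.derivative.eval K0 - S.eval K0), ?_, ?_, ?_, hneg,
    fun K hK => ?_, fun K hK => ?_⟩
  · exact lt_min (by linarith) (by linarith)
  · exact (min_le_right _ _).trans_lt (by linarith)
  · have := hs K0 hK0
    linarith
  · have h1 : K ≤ ε / 2 := hK.2.trans (min_le_left _ _)
    exact (hb (y := K) (by rw [Real.dist_eq, sub_zero, abs_of_nonneg hK.1]; linarith)).le
  · have := hmax hK
    simp only [mem_ofPred_eq] at this
    linarith

/-- The last point above the ray `v = κ2 u`. -/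
theorem exists_uc {S : ℝ[X]} {n : ℕ} (hn : 1 ≤ n) (hdeg : S.natDegree ≤ n) {κ2 : ℝ} (hκ2 : 0 < κ2)
    (hS : ∀ K ∈ Icc 0 κ2, 1 / 2 ≤ S.eval K) {a : ℝ} (ha1 : 1 ≤ a) (h : Ok S n a)
    (ha : 4 * (n + 1) * κ2 ≤ a) :
    ∃ uc, uc < a ∧ a / 2 ≤ uc ∧ (∀ u ∈ Icc 0 uc, κ2 * u ≤ vs S n a u) ∧
      ∀ u ∈ Icc uc a, (a - u) * a ^ n / (2 * (n + 1)) ≤ vs S n a u := by
  have ha0 : 0 < a := h.ha
  set T : Set ℝ := {u | u ∈ Icc 0 a ∧ κ2 * u ≤ vs S n a u} with hT
  have hTc : IsCompact T := by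
    have h1 : ContinuousOn (fun u => vs S n a u - κ2 * u) (Icc 0 a) :=
      h.contOn.sub (by fun_prop)
    have h2 : IsClosed (Icc 0 a ∩ (fun u => vs S n a u - κ2 * u) ⁻¹' (Ici 0)) :=
      h1.preimage_isClosed_of_isClosed isClosed_Icc isClosed_Ici
    have h3 : T = Icc 0 a ∩ (fun u => vs S n a u - κ2 * u) ⁻¹' (Ici 0) := by
      ext u
      simp [hT]
    rw [h3]
    exact isCompact_Icc.of_isClosed_subset h2 inter_subset_left
  have hTne : T.Nonempty := ⟨0, ⟨le_rfl, ha0.le⟩, by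
    rw [mul_zero]
    exact h.nonneg ⟨le_rfl, ha0.le⟩⟩
  obtain ⟨uc, huc, hmax⟩ := hTc.exists_isGreatest hTne
  have huca : uc < a := by
    refine lt_of_le_of_ne huc.1.2 fun he => ?_
    have := huc.2
    rw [he, h.self] at this
    nlinarith
  have hlow : ∀ u ∈ Ioc uc a, vs S n a u < κ2 * u := by
    intro u hu
    by_contra hc
    have : u ∈ T := ⟨⟨huc.1.1.trans hu.1.le, hu.2⟩, not_lt.1 hc⟩
    exact absurd (hmax this) (not_le.2 hu.1)
  -- the value at uc
  have hval : vs S n a uc ≤ κ2 * uc := by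
    have hcl : closure (Ioc uc a) = Icc uc a := closure_Ioc huca.ne
    have hcw : ContinuousOn (vs S n a) (closure (Ioc uc a)) := by
      rw [hcl]
      exact h.contOn.mono (Icc_subset_Icc_left huc.1.1)
    exact le_on_closure (s := Ioc uc a) (f := vs S n a) (g := fun u => κ2 * u)
      (fun u hu => (hlow u hu).le) hcw (by fun_prop) (by rw [hcl]; exact ⟨le_rfl, huca.le⟩)
  -- the part after uc
  have hpart : ∀ u ∈ Icc uc a, (a - u) * a ^ n / (2 * (n + 1)) ≤ vs S n a u := by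
    have hanti : AntitoneOn (fun u => vs S n a u + u ^ (n + 1) / (2 * (n + 1))) (Icc uc a) := by
      have hder : ∀ u ∈ Ioo uc a, HasDerivAt (fun u => vs S n a u + u ^ (n + 1) / (2 * (n + 1)))
          (-(qf S n u (vs S n a u)) + u ^ n / 2) u := by
        intro u hu
        have h1 := h.isW.derAt ⟨lt_of_le_of_lt huc.1.1 hu.1, hu.2⟩
        have h2 : HasDerivAt (fun u : ℝ => u ^ (n + 1) / (2 * (n + 1))) (u ^ n / 2) u := by
          have h3 := (hasDerivAt_pow (n + 1) u).div_const (2 * ((n : ℝ) + 1))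
          have h4 : ((n + 1 : ℕ) : ℝ) * u ^ (n + 1 - 1) / (2 * ((n : ℝ) + 1)) = u ^ n / 2 := by
            rw [Nat.add_sub_cancel]
            push_cast
            field_simp
          rw [h4] at h3
          exact h3
        exact h1.add h2
      refine antitoneOn_of_deriv_nonpos (convex_Icc _ _) ?_ ?_ ?_
      · exact (h.contOn.mono (Icc_subset_Icc_left huc.1.1)).add (by fun_prop)
      · intro u hu
        rw [interior_Icc] at hu
        exact (hder u hu).differentiableAt.differentiableWithinAt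
      · intro u hu
        rw [interior_Icc] at hu
        have hu0 : 0 < u := lt_of_le_of_lt huc.1.1 hu.1
        rw [(hder u hu).deriv, qf_eq hdeg hu0.ne']
        have h4 : vs S n a u / u ∈ Icc 0 κ2 :=
          ⟨div_nonneg (h.nonneg ⟨hu0.le, hu.2.le⟩) hu0.le, by
            rw [div_le_iff₀ hu0]
            exact (hlow u ⟨hu.1, hu.2.le⟩).le⟩
        have h5 := hS _ h4
        have h6 : 0 < u ^ n := by positivity
        nlinarith
    intro u hu
    have h1 := hanti hu (right_mem_Icc.2 huca.le) hu.2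
    simp only [h.self, zero_add] at h1
    have hu0 : 0 ≤ u := huc.1.1.trans hu.1
    have h2 : u ^ (n + 1) ≤ u * a ^ n := by
      rw [pow_succ, mul_comm]
      exact mul_le_mul_of_nonneg_left (pow_le_pow_left₀ hu0 hu.2 n) hu0
    have h3 : (a - u) * a ^ n / (2 * (n + 1)) ≤
        a ^ (n + 1) / (2 * (n + 1)) - u ^ (n + 1) / (2 * (n + 1)) := by
      rw [← sub_div]
      apply div_le_div_of_nonneg_right _ (by positivity)
      have : a ^ (n + 1) = a * a ^ n := by ring
      rw [this]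
      linarith
    linarith
  refine ⟨uc, huca, ?_, ?_, hpart⟩
  · have h1 := (hpart uc ⟨le_rfl, huca.le⟩).trans hval
    rw [div_le_iff₀ (by positivity)] at h1
    have h2 : κ2 * uc ≤ κ2 * a := mul_le_mul_of_nonneg_left huca.le hκ2.le
    have h3 : a ≤ a ^ n := by
      calc a = a ^ 1 := (pow_one a).symm
        _ ≤ a ^ n := pow_le_pow_right₀ ha1 hn
    have h4 : (a - uc) * a ≤ (a - uc) * a ^ n :=
      mul_le_mul_of_nonneg_left h3 (by linarith)
    have h5 : (a - uc) * a ≤ κ2 * a * (2 * (n + 1)) := by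
      refine h4.trans (h1.trans ?_)
      apply mul_le_mul_of_nonneg_right h2 (by positivity)
    have h6 : a - uc ≤ κ2 * (2 * (n + 1)) := by
      have : (a - uc) * a ≤ (κ2 * (2 * (n + 1))) * a := by linarith
      exact le_of_mul_le_mul_right this ha0
    linarith
  · have hcw : ContinuousOn (vs S n a) (Icc 0 uc) := h.contOn.mono (Icc_subset_Icc_right huca.le)
    refine ge_of_barrier (S := S) (n := n) (m' := fun _ => κ2) hcw (by fun_prop)
      (fun u hu => h.isW.derAt ⟨hu.1, hu.2.trans huca⟩) (fun u _ => ?_) huc.2 (fun u hu => ?_)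
    · simpa using (hasDerivAt_id u).const_mul κ2
    · rw [qf_eq hdeg hu.1.ne', mul_div_cancel_right₀ _ hu.1.ne']
      have h1 := hS κ2 ⟨hκ2.le, le_rfl⟩
      have h2 : 0 ≤ u ^ n * S.eval κ2 := mul_nonneg (pow_nonneg hu.1.le n) (by linarith)
      linarith

/-- `S(K)/K` decreases at least linearly. -/
theorem psi_gap {S : ℝ[X]} {κ c4 : ℝ} (hc4 : 0 < c4)
    (hs : ∀ K ∈ Icc 0 κ, K * S.derivative.eval K - S.eval K ≤ -c4) {x y : ℝ} (hx : 0 < x)
    (hxy : x ≤ y) (hy : y ≤ κ) :
    c4 / κ ^ 2 * (y - x) ≤ S.eval x / x - S.eval y / y := by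
  have hanti : AntitoneOn (fun K => S.eval K / K + c4 / κ ^ 2 * K) (Icc x y) := by
    have hder : ∀ K ∈ Icc x y, HasDerivAt (fun K => S.eval K / K + c4 / κ ^ 2 * K)
        ((S.derivative.eval K * K - S.eval K * 1) / K ^ 2 + c4 / κ ^ 2) K := by
      intro K hK
      have hK0 : 0 < K := lt_of_lt_of_le hx hK.1
      have h1 := (S.hasDerivAt K).div (hasDerivAt_id K) hK0.ne'
      have h2 : HasDerivAt (fun K : ℝ => c4 / κ ^ 2 * K) (c4 / κ ^ 2) K := by
        simpa using (hasDerivAt_id K).const_mul (c4 / κ ^ 2)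
      exact h1.add h2
    refine antitoneOn_of_deriv_nonpos (convex_Icc _ _)
      (fun K hK => (hder K hK).continuousAt.continuousWithinAt) ?_ ?_
    · intro K hK
      rw [interior_Icc] at hK
      exact (hder K ⟨hK.1.le, hK.2.le⟩).differentiableAt.differentiableWithinAt
    · intro K hK
      rw [interior_Icc] at hK
      have hK0 : 0 < K := lt_of_lt_of_le hx hK.1.le
      have hKκ : K ≤ κ := hK.2.le.trans hy
      rw [(hder K ⟨hK.1.le, hK.2.le⟩).deriv]
      have h1 := hs K ⟨hK0.le, hKκ⟩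
      have h2 : (S.derivative.eval K * K - S.eval K * 1) / K ^ 2 ≤ -c4 / K ^ 2 :=
        div_le_div_of_nonneg_right (by linarith) (by positivity)
      have h3 : c4 / κ ^ 2 ≤ c4 / K ^ 2 := by
        apply div_le_div_of_nonneg_left hc4.le (by positivity)
        exact pow_le_pow_left₀ hK0.le hKκ 2
      have h4 : -c4 / K ^ 2 = -(c4 / K ^ 2) := neg_div _ _
      linarith
  have := hanti ⟨le_rfl, hxy⟩ ⟨hxy, le_rfl⟩ hxy
  simp only at this
  linarith

theorem decay {S : ℝ[X]} {n : ℕ} (hn : 1 ≤ n) (hdeg : S.natDegree ≤ n) (h0 : S.coeff 0 = 1)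
    (hr : Root S) (hok : ∀ a, 0 < a → Ok S n a) :
    ∃ u0 κ κ2 lam C A : ℝ, 1 ≤ u0 ∧ 0 < κ2 ∧ κ2 ≤ κ ∧ 0 < lam ∧ 0 < C ∧ u0 < A ∧
      ∀ a, A ≤ a → ∃ uc, u0 < uc ∧ uc < a ∧ a / 2 ≤ uc ∧
        (∀ u ∈ Icc u0 a, vs S n a u ≤ κ * u) ∧
        (∀ u ∈ Icc 0 uc, κ2 * u ≤ vs S n a u) ∧
        (∀ u ∈ Icc uc a, (a - u) * a ^ n / (2 * (n + 1)) ≤ vs S n a u) ∧
        ∀ b, a < b → ∀ u ∈ Icc u0 uc,
          Real.log (vs S n b u / vs S n a u) ≤ C * Real.exp (-lam * (uc - u)) := by
  obtain ⟨κ, κ2, c4, hκ2, hκκ, hc4, hneg, hS, hs⟩ := hr.consts h0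
  have hκ : 0 < κ := hκ2.trans hκκ
  obtain ⟨u0, hu0, hline⟩ := vs_le_line hn hdeg hκ hneg
  have hu00 : 0 < u0 := lt_of_lt_of_le one_pos hu0
  refine ⟨u0, κ, κ2, c4 / κ ^ 2 * κ2, Real.log (κ / κ2), 2 * u0 + 4 * (n + 1) * κ2 + 1, hu0, hκ2,
    hκκ.le, by positivity, Real.log_pos ((one_lt_div hκ2).2 hκκ), ?_, fun a ha => ?_⟩
  · have : 0 < 4 * ((n : ℝ) + 1) * κ2 := by positivity
    linarith
  have hpos : 0 < 4 * ((n : ℝ) + 1) * κ2 := by positivity
  have ha1 : 1 ≤ a := by linarith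
  have ha0 : 0 < a := by linarith
  have hoka := hok a ha0
  obtain ⟨uc, huca, huc2, hb1, hb2⟩ := exists_uc hn hdeg hκ2 hS ha1 hoka (by linarith)
  have hu0uc : u0 < uc := by linarith
  refine ⟨uc, hu0uc, huca, huc2, hline a (by linarith) hoka, hb1, hb2, fun b hab => ?_⟩
  have hokb := hok b (ha0.trans hab)
  have hla := hline a (by linarith) hoka
  have hlb := hline b (by linarith) hokb
  -- positivity and derivative
  have hpa : ∀ u ∈ Icc u0 uc, 0 < vs S n a u := fun u hu =>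
    hoka.pos ⟨hu00.le.trans hu.1, hu.2.trans_lt huca⟩
  have hpb : ∀ u ∈ Icc u0 uc, 0 < vs S n b u := fun u hu =>
    hokb.pos ⟨hu00.le.trans hu.1, (hu.2.trans_lt huca).trans hab⟩
  have hlt : ∀ u ∈ Icc u0 uc, vs S n a u < vs S n b u := fun u hu =>
    Ok.lt hoka hokb hab u ⟨hu00.le.trans hu.1, hu.2.trans huca.le⟩
  set f : ℝ → ℝ := fun u => Real.log (vs S n b u) - Real.log (vs S n a u) with hf
  set lam : ℝ := c4 / κ ^ 2 * κ2 with hlam
  have hder : ∀ u ∈ Ioo u0 uc, HasDerivAt f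
      (-(qf S n u (vs S n b u)) / vs S n b u - -(qf S n u (vs S n a u)) / vs S n a u) u := by
    intro u hu
    have h1 := (hokb.isW.derAt (u := u) ⟨hu00.trans hu.1, (hu.2.trans huca).trans hab⟩).log
      (hpb u ⟨hu.1.le, hu.2.le⟩).ne'
    have h2 := (hoka.isW.derAt (u := u) ⟨hu00.trans hu.1, hu.2.trans huca⟩).log
      (hpa u ⟨hu.1.le, hu.2.le⟩).ne'
    exact h1.sub h2
  have hcont : ContinuousOn f (Icc u0 uc) := by
    have h1 : ContinuousOn (vs S n b) (Icc u0 uc) :=
      hokb.contOn.mono (Icc_subset_Icc hu00.le (huca.le.trans hab.le))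
    have h2 : ContinuousOn (vs S n a) (Icc u0 uc) :=
      hoka.contOn.mono (Icc_subset_Icc hu00.le huca.le)
    exact (h1.log fun u hu => (hpb u hu).ne').sub (h2.log fun u hu => (hpa u hu).ne')
  have hineq : ∀ u ∈ Ioo u0 uc, lam * f u ≤
      -(qf S n u (vs S n b u)) / vs S n b u - -(qf S n u (vs S n a u)) / vs S n a u := by
    intro u hu
    have hu' : u ∈ Icc u0 uc := ⟨hu.1.le, hu.2.le⟩
    have hup : 0 < u := hu00.trans hu.1
    have hu1 : 1 ≤ u := hu0.trans hu.1.le
    set va := vs S n a u with hva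
    set vb := vs S n b u with hvb
    have hva0 : 0 < va := hpa u hu'
    have hvb0 : 0 < vb := hpb u hu'
    have hvab : va < vb := hlt u hu'
    have hKa : 0 < va / u := div_pos hva0 hup
    have hKab : va / u ≤ vb / u := div_le_div_of_nonneg_right hvab.le hup.le
    have hKb : vb / u ≤ κ := by
      rw [div_le_iff₀ hup]
      exact hlb u ⟨hu.1.le, (hu.2.trans (huca.trans hab)).le⟩
    have hKa2 : κ2 ≤ va / u := by
      rw [le_div_iff₀ hup]
      exact hb1 u ⟨hup.le, hu.2.le⟩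
    have hgap := psi_gap hc4 hs hKa hKab hKb
    -- log W <= W - 1
    have hlog : f u ≤ vb / va - 1 := by
      rw [hf]
      simp only
      rw [← Real.log_div hvb0.ne' hva0.ne']
      exact Real.log_le_sub_one_of_pos (div_pos hvb0 hva0)
    have hW : 0 ≤ vb / va - 1 := by
      rw [sub_nonneg, one_le_div hva0]
      exact hvab.le
    have hKK : vb / u - va / u = va / u * (vb / va - 1) := by
      field_simp
    have h1 : lam * f u ≤ c4 / κ ^ 2 * (vb / u - va / u) := by
      rw [hKK, hlam, mul_assoc]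
      have h2 : κ2 * f u ≤ κ2 * (vb / va - 1) := mul_le_mul_of_nonneg_left hlog hκ2.le
      have h3 : κ2 * (vb / va - 1) ≤ va / u * (vb / va - 1) := mul_le_mul_of_nonneg_right hKa2 hW
      exact mul_le_mul_of_nonneg_left (h2.trans h3) (by positivity)
    have hψ : 0 ≤ S.eval (va / u) / (va / u) - S.eval (vb / u) / (vb / u) := by
      refine le_trans ?_ hgap
      have : 0 ≤ vb / u - va / u := by linarith
      positivity
    have hq : -(qf S n u vb) / vb - -(qf S n u va) / va =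
        u ^ (n - 1) * (S.eval (va / u) / (va / u) - S.eval (vb / u) / (vb / u)) := by
      rw [qf_eq hdeg hup.ne', qf_eq hdeg hup.ne']
      have hun : u ^ n = u ^ (n - 1) * u := by
        rw [← pow_succ, Nat.sub_add_cancel hn]
      rw [hun]
      field_simp
      ring
    rw [hq]
    have h4 : 1 ≤ u ^ (n - 1) := one_le_pow₀ hu1
    nlinarith [mul_le_mul_of_nonneg_right h4 hψ]
  have hmono : MonotoneOn (fun u => f u * Real.exp (-lam * u)) (Icc u0 uc) := by
    have hder2 : ∀ u ∈ Ioo u0 uc, HasDerivAt (fun u => f u * Real.exp (-lam * u))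
        ((-(qf S n u (vs S n b u)) / vs S n b u - -(qf S n u (vs S n a u)) / vs S n a u) *
          Real.exp (-lam * u) + f u * (Real.exp (-lam * u) * (-lam))) u := by
      intro u hu
      have h2 : HasDerivAt (fun u => Real.exp (-lam * u)) (Real.exp (-lam * u) * (-lam)) u := by
        have := ((hasDerivAt_id u).const_mul (-lam)).exp
        simpa using this
      exact (hder u hu).mul h2
    refine monotoneOn_of_deriv_nonneg (convex_Icc _ _) ?_ ?_ ?_
    · exact hcont.mul (by fun_prop)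
    · intro u hu
      rw [interior_Icc] at hu
      exact (hder2 u hu).differentiableAt.differentiableWithinAt
    · intro u hu
      rw [interior_Icc] at hu
      rw [(hder2 u hu).deriv]
      have h1 := hineq u hu
      have h2 := Real.exp_pos (-lam * u)
      have h3 := mul_le_mul_of_nonneg_right h1 h2.le
      linarith
  intro u hu
  have h1 := hmono hu (right_mem_Icc.2 hu0uc.le) hu.2
  simp only at h1
  have huc0 : 0 < uc := hu00.trans hu0uc
  have huc' : uc ∈ Icc u0 uc := right_mem_Icc.2 hu0uc.le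
  have h2 : f uc ≤ Real.log (κ / κ2) := by
    rw [hf]
    simp only
    rw [← Real.log_div (hpb uc huc').ne' (hpa uc huc').ne']
    apply Real.log_le_log (div_pos (hpb uc huc') (hpa uc huc'))
    have h3 : vs S n b uc ≤ κ * uc := hlb uc ⟨hu0uc.le, (huca.trans hab).le⟩
    have h4 : κ2 * uc ≤ vs S n a uc := hb1 uc ⟨huc0.le, le_rfl⟩
    have h5 : 0 < κ2 * uc := mul_pos hκ2 huc0
    calc vs S n b uc / vs S n a uc ≤ (κ * uc) / (κ2 * uc) :=
          div_le_div₀ (by positivity) h3 h5 h4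
      _ = κ / κ2 := by field_simp
  have h6 : Real.log (vs S n b u / vs S n a u) = f u :=
    Real.log_div (hpb u hu).ne' (hpa u hu).ne'
  rw [h6]
  have h7 : f u = f u * Real.exp (-lam * u) * Real.exp (lam * u) := by
    rw [mul_assoc, ← Real.exp_add]
    simp
  have h8 : Real.exp (-lam * (uc - u)) = Real.exp (-lam * uc) * Real.exp (lam * u) := by
    rw [← Real.exp_add]
    congr 1
    ring
  rw [h7, h8, ← mul_assoc]
  apply mul_le_mul_of_nonneg_right _ (Real.exp_pos _).le
  exact h1.trans (mul_le_mul_of_nonneg_right h2 (Real.exp_pos _).le)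

end Pool.Agent.CritPer.M
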