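import Pool.Agent.CritPer.L.Uniq

/-!
Solutions of `v' = -q(u,v)`, `v(a) = 0` on `[c,a]`, without a barrier: existence, escape.
-/

open Set Filter Topology Polynomial MeasureTheory

namespace Pool.Agent.CritPer.M

open Pool.Agent.CritPer.L

/-- `v` solves `v' = -q(u,v)` on `[c,a]` with `v(a) = 0`. -/
structure IsW (S : ℝ[X]) (n : ℕ) (c a : ℝ) (v : ℝ → ℝ) : Prop where
  zero : v a = 0
  der : ∀ u ∈ Icc c a, HasDerivWithinAt v (-(qf S n u (v u))) (Icc c a) u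

/-- Existence on `[c,a]`. -/
def Ex (S : ℝ[X]) (n : ℕ) (c a : ℝ) : Prop := ∃ v, IsW S n c a v

/-- The orbit through `(sqrt a, 0)` is closed. -/
structure Ok (S : ℝ[X]) (n : ℕ) (a : ℝ) : Prop where
  hn : 1 ≤ n
  c0 : 0 < S.coeff 0
  ha : 0 < a
  ex : Ex S n 0 a

/-- Some solution escapes to infinity at a positive value of `u`. -/
def Esc (S : ℝ[X]) (n : ℕ) : Prop := ∃ c a, 0 < c ∧ c < a ∧ ¬ Ex S n c a

open Classical in
/-- The value at `u` of the solution on `[u,a]`. -/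
noncomputable def vv (S : ℝ[X]) (n : ℕ) (a u : ℝ) : ℝ :=
  if h : ∃ v, IsW S n u a v then (Classical.choose h) u else 0

/-- The vector of the coefficients. -/
def cf (S : ℝ[X]) (n : ℕ) : Fin (n + 1) → ℝ := fun i => S.coeff i

/-- The family `S - ε X^(d-1) + δ X^d`. -/
noncomputable def fam (S : ℝ[X]) (d : ℕ) (ε δ : ℝ) : ℝ[X] :=
  S - C ε * X ^ (d - 1) + C δ * X ^ d

/-- The hypotheses on `S` in the family. -/
structure Fam (S : ℝ[X]) (d n : ℕ) : Prop where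
  hd : 2 ≤ d
  hdn : d ≤ n
  deg : S.natDegree + 2 ≤ d
  c0 : S.coeff 0 = 1

/-- The reversed polynomial `Φ(y) = sum_j S_j y^(d-j)`: `q(u,v) = u^(n-d) v^d Φ(u/v)`. -/
noncomputable def Ph (S : ℝ[X]) (d : ℕ) (y : ℝ) : ℝ :=
  ∑ j ∈ Finset.range (d + 1), S.coeff j * y ^ (d - j)

/-- The period integral restricted to `√r ≤ ... ≤ √s`: integral over `r ≤ x ≤ s`. -/
noncomputable def xI (S : ℝ[X]) (n k : ℕ) (a r s : ℝ) : ℝ :=
  ∫ x in r..s, 1 / (Real.sqrt (vs S n a (x ^ 2)) * (x ^ 2 + vs S n a (x ^ 2)) ^ k)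

/-- The period integral over the angles `0 ≤ p ≤ arccos √(c/a)`, i.e. `c ≤ u ≤ a`. -/
noncomputable def pI (S : ℝ[X]) (n k : ℕ) (c a : ℝ) : ℝ :=
  ∫ p in (0 : ℝ)..Real.arccos (Real.sqrt (c / a)),
    1 / (Wr S n a p * (a * Real.cos p ^ 2 + Vp S n a p) ^ k)

/-- `κ S'(κ) < S(κ)` on `[0,κ]` and `S(κ) < 0`: the first positive root of `S` is simple. -/
def Root (S : ℝ[X]) : Prop :=
  ∃ κ : ℝ, 0 < κ ∧ S.eval κ < 0 ∧ ∀ K ∈ Icc 0 κ, K * S.derivative.eval K - S.eval K < 0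

/-- `S` has `M` consecutive disjoint intervals on which the period alternately decreases
and increases. -/
structure Good (k n : ℕ) (S : ℝ[X]) (M : ℕ) : Prop where
  hn : 1 ≤ n
  deg : S.natDegree ≤ n
  c0 : S.coeff 0 = 1
  root : Root S
  pairs : ∃ a b : ℕ → ℝ, (∀ i < M, 0 < a i ∧ a i < b i ∧ Ok S n (b i) ∧
    0 < (-1 : ℝ) ^ (i + 1) * (Ts S n k (b i) - Ts S n k (a i))) ∧
    ∀ i, i + 1 < M → b i ≤ a (i + 1)

theorem isW_zero_iff {S : ℝ[X]} {n : ℕ} {a : ℝ} {v : ℝ → ℝ} : IsW S n 0 a v ↔ IsV S n a v :=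
  ⟨fun h => ⟨h.zero, h.der⟩, fun h => ⟨h.zero, h.der⟩⟩

theorem IsW.cont {S : ℝ[X]} {n : ℕ} {c a : ℝ} {v : ℝ → ℝ} (h : IsW S n c a v) :
    ContinuousOn v (Icc c a) := fun u hu => (h.der u hu).continuousWithinAt

theorem IsW.derAt {S : ℝ[X]} {n : ℕ} {c a : ℝ} {v : ℝ → ℝ} (h : IsW S n c a v) {u : ℝ}
    (hu : u ∈ Ioo c a) : HasDerivAt v (-(qf S n u (v u))) u :=
  (h.der u ⟨hu.1.le, hu.2.le⟩).hasDerivAt (Icc_mem_nhds hu.1 hu.2)

theorem IsW.mono {S : ℝ[X]} {n : ℕ} {c c' a : ℝ} {v : ℝ → ℝ} (h : IsW S n c a v) (hc : c ≤ c') :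
    IsW S n c' a v :=
  ⟨h.zero, fun u hu => (h.der u ⟨hc.trans hu.1, hu.2⟩).mono (Icc_subset_Icc_left hc)⟩

theorem Ex.mono {S : ℝ[X]} {n : ℕ} {c c' a : ℝ} (h : Ex S n c a) (hc : c ≤ c') : Ex S n c' a := by
  obtain ⟨v, hv⟩ := h
  exact ⟨v, hv.mono hc⟩

theorem IsW.unique {S : ℝ[X]} {n : ℕ} {c a : ℝ} {v w : ℝ → ℝ} (hca : c ≤ a) (hv : IsW S n c a v)
    (hw : IsW S n c a w) : ∀ u ∈ Icc c a, v u = w u :=
  sol_unique S n hv.der hw.der (u0 := a) (right_mem_Icc.2 hca) (by rw [hv.zero, hw.zero])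

theorem vv_eq {S : ℝ[X]} {n : ℕ} {c a : ℝ} {v : ℝ → ℝ} (hv : IsW S n c a v) {u : ℝ}
    (hu : u ∈ Icc c a) : vv S n a u = v u := by
  have hex : ∃ v, IsW S n u a v := ⟨v, hv.mono hu.1⟩
  unfold vv
  rw [dif_pos hex]
  exact IsW.unique hu.2 (Classical.choose_spec hex) (hv.mono hu.1) u (left_mem_Icc.2 hu.2)

/-- `vv` is a solution wherever there is one. -/
theorem isW_vv {S : ℝ[X]} {n : ℕ} {c a : ℝ} (hca : c ≤ a) (h : Ex S n c a) :
    IsW S n c a (vv S n a) := by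
  obtain ⟨v, hv⟩ := h
  have he : ∀ u ∈ Icc c a, vv S n a u = v u := fun u hu => vv_eq hv hu
  refine ⟨by rw [he a (right_mem_Icc.2 hca), hv.zero], fun u hu => ?_⟩
  rw [he u hu]
  exact (hv.der u hu).congr he (he u hu)

/-! ### The family -/

theorem coeff_fam (S : ℝ[X]) (d : ℕ) (ε δ : ℝ) (j : ℕ) :
    (fam S d ε δ).coeff j = S.coeff j - (if j = d - 1 then ε else 0) + if j = d then δ else 0 := by
  unfold fam
  rw [coeff_add, coeff_sub, coeff_C_mul_X_pow, coeff_C_mul_X_pow]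

theorem Fam.coeff_zero {S : ℝ[X]} {d n : ℕ} (h : Fam S d n) (ε δ : ℝ) :
    (fam S d ε δ).coeff 0 = 1 := by
  have := h.hd
  rw [coeff_fam, if_neg (by omega), if_neg (by omega), h.c0]
  ring

theorem Fam.natDegree {S : ℝ[X]} {d n : ℕ} (h : Fam S d n) (ε δ : ℝ) :
    (fam S d ε δ).natDegree ≤ d := by
  rw [natDegree_le_iff_coeff_eq_zero]
  intro j hj
  have h1 := h.deg
  have h2 := h.hd
  rw [coeff_fam, if_neg (by omega), if_neg (by omega), coeff_eq_zero_of_natDegree_lt (by omega)]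
  ring

theorem eval_fam (S : ℝ[X]) (d : ℕ) (ε δ K : ℝ) :
    (fam S d ε δ).eval K = S.eval K - ε * K ^ (d - 1) + δ * K ^ d := by
  simp [fam]

theorem Fam.qf_fam {S : ℝ[X]} {d n : ℕ} (h : Fam S d n) (ε δ u v : ℝ) :
    qf (fam S d ε δ) n u v = qf S n u v - ε * u ^ (n - (d - 1)) * v ^ (d - 1) +
      δ * u ^ (n - d) * v ^ d := by
  have h2 := h.hd
  have h3 := h.hdn
  unfold qf
  simp only [coeff_fam]
  have e : ∀ j, (S.coeff j - (if j = d - 1 then ε else 0) + if j = d then δ else 0) *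
      u ^ (n - j) * v ^ j = S.coeff j * u ^ (n - j) * v ^ j -
      (if j = d - 1 then ε * u ^ (n - j) * v ^ j else 0) +
      if j = d then δ * u ^ (n - j) * v ^ j else 0 := by
    intro j
    split_ifs <;> ring
  simp only [e]
  rw [Finset.sum_add_distrib, Finset.sum_sub_distrib, Finset.sum_ite_eq', Finset.sum_ite_eq',
    if_pos (Finset.mem_range.2 (by omega)), if_pos (Finset.mem_range.2 (by omega))]

/-- `q(u,v) = u^(n-d) v^d Φ(u/v)`. -/
theorem qf_Ph {S : ℝ[X]} {d n : ℕ} (hd : S.natDegree ≤ d) (hdn : d ≤ n) {v : ℝ} (hv : v ≠ 0)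
    (u : ℝ) : qf S n u v = u ^ (n - d) * v ^ d * Ph S d (u / v) := by
  unfold qf Ph
  have h1 : ∑ j ∈ Finset.range (n + 1), S.coeff j * u ^ (n - j) * v ^ j =
      ∑ j ∈ Finset.range (d + 1), S.coeff j * u ^ (n - j) * v ^ j := by
    symm
    refine Finset.sum_subset (fun j hj => ?_) (fun j _ hj => ?_)
    · rw [Finset.mem_range] at hj ⊢
      omega
    · rw [Finset.mem_range, not_lt] at hj
      rw [coeff_eq_zero_of_natDegree_lt (by omega)]
      ring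
  rw [h1, Finset.mul_sum]
  refine Finset.sum_congr rfl fun j hj => ?_
  rw [Finset.mem_range] at hj
  have e1 : u ^ (n - j) = u ^ (n - d) * u ^ (d - j) := by
    rw [← pow_add]
    congr 1
    omega
  have e2 : v ^ d = v ^ j * v ^ (d - j) := by
    rw [← pow_add]
    congr 1
    omega
  rw [e1, e2, div_pow]
  field_simp

/-- The reversed polynomial of the family: `Φ(y) = δ - ε y + y^2 Ψ(y)`. -/
theorem Fam.Ph_fam {S : ℝ[X]} {d n : ℕ} (h : Fam S d n) (ε δ y : ℝ) :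
    Ph (fam S d ε δ) d y = Ph S d y - ε * y + δ := by
  have h2 := h.hd
  unfold Ph
  simp only [coeff_fam]
  have e : ∀ j, (S.coeff j - (if j = d - 1 then ε else 0) + if j = d then δ else 0) *
      y ^ (d - j) = S.coeff j * y ^ (d - j) -
      (if j = d - 1 then ε * y ^ (d - j) else 0) + if j = d then δ * y ^ (d - j) else 0 := by
    intro j
    split_ifs <;> ring
  simp only [e]
  rw [Finset.sum_add_distrib, Finset.sum_sub_distrib, Finset.sum_ite_eq', Finset.sum_ite_eq',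
    if_pos (Finset.mem_range.2 (by omega)), if_pos (Finset.mem_range.2 (by omega))]
  have e1 : d - (d - 1) = 1 := by omega
  rw [e1, Nat.sub_self]
  ring

end Pool.Agent.CritPer.M
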