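import Pool.Agent.CritPer.M.Orbit
import Pool.Agent.CritPer.M.Small

open Set Filter Topology Polynomial MeasureTheory

namespace Pool.Agent.CritPer.M

open Pool.Agent.CritPer.L

variable {S : ℝ[X]} {n : ℕ} {a b : ℝ}

/-- The open region filled by the closed orbits. -/
def Dom (S : ℝ[X]) (n : ℕ) : Set (ℝ × ℝ) :=
  {z | ∃ a, Ok S n a ∧ z.1 ^ 2 < a ∧ z.2 ^ 2 < vs S n a (z.1 ^ 2)}

theorem mem_range_crv (h : Ok S n (b ^ 2)) (hb : 0 < b) (z : ℝ × ℝ) :
    z ∈ range (crv S n b) ↔ z.1 ^ 2 ≤ b ^ 2 ∧ z.2 ^ 2 = vs S n (b ^ 2) (z.1 ^ 2) := by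
  constructor
  · rintro ⟨p, rfl⟩
    refine ⟨?_, crv_sq h p⟩
    show (b * Real.cos p) ^ 2 ≤ b ^ 2
    rw [mul_pow]
    have := Real.cos_sq_le_one p
    nlinarith [sq_nonneg b]
  · rintro ⟨hx, hy⟩
    have hc1 : -1 ≤ z.1 / b := by
      rw [le_div_iff₀ hb]
      have := abs_le.1 (abs_le_of_sq_le_sq hx hb.le)
      linarith [this.1]
    have hc2 : z.1 / b ≤ 1 := by
      rw [div_le_iff₀ hb]
      have := abs_le.1 (abs_le_of_sq_le_sq hx hb.le)
      linarith [this.2]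
    have hcos : b * Real.cos (Real.arccos (z.1 / b)) = z.1 := by
      rw [Real.cos_arccos hc1 hc2]
      field_simp
    set p0 := Real.arccos (z.1 / b) with hp0
    have hsin : 0 ≤ Real.sin p0 := Real.sin_nonneg_of_nonneg_of_le_pi (Real.arccos_nonneg _)
      (Real.arccos_le_pi _)
    have hW : 0 ≤ Wr S n (b ^ 2) p0 := Real.sqrt_nonneg _
    have hY : 0 ≤ b * Real.sin p0 * Wr S n (b ^ 2) p0 := by positivity
    have hYsq : (b * Real.sin p0 * Wr S n (b ^ 2) p0) ^ 2 = z.2 ^ 2 := by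
      have h1 := crv_sq h p0
      have h2 : (crv S n b p0).1 = z.1 := hcos
      rw [h2, ← hy] at h1
      rw [← h1]
      show _ = (-(b * Real.sin p0 * Wr S n (b ^ 2) p0)) ^ 2
      rw [neg_sq]
    rcases le_total 0 z.2 with hz | hz
    · refine ⟨-p0, ?_⟩
      have hWn : Wr S n (b ^ 2) (-p0) = Wr S n (b ^ 2) p0 := by
        unfold Wr
        rw [Real.cos_neg]
      have h3 : b * Real.sin p0 * Wr S n (b ^ 2) p0 = z.2 := by
        exact (sq_eq_sq₀ hY hz).1 hYsq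
      refine Prod.ext ?_ ?_
      · show b * Real.cos (-p0) = z.1
        rw [Real.cos_neg]
        exact hcos
      · show -(b * Real.sin (-p0) * Wr S n (b ^ 2) (-p0)) = z.2
        rw [hWn, Real.sin_neg, ← h3]
        ring
    · refine ⟨p0, ?_⟩
      have h3 : b * Real.sin p0 * Wr S n (b ^ 2) p0 = -z.2 := by
        refine (sq_eq_sq₀ hY (by linarith)).1 ?_
        rw [hYsq, neg_sq]
      refine Prod.ext hcos ?_
      show -(b * Real.sin p0 * Wr S n (b ^ 2) p0) = z.2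
      rw [h3, neg_neg]

theorem isOpen_Dom : IsOpen (Dom S n) := by
  have h1 : Dom S n = ⋃ a : ℝ, {z : ℝ × ℝ | Ok S n a ∧ z.1 ^ 2 < a ∧
      z.2 ^ 2 < vs S n a (z.1 ^ 2)} := by
    ext z
    simp [Dom]
  rw [h1]
  refine isOpen_iUnion fun a => ?_
  by_cases h : Ok S n a
  · have hU : IsOpen {z : ℝ × ℝ | z.1 ^ 2 < a} :=
      isOpen_lt (by fun_prop) continuous_const
    have hc : ContinuousOn (fun z : ℝ × ℝ => vs S n a (z.1 ^ 2) - z.2 ^ 2)
        {z : ℝ × ℝ | z.1 ^ 2 < a} := by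
      refine ContinuousOn.sub ?_ (by fun_prop)
      refine h.contOn.comp (by fun_prop) ?_
      intro z hz
      exact ⟨sq_nonneg _, le_of_lt hz⟩
    have := hc.isOpen_inter_preimage hU (isOpen_Ioi (a := (0 : ℝ)))
    convert this using 1
    ext z
    simp [h]
  · have : {z : ℝ × ℝ | Ok S n a ∧ z.1 ^ 2 < a ∧ z.2 ^ 2 < vs S n a (z.1 ^ 2)} = ∅ := by
      ext z
      simp [h]
    rw [this]
    exact isOpen_empty

theorem isPreconnected_Dom : IsPreconnected (Dom S n) := by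
  refine isPreconnected_of_forall (0 : ℝ × ℝ) fun z hz => ?_
  obtain ⟨a, h, ha1, ha2⟩ := hz
  refine ⟨(fun s : ℝ => ((z.1, s * z.2) : ℝ × ℝ)) '' Icc 0 1 ∪
    (fun s : ℝ => ((s * z.1, 0) : ℝ × ℝ)) '' Icc 0 1, ?_, ?_, ?_, ?_⟩
  · rintro w (⟨s, hs, rfl⟩ | ⟨s, hs, rfl⟩)
    · refine ⟨a, h, ha1, ?_⟩
      refine lt_of_le_of_lt ?_ ha2
      show (s * z.2) ^ 2 ≤ z.2 ^ 2
      rw [mul_pow]
      have : s ^ 2 ≤ 1 := by nlinarith [hs.1, hs.2]
      nlinarith [sq_nonneg z.2]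
    · have h1 : (s * z.1) ^ 2 ≤ z.1 ^ 2 := by
        rw [mul_pow]
        have : s ^ 2 ≤ 1 := by nlinarith [hs.1, hs.2]
        nlinarith [sq_nonneg z.1]
      refine ⟨a, h, lt_of_le_of_lt h1 ha1, ?_⟩
      show (0 : ℝ) ^ 2 < vs S n a ((s * z.1) ^ 2)
      rw [zero_pow two_ne_zero]
      exact h.pos ⟨sq_nonneg _, lt_of_le_of_lt h1 ha1⟩
  · right
    exact ⟨0, ⟨le_rfl, zero_le_one⟩, by simp⟩
  · left
    exact ⟨1, ⟨zero_le_one, le_rfl⟩, by simp⟩
  · refine IsPreconnected.union (z.1, (0 : ℝ)) ?_ ?_ ?_ ?_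
    · exact ⟨0, ⟨le_rfl, zero_le_one⟩, by simp⟩
    · exact ⟨1, ⟨zero_le_one, le_rfl⟩, by simp⟩
    · exact isPreconnected_Icc.image _ (by fun_prop)
    · exact isPreconnected_Icc.image _ (by fun_prop)

theorem zero_mem_Dom (hn : 1 ≤ n) (h0 : 0 < S.coeff 0) : (0 : ℝ × ℝ) ∈ Dom S n := by
  obtain ⟨a1, ha1, h⟩ := ok_small hn h0
  have h2 := (h a1 ⟨ha1, le_rfl⟩).1
  refine ⟨a1, h2, by simpa using ha1, ?_⟩
  have := h2.pos (u := 0) ⟨le_rfl, ha1⟩
  simpa using this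

/-- Every point of `Dom` other than the origin lies on exactly one orbit. -/
theorem mem_Dom_iff (hn : 1 ≤ n) (h0 : 0 < S.coeff 0) {z : ℝ × ℝ} (hz : z ≠ 0) :
    z ∈ Dom S n ↔ ∃ b, 0 < b ∧ Ok S n (b ^ 2) ∧ z ∈ range (crv S n b) := by
  constructor
  · rintro ⟨a', h', h1, h2⟩
    have ha' := h'.ha
    -- a value of `a` between
    obtain ⟨a1, ha1, hu1, hle1, hv1⟩ : ∃ a1, 0 < a1 ∧ z.1 ^ 2 ≤ a1 ∧ a1 ≤ a' ∧
        vs S n a1 (z.1 ^ 2) ≤ z.2 ^ 2 := by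
      by_cases hx : z.1 = 0
      · have hy : z.2 ≠ 0 := by
          intro hy
          exact hz (Prod.ext hx hy)
        have hy2 : 0 < z.2 ^ 2 := by positivity
        obtain ⟨a2, ha2, h3⟩ := ok_small hn h0
        have hm : 0 < min a2 (min a' (z.2 ^ 2)) := lt_min ha2 (lt_min ha' hy2)
        refine ⟨min a2 (min a' (z.2 ^ 2)), hm, ?_, (min_le_right _ _).trans (min_le_left _ _), ?_⟩
        · rw [hx]
          simpa using hm.le
        · have h4 := (h3 _ ⟨hm, min_le_left _ _⟩).2 0 ⟨le_rfl, hm.le⟩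
          rw [hx, zero_pow two_ne_zero]
          exact h4.trans ((min_le_right _ _).trans (min_le_right _ _))
      · have hx2 : 0 < z.1 ^ 2 := by positivity
        exact ⟨z.1 ^ 2, hx2, le_rfl, h1.le, by
          rw [(h'.mono hx2 h1.le).self]; exact sq_nonneg _⟩
    have hok : ∀ a ∈ Icc a1 a', Ok S n a := fun a ha => h'.mono (ha1.trans_le ha.1) ha.2
    have hc : ContinuousOn (fun a => vs S n a (z.1 ^ 2)) (Icc a1 a') := by
      refine (vs_continuousOn_left (sq_nonneg z.1)).mono ?_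
      intro a ha
      exact ⟨hu1.trans ha.1, hok a ha⟩
    obtain ⟨a, ha, hva⟩ := intermediate_value_Icc hle1 hc ⟨hv1, h2.le⟩
    have ha0 : 0 < a := lt_of_lt_of_le ha1 ha.1
    have hoka : Ok S n (Real.sqrt a ^ 2) := by
      rw [Real.sq_sqrt ha0.le]
      exact hok a ha
    refine ⟨Real.sqrt a, Real.sqrt_pos.2 ha0, hoka, ?_⟩
    rw [mem_range_crv hoka (Real.sqrt_pos.2 ha0), Real.sq_sqrt ha0.le]
    exact ⟨hu1.trans ha.1, hva.symm⟩
  · rintro ⟨b, hb, hok, hzb⟩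
    rw [mem_range_crv hok hb] at hzb
    have h1 : ∀ᶠ a in 𝓝[>] (b ^ 2), Ok S n a := nhdsWithin_le_nhds hok.eventually
    obtain ⟨a, ha, hab⟩ := (h1.and self_mem_nhdsWithin).exists
    have hab' : b ^ 2 < a := hab
    refine ⟨a, ha, lt_of_le_of_lt hzb.1 hab', ?_⟩
    rw [hzb.2]
    exact hok.lt ha hab' _ ⟨sq_nonneg _, hzb.1⟩

theorem crv_disjoint {b c : ℝ} (hb : 0 < b) (hc : 0 < c) (h : Ok S n (b ^ 2))
    (h' : Ok S n (c ^ 2)) {z : ℝ × ℝ}
    (h1 : z ∈ range (crv S n b)) (h2 : z ∈ range (crv S n c)) : b = c := by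
  rw [mem_range_crv h hb] at h1
  rw [mem_range_crv h' hc] at h2
  rcases lt_trichotomy b c with hbc | hbc | hbc
  · exfalso
    have := h.lt h' (by nlinarith) _ ⟨sq_nonneg _, h1.1⟩
    rw [← h1.2, ← h2.2] at this
    exact lt_irrefl _ this
  · exact hbc
  · exfalso
    have := h'.lt h (by nlinarith) _ ⟨sq_nonneg _, h2.1⟩
    rw [← h1.2, ← h2.2] at this
    exact lt_irrefl _ this

end Pool.Agent.CritPer.M
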