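import Pool.Agent.CritPer.M.Blow
import Pool.Agent.CritPer.M.Basic

/-!
Escape is an open and monotone condition.
-/

open Set Filter Topology Polynomial MeasureTheory

namespace Pool.Agent.CritPer.M

open Pool.Agent.CritPer.L

variable {S : ℝ[X]} {d n : ℕ}

/-- The sum of the absolute values of the coefficients. -/
noncomputable def escCs (S : ℝ[X]) (d : ℕ) : ℝ := ∑ j ∈ Finset.range (d + 1), |S.coeff j|

theorem escCs_nonneg (S : ℝ[X]) (d : ℕ) : 0 ≤ escCs S d :=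
  Finset.sum_nonneg fun _ _ => abs_nonneg _

theorem esc_abs_Ph_le (hF : Fam S d n) {y : ℝ} (h0 : 0 ≤ y) (h1 : y ≤ 1) :
    |Ph S d y| ≤ escCs S d * y := by
  unfold Ph escCs
  refine (Finset.abs_sum_le_sum_abs _ _).trans ?_
  rw [Finset.sum_mul]
  refine Finset.sum_le_sum fun j hj => ?_
  rw [Finset.mem_range] at hj
  by_cases hj2 : j + 2 ≤ d
  · rw [abs_mul, abs_pow, abs_of_nonneg h0]
    refine mul_le_mul_of_nonneg_left ?_ (abs_nonneg _)
    calc y ^ (d - j) ≤ y ^ 1 := pow_le_pow_of_le_one h0 h1 (by omega)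
      _ = y := pow_one y
  · have hdeg := hF.deg
    rw [coeff_eq_zero_of_natDegree_lt (by omega)]
    simp

theorem esc_Ph_lip (hF : Fam S d n) {y0 y y' : ℝ} (h01 : y0 ≤ 1)
    (hy : y ∈ Icc 0 y0) (hy' : y' ∈ Icc 0 y0) :
    |Ph S d y - Ph S d y'| ≤ escCs S d * ((d : ℝ) * y0) * |y - y'| := by
  have hy0 : 0 ≤ y0 := hy.1.trans hy.2
  unfold Ph escCs
  rw [← Finset.sum_sub_distrib]
  refine (Finset.abs_sum_le_sum_abs _ _).trans ?_
  rw [Finset.sum_mul, Finset.sum_mul]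
  refine Finset.sum_le_sum fun j hj => ?_
  rw [Finset.mem_range] at hj
  by_cases hj2 : j + 2 ≤ d
  · rw [← mul_sub, abs_mul]
    rw [mul_assoc]
    refine mul_le_mul_of_nonneg_left ?_ (abs_nonneg _)
    refine (abs_pow_sub_pow_le y y' (d - j)).trans ?_
    have hm0 : 0 ≤ max |y| |y'| := (abs_nonneg _).trans (le_max_left _ _)
    have hm1 : max |y| |y'| ≤ y0 := by
      rw [abs_of_nonneg hy.1, abs_of_nonneg hy'.1]
      exact max_le hy.2 hy'.2
    have hp : (max |y| |y'|) ^ (d - j - 1) ≤ y0 := by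
      calc (max |y| |y'|) ^ (d - j - 1) ≤ y0 ^ (d - j - 1) := pow_le_pow_left₀ hm0 hm1 _
        _ ≤ y0 ^ 1 := pow_le_pow_of_le_one hy0 h01 (by omega)
        _ = y0 := pow_one y0
    have hdj : ((d - j : ℕ) : ℝ) ≤ d := by
      exact_mod_cast Nat.sub_le d j
    calc |y - y'| * ((d - j : ℕ) : ℝ) * (max |y| |y'|) ^ (d - j - 1)
        ≤ |y - y'| * (d : ℝ) * y0 := by
          refine mul_le_mul ?_ hp (pow_nonneg hm0 _) (by positivity)
          exact mul_le_mul_of_nonneg_left hdj (abs_nonneg _)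
      _ = (d : ℝ) * y0 * |y - y'| := by ring
  · have hdeg := hF.deg
    rw [coeff_eq_zero_of_natDegree_lt (by omega)]
    simp

theorem exists_PhB (hF : Fam S d n) {ε δ : ℝ} (hε : 0 < ε) (hδ : 0 < δ) :
    ∃ y0 m M : ℝ, PhB (fam S d ε δ) d y0 m M ∧
      AntitoneOn (Ph (fam S d ε δ) d) (Icc 0 y0) := by
  have hA := escCs_nonneg S d
  set A := escCs S d with hAdef
  set y1 : ℝ := ε / (A * d + 1) with hy1
  set y2 : ℝ := δ / (2 * (A + ε)) with hy2
  have hAd : 0 < A * d + 1 := by positivity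
  have hAe : 0 < 2 * (A + ε) := by linarith
  have hy1p : 0 < y1 := div_pos hε hAd
  have hy2p : 0 < y2 := div_pos hδ hAe
  set y0 : ℝ := min 1 (min y1 y2) with hy0
  have hy0p : 0 < y0 := lt_min one_pos (lt_min hy1p hy2p)
  have hy01 : y0 ≤ 1 := min_le_left _ _
  have h1 : y0 ≤ y1 := (min_le_right _ _).trans (min_le_left _ _)
  have h2 : y0 ≤ y2 := (min_le_right _ _).trans (min_le_right _ _)
  have h1' : A * d * y0 ≤ ε := by
    have h3 : y0 * (A * d + 1) ≤ ε := by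
      rw [hy1, le_div_iff₀ hAd] at h1
      exact h1
    nlinarith
  have h2' : (A + ε) * y0 ≤ δ / 2 := by
    rw [hy2, le_div_iff₀ hAe] at h2
    linarith
  refine ⟨y0, δ / 2, A + δ, ⟨hy0p, by linarith, ?_, ?_⟩, ?_⟩
  · intro y hy
    rw [hF.Ph_fam]
    have h3 := (abs_le.1 (esc_abs_Ph_le hF hy.1 (hy.2.trans hy01))).1
    have h4 : (A + ε) * y ≤ (A + ε) * y0 := mul_le_mul_of_nonneg_left hy.2 (by linarith)
    rw [← hAdef] at h3
    linarith
  · intro y hy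
    rw [hF.Ph_fam]
    have h3 := (abs_le.1 (esc_abs_Ph_le hF hy.1 (hy.2.trans hy01))).2
    rw [← hAdef] at h3
    have h4 : A * y ≤ A * 1 := mul_le_mul_of_nonneg_left (hy.2.trans hy01) hA
    have h5 : 0 ≤ ε * y := mul_nonneg hε.le hy.1
    linarith
  · intro y hy y' hy' hle
    rw [hF.Ph_fam, hF.Ph_fam]
    have h3 := (abs_le.1 (esc_Ph_lip hF hy01 hy hy')).1
    rw [← hAdef] at h3
    have h4 : |y - y'| = y' - y := by rw [abs_of_nonpos (by linarith)]; ring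
    rw [h4] at h3
    have h5 : A * ((d : ℝ) * y0) * (y' - y) ≤ ε * (y' - y) := by
      refine mul_le_mul_of_nonneg_right ?_ (by linarith)
      linarith
    linarith

/-- `PhB` with constants that are uniform near `(ε0,δ0)`. -/
theorem esc_exists_PhB_unif (hF : Fam S d n) (ε0 : ℝ) {δ0 : ℝ} (hδ : 0 < δ0) :
    ∃ y0 M : ℝ, 0 < y0 ∧ ∀ ε δ : ℝ, |ε - ε0| < 1 → δ0 / 2 < δ → δ < δ0 + 1 →
      PhB (fam S d ε δ) d y0 (δ0 / 4) M := by
  have hA := escCs_nonneg S d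
  set A := escCs S d with hAdef
  set E : ℝ := A + |ε0| + 1 with hE
  have hEp : 0 < E := by
    have := abs_nonneg ε0
    linarith
  set y0 : ℝ := min 1 (δ0 / (4 * E)) with hy0
  have hy0p : 0 < y0 := lt_min one_pos (div_pos hδ (by linarith))
  have hy01 : y0 ≤ 1 := min_le_left _ _
  have h2' : E * y0 ≤ δ0 / 4 := by
    have h2 : y0 ≤ δ0 / (4 * E) := min_le_right _ _
    rw [le_div_iff₀ (by linarith)] at h2
    linarith
  refine ⟨y0, E + δ0 + 1, hy0p, fun ε δ h1 h2 h3 => ⟨hy0p, by linarith, ?_, ?_⟩⟩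
  · intro y hy
    rw [hF.Ph_fam]
    have h4 := (abs_le.1 (esc_abs_Ph_le hF hy.1 (hy.2.trans hy01))).1
    rw [← hAdef] at h4
    have h5 : ε ≤ |ε0| + 1 := by
      have := (abs_lt.1 h1).2
      have := le_abs_self ε0
      linarith
    have h6 : ε * y ≤ (|ε0| + 1) * y := mul_le_mul_of_nonneg_right h5 hy.1
    have h7 : E * y ≤ E * y0 := mul_le_mul_of_nonneg_left hy.2 hEp.le
    rw [hE] at h7 h2'
    nlinarith
  · intro y hy
    rw [hF.Ph_fam]
    have h4 := (abs_le.1 (esc_abs_Ph_le hF hy.1 (hy.2.trans hy01))).2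
    rw [← hAdef] at h4
    have h5 : -(|ε0| + 1) ≤ ε := by
      have := (abs_lt.1 h1).1
      have := neg_abs_le ε0
      linarith
    have h6 : -(|ε0| + 1) * y ≤ ε * y := mul_le_mul_of_nonneg_right h5 hy.1
    have h7 : E * y ≤ E * 1 := mul_le_mul_of_nonneg_left (hy.2.trans hy01) hEp.le
    rw [hE] at h7 ⊢
    nlinarith

theorem esc_open (hF : Fam S d n) {ε0 δ0 : ℝ} (hδ : 0 < δ0) {c a : ℝ} (hc : 0 < c) (hca : c < a)
    (h : ¬ Ex (fam S d ε0 δ0) n c a) :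
    ∃ c' : ℝ, 0 < c' ∧ c' < a ∧ ∀ᶠ p in 𝓝 ((ε0, δ0, a) : ℝ × ℝ × ℝ),
      c' < p.2.2 ∧ ¬ Ex (fam S d p.1 p.2.1) n c' p.2.2 := by
  have ha : 0 < a := hc.trans hca
  have hd2 := hF.hd
  have hdn := hF.hdn
  obtain ⟨y0, M, hy0, hPhB⟩ := esc_exists_PhB_unif hF ε0 hδ
  set P : ℕ := n - d + 1 with hP
  have hPR : ((n : ℝ) - d + 1) = (P : ℝ) := by
    rw [hP]
    push_cast [Nat.cast_sub hdn]
    ring
  have hPpos : (0 : ℝ) < (n : ℝ) - d + 1 := by
    rw [hPR]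
    exact_mod_cast Nat.succ_pos _
  have hd1 : (0 : ℝ) < (d : ℝ) - 1 := by
    have : (2 : ℝ) ≤ d := by exact_mod_cast hd2
    linarith
  have hcc : 0 < c ^ P - (c / 2) ^ P := by
    have : (c / 2) ^ P < c ^ P := pow_lt_pow_left₀ (by linarith) (by linarith) (by omega)
    linarith
  set K : ℝ := ((d : ℝ) - 1) * (δ0 / 4) / ((n : ℝ) - d + 1) with hK
  have hKpos : 0 < K := div_pos (mul_pos hd1 (by linarith)) hPpos
  set R : ℝ := K * (c ^ P - (c / 2) ^ P) with hR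
  have hRpos : 0 < R := mul_pos hKpos hcc
  set B : ℝ := max (2 * a / y0 + 1) (1 / R + 1) with hB
  have hB1 : 2 * a / y0 < B := lt_of_lt_of_le (by linarith) (le_max_left _ _)
  have hB2 : 1 / R < B := lt_of_lt_of_le (by linarith) (le_max_right _ _)
  have hBone : 1 ≤ B := by
    have h1 : 0 < 1 / R := one_div_pos.2 hRpos
    exact (by linarith : (1 : ℝ) ≤ 1 / R + 1).trans (le_max_right _ _)
  have hBpos : 0 < B := by linarith
  have hc0 : 0 < (fam S d ε0 δ0).coeff 0 := by rw [hF.coeff_zero]; exact one_pos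
  obtain ⟨u1, hu1, v0, hv0, hv0B⟩ := exists_large hc0 hc.le hca h B
  refine ⟨c / 2, by linarith, by linarith, ?_⟩
  have hη : 0 < v0 u1 - B := by linarith
  have hdep := dep_left hu1.2 hv0 hη
  have hcont : Tendsto (fun p : ℝ × ℝ × ℝ =>
      ((cf (fam S d p.1 p.2.1) n, u1, p.2.2) : (Fin (n + 1) → ℝ) × ℝ × ℝ))
      (𝓝 (ε0, δ0, a)) (𝓝 (cf (fam S d ε0 δ0) n, u1, a)) := by
    have h1 : Continuous (fun p : ℝ × ℝ × ℝ =>
        ((cf (fam S d p.1 p.2.1) n, u1, p.2.2) : (Fin (n + 1) → ℝ) × ℝ × ℝ)) := by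
      have h2 : Continuous (fun p : ℝ × ℝ × ℝ => cf (fam S d p.1 p.2.1) n) :=
        (continuous_cf_fam S d n).comp
          (g := fun p : ℝ × ℝ => cf (fam S d p.1 p.2) n) (f := fun p : ℝ × ℝ × ℝ => (p.1, p.2.1))
          (by fun_prop)
      exact h2.prodMk (by fun_prop)
    exact h1.tendsto (ε0, δ0, a)
  have hev1 := hcont.eventually hdep
  have hev2 : ∀ᶠ p in 𝓝 ((ε0, δ0, a) : ℝ × ℝ × ℝ), |p.1 - ε0| < 1 := by
    have h1 : Continuous (fun p : ℝ × ℝ × ℝ => |p.1 - ε0|) := by fun_prop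
    have h2 : |((ε0, δ0, a) : ℝ × ℝ × ℝ).1 - ε0| < 1 := by simp
    exact h1.continuousAt.eventually_lt continuousAt_const h2
  have hev3 : ∀ᶠ p in 𝓝 ((ε0, δ0, a) : ℝ × ℝ × ℝ), δ0 / 2 < p.2.1 := by
    have h1 : Continuous (fun p : ℝ × ℝ × ℝ => p.2.1) := by fun_prop
    exact continuousAt_const.eventually_lt h1.continuousAt
      (show δ0 / 2 < ((ε0, δ0, a) : ℝ × ℝ × ℝ).2.1 by simp only; linarith)
  have hev4 : ∀ᶠ p in 𝓝 ((ε0, δ0, a) : ℝ × ℝ × ℝ), p.2.1 < δ0 + 1 := by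
    have h1 : Continuous (fun p : ℝ × ℝ × ℝ => p.2.1) := by fun_prop
    exact h1.continuousAt.eventually_lt continuousAt_const
      (show ((ε0, δ0, a) : ℝ × ℝ × ℝ).2.1 < δ0 + 1 by simp only; linarith)
  have hev5 : ∀ᶠ p in 𝓝 ((ε0, δ0, a) : ℝ × ℝ × ℝ), p.2.2 < 2 * a := by
    have h1 : Continuous (fun p : ℝ × ℝ × ℝ => p.2.2) := by fun_prop
    exact h1.continuousAt.eventually_lt continuousAt_const
      (show ((ε0, δ0, a) : ℝ × ℝ × ℝ).2.2 < 2 * a by simp only; linarith)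
  filter_upwards [hev1, hev2, hev3, hev4, hev5] with p hp1 hp2 hp3 hp4 hp5
  obtain ⟨hlt, hS⟩ := hp1
  obtain ⟨v, hv, hvη⟩ := hS _ rfl
  have hvB : B < v u1 := by
    have := (abs_lt.1 hvη).1
    linarith
  have hcu1 : c / 2 < u1 := by linarith [hu1.1]
  refine ⟨hcu1.trans hlt, ?_⟩
  rintro ⟨w, hw⟩
  have hwv : w u1 = v u1 :=
    IsW.unique hlt.le (hw.mono hcu1.le) hv u1 (left_mem_Icc.2 hlt.le)
  have hwB : B < w u1 := by rw [hwv]; exact hvB
  have hwpos : 0 < w u1 := hBpos.trans hwB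
  have hcoeff : 0 < (fam S d p.1 p.2.1).coeff 0 := by rw [hF.coeff_zero]; exact one_pos
  have h1 : u1 ≤ y0 * w u1 := by
    have h2 : 2 * a < y0 * B := by
      rw [div_lt_iff₀ hy0] at hB1
      linarith
    have h3 : y0 * B < y0 * w u1 := mul_lt_mul_of_pos_left hwB hy0
    linarith
  have hz := zeta_lo hd2 (hF.natDegree p.1 p.2.1) hdn (hPhB p.1 p.2.1 hp2 hp3 hp4)
    (by linarith : (0 : ℝ) ≤ c / 2) hw ⟨hcu1.le, hlt.le⟩ hwpos h1
  have hwc : 0 ≤ w (c / 2) :=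
    hw.nonneg hcoeff (by linarith) ⟨le_rfl, (hcu1.trans hlt).le⟩
  have h4 : 0 ≤ 1 / w (c / 2) ^ (d - 1) := div_nonneg zero_le_one (pow_nonneg hwc _)
  have h5 : 1 / w u1 ^ (d - 1) < R := by
    have h6 : B ≤ w u1 ^ (d - 1) := by
      calc B ≤ w u1 := hwB.le
        _ = w u1 ^ 1 := (pow_one _).symm
        _ ≤ w u1 ^ (d - 1) := pow_le_pow_right₀ (hBone.trans hwB.le) (by omega)
    have h7 : 1 / w u1 ^ (d - 1) ≤ 1 / B := one_div_le_one_div_of_le hBpos h6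
    have h8 : 1 / B < R := by
      rw [div_lt_iff₀ hRpos] at hB2
      rw [div_lt_iff₀ hBpos]
      linarith
    linarith
  have h9 : R ≤ K * (u1 ^ P - (c / 2) ^ P) := by
    rw [hR]
    refine mul_le_mul_of_nonneg_left ?_ hKpos.le
    have : c ^ P ≤ u1 ^ P := pow_le_pow_left₀ hc.le hu1.1.le _
    linarith
  have h10 : K * (u1 ^ P - (c / 2) ^ P) ≤
      1 / w u1 ^ (d - 1) - 1 / w (c / 2) ^ (d - 1) := hz
  linarith

theorem esc_mono (hF : Fam S d n) {ε δ δ' : ℝ} (hδ : δ ≤ δ') (h : Esc (fam S d ε δ) n) :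
    Esc (fam S d ε δ') n := by
  obtain ⟨c, a, hc, hca, hex⟩ := h
  refine ⟨c, a, hc, hca, fun hex' => hex ?_⟩
  refine (Ex.comparison (S1 := fam S d ε δ) (S2 := fam S d ε δ') ?_ ?_ hc.le hca le_rfl ?_
    hex').1
  · rw [hF.coeff_zero]; exact one_pos
  · rw [hF.coeff_zero]; exact one_pos
  · intro u v hu hv
    rw [hF.qf_fam, hF.qf_fam]
    have h1 : δ * u ^ (n - d) * v ^ d ≤ δ' * u ^ (n - d) * v ^ d :=
      mul_le_mul_of_nonneg_right (mul_le_mul_of_nonneg_right hδ (pow_nonneg hu _))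
        (pow_nonneg hv _)
    linarith

theorem esc_eventually (hF : Fam S d n) {ε0 δ0 : ℝ} (hδ : 0 < δ0) (h : Esc (fam S d ε0 δ0) n) :
    ∀ᶠ p in 𝓝 ((ε0, δ0) : ℝ × ℝ), Esc (fam S d p.1 p.2) n := by
  obtain ⟨c, a, hc, hca, hex⟩ := h
  obtain ⟨c', hc', hca', hev⟩ := esc_open hF hδ hc hca hex
  have h1 : Tendsto (fun p : ℝ × ℝ => ((p.1, p.2, a) : ℝ × ℝ × ℝ)) (𝓝 (ε0, δ0))
      (𝓝 (ε0, δ0, a)) := by
    have : Continuous (fun p : ℝ × ℝ => ((p.1, p.2, a) : ℝ × ℝ × ℝ)) := by fun_prop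
    exact this.tendsto (ε0, δ0)
  filter_upwards [h1.eventually hev] with p hp
  exact ⟨c', a, hc', hca', hp.2⟩

/-- If one orbit is not closed while no orbit escapes at positive `u`, or in general: an orbit
which is closed excludes escape below it. -/
theorem not_ok_of_esc {S : ℝ[X]} (hn : 1 ≤ n) (h0 : 0 < S.coeff 0) (h : Esc S n) :
    ∃ a, 0 < a ∧ ¬ Ok S n a := by
  obtain ⟨c, a, hc, hca, hex⟩ := h
  exact ⟨a, hc.trans hca, fun hok => hex (hok.ex.mono hc.le)⟩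

end Pool.Agent.CritPer.M
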