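import Pool.Agent.CritPer.M.Step
import Pool.Agent.CritPer.M.Center
import Pool.Agent.CritPer.M.Count
import Pool.Agent.CritPer.Lower
import Pool.Agent.CritPer.Sym

/-!
The lower bounds for `Nkl`.
-/

open Set Filter Topology Polynomial MeasureTheory

namespace Pool.Agent.CritPer.M

open Pool.Agent.CritPer.L

theorem le_Nkl {k n M : ℕ} {S : ℝ[X]} (h : Good k n S M) :
    ((M - 1 : ℕ) : ℕ∞) ≤ Nkl k (k + n) := by
  have h0 : 0 < S.coeff 0 := by rw [h.c0]; exact one_pos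
  set T : ℝ → ℝ := fun b => Ts S n k (b ^ 2) with hT
  have hTan : ∀ b ∈ Prm S n, AnalyticAt ℝ T b := by
    rintro b ⟨hb, hok⟩
    have h1 : AnalyticAt ℝ (Ts S n k) ((fun b : ℝ => b ^ 2) b) := analyticAt_Ts hok k
    have h2 : AnalyticAt ℝ (fun b : ℝ => b ^ 2) b := analyticAt_id.pow 2
    exact AnalyticAt.comp (g := Ts S n k) (f := fun b : ℝ => b ^ 2) h1 h2
  obtain ⟨a, b, hp1, hp2⟩ := h.pairs
  have hcount := count_pairs (I := Prm S n) ordConnected_Prm hTan (M := M)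
    (a := fun i => Real.sqrt (a i)) (b := fun i => Real.sqrt (b i)) (fun i hi => ?_) (fun i hi => ?_)
  · refine hcount.trans ?_
    refine le_sSup_of_le ⟨PL k, QL S n k, homog_PL k, homog_QL S n k, isCenter_L h.hn h0 k,
      Prm S n, fun b => (b, 0), isParam_L h.hn h0 k, rfl⟩ ?_
    apply Set.encard_le_encard
    have heq : ∀ s ∈ Prm S n, (fun r => minPeriod (vf (PL k) (QL S n k)) (r, 0)) =ᶠ[𝓝 s] T := by
      intro s hs
      filter_upwards [isOpen_Prm.mem_nhds hs] with r hr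
      exact minPeriod_L hr.2 k hr.1
    rintro s ⟨hs, hds, hiso⟩
    refine ⟨hs, ?_, ?_⟩
    · rw [(heq s hs).deriv_eq]
      exact hds
    · have h5 : ∀ᶠ r in 𝓝[≠] s, r ∈ Prm S n := nhdsWithin_le_nhds (isOpen_Prm.mem_nhds hs)
      filter_upwards [hiso, h5] with r hr hr0
      rw [(heq r hr0).deriv_eq]
      exact hr
  · obtain ⟨h1, h2, h3, h4⟩ := hp1 i hi
    have h5 : 0 < b i := h1.trans h2
    refine ⟨⟨Real.sqrt_pos.2 h1, ?_⟩, ⟨Real.sqrt_pos.2 h5, ?_⟩, Real.sqrt_lt_sqrt h1.le h2, ?_⟩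
    · rw [Real.sq_sqrt h1.le]
      exact h3.mono h1 h2.le
    · rw [Real.sq_sqrt h5.le]
      exact h3
    · simp only [hT, Real.sq_sqrt h1.le, Real.sq_sqrt h5.le]
      exact h4
  · exact Real.sqrt_le_sqrt (hp2 i hi)

theorem cond_ok {k n d : ℕ} (h1 : k + 2 ≤ d) (h2 : d ≤ n) (h3 : 1 ≤ k → 2 * k + 2 ≤ n) :
    d - 1 + (n - d + 1) * (2 * k + 1) ≤ (n - d + 1) * (2 * (d - 1)) := by
  obtain ⟨y, rfl⟩ : ∃ y, d = k + 2 + y := ⟨d - (k + 2), by omega⟩
  obtain ⟨P, rfl⟩ : ∃ P, n = k + 2 + y + P := ⟨n - (k + 2 + y), by omega⟩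
  have e1 : k + 2 + y - 1 = k + 1 + y := by omega
  have e2 : k + 2 + y + P - (k + 2 + y) = P := by omega
  rw [e1, e2]
  rcases Nat.eq_zero_or_pos k with hk | hk
  · subst hk
    nlinarith
  · have h4 := h3 hk
    have h5 : k ≤ y + P := by omega
    nlinarith

theorem chain {k n : ℕ} (hn : k + 2 ≤ n) (h3 : 1 ≤ k → 2 * k + 2 ≤ n) (j : ℕ)
    (hj : k + 2 + 2 * j ≤ n) :
    ∃ S : ℝ[X], S.natDegree ≤ k + 2 + 2 * j ∧ Good k n S (3 + 2 * j) ∧ Esc S n := by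
  induction j with
  | zero => exact first (by omega) hn (cond_ok le_rfl hn h3)
  | succ j ih =>
    obtain ⟨S, h4, h5, h6⟩ := ih (by omega)
    have hF : Fam S (k + 2 + 2 * (j + 1)) n := ⟨by omega, hj, by omega, h5.c0⟩
    have hodd : Odd (3 + 2 * j) := ⟨j + 1, by ring⟩
    obtain ⟨S', h7, h8, h9⟩ := step hF (cond_ok (by omega) hj h3) hodd h5 h6
    exact ⟨S', h7, h8, h9⟩

theorem zero_case {n : ℕ} (hn : 1 ≤ n) : (n : ℕ∞) ≤ Nkl 0 n := by
  rcases Nat.lt_or_ge n 2 with h | h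
  · have hn1 : n = 1 := by omega
    subst hn1
    have := lower_zero (n := 1) le_rfl
    rwa [zero_add] at this
  · rcases Nat.even_or_odd' n with ⟨m, hm | hm⟩
    · obtain ⟨S, h1, h2, h3⟩ := chain (k := 0) (n := n) h (by omega) (m - 1) (by omega)
      have h4 := le_Nkl h2
      rw [zero_add] at h4
      have e : 3 + 2 * (m - 1) - 1 = n := by omega
      rwa [e] at h4
    · obtain ⟨S, h1, h2, h3⟩ := chain (k := 0) (n := n) h (by omega) (m - 1) (by omega)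
      obtain ⟨S', h5⟩ := last_step hn (by omega) ⟨m, by omega⟩ h2
      have h4 := le_Nkl h5
      rw [zero_add] at h4
      have e : 3 + 2 * (m - 1) + 1 - 1 = n := by omega
      rwa [e] at h4

theorem gen_case {k n : ℕ} (hk : 1 ≤ k) (hn : 2 * k + 2 ≤ n) :
    ((n - k - 1 : ℕ) : ℕ∞) ≤ Nkl k (k + n) := by
  obtain ⟨S, h1, h2, h3⟩ := chain (k := k) (n := n) (by omega) (fun _ => hn) ((n - k - 2) / 2)
    (by omega)
  refine le_trans ?_ (le_Nkl h2)
  exact_mod_cast (by omega)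

end Pool.Agent.CritPer.M
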