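import Pool.Agent.CritPer.M.Wf

/-!
Splitting of the period integral.
-/

open Set Filter Topology Polynomial MeasureTheory

namespace Pool.Agent.CritPer.M

open Pool.Agent.CritPer.L

variable {S : ℝ[X]} {n : ℕ} {a : ℝ}

theorem Split.map_mem {s x : ℝ} (hs : s ^ 2 < a) (hx : x ∈ Icc (0 : ℝ) s) : x ^ 2 ∈ Ico 0 a :=
  ⟨sq_nonneg x, lt_of_le_of_lt (pow_le_pow_left₀ hx.1 hx.2 2) hs⟩

/-- The integrand of `xI` is continuous as long as `x ^ 2 < a`. -/
theorem xI_continuousOn (h : Ok S n a) {s : ℝ} (hs : s ^ 2 < a) (k : ℕ) :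
    ContinuousOn (fun x : ℝ => 1 / (Real.sqrt (vs S n a (x ^ 2)) * (x ^ 2 + vs S n a (x ^ 2)) ^ k))
      (Icc 0 s) := by
  have hv : ContinuousOn (fun x : ℝ => vs S n a (x ^ 2)) (Icc 0 s) :=
    h.contOn.comp (continuous_pow 2).continuousOn fun x hx =>
      Ico_subset_Icc_self (Split.map_mem hs hx)
  refine ContinuousOn.div continuousOn_const ?_ ?_
  · exact hv.sqrt.mul (((continuous_pow 2).continuousOn.add hv).pow k)
  · intro x hx
    have h1 := h.pos (Split.map_mem hs hx)
    have h2 : 0 < x ^ 2 + vs S n a (x ^ 2) := by positivity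
    exact (mul_pos (Real.sqrt_pos.2 h1) (pow_pos h2 k)).ne'

theorem xI_add (h : Ok S n a) {r s t : ℝ} (hr : 0 ≤ r) (hrs : r ≤ s) (hst : s ≤ t)
    (ht : t ^ 2 < a) (k : ℕ) : xI S n k a r t = xI S n k a r s + xI S n k a s t := by
  unfold xI
  rw [intervalIntegral.integral_add_adjacent_intervals]
  · refine ContinuousOn.intervalIntegrable ?_
    rw [uIcc_of_le hrs]
    exact (xI_continuousOn h ht k).mono (Icc_subset_Icc hr hst)
  · refine ContinuousOn.intervalIntegrable ?_
    rw [uIcc_of_le hst]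
    exact (xI_continuousOn h ht k).mono (Icc_subset_Icc_left (hr.trans hrs))

theorem xI_nonneg (h : Ok S n a) {r s : ℝ} (hr : 0 ≤ r) (hrs : r ≤ s) (hs : s ^ 2 < a) (k : ℕ) :
    0 ≤ xI S n k a r s := by
  unfold xI
  refine intervalIntegral.integral_nonneg hrs fun x hx => ?_
  have h1 := h.pos (Split.map_mem hs (Icc_subset_Icc_left hr hx))
  have h2 : 0 < x ^ 2 + vs S n a (x ^ 2) := by positivity
  exact (div_pos one_pos (mul_pos (Real.sqrt_pos.2 h1) (pow_pos h2 k))).le

theorem Split.sqrt_lt (hc : 0 < a) {c : ℝ} (hca : c < a) : Real.sqrt (c / a) < 1 := by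
  rw [Real.sqrt_lt' one_pos]
  simpa using (div_lt_one hc).2 hca

theorem pI_nonneg (h : Ok S n a) {c : ℝ} (hc : 0 < c) (hca : c < a) (k : ℕ) :
    0 ≤ pI S n k c a := by
  unfold pI
  refine intervalIntegral.integral_nonneg (Real.arccos_nonneg _) fun p _ => ?_
  exact (div_pos one_pos (mul_pos (Wr_pos h p) (pow_pos (uv_pos h p) k))).le

/-- `T/4 = (integral over c ≤ u ≤ a) + (integral over 0 ≤ x ≤ √c)`. -/
theorem Ts_split (h : Ok S n a) {c : ℝ} (hc : 0 < c) (hca : c < a) (k : ℕ) :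
    Ts S n k a = 4 * (pI S n k c a + xI S n k a 0 (Real.sqrt c)) := by
  have ha := h.ha
  set F : ℝ → ℝ := fun p => 1 / (Wr S n a p * (a * Real.cos p ^ 2 + Vp S n a p) ^ k) with hF
  have hFc : Continuous F := by
    refine Continuous.div continuous_const ?_ ?_
    · exact (continuous_Wr h).mul
        (((continuous_const.mul (Real.continuous_cos.pow 2)).add (continuous_Vp h)).pow k)
    · intro p
      exact (mul_pos (Wr_pos h p) (pow_pos (uv_pos h p) k)).ne'
  have hFi : ∀ x y, IntervalIntegrable F volume x y := fun x y => hFc.intervalIntegrable x y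
  have hadd : ∀ p, F (p + Real.pi) = F p := by
    intro p
    simp only [hF, Wr, Vp, Real.cos_add_pi, neg_sq]
  have hsub : ∀ p, F (Real.pi - p) = F p := by
    intro p
    simp only [hF, Wr, Vp, Real.cos_pi_sub, neg_sq]
  have hT : Ts S n k a = 4 * ∫ p in (0 : ℝ)..(Real.pi / 2), F p := by
    have h1 : Ts S n k a = (∫ p in (0 : ℝ)..Real.pi, F p) + ∫ p in Real.pi..(2 * Real.pi), F p :=
      (intervalIntegral.integral_add_adjacent_intervals (hFi _ _) (hFi _ _)).symm
    have h2 : (∫ p in Real.pi..(2 * Real.pi), F p) = ∫ p in (0 : ℝ)..Real.pi, F p := by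
      have := intervalIntegral.integral_comp_add_right (a := 0) (b := Real.pi) F Real.pi
      simp only [hadd] at this
      rw [this]
      congr 1
      · ring
      · ring
    have h3 : (∫ p in (0 : ℝ)..Real.pi, F p) =
        (∫ p in (0 : ℝ)..(Real.pi / 2), F p) + ∫ p in (Real.pi / 2)..Real.pi, F p :=
      (intervalIntegral.integral_add_adjacent_intervals (hFi _ _) (hFi _ _)).symm
    have h4 : (∫ p in (Real.pi / 2)..Real.pi, F p) = ∫ p in (0 : ℝ)..(Real.pi / 2), F p := by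
      have := intervalIntegral.integral_comp_sub_left (a := 0) (b := Real.pi / 2) F Real.pi
      simp only [hsub] at this
      rw [this]
      congr 1
      · ring
      · ring
    rw [h1, h2, h3, h4]
    ring
  have hsq1 : Real.sqrt (c / a) < 1 := Split.sqrt_lt ha hca
  have hsq0 : 0 < Real.sqrt (c / a) := Real.sqrt_pos.2 (div_pos hc ha)
  set p1 := Real.arccos (Real.sqrt (c / a)) with hp1
  have hp0 : 0 < p1 := Real.arccos_pos.2 hsq1
  have hp2 : p1 < Real.pi / 2 := by
    rw [hp1]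
    rw [Real.arccos_lt_pi_div_two]
    exact hsq0
  have hcos : Real.cos p1 = Real.sqrt (c / a) := Real.cos_arccos (by linarith) hsq1.le
  have hsin : ∀ p ∈ Icc p1 (Real.pi / 2), 0 < Real.sin p := fun p hp =>
    Real.sin_pos_of_pos_of_lt_pi (hp0.trans_le hp.1) (lt_of_le_of_lt hp.2 (by linarith [Real.pi_pos]))
  have hsa : 0 < Real.sqrt a := Real.sqrt_pos.2 ha
  have hsplit : (∫ p in (0 : ℝ)..(Real.pi / 2), F p) =
      (∫ p in (0 : ℝ)..p1, F p) + ∫ p in p1..(Real.pi / 2), F p :=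
    (intervalIntegral.integral_add_adjacent_intervals (hFi _ _) (hFi _ _)).symm
  set g : ℝ → ℝ := fun x => 1 / (Real.sqrt (vs S n a (x ^ 2)) * (x ^ 2 + vs S n a (x ^ 2)) ^ k)
    with hg
  have hgc : ContinuousOn g (Icc 0 (Real.sqrt c)) :=
    xI_continuousOn h (by rw [Real.sq_sqrt hc.le]; exact hca) k
  have hend : Real.sqrt a * Real.cos p1 = Real.sqrt c := by
    rw [hcos, ← Real.sqrt_mul ha.le, mul_div_cancel₀ _ ha.ne']
  have hsubst := intervalIntegral.integral_comp_mul_deriv' (a := p1) (b := Real.pi / 2)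
    (f := fun p => Real.sqrt a * Real.cos p) (f' := fun p => Real.sqrt a * (-Real.sin p)) (g := g)
    (fun p _ => (Real.hasDerivAt_cos p).const_mul _)
    (continuous_const.mul Real.continuous_sin.neg).continuousOn
    (by
      refine hgc.mono ?_
      rintro _ ⟨p, hp, rfl⟩
      rw [uIcc_of_le hp2.le] at hp
      refine ⟨?_, ?_⟩
      · exact mul_nonneg hsa.le (Real.cos_nonneg_of_mem_Icc ⟨by linarith [hp.1], hp.2⟩)
      · rw [← hend]
        refine mul_le_mul_of_nonneg_left ?_ hsa.le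
        exact Real.cos_le_cos_of_nonneg_of_le_pi hp0.le (by linarith [hp.2, Real.pi_pos]) hp.1)
  have hpt : ∀ p ∈ uIcc p1 (Real.pi / 2),
      (g ∘ fun p => Real.sqrt a * Real.cos p) p * (Real.sqrt a * (-Real.sin p)) = - F p := by
    intro p hp
    rw [uIcc_of_le hp2.le] at hp
    have hs := hsin p hp
    have hW := Wr_pos h p
    have e1 : (Real.sqrt a * Real.cos p) ^ 2 = a * Real.cos p ^ 2 := by
      rw [mul_pow, Real.sq_sqrt ha.le]
    have e2 : vs S n a (a * Real.cos p ^ 2) = Vp S n a p := rfl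
    have e3 : Real.sqrt (Vp S n a p) = Real.sqrt a * Real.sin p * Wr S n a p := by
      rw [Vp_eq h p]
      have : a * Real.sin p ^ 2 * Wr S n a p ^ 2 = (Real.sqrt a * Real.sin p * Wr S n a p) ^ 2 := by
        rw [mul_pow, mul_pow, Real.sq_sqrt ha.le]
      rw [this, Real.sqrt_sq (by positivity)]
    have hpow : (a * Real.cos p ^ 2 + Vp S n a p) ^ k ≠ 0 := (pow_pos (uv_pos h p) k).ne'
    simp only [Function.comp, hg, hF]
    rw [e1, e2, e3]
    field_simp
  have hI : (∫ p in p1..(Real.pi / 2), F p) = ∫ x in (0 : ℝ)..Real.sqrt c, g x := by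
    rw [intervalIntegral.integral_congr hpt, intervalIntegral.integral_neg] at hsubst
    have hc' : Real.sqrt a * Real.cos (Real.pi / 2) = 0 := by rw [Real.cos_pi_div_two, mul_zero]
    simp only [hend, hc'] at hsubst
    rw [intervalIntegral.integral_symm 0 (Real.sqrt c)] at hsubst
    exact neg_injective hsubst
  have e : xI S n k a 0 (Real.sqrt c) = ∫ x in (0 : ℝ)..Real.sqrt c, g x := rfl
  have e' : pI S n k c a = ∫ p in (0 : ℝ)..p1, F p := rfl
  rw [e, e', hT, hsplit, hI]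

/-- The integral over `c ≤ u ≤ a` in the variable `r`, `u = a - (a-c) r^2`, where the solution is
`v = (a-c) r^2 w`. -/
theorem pI_eq (h : Ok S n a) {c : ℝ} (hc : 0 < c) (hca : c < a) (k : ℕ) {w : ℝ → ℝ}
    (hw : ContinuousOn w (Icc 0 1)) (hwp : ∀ r ∈ Icc (0 : ℝ) 1, 0 < w r)
    (hv : ∀ r ∈ Icc (0 : ℝ) 1, vs S n a (a - (a - c) * r ^ 2) = (a - c) * r ^ 2 * w r) :
    pI S n k c a = Real.sqrt (a - c) * ∫ r in (0 : ℝ)..1,
      1 / (Real.sqrt (a - (a - c) * r ^ 2) * Real.sqrt (w r) *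
        (a - (a - c) * r ^ 2 + (a - c) * r ^ 2 * w r) ^ k) := by
  have ha := h.ha
  have hac : 0 < a - c := sub_pos.2 hca
  have hsac : 0 < Real.sqrt (a - c) := Real.sqrt_pos.2 hac
  have hsa : 0 < Real.sqrt a := Real.sqrt_pos.2 ha
  have hsq1 : Real.sqrt (c / a) < 1 := Split.sqrt_lt ha hca
  have hsq0 : 0 < Real.sqrt (c / a) := Real.sqrt_pos.2 (div_pos hc ha)
  set p1 := Real.arccos (Real.sqrt (c / a)) with hp1
  have hp0 : 0 < p1 := Real.arccos_pos.2 hsq1
  have hp2 : p1 < Real.pi / 2 := by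
    rw [hp1, Real.arccos_lt_pi_div_two]
    exact hsq0
  have hcos : Real.cos p1 = Real.sqrt (c / a) := Real.cos_arccos (by linarith) hsq1.le
  have hcos2 : Real.cos p1 ^ 2 = c / a := by
    rw [hcos, Real.sq_sqrt (div_pos hc ha).le]
  have hsin1 : 0 ≤ Real.sin p1 :=
    Real.sin_nonneg_of_nonneg_of_le_pi hp0.le (by linarith [Real.pi_pos])
  have hend : Real.sqrt a * Real.sin p1 = Real.sqrt (a - c) := by
    have e1 : (Real.sqrt a * Real.sin p1) ^ 2 = a - c := by
      rw [mul_pow, Real.sq_sqrt ha.le, Real.sin_sq, hcos2]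
      field_simp
    rw [← e1, Real.sqrt_sq (mul_nonneg hsa.le hsin1)]
  have hu : ∀ r ∈ Icc (0 : ℝ) 1, c ≤ a - (a - c) * r ^ 2 := by
    intro r hr
    have : r ^ 2 ≤ 1 := pow_le_one₀ hr.1 hr.2
    nlinarith
  set g : ℝ → ℝ := fun r => 1 / (Real.sqrt (a - (a - c) * r ^ 2) * Real.sqrt (w r) *
        (a - (a - c) * r ^ 2 + (a - c) * r ^ 2 * w r) ^ k) with hg
  have hpos : ∀ r ∈ Icc (0 : ℝ) 1, 0 < a - (a - c) * r ^ 2 + (a - c) * r ^ 2 * w r := by
    intro r hr
    have h1 := hu r hr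
    have h2 := hwp r hr
    have h3 : 0 ≤ (a - c) * r ^ 2 * w r := by positivity
    linarith
  have hgc : ContinuousOn g (Icc 0 1) := by
    have hb : ContinuousOn (fun r : ℝ => a - (a - c) * r ^ 2) (Icc 0 1) := by fun_prop
    have hb2 : ContinuousOn (fun r : ℝ => (a - c) * r ^ 2) (Icc 0 1) := by fun_prop
    refine ContinuousOn.div continuousOn_const ?_ ?_
    · exact (hb.sqrt.mul hw.sqrt).mul ((hb.add (hb2.mul hw)).pow k)
    · intro r hr
      have h1 : 0 < Real.sqrt (a - (a - c) * r ^ 2) := Real.sqrt_pos.2 (hc.trans_le (hu r hr))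
      have h2 : 0 < Real.sqrt (w r) := Real.sqrt_pos.2 (hwp r hr)
      have h3 := pow_pos (hpos r hr) k
      positivity
  have hmem : ∀ p ∈ Icc 0 p1, Real.sqrt a * Real.sin p / Real.sqrt (a - c) ∈ Icc (0 : ℝ) 1 := by
    intro p hp
    have h1 : 0 ≤ Real.sin p :=
      Real.sin_nonneg_of_nonneg_of_le_pi hp.1 (by linarith [hp.2, Real.pi_pos])
    refine ⟨by positivity, ?_⟩
    rw [div_le_one hsac, ← hend]
    refine mul_le_mul_of_nonneg_left ?_ hsa.le
    exact Real.sin_le_sin_of_le_of_le_pi_div_two (by linarith [hp.1, Real.pi_pos]) hp2.le hp.2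
  have hsubst := intervalIntegral.integral_comp_mul_deriv' (a := 0) (b := p1)
    (f := fun p => Real.sqrt a * Real.sin p / Real.sqrt (a - c))
    (f' := fun p => Real.sqrt a * Real.cos p / Real.sqrt (a - c)) (g := g)
    (fun p _ => ((Real.hasDerivAt_sin p).const_mul _).div_const _)
    ((continuous_const.mul Real.continuous_cos).div_const _).continuousOn
    (by
      refine hgc.mono ?_
      rintro _ ⟨p, hp, rfl⟩
      rw [uIcc_of_le hp0.le] at hp
      exact hmem p hp)
  have e0 : Real.sqrt a * Real.sin 0 / Real.sqrt (a - c) = 0 := by simp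
  have e1 : Real.sqrt a * Real.sin p1 / Real.sqrt (a - c) = 1 := by
    rw [hend, div_self hsac.ne']
  rw [e0, e1] at hsubst
  have hpt : ∀ p ∈ Ioc 0 p1, 1 / (Wr S n a p * (a * Real.cos p ^ 2 + Vp S n a p) ^ k) =
      Real.sqrt (a - c) * ((g ∘ fun p => Real.sqrt a * Real.sin p / Real.sqrt (a - c)) p *
        (Real.sqrt a * Real.cos p / Real.sqrt (a - c))) := by
    intro p hp
    have hr := hmem p ⟨hp.1.le, hp.2⟩
    set r := Real.sqrt a * Real.sin p / Real.sqrt (a - c) with hrdef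
    have hs : 0 < Real.sin p :=
      Real.sin_pos_of_pos_of_lt_pi hp.1 (lt_of_le_of_lt hp.2 (by linarith [Real.pi_pos]))
    have hcs : 0 < Real.cos p :=
      Real.cos_pos_of_mem_Ioo ⟨by linarith [hp.1, Real.pi_pos], lt_of_le_of_lt hp.2 hp2⟩
    have hr2 : (a - c) * r ^ 2 = a * Real.sin p ^ 2 := by
      rw [hrdef, div_pow, mul_pow, Real.sq_sqrt ha.le, Real.sq_sqrt hac.le]
      field_simp
    have hr3 : a - (a - c) * r ^ 2 = a * Real.cos p ^ 2 := by
      rw [hr2, Real.sin_sq]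
      ring
    have hv' := hv r hr
    rw [hr3, hr2] at hv'
    have hV : Vp S n a p = a * Real.sin p ^ 2 * w r := hv'
    have hWw : w r = Wr S n a p ^ 2 := by
      have h1 := Vp_eq h p
      rw [hV] at h1
      exact mul_left_cancel₀ (by positivity) h1
    have hW := Wr_pos h p
    have hsw : Real.sqrt (w r) = Wr S n a p := by
      rw [hWw, Real.sqrt_sq hW.le]
    have hsu : Real.sqrt (a * Real.cos p ^ 2) = Real.sqrt a * Real.cos p := by
      rw [Real.sqrt_mul ha.le, Real.sqrt_sq hcs.le]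
    have hpow : (a * Real.cos p ^ 2 + Vp S n a p) ^ k ≠ 0 := (pow_pos (uv_pos h p) k).ne'
    have hgr : (g ∘ fun p => Real.sqrt a * Real.sin p / Real.sqrt (a - c)) p =
        1 / (Real.sqrt a * Real.cos p * Wr S n a p * (a * Real.cos p ^ 2 + Vp S n a p) ^ k) := by
      change g r = _
      simp only [hg]
      rw [hr3, hr2, hsw, hsu, hV]
    rw [hgr]
    field_simp
  have hcongr : pI S n k c a = ∫ p in (0 : ℝ)..p1,
      Real.sqrt (a - c) * ((g ∘ fun p => Real.sqrt a * Real.sin p / Real.sqrt (a - c)) p *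
        (Real.sqrt a * Real.cos p / Real.sqrt (a - c))) := by
    unfold pI
    refine intervalIntegral.integral_congr_ae (Filter.Eventually.of_forall fun p hp => ?_)
    rw [uIoc_of_le hp0.le] at hp
    exact hpt p hp
  rw [hcongr, intervalIntegral.integral_const_mul, hsubst]

end Pool.Agent.CritPer.M
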