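import Pool.Agent.CritPer.M.Esc
import Pool.Agent.CritPer.M.Split

/-!
The inner part of the period: Hoelder dependence on the value at `u0`, uniformly for large
orbits.
-/

open Set Filter Topology Polynomial MeasureTheory

namespace Pool.Agent.CritPer.M

open Pool.Agent.CritPer.L

namespace InnerAux

theorem pow_sub_ge {x y : ℝ} (hy : 0 ≤ y) (hxy : y ≤ x) {N : ℕ} (hN : 1 ≤ N) :
    (x - y) * x ^ (N - 1) ≤ x ^ N - y ^ N := by
  obtain ⟨m, rfl⟩ : ∃ m, N = m + 1 := ⟨N - 1, by omega⟩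
  simp only [Nat.add_sub_cancel]
  have h1 : y ^ m ≤ x ^ m := pow_le_pow_left₀ hy hxy m
  have h2 : x ^ (m + 1) - y ^ (m + 1) - (x - y) * x ^ m = y * (x ^ m - y ^ m) := by ring
  nlinarith [mul_nonneg hy (sub_nonneg.2 h1)]

theorem pow_sub_le {x y : ℝ} (hy : 0 ≤ y) (hxy : y ≤ x) (N : ℕ) :
    x ^ N - y ^ N ≤ N * x ^ (N - 1) * (x - y) := by
  have h1 := (le_abs_self _).trans (abs_pow_sub_pow_le x y N)
  have h2 : |x| = x := abs_of_nonneg (hy.trans hxy)
  have h3 : |y| = y := abs_of_nonneg hy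
  rw [h2, h3, max_eq_left hxy, abs_of_nonneg (sub_nonneg.2 hxy)] at h1
  linarith

/-- Gronwall, to the left. -/
theorem gron {D D' : ℝ → ℝ} {c b L : ℝ} (hc : ContinuousOn D (Icc c b))
    (hd : ∀ u ∈ Ioo c b, HasDerivAt D (D' u) u) (hL : ∀ u ∈ Ioo c b, -(L * D u) ≤ D' u) :
    ∀ u ∈ Icc c b, D u ≤ D b * Real.exp (L * (b - u)) := by
  intro u hu
  have hder : ∀ u ∈ Ioo c b, HasDerivAt (fun u => D u * Real.exp (L * u))
      (D' u * Real.exp (L * u) + D u * (Real.exp (L * u) * L)) u := by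
    intro u hu
    have h3 : HasDerivAt (fun u => Real.exp (L * u)) (Real.exp (L * u) * L) u := by
      have := ((hasDerivAt_id u).const_mul L).exp
      simpa using this
    exact (hd u hu).mul h3
  have hmono : MonotoneOn (fun u => D u * Real.exp (L * u)) (Icc c b) := by
    refine monotoneOn_of_deriv_nonneg (convex_Icc c b) ?_ ?_ ?_
    · exact hc.mul (by fun_prop)
    · rw [interior_Icc]
      intro u hu
      exact (hder u hu).differentiableAt.differentiableWithinAt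
    · rw [interior_Icc]
      intro u hu
      rw [(hder u hu).deriv]
      have h4 := hL u hu
      have h5 := Real.exp_pos (L * u)
      nlinarith
  have h6 := hmono hu ⟨hu.1.trans hu.2, le_rfl⟩ hu.2
  simp only at h6
  have h7 : Real.exp (L * (b - u)) * Real.exp (L * u) = Real.exp (L * b) := by
    rw [← Real.exp_add]
    congr 1
    ring
  have h8 := Real.exp_pos (L * u)
  have h9 : D u * Real.exp (L * u) ≤ D b * Real.exp (L * (b - u)) * Real.exp (L * u) := by
    rw [mul_assoc, h7]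
    exact h6
  exact le_of_mul_le_mul_right h9 h8

theorem inv_pow_sub_le {x y c : ℝ} (hc : 0 < c) (hcx : c ≤ x) (hxy : x ≤ y) (N : ℕ) :
    1 / x ^ N - 1 / y ^ N ≤ N * (1 / c) ^ (N - 1) * (1 / c ^ 2) * (y - x) := by
  have hx : 0 < x := hc.trans_le hcx
  have hy : 0 < y := hx.trans_le hxy
  have h1 : 1 / y ≤ 1 / x := one_div_le_one_div_of_le hx hxy
  have h2 := pow_sub_le (x := 1 / x) (y := 1 / y) (by positivity) h1 N
  rw [one_div_pow, one_div_pow] at h2
  refine h2.trans ?_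
  have h3 : 1 / x - 1 / y ≤ 1 / c ^ 2 * (y - x) := by
    have e : 1 / x - 1 / y = 1 / (x * y) * (y - x) := by field_simp
    rw [e]
    have h4 : c ^ 2 ≤ x * y := by nlinarith
    have h5 : 1 / (x * y) ≤ 1 / c ^ 2 := one_div_le_one_div_of_le (by positivity) h4
    exact mul_le_mul_of_nonneg_right h5 (sub_nonneg.2 hxy)
  have h6 : (1 / x) ^ (N - 1) ≤ (1 / c) ^ (N - 1) :=
    pow_le_pow_left₀ (by positivity) (one_div_le_one_div_of_le hc hcx) _
  have h7 : 0 ≤ 1 / x - 1 / y := sub_nonneg.2 h1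
  calc (N : ℝ) * (1 / x) ^ (N - 1) * (1 / x - 1 / y)
      ≤ N * (1 / c) ^ (N - 1) * (1 / x - 1 / y) := by gcongr
    _ ≤ N * (1 / c) ^ (N - 1) * (1 / c ^ 2 * (y - x)) := by gcongr
    _ = _ := by ring

/-- The integrand. -/
theorem integrand_le {u p q c : ℝ} (hu : 0 ≤ u) (hc : 0 < c) (hcp : c ≤ p) (hpq : p ≤ q) {k : ℕ}
    (hk : 1 ≤ k) : 1 / (Real.sqrt p * (u + p) ^ k) - 1 / (Real.sqrt q * (u + q) ^ k) ≤
      (2 * k + 1 : ℕ) * (1 / Real.sqrt c) ^ (2 * k - 1) * (1 / p - 1 / q) := by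
  have hp : 0 < p := hc.trans_le hcp
  have hq : 0 < q := hp.trans_le hpq
  have key : ∀ z : ℝ, 0 < z → 1 / (Real.sqrt z * (u + z) ^ k) =
      (z / (u + z)) ^ k * (1 / Real.sqrt z) ^ (2 * k + 1) := by
    intro z hz
    have hs : 0 < Real.sqrt z := Real.sqrt_pos.2 hz
    have hz2 : z ^ k = Real.sqrt z ^ (2 * k) := by rw [pow_mul, Real.sq_sqrt hz.le]
    have huz : 0 < u + z := by linarith
    rw [div_pow, hz2, one_div_pow, pow_succ]
    field_simp
  have hsp : 0 < Real.sqrt p := Real.sqrt_pos.2 hp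
  have hsq : 0 < Real.sqrt q := Real.sqrt_pos.2 hq
  have hsc : 0 < Real.sqrt c := Real.sqrt_pos.2 hc
  rw [key p hp, key q hq]
  set σ := 1 / Real.sqrt p with hσ
  set τ := 1 / Real.sqrt q with hτ
  have hτ0 : 0 < τ := by rw [hτ]; positivity
  have hστ : τ ≤ σ := one_div_le_one_div_of_le hsp (Real.sqrt_le_sqrt hpq)
  have hσ0 : 0 < σ := hτ0.trans_le hστ
  have hσc : σ ≤ 1 / Real.sqrt c := one_div_le_one_div_of_le hsc (Real.sqrt_le_sqrt hcp)
  have hr : (p / (u + p)) ^ k ≤ (q / (u + q)) ^ k := by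
    refine pow_le_pow_left₀ (by positivity) ?_ k
    rw [div_le_div_iff₀ (by linarith) (by linarith)]
    nlinarith
  have hr1 : (q / (u + q)) ^ k ≤ 1 := by
    refine pow_le_one₀ (by positivity) ?_
    rw [div_le_one (by linarith)]
    linarith
  have h1 : σ ^ (2 * k + 1) - τ ^ (2 * k + 1) ≤
      (2 * k + 1 : ℕ) * σ ^ (2 * k + 1 - 1) * (σ - τ) := pow_sub_le hτ0.le hστ _
  have h0 : 0 ≤ σ ^ (2 * k + 1) - τ ^ (2 * k + 1) :=
    sub_nonneg.2 (pow_le_pow_left₀ hτ0.le hστ _)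
  have e1 : 1 / p - 1 / q = (σ - τ) * (σ + τ) := by
    have ep : 1 / p = σ ^ 2 := by rw [hσ, one_div_pow, Real.sq_sqrt hp.le]
    have eq' : 1 / q = τ ^ 2 := by rw [hτ, one_div_pow, Real.sq_sqrt hq.le]
    rw [ep, eq']
    ring
  have e2 : σ ^ (2 * k + 1 - 1) = σ ^ (2 * k - 1) * σ := by
    rw [← pow_succ]
    congr 1
    omega
  have h2 : (p / (u + p)) ^ k * σ ^ (2 * k + 1) - (q / (u + q)) ^ k * τ ^ (2 * k + 1) ≤
      σ ^ (2 * k + 1) - τ ^ (2 * k + 1) := by
    have h3 : (p / (u + p)) ^ k * σ ^ (2 * k + 1) ≤ (q / (u + q)) ^ k * σ ^ (2 * k + 1) :=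
      mul_le_mul_of_nonneg_right hr (by positivity)
    nlinarith
  have h4 : σ ^ (2 * k - 1) ≤ (1 / Real.sqrt c) ^ (2 * k - 1) := pow_le_pow_left₀ hσ0.le hσc _
  have h5 : 0 ≤ σ - τ := sub_nonneg.2 hστ
  calc (p / (u + p)) ^ k * σ ^ (2 * k + 1) - (q / (u + q)) ^ k * τ ^ (2 * k + 1)
      ≤ (2 * k + 1 : ℕ) * σ ^ (2 * k + 1 - 1) * (σ - τ) := h2.trans h1
    _ = (2 * k + 1 : ℕ) * σ ^ (2 * k - 1) * ((σ - τ) * σ) := by rw [e2]; ring
    _ ≤ (2 * k + 1 : ℕ) * (1 / Real.sqrt c) ^ (2 * k - 1) * ((σ - τ) * (σ + τ)) := by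
        have h6 : (σ - τ) * σ ≤ (σ - τ) * (σ + τ) :=
          mul_le_mul_of_nonneg_left (by linarith) h5
        have h7 : 0 ≤ (σ - τ) * σ := mul_nonneg h5 hσ0.le
        gcongr
    _ = _ := by rw [e1]

/-- The reversed polynomial is Lipschitz. -/
theorem exists_Ph_lip (S : ℝ[X]) (d : ℕ) {y0 : ℝ} (hy0 : 0 ≤ y0) : ∃ L, 0 ≤ L ∧
    ∀ x ∈ Icc 0 y0, ∀ y ∈ Icc 0 y0, |Ph S d x - Ph S d y| ≤ L * |x - y| := by
  refine ⟨∑ j ∈ Finset.range (d + 1), |S.coeff j| * (((d - j : ℕ) : ℝ) * y0 ^ (d - j - 1)),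
    Finset.sum_nonneg fun j _ => by positivity, fun x hx y hy => ?_⟩
  unfold Ph
  rw [← Finset.sum_sub_distrib, Finset.sum_mul]
  refine (Finset.abs_sum_le_sum_abs _ _).trans (Finset.sum_le_sum fun j _ => ?_)
  rw [← mul_sub, abs_mul, mul_assoc]
  refine mul_le_mul_of_nonneg_left ?_ (abs_nonneg _)
  refine (abs_pow_sub_pow_le x y (d - j)).trans ?_
  have h1 : max |x| |y| ≤ y0 := by
    rw [abs_of_nonneg hx.1, abs_of_nonneg hy.1]
    exact max_le hx.2 hy.2
  have h0 : 0 ≤ max |x| |y| := (abs_nonneg x).trans (le_max_left _ _)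
  calc |x - y| * ((d - j : ℕ) : ℝ) * max |x| |y| ^ (d - j - 1)
      ≤ |x - y| * ((d - j : ℕ) : ℝ) * y0 ^ (d - j - 1) := by gcongr
    _ = _ := by ring

end InnerAux

open InnerAux in
theorem inner_holder {S : ℝ[X]} {d n : ℕ} (hF : Fam S d n) {ε δ : ℝ} (hε : 0 < ε) (hδ : 0 < δ)
    (hok : ∀ a, 0 < a → Ok (fam S d ε δ) n a) {k : ℕ} (hk : 1 ≤ k) {u0 : ℝ} (hu0 : 0 < u0) :
    ∃ C A : ℝ, 0 < C ∧ u0 < A ∧ ∀ a b, A ≤ a → a < b →
      xI (fam S d ε δ) n k a 0 (Real.sqrt u0) - xI (fam S d ε δ) n k b 0 (Real.sqrt u0) ≤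
        C * (vs (fam S d ε δ) n b u0 - vs (fam S d ε δ) n a u0) ^ (1 / ((d : ℝ) - 1)) := by
  obtain ⟨y0, m, M, hP, -⟩ := exists_PhB hF hε hδ
  have hd2 := hF.hd
  have hdn := hF.hdn
  have hdeg : (fam S d ε δ).natDegree ≤ d := hF.natDegree ε δ
  set F := fam S d ε δ with hFdef
  obtain ⟨N, hN⟩ : ∃ N, N = d - 1 := ⟨_, rfl⟩
  obtain ⟨P, hPn⟩ : ∃ P, P = n - d + 1 := ⟨_, rfl⟩
  have hN1 : 1 ≤ N := by omega
  have hP1 : 1 ≤ P := by omega
  have hdN : d = N + 1 := by omega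
  have hNr : ((d : ℝ) - 1) = N := by rw [hdN]; push_cast; ring
  have hPr : ((n : ℝ) - d + 1) = P := by
    rw [hPn]
    push_cast [Nat.cast_sub hdn]
    ring
  have hNpos : (0 : ℝ) < N := by exact_mod_cast hN1
  have hPpos : (0 : ℝ) < P := by exact_mod_cast hP1
  have hy0 := hP.hy
  have hm := hP.hm
  -- the orbit of A
  set A := u0 + 1 with hA
  have hA0 : 0 < A := by linarith
  have hAu : u0 < A := by linarith
  have hcontA : ContinuousOn (vs F n A) (Icc 0 u0) :=
    (hok A hA0).contOn.mono (Icc_subset_Icc_right hAu.le)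
  obtain ⟨x0, hx0, hmin⟩ := isCompact_Icc.exists_isMinOn (nonempty_Icc.2 hu0.le) hcontA
  set c := vs F n A x0 with hcdef
  have hc : 0 < c := (hok A hA0).pos ⟨hx0.1, lt_of_le_of_lt hx0.2 hAu⟩
  have hca : ∀ a, A ≤ a → ∀ u ∈ Icc 0 u0, c ≤ vs F n a u := by
    intro a ha u hu
    have h1 : c ≤ vs F n A u := isMinOn_iff.1 hmin u hu
    rcases ha.eq_or_lt with h2 | h2
    · rw [← h2]
      exact h1
    · exact h1.trans ((hok A hA0).lt (hok a (hA0.trans h2)) h2 u ⟨hu.1, hu.2.trans hAu.le⟩).le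
  set c3 : ℝ := N * m / P with hc3def
  have hc3 : 0 < c3 := by positivity
  have zlo : ∀ a, A ≤ a → ∀ u ∈ Icc 0 u0, u ≤ y0 * vs F n a u →
      c3 * u ^ P ≤ 1 / vs F n a u ^ N := by
    intro a ha u hu huy
    have hoka := hok a (hA0.trans_le ha)
    have h1 := zeta_lo hd2 hdeg hdn hP le_rfl hoka.isW (u1 := u)
      ⟨hu.1, hu.2.trans (hAu.le.trans ha)⟩ (hc.trans_le (hca a ha u hu)) huy
    rw [hNr, hPr, ← hPn, ← hN, zero_pow (by omega), sub_zero] at h1
    have h2 : 0 < 1 / vs F n a 0 ^ N := by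
      have := hc.trans_le (hca a ha 0 ⟨le_rfl, hu0.le⟩)
      positivity
    linarith
  set u1 := min u0 (y0 * c) with hu1def
  have hu1 : 0 < u1 := lt_min hu0 (by positivity)
  have hu10 : u1 ≤ u0 := min_le_left _ _
  have hu1y : ∀ a, A ≤ a → ∀ u ∈ Icc 0 u1, u ≤ y0 * vs F n a u := by
    intro a ha u hu
    have h1 := hca a ha u ⟨hu.1, hu.2.trans hu10⟩
    calc u ≤ u1 := hu.2
      _ ≤ y0 * c := min_le_right _ _
      _ ≤ _ := by gcongr
  -- uniform bound on [u1,u0]
  obtain ⟨V, hV1, hV⟩ : ∃ V : ℝ, 1 ≤ V ∧ ∀ b, A ≤ b → ∀ u ∈ Icc u1 u0, vs F n b u ≤ V := by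
    refine ⟨max (u0 / y0) (max 1 (1 / (c3 * u1 ^ P))), (le_max_left _ _).trans (le_max_right _ _),
      fun b hb u hu => ?_⟩
    have hu' : u ∈ Icc 0 u0 := ⟨hu1.le.trans hu.1, hu.2⟩
    rcases le_or_gt u (y0 * vs F n b u) with h1 | h1
    · have h2 := zlo b hb u hu' h1
      have hvp : 0 < vs F n b u := hc.trans_le (hca b hb u hu')
      rcases le_or_gt (vs F n b u) 1 with h3 | h3
      · exact h3.trans ((le_max_left _ _).trans (le_max_right _ _))
      · have h4 : vs F n b u ≤ vs F n b u ^ N := le_self_pow₀ h3.le (by omega)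
        have h5 : c3 * u1 ^ P ≤ 1 / vs F n b u ^ N :=
          (mul_le_mul_of_nonneg_left (pow_le_pow_left₀ hu1.le hu.1 P) hc3.le).trans h2
        have h6 : vs F n b u ^ N ≤ 1 / (c3 * u1 ^ P) := by
          rw [le_div_iff₀ (by positivity)]
          rw [le_div_iff₀ (by positivity)] at h5
          linarith
        exact (h4.trans h6).trans ((le_max_right _ _).trans (le_max_right _ _))
    · refine le_trans ?_ (le_max_left _ _)
      have h2 : vs F n b u ≤ u / y0 := by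
        rw [le_div_iff₀ hy0]
        linarith
      exact h2.trans (by gcongr; exact hu.2)
  -- Gronwall on [u1,u0]
  set L : ℝ := ∑ j ∈ Finset.range (n + 1), |F.coeff j| * u0 ^ (n - j) * (j * V ^ (j - 1)) with hLdef
  have hL0 : 0 ≤ L := Finset.sum_nonneg fun j _ => by positivity
  have hgr : ∀ a b, A ≤ a → a < b → ∀ u ∈ Icc u1 u0,
      vs F n b u - vs F n a u ≤ (vs F n b u0 - vs F n a u0) * Real.exp (L * u0) := by
    intro a b ha hab u hu
    have hb := ha.trans hab.le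
    have hoka := hok a (hA0.trans_le ha)
    have hokb := hok b (hA0.trans_le hb)
    have hD : 0 ≤ vs F n b u0 - vs F n a u0 :=
      sub_nonneg.2 (hoka.lt hokb hab u0 ⟨hu0.le, hAu.le.trans ha⟩).le
    have h1 := gron (D := fun u => vs F n b u - vs F n a u)
      (D' := fun u => -(qf F n u (vs F n b u)) - -(qf F n u (vs F n a u))) (c := u1) (b := u0)
      (L := L) ((hokb.contOn.mono (Icc_subset_Icc hu1.le (hAu.le.trans hb))).sub
        (hoka.contOn.mono (Icc_subset_Icc hu1.le (hAu.le.trans ha))))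
      (fun u hu => ((hokb.isW.derAt ⟨hu1.trans hu.1, hu.2.trans (hAu.trans_le hb)⟩)).sub
        ((hoka.isW.derAt ⟨hu1.trans hu.1, hu.2.trans (hAu.trans_le ha)⟩)))
      (fun u hu => ?_) u hu
    · refine h1.trans (mul_le_mul_of_nonneg_left (Real.exp_le_exp.2 ?_) hD)
      exact mul_le_mul_of_nonneg_left (by linarith [hu.1]) hL0
    · have hu' : u ∈ Icc u1 u0 := ⟨hu.1.le, hu.2.le⟩
      have hu'' : u ∈ Icc 0 u0 := ⟨hu1.le.trans hu'.1, hu'.2⟩
      have h2 := qf_lip F n (U := u0) (R := V) (by linarith) (u := u) (x := vs F n b u)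
        (y := vs F n a u) (by rw [abs_of_nonneg hu''.1]; exact hu''.2)
        (by rw [abs_of_nonneg (hc.le.trans (hca b hb u hu''))]; exact hV b hb u hu')
        (by rw [abs_of_nonneg (hc.le.trans (hca a ha u hu''))]; exact hV a ha u hu')
      rw [← hLdef] at h2
      have h3 : 0 ≤ vs F n b u - vs F n a u :=
        sub_nonneg.2 (hoka.lt hokb hab u ⟨hu''.1, hu''.2.trans (hAu.le.trans ha)⟩).le
      rw [abs_of_nonneg h3] at h2
      have h4 := (abs_le.1 h2).2
      linarith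
  -- the difference of ζ on [0,u1]
  obtain ⟨LΦ, hLΦ0, hLΦ⟩ := exists_Ph_lip F d hy0.le
  set C5 : ℝ := N * (1 / c) ^ (N - 1) * (1 / c ^ 2) with hC5
  set C7 : ℝ := N * LΦ / (c3 * c) with hC7
  have hC70 : 0 ≤ C7 := by positivity
  have hC50 : 0 ≤ C5 := by positivity
  set C10 : ℝ := C5 * Real.exp (L * u0) * Real.exp (C7 * u1) with hC10
  have hC100 : 0 ≤ C10 := by positivity
  have hze : ∀ a b, A ≤ a → a < b → ∀ u ∈ Icc 0 u1,
      1 / vs F n a u ^ N - 1 / vs F n b u ^ N ≤ C10 * (vs F n b u0 - vs F n a u0) := by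
    intro a b ha hab u hu
    have hb := ha.trans hab.le
    have hoka := hok a (hA0.trans_le ha)
    have hokb := hok b (hA0.trans_le hb)
    have hpa : ∀ u ∈ Icc 0 u1, c ≤ vs F n a u := fun u hu => hca a ha u ⟨hu.1, hu.2.trans hu10⟩
    have hpb : ∀ u ∈ Icc 0 u1, c ≤ vs F n b u := fun u hu => hca b hb u ⟨hu.1, hu.2.trans hu10⟩
    have hlt : ∀ u ∈ Icc 0 u1, vs F n a u ≤ vs F n b u := fun u hu =>
      (hoka.lt hokb hab u ⟨hu.1, hu.2.trans (hu10.trans (hAu.le.trans ha))⟩).le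
    have hζd : ∀ a', A ≤ a' → ∀ u ∈ Ioo 0 u1, HasDerivAt (fun u => 1 / vs F n a' u ^ N)
        (N * u ^ (n - d) * Ph F d (u / vs F n a' u)) u := by
      intro a' ha' u hu
      have hok' := hok a' (hA0.trans_le ha')
      have hp' : 0 < vs F n a' u := hc.trans_le (hca a' ha' u ⟨hu.1.le, hu.2.le.trans hu10⟩)
      have h1 := hok'.isW.derAt (u := u) ⟨hu.1, hu.2.trans_le (hu10.trans (hAu.le.trans ha'))⟩
      have h2 : HasDerivAt (fun u => (vs F n a' u ^ N)⁻¹)
          (-(↑N * vs F n a' u ^ (N - 1) * -(qf F n u (vs F n a' u))) / (vs F n a' u ^ N) ^ 2) u :=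
        (h1.pow N).inv (pow_pos hp' N).ne'
      have e1 : (fun u => 1 / vs F n a' u ^ N) = (fun u => (vs F n a' u ^ N)⁻¹) := by
        funext z
        rw [one_div]
      rw [e1]
      refine h2.congr_deriv ?_
      rw [qf_Ph hdeg hdn hp'.ne']
      have e2 : vs F n a' u ^ d = vs F n a' u ^ (N - 1) * vs F n a' u ^ 2 := by
        rw [← pow_add]
        congr 1
        omega
      have e3 : vs F n a' u ^ N = vs F n a' u ^ (N - 1) * vs F n a' u := by
        rw [← pow_succ]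
        congr 1
        omega
      rw [e2, e3]
      field_simp
    have hcont : ContinuousOn (fun u => 1 / vs F n a u ^ N - 1 / vs F n b u ^ N) (Icc 0 u1) := by
      have hsub : ∀ a', A ≤ a' → Icc 0 u1 ⊆ Icc 0 a' := fun a' ha' =>
        Icc_subset_Icc_right (hu10.trans (hAu.le.trans ha'))
      refine ContinuousOn.sub ?_ ?_
      · exact continuousOn_const.div ((hoka.contOn.mono (hsub a ha)).pow N)
          fun x hx => (pow_pos (hc.trans_le (hpa x hx)) N).ne'
      · exact continuousOn_const.div ((hokb.contOn.mono (hsub b hb)).pow N)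
          fun x hx => (pow_pos (hc.trans_le (hpb x hx)) N).ne'
    have h1 := gron (D := fun u => 1 / vs F n a u ^ N - 1 / vs F n b u ^ N)
      (D' := fun u => N * u ^ (n - d) * Ph F d (u / vs F n a u) -
        N * u ^ (n - d) * Ph F d (u / vs F n b u)) (c := 0) (b := u1) (L := C7) hcont
      (fun u hu => (hζd a ha u hu).sub (hζd b hb u hu)) (fun u hu => ?_) u hu
    · refine h1.trans ?_
      have hu1m : u1 ∈ Icc 0 u1 := ⟨hu1.le, le_rfl⟩
      have h2 := inv_pow_sub_le hc (hpa u1 hu1m) (hlt u1 hu1m) N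
      rw [← hC5] at h2
      have h3 := hgr a b ha hab u1 ⟨le_rfl, hu10⟩
      have h4 : 1 / vs F n a u1 ^ N - 1 / vs F n b u1 ^ N ≤
          C5 * ((vs F n b u0 - vs F n a u0) * Real.exp (L * u0)) :=
        h2.trans (mul_le_mul_of_nonneg_left h3 hC50)
      have h5 : 0 ≤ 1 / vs F n a u1 ^ N - 1 / vs F n b u1 ^ N :=
        sub_nonneg.2 (one_div_le_one_div_of_le (pow_pos (hc.trans_le (hpa u1 hu1m)) N)
          (pow_le_pow_left₀ (hc.le.trans (hpa u1 hu1m)) (hlt u1 hu1m) N))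
      have h6 : Real.exp (C7 * (u1 - u)) ≤ Real.exp (C7 * u1) :=
        Real.exp_le_exp.2 (mul_le_mul_of_nonneg_left (by linarith [hu.1]) hC70)
      calc (1 / vs F n a u1 ^ N - 1 / vs F n b u1 ^ N) * Real.exp (C7 * (u1 - u))
          ≤ (1 / vs F n a u1 ^ N - 1 / vs F n b u1 ^ N) * Real.exp (C7 * u1) :=
            mul_le_mul_of_nonneg_left h6 h5
        _ ≤ C5 * ((vs F n b u0 - vs F n a u0) * Real.exp (L * u0)) * Real.exp (C7 * u1) :=
            mul_le_mul_of_nonneg_right h4 (Real.exp_pos _).le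
        _ = _ := by rw [hC10]; ring
    · have hu' : u ∈ Icc 0 u1 := ⟨hu.1.le, hu.2.le⟩
      have hu'' : u ∈ Icc 0 u0 := ⟨hu.1.le, hu.2.le.trans hu10⟩
      have hva : 0 < vs F n a u := hc.trans_le (hpa u hu')
      have hvb : 0 < vs F n b u := hc.trans_le (hpb u hu')
      have hya : u / vs F n a u ∈ Icc 0 y0 := ⟨div_nonneg hu'.1 hva.le, by
        rw [div_le_iff₀ hva]; exact hu1y a ha u hu'⟩
      have hyb : u / vs F n b u ∈ Icc 0 y0 := ⟨div_nonneg hu'.1 hvb.le, by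
        rw [div_le_iff₀ hvb]; exact hu1y b hb u hu'⟩
      have h1 := (abs_le.1 (hLΦ _ hya _ hyb)).1
      have hinv : 1 / vs F n b u ≤ 1 / vs F n a u := one_div_le_one_div_of_le hva (hlt u hu')
      have e1 : u / vs F n a u - u / vs F n b u = u * (1 / vs F n a u - 1 / vs F n b u) := by ring
      have h0 : 0 ≤ u / vs F n a u - u / vs F n b u := by
        rw [e1]
        exact mul_nonneg hu'.1 (sub_nonneg.2 hinv)
      rw [abs_of_nonneg h0, e1] at h1
      have h2 := pow_sub_ge (x := 1 / vs F n a u) (y := 1 / vs F n b u) (by positivity) hinv hN1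
      rw [one_div_pow, one_div_pow, one_div_pow] at h2
      -- u^P (1/va - 1/vb) ≤ e / (c3 c)
      set X := 1 / vs F n a u - 1 / vs F n b u with hX
      set e := 1 / vs F n a u ^ N - 1 / vs F n b u ^ N with he
      have hX0 : 0 ≤ X := sub_nonneg.2 hinv
      have h3 : X ≤ e * vs F n a u ^ (N - 1) := by
        have h4 : X = X * (1 / vs F n a u ^ (N - 1)) * vs F n a u ^ (N - 1) := by
          field_simp
        rw [h4]
        exact mul_le_mul_of_nonneg_right h2 (by positivity)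
      have he0 : 0 ≤ e := by
        by_contra hneg
        have : e * vs F n a u ^ (N - 1) < 0 := mul_neg_of_neg_of_pos (not_le.1 hneg) (by positivity)
        linarith
      have h5 := zlo a ha u hu'' (hu1y a ha u hu')
      have h6 : u ^ P * vs F n a u ^ (N - 1) ≤ 1 / (c3 * c) := by
        have h7 : vs F n a u ^ N = vs F n a u ^ (N - 1) * vs F n a u := by
          rw [← pow_succ]
          congr 1
          omega
        rw [le_div_iff₀ (by positivity)] at h5 ⊢
        rw [h7] at h5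
        have h8 := hpa u hu'
        calc u ^ P * vs F n a u ^ (N - 1) * (c3 * c)
            = c3 * u ^ P * (vs F n a u ^ (N - 1) * c) := by ring
          _ ≤ c3 * u ^ P * (vs F n a u ^ (N - 1) * vs F n a u) := by
              have : 0 ≤ u := hu'.1
              gcongr
          _ ≤ 1 := h5
      have h7 : u ^ P * X ≤ e / (c3 * c) := by
        have hu0' : 0 ≤ u := hu'.1
        calc u ^ P * X ≤ u ^ P * (e * vs F n a u ^ (N - 1)) := by gcongr
          _ = e * (u ^ P * vs F n a u ^ (N - 1)) := by ring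
          _ ≤ e * (1 / (c3 * c)) := by gcongr
          _ = _ := by ring
      have e4 : u ^ P = u ^ (n - d) * u := by rw [hPn, pow_succ]
      have h8 : 0 ≤ (N : ℝ) * u ^ (n - d) := by
        have : 0 ≤ u := hu'.1
        positivity
      calc -(C7 * e) = -(N * LΦ * (e / (c3 * c))) := by rw [hC7]; ring
        _ ≤ -(N * LΦ * (u ^ P * X)) := by
            have : 0 ≤ (N : ℝ) * LΦ := by positivity
            exact neg_le_neg (mul_le_mul_of_nonneg_left h7 this)
        _ = N * u ^ (n - d) * (-(LΦ * (u * X))) := by rw [e4]; ring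
        _ ≤ N * u ^ (n - d) * (Ph F d (u / vs F n a u) - Ph F d (u / vs F n b u)) :=
            mul_le_mul_of_nonneg_left h1 h8
        _ = _ := by ring
  -- the uniform bound for 1/va - 1/vb
  set C9 : ℝ := C10 ^ (1 / (N : ℝ)) + Real.exp (L * u0) * (1 / c ^ 2) * V with hC9
  have hC90 : 0 ≤ C9 := by
    have := Real.rpow_nonneg hC100 (1 / (N : ℝ))
    positivity
  have hX : ∀ a b, A ≤ a → a < b → ∀ u ∈ Icc 0 u0, 1 / vs F n a u - 1 / vs F n b u ≤
      C9 * (vs F n b u0 - vs F n a u0) ^ (1 / (N : ℝ)) := by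
    intro a b ha hab u hu
    have hb := ha.trans hab.le
    have hoka := hok a (hA0.trans_le ha)
    have hokb := hok b (hA0.trans_le hb)
    have hD : 0 < vs F n b u0 - vs F n a u0 :=
      sub_pos.2 (hoka.lt hokb hab u0 ⟨hu0.le, hAu.le.trans ha⟩)
    have hva := hca a ha u hu
    have hva' : 0 < vs F n a u := hc.trans_le hva
    have hvb := hca b hb u hu
    have hvb' : 0 < vs F n b u := hc.trans_le hvb
    have hlt : vs F n a u ≤ vs F n b u :=
      (hoka.lt hokb hab u ⟨hu.1, hu.2.trans (hAu.le.trans ha)⟩).le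
    have hDr : 0 ≤ (vs F n b u0 - vs F n a u0) ^ (1 / (N : ℝ)) := Real.rpow_nonneg hD.le _
    have hCr : 0 ≤ C10 ^ (1 / (N : ℝ)) := Real.rpow_nonneg hC100 _
    rcases le_total u u1 with h1 | h1
    · have h2 := hze a b ha hab u ⟨hu.1, h1⟩
      have hinv : 1 / vs F n b u ≤ 1 / vs F n a u := one_div_le_one_div_of_le hva' hlt
      have hX0 : 0 ≤ 1 / vs F n a u - 1 / vs F n b u := sub_nonneg.2 hinv
      have h3 : (1 / vs F n a u - 1 / vs F n b u) ^ N ≤
          1 / vs F n a u ^ N - 1 / vs F n b u ^ N := by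
        have h4 := pow_add_pow_le (x := 1 / vs F n a u - 1 / vs F n b u) (y := 1 / vs F n b u)
          hX0 (by positivity) (n := N) (by omega)
        rw [sub_add_cancel, one_div_pow, one_div_pow] at h4
        linarith
      have h4 : (1 / vs F n a u - 1 / vs F n b u) ^ N ≤ C10 * (vs F n b u0 - vs F n a u0) :=
        h3.trans h2
      have h5 : 1 / vs F n a u - 1 / vs F n b u ≤
          (C10 * (vs F n b u0 - vs F n a u0)) ^ (1 / (N : ℝ)) := by
        calc 1 / vs F n a u - 1 / vs F n b u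
            = ((1 / vs F n a u - 1 / vs F n b u) ^ N) ^ ((N : ℝ)⁻¹) :=
              (Real.pow_rpow_inv_natCast hX0 (by omega)).symm
          _ ≤ (C10 * (vs F n b u0 - vs F n a u0)) ^ ((N : ℝ)⁻¹) :=
              Real.rpow_le_rpow (pow_nonneg hX0 N) h4 (by positivity)
          _ = _ := by rw [one_div]
      rw [Real.mul_rpow hC100 hD.le] at h5
      refine h5.trans (mul_le_mul_of_nonneg_right ?_ hDr)
      rw [hC9]
      have : 0 ≤ Real.exp (L * u0) * (1 / c ^ 2) * V := by positivity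
      linarith
    · have h2 := hgr a b ha hab u ⟨h1, hu.2⟩
      have h3 := inv_pow_sub_le hc hva hlt 1
      simp only [pow_one, Nat.cast_one, Nat.sub_self, pow_zero, one_mul] at h3
      have hDV : vs F n b u0 - vs F n a u0 ≤ V := by
        have h4 := hV b hb u0 ⟨hu10, le_rfl⟩
        have h5 := hca a ha u0 ⟨hu0.le, le_rfl⟩
        linarith
      have h4 : vs F n b u0 - vs F n a u0 ≤ V * (vs F n b u0 - vs F n a u0) ^ (1 / (N : ℝ)) := by
        set D := vs F n b u0 - vs F n a u0 with hDdef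
        have hN1' : (1 : ℝ) ≤ N := by exact_mod_cast hN1
        have hNle : 1 / (N : ℝ) ≤ 1 := by
          rw [div_le_one hNpos]
          exact hN1'
        rcases le_total D 1 with h5 | h5
        · have h6 : D ^ (1 : ℝ) ≤ D ^ (1 / (N : ℝ)) :=
            Real.rpow_le_rpow_of_exponent_ge hD h5 hNle
          rw [Real.rpow_one] at h6
          nlinarith
        · have h6 : 1 ≤ D ^ (1 / (N : ℝ)) := Real.one_le_rpow h5 (by positivity)
          nlinarith
      calc 1 / vs F n a u - 1 / vs F n b u ≤ 1 / c ^ 2 * (vs F n b u - vs F n a u) := h3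
        _ ≤ 1 / c ^ 2 * ((vs F n b u0 - vs F n a u0) * Real.exp (L * u0)) := by gcongr
        _ ≤ 1 / c ^ 2 * ((V * (vs F n b u0 - vs F n a u0) ^ (1 / (N : ℝ))) *
            Real.exp (L * u0)) := by gcongr
        _ = Real.exp (L * u0) * (1 / c ^ 2) * V *
            (vs F n b u0 - vs F n a u0) ^ (1 / (N : ℝ)) := by ring
        _ ≤ _ := by
            refine mul_le_mul_of_nonneg_right ?_ hDr
            rw [hC9]
            linarith
  -- integration
  set C8 : ℝ := (2 * k + 1 : ℕ) * (1 / Real.sqrt c) ^ (2 * k - 1) with hC8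
  have hC80 : 0 ≤ C8 := by positivity
  refine ⟨Real.sqrt u0 * (C8 * C9) + 1, A, by positivity, hAu, fun a b ha hab => ?_⟩
  have hb := ha.trans hab.le
  have hoka := hok a (hA0.trans_le ha)
  have hokb := hok b (hA0.trans_le hb)
  have hsq : Real.sqrt u0 ^ 2 = u0 := Real.sq_sqrt hu0.le
  have hca' := xI_continuousOn hoka (s := Real.sqrt u0) (by rw [hsq]; linarith) k
  have hcb' := xI_continuousOn hokb (s := Real.sqrt u0) (by rw [hsq]; linarith) k
  have hs0 : 0 ≤ Real.sqrt u0 := Real.sqrt_nonneg _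
  have hD : 0 < vs F n b u0 - vs F n a u0 :=
    sub_pos.2 (hoka.lt hokb hab u0 ⟨hu0.le, hAu.le.trans ha⟩)
  have hDr : 0 ≤ (vs F n b u0 - vs F n a u0) ^ (1 / (N : ℝ)) := Real.rpow_nonneg hD.le _
  rw [hNr]
  unfold xI
  rw [← intervalIntegral.integral_sub
    (ContinuousOn.intervalIntegrable (by rwa [uIcc_of_le hs0]))
    (ContinuousOn.intervalIntegrable (by rwa [uIcc_of_le hs0]))]
  have h1 : ∀ x ∈ Icc 0 (Real.sqrt u0),
      1 / (Real.sqrt (vs F n a (x ^ 2)) * (x ^ 2 + vs F n a (x ^ 2)) ^ k) -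
      1 / (Real.sqrt (vs F n b (x ^ 2)) * (x ^ 2 + vs F n b (x ^ 2)) ^ k) ≤
      C8 * (C9 * (vs F n b u0 - vs F n a u0) ^ (1 / (N : ℝ))) := by
    intro x hx
    have hx2 : x ^ 2 ∈ Icc 0 u0 := ⟨sq_nonneg x, by
      rw [← hsq]; exact pow_le_pow_left₀ hx.1 hx.2 2⟩
    have h2 := integrand_le (u := x ^ 2) hx2.1 hc (hca a ha _ hx2)
      (hoka.lt hokb hab _ ⟨hx2.1, hx2.2.trans (hAu.le.trans ha)⟩).le hk
    refine h2.trans ?_
    rw [← hC8]
    exact mul_le_mul_of_nonneg_left (hX a b ha hab _ hx2) hC80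
  refine (intervalIntegral.integral_mono_on hs0
    (ContinuousOn.intervalIntegrable (by rw [uIcc_of_le hs0]; exact hca'.sub hcb'))
    intervalIntegrable_const h1).trans ?_
  rw [intervalIntegral.integral_const, sub_zero, smul_eq_mul]
  calc Real.sqrt u0 * (C8 * (C9 * (vs F n b u0 - vs F n a u0) ^ (1 / (N : ℝ))))
      = Real.sqrt u0 * (C8 * C9) * (vs F n b u0 - vs F n a u0) ^ (1 / (N : ℝ)) := by ring
    _ ≤ _ := mul_le_mul_of_nonneg_right (by linarith) hDr

end Pool.Agent.CritPer.M
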