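import Pool.Agent.CritPer.M.Decay
import Pool.Agent.CritPer.M.Inner
import Pool.Agent.CritPer.M.Split
import Pool.Agent.CritPer.L.PartI
import Pool.Agent.CritPer.L.PartIII

/-!
For `k ≥ 1` the period of very large orbits increases.
-/

open Set Filter Topology Polynomial MeasureTheory

namespace Pool.Agent.CritPer.M

open Pool.Agent.CritPer.L

namespace Inc

variable {S : ℝ[X]} {n : ℕ} {a b : ℝ}

/-- Lower bound of the outer piece. -/
theorem first (h : Ok S n b) {κ r s : ℝ} (hκ : 0 < κ) (hr : 0 < r) (hrs : r ≤ s) (hs : s ^ 2 < b)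
    (hv : ∀ u ∈ Icc (r ^ 2) (s ^ 2), vs S n b u ≤ κ * u) (k : ℕ) :
    (s - r) * (1 / (Real.sqrt κ * s * ((1 + κ) * s ^ 2) ^ k)) ≤ xI S n k b r s := by
  have hs0 : 0 < s := lt_of_lt_of_le hr hrs
  have hsk : 0 < Real.sqrt κ := Real.sqrt_pos.2 hκ
  have hI : IntervalIntegrable (fun x : ℝ => 1 / (Real.sqrt (vs S n b (x ^ 2)) *
      (x ^ 2 + vs S n b (x ^ 2)) ^ k)) volume r s := by
    refine ContinuousOn.intervalIntegrable ?_
    rw [uIcc_of_le hrs]
    exact (xI_continuousOn h hs k).mono (Icc_subset_Icc_left hr.le)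
  have h1 := intervalIntegral.integral_mono_on (μ := volume) hrs
    (intervalIntegrable_const (c := 1 / (Real.sqrt κ * s * ((1 + κ) * s ^ 2) ^ k))) hI
    (fun x hx => ?_)
  · rw [intervalIntegral.integral_const, smul_eq_mul] at h1
    exact h1
  · have hx0 : 0 < x := lt_of_lt_of_le hr hx.1
    have hx2 : x ^ 2 ≤ s ^ 2 := pow_le_pow_left₀ hx0.le hx.2 2
    have hx3 : r ^ 2 ≤ x ^ 2 := pow_le_pow_left₀ hr.le hx.1 2
    have hp : 0 < vs S n b (x ^ 2) := h.pos ⟨sq_nonneg x, lt_of_le_of_lt hx2 hs⟩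
    have hv1 := hv (x ^ 2) ⟨hx3, hx2⟩
    have hv2 : κ * x ^ 2 ≤ κ * s ^ 2 := mul_le_mul_of_nonneg_left hx2 hκ.le
    have hsp : 0 < Real.sqrt (vs S n b (x ^ 2)) := Real.sqrt_pos.2 hp
    have hxp : 0 < x ^ 2 + vs S n b (x ^ 2) := by positivity
    refine one_div_le_one_div_of_le (mul_pos hsp (pow_pos hxp k)) ?_
    have e1 : Real.sqrt (vs S n b (x ^ 2)) ≤ Real.sqrt κ * s := by
      calc Real.sqrt (vs S n b (x ^ 2)) ≤ Real.sqrt (κ * s ^ 2) :=
            Real.sqrt_le_sqrt (hv1.trans hv2)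
        _ = _ := by rw [Real.sqrt_mul hκ.le, Real.sqrt_sq hs0.le]
    refine mul_le_mul e1 (pow_le_pow_left₀ hxp.le ?_ k) (pow_nonneg hxp.le k) (by positivity)
    nlinarith

/-- Upper bound of the outermost piece. -/
theorem second (h : Ok S n a) {c : ℝ} (hc2 : a / 2 ≤ c) (hca : c < a)
    (hv : ∀ u ∈ Icc c a, (a - u) * a ^ n / (2 * (n + 1)) ≤ vs S n a u) (k : ℕ) :
    pI S n k c a ≤ Real.pi / 2 * (1 / (Real.sqrt (a ^ n / (2 * (n + 1))) * (a / 2) ^ k)) := by
  have ha := h.ha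
  have hc : 0 < c := by linarith
  obtain ⟨h1, h2, h3⟩ := PartI.arc_facts ha hc hca
  have hcont : Continuous
      (fun p => 1 / (Wr S n a p * (a * Real.cos p ^ 2 + Vp S n a p) ^ k)) := by
    refine continuous_const.div ((continuous_Wr h).mul
      (((continuous_const.mul (Real.continuous_cos.pow 2)).add (continuous_Vp h)).pow k))
      (fun p => ?_)
    exact (mul_pos (Wr_pos h p) (pow_pos (uv_pos h p) k)).ne'
  have hn1 : (0 : ℝ) < 2 * (n + 1) := by positivity
  have hA : 0 < a ^ n / (2 * ((n : ℝ) + 1)) := div_pos (pow_pos ha n) hn1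
  have hsA : 0 < Real.sqrt (a ^ n / (2 * ((n : ℝ) + 1))) := Real.sqrt_pos.2 hA
  have h4 := intervalIntegral.integral_mono_on_of_le_Ioo h1.le
    (hcont.intervalIntegrable (μ := volume) _ _)
    (intervalIntegrable_const (c := 1 / (Real.sqrt (a ^ n / (2 * (n + 1))) * (a / 2) ^ k)))
    (fun p hp => ?_)
  · unfold pI
    refine h4.trans ?_
    rw [intervalIntegral.integral_const, smul_eq_mul, sub_zero]
    refine mul_le_mul_of_nonneg_right h2.le ?_
    positivity
  · obtain ⟨hcos, hu1, hu2⟩ := h3 p ⟨hp.1.le, hp.2.le⟩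
    have hsin : 0 < Real.sin p :=
      Real.sin_pos_of_pos_of_lt_pi hp.1 (by linarith [hp.2, Real.pi_pos])
    have h5 := hv _ ⟨hu1, hu2⟩
    have h6 : Vp S n a p = vs S n a (a * Real.cos p ^ 2) := rfl
    rw [← h6, Vp_eq h] at h5
    have h7 : (a - a * Real.cos p ^ 2) = a * Real.sin p ^ 2 := by
      rw [Real.sin_sq]
      ring
    rw [h7] at h5
    have h8 : a ^ n / (2 * ((n : ℝ) + 1)) ≤ Wr S n a p ^ 2 := by
      have h9 : 0 < a * Real.sin p ^ 2 := by positivity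
      refine le_of_mul_le_mul_left ?_ h9
      calc a * Real.sin p ^ 2 * (a ^ n / (2 * ((n : ℝ) + 1))) =
            a * Real.sin p ^ 2 * a ^ n / (2 * ((n : ℝ) + 1)) := by ring
        _ ≤ _ := h5
    have h9 : Real.sqrt (a ^ n / (2 * ((n : ℝ) + 1))) ≤ Wr S n a p := by
      rw [Real.sqrt_le_left (Wr_pos h p).le]
      exact h8
    have ha2 : 0 < a / 2 := by linarith
    refine one_div_le_one_div_of_le (mul_pos hsA (pow_pos ha2 k)) ?_
    have hV : 0 ≤ Vp S n a p := h.nonneg ⟨by linarith, hu2⟩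
    exact mul_le_mul h9 (pow_le_pow_left₀ ha2.le (by linarith) k) (pow_nonneg ha2.le k)
      (Wr_pos h p).le

/-- The comparison function of the middle piece. -/
theorem third_aux {k : ℕ} {u0 uc lam : ℝ} (hu0 : 0 < u0) (hlam : 0 < lam)
    (hul : (2 + 2 * k) / lam ≤ u0) (huc : u0 ≤ uc) {f : ℝ → ℝ} {M : ℝ} (hM : 0 ≤ M)
    (hf : IntervalIntegrable f volume (Real.sqrt u0) (Real.sqrt uc))
    (hb : ∀ x ∈ Icc (Real.sqrt u0) (Real.sqrt uc),
      f x ≤ M * (Real.exp (-lam * (uc - x ^ 2)) / x ^ (2 * k + 1))) :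
    ∫ x in (Real.sqrt u0)..(Real.sqrt uc), f x ≤ M * (1 / (lam * uc ^ (k + 1))) := by
  have huc0 : 0 < uc := lt_of_lt_of_le hu0 huc
  have hs : Real.sqrt u0 ≤ Real.sqrt uc := Real.sqrt_le_sqrt huc
  have hs0 : 0 < Real.sqrt u0 := Real.sqrt_pos.2 hu0
  set G : ℝ → ℝ := fun x => Real.exp (-lam * (uc - x ^ 2)) / (lam * x ^ (2 * k + 2)) with hG
  set G' : ℝ → ℝ := fun x => Real.exp (-lam * (uc - x ^ 2)) *
    (2 / x ^ (2 * k + 1) - (2 * k + 2) / (lam * x ^ (2 * k + 3))) with hG'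
  have hder : ∀ x ∈ Icc (Real.sqrt u0) (Real.sqrt uc), HasDerivAt G (G' x) x := by
    intro x hx
    have hx0 : 0 < x := lt_of_lt_of_le hs0 hx.1
    have h1 : HasDerivAt (fun x : ℝ => Real.exp (-lam * (uc - x ^ 2)))
        (Real.exp (-lam * (uc - x ^ 2)) * (-lam * -(2 * x))) x := by
      have h2 : HasDerivAt (fun x : ℝ => x ^ 2) (2 * x) x := by
        simpa using hasDerivAt_pow 2 x
      exact ((h2.const_sub uc).const_mul (-lam)).exp
    have h3 : HasDerivAt (fun x : ℝ => lam * x ^ (2 * k + 2))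
        (lam * ((2 * k + 2) * x ^ (2 * k + 1))) x := by
      have h4 := hasDerivAt_pow (2 * k + 2) x
      have h5 : 2 * k + 2 - 1 = 2 * k + 1 := by omega
      rw [h5] at h4
      push_cast at h4
      exact h4.const_mul lam
    refine (h1.div h3 (by positivity)).congr_deriv ?_
    simp only [hG']
    field_simp
    ring
  have hG'c : ContinuousOn G' (Icc (Real.sqrt u0) (Real.sqrt uc)) := by
    intro x hx
    have hx0 : 0 < x := lt_of_lt_of_le hs0 hx.1
    have h1 : ContinuousAt (fun x : ℝ => (2 : ℝ) / x ^ (2 * k + 1)) x :=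
      continuousAt_const.div (by fun_prop) (by positivity)
    have h2 : ContinuousAt (fun x : ℝ => (2 * (k : ℝ) + 2) / (lam * x ^ (2 * k + 3))) x :=
      continuousAt_const.div (by fun_prop) (by positivity)
    have h3 : ContinuousAt (fun x : ℝ => Real.exp (-lam * (uc - x ^ 2))) x := by fun_prop
    exact (h3.mul (h1.sub h2)).continuousWithinAt
  have hGi : IntervalIntegrable G' volume (Real.sqrt u0) (Real.sqrt uc) := by
    refine ContinuousOn.intervalIntegrable ?_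
    rwa [uIcc_of_le hs]
  have h1 := intervalIntegral.integral_mono_on hs hf (hGi.const_mul M) (fun x hx => ?_)
  · rw [intervalIntegral.integral_const_mul,
      intervalIntegral.integral_eq_sub_of_hasDerivAt (f := G) (by rwa [uIcc_of_le hs]) hGi] at h1
    refine h1.trans (mul_le_mul_of_nonneg_left ?_ hM)
    have h2 : 0 ≤ G (Real.sqrt u0) := by
      simp only [hG]
      positivity
    have h3 : G (Real.sqrt uc) = 1 / (lam * uc ^ (k + 1)) := by
      simp only [hG]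
      rw [Real.sq_sqrt huc0.le, sub_self, mul_zero, Real.exp_zero,
        show 2 * k + 2 = 2 * (k + 1) by ring, pow_mul, Real.sq_sqrt huc0.le]
    rw [h3]
    linarith
  · have hx0 : 0 < x := lt_of_lt_of_le hs0 hx.1
    refine (hb x hx).trans (mul_le_mul_of_nonneg_left ?_ hM)
    simp only [hG']
    rw [div_eq_mul_inv]
    refine mul_le_mul_of_nonneg_left ?_ (Real.exp_pos _).le
    have hx2 : u0 ≤ x ^ 2 := by
      have := pow_le_pow_left₀ hs0.le hx.1 2
      rwa [Real.sq_sqrt hu0.le] at this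
    have h2 : (2 * (k : ℝ) + 2) ≤ lam * x ^ 2 := by
      have h3 : (2 + 2 * (k : ℝ)) ≤ u0 * lam := (div_le_iff₀ hlam).1 hul
      nlinarith
    have h4 : (2 * (k : ℝ) + 2) / (lam * x ^ (2 * k + 3)) ≤ 1 / x ^ (2 * k + 1) := by
      rw [div_le_div_iff₀ (by positivity) (by positivity), one_mul]
      have h5 : lam * x ^ (2 * k + 3) = (lam * x ^ 2) * x ^ (2 * k + 1) := by ring
      rw [h5]
      exact mul_le_mul_of_nonneg_right h2 (by positivity)
    have h6 : (2 : ℝ) / x ^ (2 * k + 1) = 2 * (1 / x ^ (2 * k + 1)) := by ring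
    have h7 : (x ^ (2 * k + 1))⁻¹ = 1 / x ^ (2 * k + 1) := by rw [one_div]
    rw [h6, h7]
    linarith

/-- The middle piece. -/
theorem third (ha : Ok S n a) (hb : Ok S n b) (hab : a < b) {k : ℕ} {u0 uc κ2 lam C : ℝ}
    (hu0 : 0 < u0) (hlam : 0 < lam) (hul : (2 + 2 * k) / lam ≤ u0) (huc : u0 ≤ uc)
    (huca : uc < a) (hκ2 : 0 < κ2) (hC : 0 < C)
    (h2 : ∀ u ∈ Icc u0 uc, κ2 * u ≤ vs S n a u)
    (h4 : ∀ u ∈ Icc u0 uc,
      vs S n b u ≤ (1 + C * Real.exp (-lam * (uc - u))) * vs S n a u) :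
    xI S n k a (Real.sqrt u0) (Real.sqrt uc) - xI S n k b (Real.sqrt u0) (Real.sqrt uc) ≤
      ((k + 1) * C / Real.sqrt κ2) * (1 / (lam * uc ^ (k + 1))) := by
  have huc0 : 0 < uc := lt_of_lt_of_le hu0 huc
  have hs : Real.sqrt u0 ≤ Real.sqrt uc := Real.sqrt_le_sqrt huc
  have hs0 : 0 < Real.sqrt u0 := Real.sqrt_pos.2 hu0
  have hsk : 0 < Real.sqrt κ2 := Real.sqrt_pos.2 hκ2
  have hucs : Real.sqrt uc ^ 2 < a := by rwa [Real.sq_sqrt huc0.le]
  have hIa : IntervalIntegrable (fun x : ℝ => 1 / (Real.sqrt (vs S n a (x ^ 2)) *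
      (x ^ 2 + vs S n a (x ^ 2)) ^ k)) volume (Real.sqrt u0) (Real.sqrt uc) := by
    refine ContinuousOn.intervalIntegrable ?_
    rw [uIcc_of_le hs]
    exact (xI_continuousOn ha hucs k).mono (Icc_subset_Icc_left hs0.le)
  have hIb : IntervalIntegrable (fun x : ℝ => 1 / (Real.sqrt (vs S n b (x ^ 2)) *
      (x ^ 2 + vs S n b (x ^ 2)) ^ k)) volume (Real.sqrt u0) (Real.sqrt uc) := by
    refine ContinuousOn.intervalIntegrable ?_
    rw [uIcc_of_le hs]
    exact (xI_continuousOn hb (hucs.trans hab) k).mono (Icc_subset_Icc_left hs0.le)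
  unfold xI
  rw [← intervalIntegral.integral_sub hIa hIb]
  refine third_aux hu0 hlam hul huc (by positivity) (hIa.sub hIb) (fun x hx => ?_)
  have hx0 : 0 < x := lt_of_lt_of_le hs0 hx.1
  have hx2 : u0 ≤ x ^ 2 := by
    have := pow_le_pow_left₀ hs0.le hx.1 2
    rwa [Real.sq_sqrt hu0.le] at this
  have hx3 : x ^ 2 ≤ uc := by
    have := pow_le_pow_left₀ hx0.le hx.2 2
    rwa [Real.sq_sqrt huc0.le] at this
  have hA : 0 < vs S n a (x ^ 2) := ha.pos ⟨sq_nonneg x, lt_of_le_of_lt hx3 huca⟩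
  have hAB := ha.lt hb hab (x ^ 2) ⟨sq_nonneg x, hx3.trans huca.le⟩
  have hE : 0 ≤ C * Real.exp (-lam * (uc - x ^ 2)) := by positivity
  have h5 := (p3_point hA hAB.le (h4 (x ^ 2) ⟨hx2, hx3⟩) (sq_nonneg x) hE k).2
  have h6 : 1 / (Real.sqrt (vs S n a (x ^ 2)) * (x ^ 2 + vs S n a (x ^ 2)) ^ k) ≤
      1 / (Real.sqrt κ2 * x ^ (2 * k + 1)) := by
    refine one_div_le_one_div_of_le (by positivity) ?_
    have e1 : Real.sqrt κ2 * x ≤ Real.sqrt (vs S n a (x ^ 2)) := by
      calc Real.sqrt κ2 * x = Real.sqrt (κ2 * x ^ 2) := by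
            rw [Real.sqrt_mul hκ2.le, Real.sqrt_sq hx0.le]
        _ ≤ _ := Real.sqrt_le_sqrt (h2 _ ⟨hx2, hx3⟩)
    calc Real.sqrt κ2 * x ^ (2 * k + 1) = (Real.sqrt κ2 * x) * (x ^ 2) ^ k := by ring
      _ ≤ _ := mul_le_mul e1 (pow_le_pow_left₀ (by positivity) (by linarith) k) (by positivity)
          (Real.sqrt_nonneg _)
  have h7 : 1 / (Real.sqrt (vs S n a (x ^ 2)) * (x ^ 2 + vs S n a (x ^ 2)) ^ k) -
      1 / (Real.sqrt (vs S n b (x ^ 2)) * (x ^ 2 + vs S n b (x ^ 2)) ^ k) ≤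
      (k + 1) * (C * Real.exp (-lam * (uc - x ^ 2))) *
      (1 / (Real.sqrt (vs S n a (x ^ 2)) * (x ^ 2 + vs S n a (x ^ 2)) ^ k)) := by
    linarith
  refine h7.trans ?_
  calc (k + 1) * (C * Real.exp (-lam * (uc - x ^ 2))) *
      (1 / (Real.sqrt (vs S n a (x ^ 2)) * (x ^ 2 + vs S n a (x ^ 2)) ^ k)) ≤
      (k + 1) * (C * Real.exp (-lam * (uc - x ^ 2))) * (1 / (Real.sqrt κ2 * x ^ (2 * k + 1))) :=
        mul_le_mul_of_nonneg_left h6 (by positivity)
    _ = _ := by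
        field_simp

/-- The final inequality, for large `a`. -/
theorem large (k : ℕ) {c1 C3 C4 C6 c : ℝ} (hc1 : 0 < c1) (hc : 0 < c) :
    ∀ᶠ a : ℝ in atTop, C3 / (a * a ^ k) + C4 / (a * a ^ k) + C6 * Real.exp (-(c * a)) <
      c1 / a ^ k := by
  have h1 : Tendsto (fun a : ℝ => (C3 + C4) / a) atTop (𝓝 0) :=
    tendsto_const_nhds.div_atTop tendsto_id
  have h2 : Tendsto (fun a : ℝ => C6 / c ^ k * ((c * a) ^ k * Real.exp (-(c * a)))) atTop
      (𝓝 (C6 / c ^ k * 0)) := by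
    refine Tendsto.const_mul _ ?_
    exact (Real.tendsto_pow_mul_exp_neg_atTop_nhds_zero k).comp
      (tendsto_id.const_mul_atTop hc)
  have h3 := h1.add h2
  rw [mul_zero, add_zero] at h3
  filter_upwards [h3.eventually_lt_const hc1, eventually_gt_atTop 0] with a ha ha0
  have hck : c ^ k ≠ 0 := (pow_pos hc k).ne'
  have hak : 0 < a ^ k := pow_pos ha0 k
  rw [lt_div_iff₀ hak]
  refine lt_of_eq_of_lt ?_ ha
  rw [mul_pow]
  field_simp

end Inc

theorem inc_pair {S : ℝ[X]} {d n : ℕ} (hF : Fam S d n) {ε δ : ℝ} (hε : 0 < ε) (hδ : 0 < δ)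
    (hr : Root (fam S d ε δ)) (hok : ∀ a, 0 < a → Ok (fam S d ε δ) n a) {k : ℕ} (hk : 1 ≤ k)
    (A : ℝ) : ∃ a b, A < a ∧ a < b ∧ Ts (fam S d ε δ) n k a < Ts (fam S d ε δ) n k b := by
  have hd2 := hF.hd
  have hdn := hF.hdn
  have hn1 : 1 ≤ n := by omega
  have hn2 : 2 ≤ n := by omega
  obtain ⟨u0, κ, κ2, lam, C, A0, hu0, hκ2, hκκ, hlam, hC, hu0A, hdec⟩ :=
    decay hn1 ((hF.natDegree ε δ).trans hdn) (hF.coeff_zero ε δ) hr hok
  set F := fam S d ε δ with hFdef
  set u1 : ℝ := max u0 ((2 + 2 * (k : ℝ)) / lam) with hu1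
  have hu01 : u0 ≤ u1 := le_max_left _ _
  have hul : (2 + 2 * (k : ℝ)) / lam ≤ u1 := le_max_right _ _
  have hu1p : 0 < u1 := by linarith
  obtain ⟨C', A1, hC', -, hinn⟩ := inner_holder hF hε hδ hok hk hu1p
  have hκ : 0 < κ := lt_of_lt_of_le hκ2 hκκ
  have hsκ : 0 < Real.sqrt κ := Real.sqrt_pos.2 hκ
  have hsκ2 : 0 < Real.sqrt κ2 := Real.sqrt_pos.2 hκ2
  set C1 : ℝ := C * Real.exp C with hC1
  have hC1p : 0 < C1 := mul_pos hC (Real.exp_pos _)
  set p : ℝ := 1 / ((d : ℝ) - 1) with hp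
  have hd1 : (0 : ℝ) < (d : ℝ) - 1 := by
    have : (2 : ℝ) ≤ d := by exact_mod_cast hd2
    linarith
  have hpp : 0 < p := by positivity
  set C5 : ℝ := C1 * (κ * u1 * Real.exp (lam * u1)) with hC5
  have hC5p : 0 < C5 := by positivity
  set c1 : ℝ := (1 - Real.sqrt (2 / 3)) / (Real.sqrt κ * (3 * (1 + κ)) ^ k) with hc1
  have hs23 : Real.sqrt (2 / 3) < 1 := by
    rw [Real.sqrt_lt' one_pos]
    norm_num
  have hc1p : 0 < c1 := by
    have : 0 < 1 - Real.sqrt (2 / 3) := by linarith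
    positivity
  set C3 : ℝ := Real.pi / 2 * (Real.sqrt (2 * ((n : ℝ) + 1)) * 2 ^ k) with hC3
  set C4 : ℝ := ((k + 1) * C1 / Real.sqrt κ2) * (2 ^ (k + 1) / lam) with hC4
  have hcp : 0 < lam * p / 2 := by positivity
  obtain ⟨a, hlarge, haA, haA0, haA1, hau1, ha1⟩ :=
    ((Inc.large (C3 := C3) (C4 := C4) (C6 := C' * C5 ^ p) k hc1p hcp).and
      ((eventually_gt_atTop A).and ((eventually_ge_atTop A0).and ((eventually_ge_atTop A1).and
        ((eventually_gt_atTop (2 * u1)).and (eventually_ge_atTop 1)))))).exists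
  have ha0 : 0 < a := by linarith
  have hb0 : 0 < 4 * a := by linarith
  have hab : a < 4 * a := by linarith
  have hoka := hok a ha0
  have hokb := hok (4 * a) hb0
  refine ⟨a, 4 * a, haA, hab, ?_⟩
  obtain ⟨uc, huc0, huca, huc2, hv1, hv2, hv3, hv4⟩ := hdec a haA0
  obtain ⟨-, -, -, -, hw1, -, -, -⟩ := hdec (4 * a) (by linarith)
  have huc1 : u1 < uc := by linarith
  have hucp : 0 < uc := by linarith
  -- the ratio
  have hη : ∀ u ∈ Icc u1 uc, vs F n (4 * a) u ≤
      (1 + C1 * Real.exp (-lam * (uc - u))) * vs F n a u := by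
    intro u hu
    have hu' : u ∈ Icc u0 uc := ⟨hu01.trans hu.1, hu.2⟩
    have hup : 0 < u := lt_of_lt_of_le hu1p hu.1
    have hva : 0 < vs F n a u := hoka.pos ⟨hup.le, lt_of_le_of_lt hu.2 huca⟩
    have hvb : 0 < vs F n (4 * a) u := hokb.pos ⟨hup.le, by linarith [hu.2]⟩
    have h1 := hv4 (4 * a) hab u hu'
    set η : ℝ := C * Real.exp (-lam * (uc - u)) with hηd
    have hη0 : 0 < η := by positivity
    have hηC : η ≤ C := by
      have h2 : Real.exp (-lam * (uc - u)) ≤ 1 := by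
        rw [Real.exp_le_one_iff]
        have : 0 ≤ lam * (uc - u) := mul_nonneg hlam.le (by linarith [hu.2])
        linarith
      calc η ≤ C * 1 := mul_le_mul_of_nonneg_left h2 hC.le
        _ = C := mul_one C
    have h2 : vs F n (4 * a) u / vs F n a u ≤ Real.exp η :=
      (Real.log_le_iff_le_exp (div_pos hvb hva)).1 h1
    have h3 : Real.exp η ≤ 1 + C1 * Real.exp (-lam * (uc - u)) := by
      have h4 : 1 - η ≤ Real.exp (-η) := by
        have := Real.add_one_le_exp (-η)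
        linarith
      have h5 : Real.exp η * (1 - η) ≤ 1 := by
        calc Real.exp η * (1 - η) ≤ Real.exp η * Real.exp (-η) :=
              mul_le_mul_of_nonneg_left h4 (Real.exp_pos _).le
          _ = 1 := by rw [← Real.exp_add, add_neg_cancel, Real.exp_zero]
      have h6 : Real.exp η * η ≤ Real.exp C * η :=
        mul_le_mul_of_nonneg_right (Real.exp_le_exp.2 hηC) hη0.le
      have h7 : C1 * Real.exp (-lam * (uc - u)) = Real.exp C * η := by
        rw [hC1, hηd]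
        ring
      rw [h7]
      linarith
    rw [div_le_iff₀ hva] at h2
    exact h2.trans (mul_le_mul_of_nonneg_right h3 hva.le)
  -- splitting
  have e1 := Ts_split hoka hucp huca k
  have e2 := Ts_split hokb (c := 3 * a) (by linarith) (by linarith) k
  have hs3 : Real.sqrt (3 * a) ^ 2 < 4 * a := by
    rw [Real.sq_sqrt (by linarith)]
    linarith
  have hs2 : Real.sqrt (2 * a) ^ 2 < 4 * a := by
    rw [Real.sq_sqrt (by linarith)]
    linarith
  have hsu1 : 0 ≤ Real.sqrt u1 := Real.sqrt_nonneg _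
  have hsuc : Real.sqrt u1 ≤ Real.sqrt uc := Real.sqrt_le_sqrt huc1.le
  have hsuc2 : Real.sqrt uc ≤ Real.sqrt (2 * a) := Real.sqrt_le_sqrt (by linarith)
  have hs23a : Real.sqrt (2 * a) ≤ Real.sqrt (3 * a) := Real.sqrt_le_sqrt (by linarith)
  have e3 := xI_add hokb le_rfl hsu1 (hsuc.trans (hsuc2.trans hs23a)) hs3 k
  have e4 := xI_add hokb hsu1 hsuc (hsuc2.trans hs23a) hs3 k
  have e5 := xI_add hokb (hsu1.trans hsuc) hsuc2 hs23a hs3 k
  have e6 := xI_nonneg hokb (hsu1.trans hsuc) hsuc2 hs2 k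
  have e7 := pI_nonneg hokb (c := 3 * a) (by linarith) (by linarith) k
  have e8 := xI_add hoka le_rfl hsu1 hsuc (by rwa [Real.sq_sqrt hucp.le]) k
  -- the pieces
  have p1 : c1 / a ^ k ≤ xI F n k (4 * a) (Real.sqrt (2 * a)) (Real.sqrt (3 * a)) := by
    have h1 := Inc.first hokb hκ (r := Real.sqrt (2 * a)) (s := Real.sqrt (3 * a))
      (Real.sqrt_pos.2 (by linarith)) hs23a hs3 (fun u hu => hw1 u ⟨?_, ?_⟩) k
    · refine le_trans (le_of_eq ?_) h1
      have h2 : Real.sqrt (2 * a) = Real.sqrt (2 / 3) * Real.sqrt (3 * a) := by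
        rw [← Real.sqrt_mul (by norm_num)]
        congr 1
        ring
      have h3 : Real.sqrt (3 * a) ^ 2 = 3 * a := Real.sq_sqrt (by linarith)
      have h4 : 0 < Real.sqrt (3 * a) := Real.sqrt_pos.2 (by linarith)
      rw [h3, h2, hc1, show (1 + κ) * (3 * a) = (3 * (1 + κ)) * a by ring, mul_pow _ a k]
      have h5 : 0 < (3 * (1 + κ)) ^ k := by positivity
      have h6 : 0 < a ^ k := by positivity
      field_simp
    · rw [Real.sq_sqrt (by linarith)] at hu
      linarith [hu.1]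
    · rw [Real.sq_sqrt (by linarith : (0 : ℝ) ≤ 3 * a)] at hu
      linarith [hu.2]
  have p2 : pI F n k uc a ≤ C3 / (a * a ^ k) := by
    refine (Inc.second hoka huc2 huca hv3 k).trans ?_
    have h1 : a / Real.sqrt (2 * ((n : ℝ) + 1)) ≤ Real.sqrt (a ^ n / (2 * (n + 1))) := by
      have hnn : (0 : ℝ) ≤ 2 * ((n : ℝ) + 1) := by positivity
      have h2 : a / Real.sqrt (2 * ((n : ℝ) + 1)) = Real.sqrt (a ^ 2 / (2 * (n + 1))) := by
        rw [Real.sqrt_div (by positivity), Real.sqrt_sq ha0.le]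
      rw [h2]
      refine Real.sqrt_le_sqrt (div_le_div_of_nonneg_right ?_ hnn)
      exact pow_le_pow_right₀ ha1 hn2
    have h3 : 0 < Real.sqrt (2 * ((n : ℝ) + 1)) := Real.sqrt_pos.2 (by positivity)
    have h4 : 1 / (Real.sqrt (a ^ n / (2 * (n + 1))) * (a / 2) ^ k) ≤
        1 / (a / Real.sqrt (2 * ((n : ℝ) + 1)) * (a / 2) ^ k) := by
      refine one_div_le_one_div_of_le (by positivity) ?_
      exact mul_le_mul_of_nonneg_right h1 (by positivity)
    calc Real.pi / 2 * (1 / (Real.sqrt (a ^ n / (2 * (n + 1))) * (a / 2) ^ k)) ≤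
        Real.pi / 2 * (1 / (a / Real.sqrt (2 * ((n : ℝ) + 1)) * (a / 2) ^ k)) :=
          mul_le_mul_of_nonneg_left h4 (by positivity)
      _ = _ := by
          rw [hC3, div_pow]
          field_simp
  have p3 : xI F n k a (Real.sqrt u1) (Real.sqrt uc) -
      xI F n k (4 * a) (Real.sqrt u1) (Real.sqrt uc) ≤ C4 / (a * a ^ k) := by
    refine (Inc.third hoka hokb hab hu1p hlam hul huc1.le huca hκ2 hC1p
      (fun u hu => hv2 u ⟨hu1p.le.trans hu.1, hu.2⟩) hη).trans ?_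
    have h1 : (a / 2) ^ (k + 1) ≤ uc ^ (k + 1) := pow_le_pow_left₀ (by positivity) huc2 _
    have h2 : 1 / (lam * uc ^ (k + 1)) ≤ 1 / (lam * (a / 2) ^ (k + 1)) :=
      one_div_le_one_div_of_le (by positivity) (mul_le_mul_of_nonneg_left h1 hlam.le)
    calc ((k + 1) * C1 / Real.sqrt κ2) * (1 / (lam * uc ^ (k + 1))) ≤
        ((k + 1) * C1 / Real.sqrt κ2) * (1 / (lam * (a / 2) ^ (k + 1))) :=
          mul_le_mul_of_nonneg_left h2 (by positivity)
      _ = _ := by
          rw [hC4, div_pow]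
          field_simp
          ring
  have p4 : xI F n k a 0 (Real.sqrt u1) - xI F n k (4 * a) 0 (Real.sqrt u1) ≤
      C' * C5 ^ p * Real.exp (-(lam * p / 2 * a)) := by
    refine (hinn a (4 * a) haA1 hab).trans ?_
    rw [mul_assoc]
    refine mul_le_mul_of_nonneg_left ?_ hC'.le
    have h1 := hη u1 ⟨le_rfl, huc1.le⟩
    have h2 := hv1 u1 ⟨hu01, by linarith⟩
    have hlt := hoka.lt hokb hab u1 ⟨hu1p.le, by linarith⟩
    have h3 : vs F n (4 * a) u1 - vs F n a u1 ≤ C5 * Real.exp (-(lam / 2 * a)) := by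
      have h4 : Real.exp (-lam * (uc - u1)) ≤ Real.exp (lam * u1) * Real.exp (-(lam / 2 * a)) := by
        rw [← Real.exp_add]
        refine Real.exp_le_exp.2 ?_
        nlinarith
      calc vs F n (4 * a) u1 - vs F n a u1 ≤
            C1 * Real.exp (-lam * (uc - u1)) * vs F n a u1 := by linarith
        _ ≤ C1 * (Real.exp (lam * u1) * Real.exp (-(lam / 2 * a))) * (κ * u1) := by
            refine mul_le_mul (mul_le_mul_of_nonneg_left h4 hC1p.le) h2
              (hoka.nonneg ⟨hu1p.le, by linarith⟩) (by positivity)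
        _ = _ := by
            rw [hC5]
            ring
    calc (vs F n (4 * a) u1 - vs F n a u1) ^ p ≤ (C5 * Real.exp (-(lam / 2 * a))) ^ p :=
          Real.rpow_le_rpow (by linarith) h3 hpp.le
      _ = C5 ^ p * Real.exp (-(lam / 2 * a)) ^ p :=
          Real.mul_rpow hC5p.le (Real.exp_pos _).le
      _ = _ := by
          rw [← Real.exp_mul]
          congr 2
          ring
  rw [e1, e2]
  linarith

end Pool.Agent.CritPer.M
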