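import Pool.Agent.CritPer.M.Wf
import Pool.Agent.CritPer.M.Split

/-!
Large orbits lie below a ray; for `k = 0` the period tends to infinity.
-/

open Set Filter Topology Polynomial MeasureTheory

namespace Pool.Agent.CritPer.M

open Pool.Agent.CritPer.L

theorem vs_le_line {S : ℝ[X]} {n : ℕ} (hn : 1 ≤ n) (hdeg : S.natDegree ≤ n) {κ : ℝ} (hκ : 0 < κ)
    (hS : S.eval κ < 0) :
    ∃ u0 : ℝ, 1 ≤ u0 ∧ ∀ a, u0 ≤ a → Ok S n a → ∀ u ∈ Icc u0 a, vs S n a u ≤ κ * u := by
  refine ⟨max 1 (κ / -(S.eval κ)), le_max_left _ _, ?_⟩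
  intro a ha hok
  set u0 := max 1 (κ / -(S.eval κ)) with hu0
  have h1 : (1 : ℝ) ≤ u0 := le_max_left _ _
  have h2 : κ / -(S.eval κ) ≤ u0 := le_max_right _ _
  have hneg : 0 < -(S.eval κ) := by linarith
  have h3 : κ ≤ u0 * -(S.eval κ) := (div_le_iff₀ hneg).1 h2
  have hsub : Icc u0 a ⊆ Icc 0 a := Icc_subset_Icc_left (by linarith)
  refine le_of_barrier (S := S) (n := n) (m := fun u => κ * u) (m' := fun _ => κ)
    (hok.contOn.mono hsub) (by fun_prop) ?_ ?_ ?_ ?_
  · intro u hu
    exact hok.isW.derAt ⟨by linarith [hu.1], hu.2⟩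
  · intro u _
    simpa using (hasDerivAt_id u).const_mul κ
  · rw [hok.self]
    have : 0 ≤ a := by linarith
    positivity
  · intro u hu
    have hu0' : 0 < u := by linarith [hu.1]
    have hu1 : 1 ≤ u := by linarith [hu.1]
    have hq : qf S n u (κ * u) = u ^ n * S.eval κ := by
      rw [qf_eq hdeg hu0'.ne', mul_div_assoc, div_self hu0'.ne', mul_one]
    rw [hq]
    have h4 : u ≤ u ^ n := by
      calc u = u ^ 1 := (pow_one u).symm
        _ ≤ u ^ n := pow_le_pow_right₀ hu1 hn
    have h5 : u0 ≤ u ^ n := hu.1.le.trans h4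
    have h6 : u0 * -(S.eval κ) ≤ u ^ n * -(S.eval κ) := mul_le_mul_of_nonneg_right h5 hneg.le
    linarith

theorem Ts_top {S : ℝ[X]} {n : ℕ} (hn : 1 ≤ n) (hdeg : S.natDegree ≤ n) {κ : ℝ} (hκ : 0 < κ)
    (hS : S.eval κ < 0) (hok : ∀ a, 0 < a → Ok S n a) : Tendsto (Ts S n 0) atTop atTop := by
  obtain ⟨u0, hu0, hline⟩ := vs_le_line hn hdeg hκ hS
  have hu00 : 0 < u0 := by linarith
  have hlow : ∀ᶠ a in atTop, 4 / Real.sqrt κ * Real.log (Real.sqrt (a / 2) / Real.sqrt u0) ≤
      Ts S n 0 a := by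
    filter_upwards [eventually_ge_atTop (2 * u0)] with a ha
    have ha0 : 0 < a := by linarith
    have h := hok a ha0
    have hc : 0 < a / 2 := by linarith
    have hca : a / 2 < a := by linarith
    have h1 := Ts_split h hc hca 0
    have h2 := pI_nonneg h hc hca 0
    have hs : Real.sqrt u0 ≤ Real.sqrt (a / 2) := Real.sqrt_le_sqrt (by linarith)
    have hs2 : Real.sqrt (a / 2) ^ 2 < a := by rw [Real.sq_sqrt hc.le]; exact hca
    have h3 := xI_add h le_rfl (Real.sqrt_nonneg u0) hs hs2 0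
    have h4 := xI_nonneg h le_rfl (Real.sqrt_nonneg u0) (by
      rw [Real.sq_sqrt hu00.le]; linarith) 0
    have hpos : 0 < Real.sqrt u0 := Real.sqrt_pos.2 hu00
    have hκs : 0 < Real.sqrt κ := Real.sqrt_pos.2 hκ
    have h5 : 1 / Real.sqrt κ * Real.log (Real.sqrt (a / 2) / Real.sqrt u0) ≤
        xI S n 0 a (Real.sqrt u0) (Real.sqrt (a / 2)) := by
      rw [← integral_one_div_of_pos hpos (hpos.trans_le hs), ← intervalIntegral.integral_const_mul]
      unfold xI
      refine intervalIntegral.integral_mono_on hs ?_ ?_ ?_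
      · apply ContinuousOn.intervalIntegrable
        rw [uIcc_of_le hs]
        refine ContinuousOn.mul continuousOn_const (ContinuousOn.div continuousOn_const
          continuousOn_id ?_)
        intro x hx
        exact (hpos.trans_le hx.1).ne'
      · apply ContinuousOn.intervalIntegrable
        rw [uIcc_of_le hs]
        exact (xI_continuousOn h hs2 0).mono (Icc_subset_Icc_left (Real.sqrt_nonneg _))
      · intro x hx
        have hx0 : 0 < x := hpos.trans_le hx.1
        have hx1 : u0 ≤ x ^ 2 := by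
          have := pow_le_pow_left₀ hpos.le hx.1 2
          rwa [Real.sq_sqrt hu00.le] at this
        have hx2 : x ^ 2 ≤ a / 2 := by
          have := pow_le_pow_left₀ hx0.le hx.2 2
          rwa [Real.sq_sqrt hc.le] at this
        have hv := hline a (by linarith) h (x ^ 2) ⟨hx1, by linarith⟩
        have hvp : 0 < vs S n a (x ^ 2) := h.pos ⟨sq_nonneg x, by linarith⟩
        have h6 : Real.sqrt (vs S n a (x ^ 2)) ≤ Real.sqrt κ * x := by
          have := Real.sqrt_le_sqrt hv
          rwa [Real.sqrt_mul hκ.le, Real.sqrt_sq hx0.le] at this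
        rw [pow_zero, mul_one, one_div_mul_one_div]
        exact one_div_le_one_div_of_le (Real.sqrt_pos.2 hvp) h6
    have h7 : 4 / Real.sqrt κ * Real.log (Real.sqrt (a / 2) / Real.sqrt u0) =
        4 * (1 / Real.sqrt κ * Real.log (Real.sqrt (a / 2) / Real.sqrt u0)) := by ring
    rw [h7, h1, h3]
    linarith
  refine tendsto_atTop_mono' _ hlow ?_
  have hκs : 0 < 4 / Real.sqrt κ := div_pos (by norm_num) (Real.sqrt_pos.2 hκ)
  refine Tendsto.const_mul_atTop hκs (Real.tendsto_log_atTop.comp ?_)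
  refine Tendsto.atTop_div_const (Real.sqrt_pos.2 hu00) (Real.tendsto_sqrt_atTop.comp ?_)
  exact tendsto_id.atTop_div_const (by norm_num)

end Pool.Agent.CritPer.M
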