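import Pool.Agent.CritPer.M.Esc
import Pool.Agent.CritPer.M.Split

/-!
The inner part of the period near the last orbit: logarithmic gain.
-/

open Set Filter Topology Polynomial MeasureTheory

namespace Pool.Agent.CritPer.M

open Pool.Agent.CritPer.L

namespace NearC

theorem pow_sub_pow_le' {N : ℕ} {s t : ℝ} (hs : 0 ≤ s) (hst : s ≤ t) :
    t ^ N - s ^ N ≤ N * t ^ (N - 1) * (t - s) := by
  have ht : 0 ≤ t := hs.trans hst
  rw [← geom_sum₂_mul]
  refine mul_le_mul_of_nonneg_right ?_ (sub_nonneg.2 hst)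
  have : ∑ i ∈ Finset.range N, t ^ i * s ^ (N - 1 - i) ≤ ∑ _i ∈ Finset.range N, t ^ (N - 1) := by
    refine Finset.sum_le_sum fun i hi => ?_
    rw [Finset.mem_range] at hi
    calc t ^ i * s ^ (N - 1 - i) ≤ t ^ i * t ^ (N - 1 - i) :=
          mul_le_mul_of_nonneg_left (pow_le_pow_left₀ hs hst _) (pow_nonneg ht _)
      _ = t ^ (N - 1) := by
          rw [← pow_add]
          congr 1
          omega
  refine this.trans ?_
  rw [Finset.sum_const, Finset.card_range, nsmul_eq_mul]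

theorem root_gap {N : ℕ} (hN : N ≠ 0) {s σ B e : ℝ} (hs : 0 ≤ s) (hsσ : s ≤ σ)
    (h1 : e ≤ σ ^ N - s ^ N) (h2 : s ^ N + e ≤ B ^ N) (hB : 0 ≤ B) (he : 0 ≤ e) :
    e ≤ N * B ^ (N - 1) * (σ - s) := by
  have hsB : s ≤ B := by
    refine le_of_pow_le_pow_left₀ hN hB ?_
    linarith
  rcases le_total σ B with h | h
  · calc e ≤ σ ^ N - s ^ N := h1
      _ ≤ N * σ ^ (N - 1) * (σ - s) := pow_sub_pow_le' hs hsσ
      _ ≤ N * B ^ (N - 1) * (σ - s) := by
          refine mul_le_mul_of_nonneg_right ?_ (sub_nonneg.2 hsσ)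
          refine mul_le_mul_of_nonneg_left ?_ (Nat.cast_nonneg N)
          exact pow_le_pow_left₀ (hs.trans hsσ) h _
  · calc e ≤ B ^ N - s ^ N := by linarith
      _ ≤ N * B ^ (N - 1) * (B - s) := pow_sub_pow_le' hs hsB
      _ ≤ N * B ^ (N - 1) * (σ - s) := by
          refine mul_le_mul_of_nonneg_left ?_ (by positivity)
          linarith

/-- The pointwise estimate. `y ^ N = x ^ (2 P)`. -/
theorem pointwise {d k : ℕ} (hd2 : 2 ≤ d) {u v w x y α β y0 e : ℝ}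
    (hv : 0 < v) (hvw : v ≤ w) (hu : 0 ≤ u) (huw : u ≤ y0 * w) (hy0 : 0 < y0) (hx : 0 < x) (hy : 0 < y)
    (hα : 0 < α) (hβ : 0 < β) (he : 0 ≤ e)
    (hgap : e ≤ 1 / v ^ (d - 1) - 1 / w ^ (d - 1))
    (hlo : (α * y) ^ (2 * (d - 1)) ≤ 1 / w ^ (d - 1))
    (hhi : 1 / w ^ (d - 1) + e ≤ (β * y) ^ (2 * (d - 1)))
    (hxy : y ^ (2 * (d - 1) - 1) ≤ x * y ^ (2 * k)) :
    α ^ (2 * k) / ((2 * (d - 1) : ℕ) * β ^ (2 * (d - 1) - 1) * (1 + y0) ^ k) * e * (1 / x) ≤
      1 / (Real.sqrt v * (u + v) ^ k) - 1 / (Real.sqrt w * (u + w) ^ k) := by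
  have hw : 0 < w := hv.trans_le hvw
  set N := 2 * (d - 1) with hN
  have hN0 : N ≠ 0 := by omega
  set s := 1 / Real.sqrt w with hs
  set σ := 1 / Real.sqrt v with hσ
  have hsv : 0 < Real.sqrt v := Real.sqrt_pos.2 hv
  have hsw : 0 < Real.sqrt w := Real.sqrt_pos.2 hw
  have hs0 : 0 < s := by positivity
  have hσ0 : 0 < σ := by positivity
  have hsσ : s ≤ σ := one_div_le_one_div_of_le hsv (Real.sqrt_le_sqrt hvw)
  have e1 : s ^ N = 1 / w ^ (d - 1) := by
    rw [hs, hN, pow_mul, div_pow, Real.sq_sqrt hw.le, div_pow, one_pow, one_pow]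
  have e2 : σ ^ N = 1 / v ^ (d - 1) := by
    rw [hσ, hN, pow_mul, div_pow, Real.sq_sqrt hv.le, div_pow, one_pow, one_pow]
  have e3 : s ^ 2 = 1 / w := by
    rw [hs, div_pow, Real.sq_sqrt hw.le, one_pow]
  rw [← e1, ← e2] at hgap
  rw [← e1] at hlo hhi
  have hαs : α * y ≤ s := le_of_pow_le_pow_left₀ hN0 hs0.le hlo
  have hroot := root_gap hN0 hs0.le hsσ hgap hhi (by positivity) he
  have hB : 0 < (N : ℝ) * (β * y) ^ (N - 1) := by
    have : 0 < (N : ℝ) := by exact_mod_cast Nat.pos_of_ne_zero hN0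
    positivity
  have hdiff : e / (N * (β * y) ^ (N - 1)) ≤ σ - s := by
    rw [div_le_iff₀ hB]
    linarith
  have huw0 : 0 < u + w := by linarith
  have huv0 : 0 < u + v := by linarith
  have h3 : (α * y) ^ (2 * k) / (1 + y0) ^ k ≤ 1 / (u + w) ^ k := by
    have h4 : (α * y) ^ 2 / (1 + y0) ≤ 1 / (u + w) := by
      rw [div_le_div_iff₀ (by linarith) huw0]
      have h5 : (α * y) ^ 2 ≤ 1 / w := by
        rw [← e3]
        exact pow_le_pow_left₀ (by positivity) hαs 2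
      calc (α * y) ^ 2 * (u + w) ≤ 1 / w * (u + w) :=
            mul_le_mul_of_nonneg_right h5 huw0.le
        _ ≤ 1 / w * ((1 + y0) * w) := by
            refine mul_le_mul_of_nonneg_left ?_ (by positivity)
            linarith
        _ = 1 * (1 + y0) := by
            field_simp
    calc (α * y) ^ (2 * k) / (1 + y0) ^ k = ((α * y) ^ 2 / (1 + y0)) ^ k := by
          rw [div_pow, ← pow_mul]
      _ ≤ (1 / (u + w)) ^ k := pow_le_pow_left₀ (by positivity) h4 k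
      _ = 1 / (u + w) ^ k := by rw [div_pow, one_pow]
  have h6 : (σ - s) * (1 / (u + w) ^ k) ≤
      1 / (Real.sqrt v * (u + v) ^ k) - 1 / (Real.sqrt w * (u + w) ^ k) := by
    have e4 : 1 / (Real.sqrt v * (u + v) ^ k) = σ * (1 / (u + v) ^ k) := by
      rw [hσ]
      field_simp
    have e5 : 1 / (Real.sqrt w * (u + w) ^ k) = s * (1 / (u + w) ^ k) := by
      rw [hs]
      field_simp
    rw [e4, e5, sub_mul]
    have h7 : 1 / (u + w) ^ k ≤ 1 / (u + v) ^ k :=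
      one_div_le_one_div_of_le (by positivity) (pow_le_pow_left₀ huv0.le (by linarith) k)
    have h8 := mul_le_mul_of_nonneg_left h7 hσ0.le
    linarith
  refine le_trans ?_ h6
  refine le_trans ?_ (mul_le_mul hdiff h3 (by positivity) (by linarith))
  have h9 : 1 / x ≤ y ^ (2 * k) / y ^ (N - 1) := by
    rw [div_le_div_iff₀ hx (by positivity)]
    linarith
  have e6 : e / (N * (β * y) ^ (N - 1)) * ((α * y) ^ (2 * k) / (1 + y0) ^ k) =
      α ^ (2 * k) / (N * β ^ (N - 1) * (1 + y0) ^ k) * e * (y ^ (2 * k) / y ^ (N - 1)) := by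
    rw [mul_pow, mul_pow]
    have : (N : ℝ) ≠ 0 := by exact_mod_cast hN0
    field_simp
  rw [e6]
  refine mul_le_mul_of_nonneg_left h9 ?_
  have : 0 < (N : ℝ) := by exact_mod_cast Nat.pos_of_ne_zero hN0
  positivity

end NearC

open NearC in
theorem near_inner {F : ℝ[X]} {d n k : ℕ} (hd2 : 2 ≤ d) (hdn : d ≤ n) (hd : F.natDegree ≤ d)
    (hcond : d - 1 + (n - d + 1) * (2 * k + 1) ≤ (n - d + 1) * (2 * (d - 1)))
    {y0 m M : ℝ} (hP : PhB F d y0 m M) (hanti : AntitoneOn (Ph F d) (Icc 0 y0))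
    {u0 : ℝ} (hu0 : 0 < u0) (hu1 : u0 < 1) :
    ∃ c C2 : ℝ, 0 < c ∧ 0 < C2 ∧ ∀ a b, Ok F n a → Ok F n b → u0 < a → a < b →
      u0 ≤ y0 * vs F n a u0 → ∀ x0, 0 < x0 → x0 ≤ Real.sqrt u0 →
      1 / vs F n a u0 ^ (d - 1) - 1 / vs F n b u0 ^ (d - 1) ≤ C2 * x0 ^ (2 * (n - d + 1)) →
      1 / vs F n b 0 ^ (d - 1) ≤ C2 * x0 ^ (2 * (n - d + 1)) →
      c * (1 / vs F n a u0 ^ (d - 1) - 1 / vs F n b u0 ^ (d - 1)) *
        Real.log (Real.sqrt u0 / x0) ≤ xI F n k a 0 (Real.sqrt u0) - xI F n k b 0 (Real.sqrt u0) := by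
  set P := n - d + 1 with hPdef
  set N := 2 * (d - 1) with hN
  have hN0 : N ≠ 0 := by omega
  have hNpos : 0 < (N : ℝ) := by exact_mod_cast Nat.pos_of_ne_zero hN0
  have hNk : 2 * k + 1 < N := by
    by_contra hcon
    rw [not_lt] at hcon
    have := Nat.mul_le_mul_left P hcon
    omega
  have hPpos : 0 < (P : ℝ) := by
    rw [hPdef]
    positivity
  have hPr : (n : ℝ) - d + 1 = P := by
    rw [hPdef, Nat.cast_add, Nat.cast_sub hdn, Nat.cast_one]
  have hd1 : (0 : ℝ) < (d : ℝ) - 1 := by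
    have : (2 : ℝ) ≤ d := by exact_mod_cast hd2
    linarith
  have hmM : m ≤ M := (hP.lo 0 ⟨le_rfl, hP.hy.le⟩).trans (hP.hi 0 ⟨le_rfl, hP.hy.le⟩)
  have hm := hP.hm
  have hM : 0 < M := hm.trans_le hmM
  have hy0 := hP.hy
  set K1 := ((d : ℝ) - 1) * m / ((n : ℝ) - d + 1) with hK1
  set K2 := ((d : ℝ) - 1) * M / ((n : ℝ) - d + 1) with hK2
  have hK1p : 0 < K1 := by
    rw [hK1, hPr]
    positivity
  have hK2p : 0 < K2 := by
    rw [hK2, hPr]
    positivity
  set α := K1 ^ ((1 : ℝ) / N) with hα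
  set β := (3 * K2) ^ ((1 : ℝ) / N) with hβ
  have hαp : 0 < α := Real.rpow_pos_of_pos hK1p _
  have hβp : 0 < β := Real.rpow_pos_of_pos (by positivity) _
  have hαN : α ^ N = K1 := by
    rw [hα, ← Real.rpow_natCast, ← Real.rpow_mul hK1p.le, one_div, inv_mul_cancel₀ hNpos.ne',
      Real.rpow_one]
  have hβN : β ^ N = 3 * K2 := by
    rw [hβ, ← Real.rpow_natCast, ← Real.rpow_mul (by positivity), one_div,
      inv_mul_cancel₀ hNpos.ne', Real.rpow_one]
  set c := α ^ (2 * k) / ((N : ℕ) * β ^ (N - 1) * (1 + y0) ^ k) with hc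
  have hcp : 0 < c := by
    rw [hc]
    positivity
  refine ⟨c, K2, hcp, hK2p, ?_⟩
  intro a b ha hb hua hab hya x0 hx0 hx0u hgap0 hzb0
  have hub : u0 < b := hua.trans hab
  set e0 := 1 / vs F n a u0 ^ (d - 1) - 1 / vs F n b u0 ^ (d - 1) with he0
  have hva0 : 0 < vs F n a u0 := ha.pos ⟨hu0.le, hua⟩
  have hlt : ∀ u ∈ Icc 0 a, vs F n a u < vs F n b u := ha.lt hb hab
  have hlt0 := hlt u0 ⟨hu0.le, hua.le⟩
  have he0n : 0 ≤ e0 := by
    rw [he0, sub_nonneg]
    exact one_div_le_one_div_of_le (by positivity) (pow_le_pow_left₀ hva0.le hlt0.le _)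
  have hyb : u0 ≤ y0 * vs F n b u0 := hya.trans (mul_le_mul_of_nonneg_left hlt0.le hy0.le)
  have hstayA := stay hd hdn hP le_rfl ha.isW (u1 := u0) ⟨hu0.le, hua.le⟩ hva0 hya
  have hstayB := stay hd hdn hP le_rfl hb.isW (u1 := u0) ⟨hu0.le, hub.le⟩ (hva0.trans hlt0) hyb
  -- pointwise facts on [0,u0]
  have hfact : ∀ u ∈ Icc 0 u0, 0 < vs F n a u ∧ vs F n a u ≤ vs F n b u ∧
      u ≤ y0 * vs F n b u ∧ e0 ≤ 1 / vs F n a u ^ (d - 1) - 1 / vs F n b u ^ (d - 1) ∧
      K1 * u ^ P ≤ 1 / vs F n b u ^ (d - 1) ∧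
      1 / vs F n b u ^ (d - 1) ≤ 1 / vs F n b 0 ^ (d - 1) + K2 * u ^ P := by
    intro u hu
    have hua' : u ∈ Icc 0 a := ⟨hu.1, hu.2.trans hua.le⟩
    have h1 : 0 < vs F n a u := ha.pos ⟨hu.1, hu.2.trans_lt hua⟩
    have h2 := hlt u hua'
    have h3 : u ≤ y0 * vs F n b u :=
      hu.2.trans (hyb.trans (mul_le_mul_of_nonneg_left (hstayB u hu) hy0.le))
    have h4 := zeta_anti hd2 hd hdn hP hanti hu.1 (ha.isW.mono hu.1) (hb.isW.mono hu.1)
      (u1 := u0) ⟨hu.2, hua.le⟩ ⟨hu.2, hub.le⟩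
      (fun t ht => (hlt t ⟨hu.1.trans ht.1, ht.2.trans hua.le⟩).le) hva0 hya
    have h5 := zeta_lo hd2 hd hdn hP le_rfl hb.isW (u1 := u) ⟨hu.1, hu.2.trans hub.le⟩
      (h1.trans h2) h3
    have h6 := zeta_hi hd2 hd hdn hP le_rfl hb.isW (u1 := u) ⟨hu.1, hu.2.trans hub.le⟩
      (h1.trans h2) h3
    have h7 : (0 : ℝ) ^ (n - d + 1) = 0 := zero_pow (by omega)
    rw [h7, sub_zero] at h5 h6
    have h8 : 0 < 1 / vs F n b 0 ^ (d - 1) := by
      have := hb.pos (u := 0) ⟨le_rfl, hb.ha⟩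
      positivity
    refine ⟨h1, h2.le, h3, h4, ?_, ?_⟩
    · linarith
    · linarith
  have hsq : Real.sqrt u0 ^ 2 = u0 := Real.sq_sqrt hu0.le
  have hsqa : Real.sqrt u0 ^ 2 < a := by rw [hsq]; exact hua
  have hsqb : Real.sqrt u0 ^ 2 < b := by rw [hsq]; exact hub
  have hs1 : Real.sqrt u0 ≤ 1 := by
    rw [← Real.sqrt_one]
    exact Real.sqrt_le_sqrt hu1.le
  have hmem : ∀ x ∈ Icc 0 (Real.sqrt u0), x ^ 2 ∈ Icc 0 u0 := fun x hx =>
    ⟨sq_nonneg x, by rw [← hsq]; exact pow_le_pow_left₀ hx.1 hx.2 2⟩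
  have hcontA := xI_continuousOn ha hsqa k
  have hcontB := xI_continuousOn hb hsqb k
  -- the part near 0
  have hpart1 : xI F n k b 0 x0 ≤ xI F n k a 0 x0 := by
    unfold xI
    have hsub : Icc 0 x0 ⊆ Icc 0 (Real.sqrt u0) := Icc_subset_Icc_right hx0u
    refine intervalIntegral.integral_mono_on hx0.le ?_ ?_ ?_
    · exact ContinuousOn.intervalIntegrable (by rw [uIcc_of_le hx0.le]; exact hcontB.mono hsub)
    · exact ContinuousOn.intervalIntegrable (by rw [uIcc_of_le hx0.le]; exact hcontA.mono hsub)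
    · intro x hx
      obtain ⟨h1, h2, -⟩ := hfact (x ^ 2) (hmem x (hsub hx))
      have h3 : 0 < Real.sqrt (vs F n a (x ^ 2)) := Real.sqrt_pos.2 h1
      have h4 : 0 < x ^ 2 + vs F n a (x ^ 2) := by positivity
      refine one_div_le_one_div_of_le (by positivity) ?_
      refine mul_le_mul (Real.sqrt_le_sqrt h2) (pow_le_pow_left₀ h4.le (by linarith) k)
        (by positivity) (Real.sqrt_nonneg _)
  -- the main part
  have hpart2 : c * e0 * Real.log (Real.sqrt u0 / x0) ≤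
      xI F n k a x0 (Real.sqrt u0) - xI F n k b x0 (Real.sqrt u0) := by
    unfold xI
    have hsub : Icc x0 (Real.sqrt u0) ⊆ Icc 0 (Real.sqrt u0) := Icc_subset_Icc_left hx0.le
    have hiA : IntervalIntegrable (fun x : ℝ => 1 / (Real.sqrt (vs F n a (x ^ 2)) *
        (x ^ 2 + vs F n a (x ^ 2)) ^ k)) volume x0 (Real.sqrt u0) :=
      ContinuousOn.intervalIntegrable (by rw [uIcc_of_le hx0u]; exact hcontA.mono hsub)
    have hiB : IntervalIntegrable (fun x : ℝ => 1 / (Real.sqrt (vs F n b (x ^ 2)) *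
        (x ^ 2 + vs F n b (x ^ 2)) ^ k)) volume x0 (Real.sqrt u0) :=
      ContinuousOn.intervalIntegrable (by rw [uIcc_of_le hx0u]; exact hcontB.mono hsub)
    rw [← intervalIntegral.integral_sub hiA hiB]
    have hlog : c * e0 * Real.log (Real.sqrt u0 / x0) =
        ∫ x in x0..Real.sqrt u0, c * e0 * (1 / x) := by
      rw [intervalIntegral.integral_const_mul, integral_one_div_of_pos hx0 (hx0.trans_le hx0u)]
    rw [hlog]
    refine intervalIntegral.integral_mono_on hx0u ?_ (hiA.sub hiB) ?_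
    · refine ContinuousOn.intervalIntegrable ?_
      rw [uIcc_of_le hx0u]
      refine continuousOn_const.mul (continuousOn_const.div continuousOn_id ?_)
      intro x hx
      exact (hx0.trans_le hx.1).ne'
    · intro x hx
      have hxp : 0 < x := hx0.trans_le hx.1
      have hx1 : x ≤ 1 := hx.2.trans hs1
      obtain ⟨h1, h2, h3, h4, h5, h6⟩ := hfact (x ^ 2) (hmem x (hsub hx))
      set y := x ^ ((2 * P : ℝ) / N) with hy
      have hyp : 0 < y := Real.rpow_pos_of_pos hxp _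
      have hyN : y ^ N = (x ^ 2) ^ P := by
        rw [hy, ← Real.rpow_natCast, ← Real.rpow_mul hxp.le, div_mul_cancel₀ _ hNpos.ne',
          ← pow_mul, ← Real.rpow_natCast]
        push_cast
        rfl
      have hx0x : x0 ^ (2 * P) ≤ (x ^ 2) ^ P := by
        rw [← pow_mul]
        exact pow_le_pow_left₀ hx0.le hx.1 _
      have hxP : K2 * x0 ^ (2 * P) ≤ K2 * (x ^ 2) ^ P := mul_le_mul_of_nonneg_left hx0x hK2p.le
      refine pointwise hd2 h1 h2 (sq_nonneg x) h3 hy0 hxp hyp hαp hβp he0n h4 ?_ ?_ ?_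
      · rw [mul_pow, hαN, hyN]
        exact h5
      · rw [mul_pow, hβN, hyN]
        linarith
      · -- y^(N-1) ≤ x * y^(2k)
        have e1 : y ^ (N - 1) = y ^ (N - 1 - 2 * k) * y ^ (2 * k) := by
          rw [← pow_add]
          congr 1
          omega
        rw [← hN, e1]
        refine mul_le_mul_of_nonneg_right ?_ (by positivity)
        rw [hy, ← Real.rpow_natCast, ← Real.rpow_mul hxp.le]
        have e2 : x = x ^ (1 : ℝ) := (Real.rpow_one x).symm
        conv_rhs => rw [e2]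
        refine Real.rpow_le_rpow_of_exponent_ge hxp hx1 ?_
        rw [div_mul_eq_mul_div, le_div_iff₀ hNpos, one_mul]
        have h7 : N ≤ 2 * P * (N - 1 - 2 * k) := by
          have h8 : N - 1 - 2 * k = N - (2 * k + 1) := by omega
          rw [h8, mul_assoc, Nat.mul_sub P]
          have : 2 * (d - 1) = N := rfl
          omega
        have h9 : (N : ℝ) ≤ ((2 * P * (N - 1 - 2 * k) : ℕ) : ℝ) := Nat.cast_le.2 h7
        refine h9.trans (le_of_eq ?_)
        rw [Nat.cast_mul, Nat.cast_mul, Nat.cast_ofNat]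
  have hsplA := xI_add ha le_rfl hx0.le hx0u hsqa k
  have hsplB := xI_add hb le_rfl hx0.le hx0u hsqb k
  rw [hsplA, hsplB]
  linarith

end Pool.Agent.CritPer.M
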