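import Pool.Agent.CritPer.M.Esc
import Pool.Agent.CritPer.M.Small

/-!
The last orbit `as`: it blows up exactly at `u = 0`.
-/

open Set Filter Topology Polynomial MeasureTheory

namespace Pool.Agent.CritPer.M

open Pool.Agent.CritPer.L

variable {S : ℝ[X]} {d n : ℕ}

/-- `s` is the end of the interval of closed orbits, and the solution starting at `s` exists on
`(0,s]`. -/
structure Last (F : ℝ[X]) (n : ℕ) (s : ℝ) : Prop where
  pos : 0 < s
  ok : ∀ a, 0 < a → a < s → Ok F n a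
  not : ¬ Ok F n s
  ex : ∀ c, 0 < c → c < s → Ex F n c s

theorem exists_last (hF : Fam S d n) {ε δ : ℝ} (hδ : 0 < δ) (h : Esc (fam S d ε δ) n) :
    ∃ s, Last (fam S d ε δ) n s := by
  have hn : 1 ≤ n := by
    have h1 := hF.hd
    have h2 := hF.hdn
    omega
  have h0 : 0 < (fam S d ε δ).coeff 0 := by
    rw [hF.coeff_zero]
    exact one_pos
  obtain ⟨a', ha', hna'⟩ := not_ok_of_esc hn h0 h
  obtain ⟨a1, ha1, hok1⟩ := ok_small hn h0
  have hne : {a | Ok (fam S d ε δ) n a}.Nonempty := ⟨a1, (hok1 a1 ⟨ha1, le_rfl⟩).1⟩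
  have hbd : BddAbove {a | Ok (fam S d ε δ) n a} := by
    refine ⟨a', fun a ha => ?_⟩
    by_contra hlt
    exact hna' (Ok.mono ha ha' (not_le.1 hlt).le)
  obtain ⟨s, hs⟩ : ∃ s, s = sSup {a | Ok (fam S d ε δ) n a} := ⟨_, rfl⟩
  have hs0 : 0 < s := by
    rw [hs]
    exact lt_of_lt_of_le ha1 (le_csSup hbd (hok1 a1 ⟨ha1, le_rfl⟩).1)
  have hlow : ∀ b, 0 < b → b < s → Ok (fam S d ε δ) n b := by
    intro b hb hbs
    rw [hs] at hbs
    obtain ⟨a, ha, hba⟩ := exists_lt_of_lt_csSup hne hbs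
    exact Ok.mono ha hb hba.le
  have hsn : ¬ Ok (fam S d ε δ) n s := by
    intro hok
    have h1 : ∀ᶠ b in 𝓝[>] s, Ok (fam S d ε δ) n b := nhdsWithin_le_nhds hok.eventually
    obtain ⟨b, hb, hsb⟩ := (h1.and self_mem_nhdsWithin).exists
    have h2 := le_csSup hbd (show b ∈ {a | Ok (fam S d ε δ) n a} from hb)
    rw [← hs] at h2
    exact absurd h2 (not_le.2 hsb)
  refine ⟨s, hs0, hlow, hsn, fun c hc hcs => ?_⟩
  by_contra hex
  obtain ⟨c', hc', hcs', hev⟩ := esc_open hF hδ hc hcs hex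
  have ht : Tendsto (fun a : ℝ => ((ε, δ, a) : ℝ × ℝ × ℝ)) (𝓝 s) (𝓝 (ε, δ, s)) := by
    have : Continuous (fun a : ℝ => ((ε, δ, a) : ℝ × ℝ × ℝ)) := by fun_prop
    exact this.tendsto s
  have h1 : ∀ᶠ a in 𝓝[<] s, c' < a ∧ ¬ Ex (fam S d ε δ) n c' a :=
    nhdsWithin_le_nhds (ht.eventually hev)
  obtain ⟨a, ⟨ha1, ha2⟩, ha3⟩ := (h1.and self_mem_nhdsWithin).exists
  exact ha2 ((hlow a (hc'.trans ha1) ha3).ex.mono hc'.le)

/-- The solution on the last orbit is arbitrarily large, and so are the nearby ones. -/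
private theorem nearA_aux {F : ℝ[X]} (hn : 1 ≤ n) (h0 : 0 < F.coeff 0) {s : ℝ} (hs : Last F n s)
    (M : ℝ) : ∃ u1 a1 : ℝ, 0 < u1 ∧ u1 < a1 ∧ a1 < s ∧ M < vv F n s u1 ∧
      ∀ a, a1 < a → a < s → M < vs F n a u1 := by
  have hex : ¬ Ex F n 0 s := fun hex => hs.not ⟨hn, h0, hs.pos, hex⟩
  obtain ⟨u1, hu1, v, hv, hM⟩ := exists_large h0 le_rfl hs.pos hex M
  have hc := vv_continuousAt hu1.2 ⟨v, hv⟩
  have h1 : M < vv F n s u1 := by rwa [vv_eq hv (left_mem_Icc.2 hu1.2.le)]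
  have h2 : ∀ᶠ b in 𝓝 s, M < vv F n b u1 := hc.eventually (lt_mem_nhds h1)
  rw [Metric.eventually_nhds_iff] at h2
  obtain ⟨η, hη, h3⟩ := h2
  refine ⟨u1, max ((u1 + s) / 2) (s - η), hu1.1, ?_, ?_, h1, ?_⟩
  · refine lt_of_lt_of_le ?_ (le_max_left _ _)
    linarith [hu1.2]
  · refine max_lt ?_ (by linarith)
    linarith [hu1.2]
  · intro a ha has
    have h4 : (u1 + s) / 2 < a := (le_max_left _ _).trans_lt ha
    have h5 : s - η < a := (le_max_right _ _).trans_lt ha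
    have hua : u1 < a := by linarith [hu1.2]
    have hok := hs.ok a (hu1.1.trans hua) has
    have h6 := h3 (y := a) (by rw [Real.dist_eq, abs_lt]; constructor <;> linarith)
    rwa [hok.vv_eq ⟨hu1.1.le, hua.le⟩] at h6

/-- Near the last orbit, `v_a` is large near `0`. -/
theorem near_u0 (hF : Fam S d n) {ε δ : ℝ} {s : ℝ} (hs : Last (fam S d ε δ) n s) {y0 : ℝ}
    (hy0 : 0 < y0) :
    ∃ u0 a1 : ℝ, 0 < u0 ∧ u0 < 1 ∧ u0 < a1 ∧ a1 < s ∧
      ∀ a, a1 < a → a < s → u0 ≤ y0 * vs (fam S d ε δ) n a u0 := by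
  have hn : 1 ≤ n := by
    have h1 := hF.hd
    have h2 := hF.hdn
    omega
  have h0 : 0 < (fam S d ε δ).coeff 0 := by
    rw [hF.coeff_zero]
    exact one_pos
  have hs0 := hs.pos
  obtain ⟨c, hc⟩ : ∃ c : ℝ, c = min 1 s / 2 := ⟨_, rfl⟩
  have hm : 0 < min 1 s := lt_min one_pos hs0
  have hc0 : 0 < c := by rw [hc]; linarith
  have hc1 : c < 1 := by
    have := min_le_left 1 s
    rw [hc]; linarith
  have hcs : c < s := by
    have := min_le_right 1 s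
    rw [hc]; linarith
  obtain ⟨B1, hB1⟩ := isCompact_Icc.exists_bound_of_continuousOn
    (isW_vv hcs.le (hs.ex c hc0 hcs)).cont
  obtain ⟨u1, a1, hu1, hua, has, hM, hA⟩ := nearA_aux hn h0 hs (max B1 (s / y0) + 1)
  have hu1c : u1 < c := by
    by_contra hcon
    rw [not_lt] at hcon
    have h1 := hB1 u1 ⟨hcon, (hua.trans has).le⟩
    rw [Real.norm_eq_abs] at h1
    have h2 := le_abs_self (vv (fam S d ε δ) n s u1)
    have h3 := le_max_left B1 (s / y0)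
    linarith
  refine ⟨u1, a1, hu1, hu1c.trans hc1, hua, has, fun a ha1 ha2 => ?_⟩
  have h1 := hA a ha1 ha2
  have h2 := le_max_right B1 (s / y0)
  have h3 : s / y0 < vs (fam S d ε δ) n a u1 := by linarith
  rw [div_lt_iff₀ hy0] at h3
  have h4 : u1 < s := hua.trans has
  nlinarith

theorem near_zero (hF : Fam S d n) {ε δ : ℝ} {y0 m M : ℝ} (hP : PhB (fam S d ε δ) d y0 m M)
    {s : ℝ} (hs : Last (fam S d ε δ) n s) (B : ℝ) :
    ∃ a1 : ℝ, 0 < a1 ∧ a1 < s ∧ ∀ a, a1 < a → a < s → B < vs (fam S d ε δ) n a 0 := by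
  have hn : 1 ≤ n := by
    have h1 := hF.hd
    have h2 := hF.hdn
    omega
  have h0 : 0 < (fam S d ε δ).coeff 0 := by
    rw [hF.coeff_zero]
    exact one_pos
  have hs0 := hs.pos
  have hy0 := hP.hy
  obtain ⟨u1, a1, hu1, hua, has, -, hA⟩ := nearA_aux hn h0 hs (max B (s / y0) + 1)
  refine ⟨a1, hu1.trans hua, has, fun a ha1 ha2 => ?_⟩
  have hok := hs.ok a ((hu1.trans hua).trans ha1) ha2
  have h1 := hA a ha1 ha2
  have h2 := le_max_right B (s / y0)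
  have h2' := le_max_left B (s / y0)
  have h3 : s / y0 < vs (fam S d ε δ) n a u1 := by linarith
  have h3' : 0 < s / y0 := by positivity
  rw [div_lt_iff₀ hy0] at h3
  have h4 : u1 < s := hua.trans has
  have h5 := stay (hF.natDegree ε δ) hF.hdn hP le_rfl hok.isW (u1 := u1)
    ⟨hu1.le, (hua.trans ha1).le⟩ (by linarith) (by nlinarith) 0 ⟨le_rfl, hu1.le⟩
  linarith

end Pool.Agent.CritPer.M
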