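import Pool.Agent.CritPer.M.Split
import Pool.Agent.CritPer.M.NearA
import Pool.Agent.CritPer.L.Per

/-!
The outer part of the period is Lipschitz up to the last orbit.
-/

open Set Filter Topology Polynomial MeasureTheory
open scoped ContDiff

namespace Pool.Agent.CritPer.M

open Pool.Agent.CritPer.L

namespace NearD

open Pool.Agent.CritPer.L.Per

theorem mem_seg {c a x : ℝ} (hca : c < a) (hx : x ∈ Icc (0 : ℝ) 1) :
    c + (a - c) * x ∈ Icc c a := by
  constructor
  · nlinarith [mul_nonneg (sub_pos.2 hca).le hx.1]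
  · nlinarith [mul_le_mul_of_nonneg_left hx.2 (sub_pos.2 hca).le]

theorem mem_conv {t r : ℝ} (ht : t ∈ Icc (0 : ℝ) 1) (hr : r ∈ Icc (0 : ℝ) 1) :
    t + (1 - t) * r ∈ Icc (0 : ℝ) 1 := by
  constructor
  · exact add_nonneg ht.1 (mul_nonneg (by linarith [ht.2]) hr.1)
  · nlinarith [mul_le_mul_of_nonneg_left hr.2 (sub_nonneg.2 ht.2)]

theorem eq_int {F : ℝ[X]} {n : ℕ} {c a : ℝ} {v : ℝ → ℝ} (hca : c < a) (hv : IsW F n c a v)
    {t : ℝ} (ht : t ∈ Icc (0 : ℝ) 1) :
    v (c + (a - c) * t) = (a - c) * (1 - t) * ∫ r in (0 : ℝ)..1,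
      qf F n (c + (a - c) * (t + (1 - t) * r)) (v (c + (a - c) * (t + (1 - t) * r))) := by
  have hat := mem_seg hca ht
  have hsub : Icc (c + (a - c) * t) a ⊆ Icc c a := Icc_subset_Icc_left hat.1
  have hqc : ContinuousOn (fun u => qf F n u (v u)) (Icc c a) :=
    (continuous_qf F n).comp_continuousOn (continuousOn_id.prodMk hv.cont)
  have hc : ContinuousOn (fun u => -(qf F n u (v u))) (Icc (c + (a - c) * t) a) :=
    hqc.neg.mono hsub
  have h1 := intervalIntegral.integral_eq_sub_of_hasDerivAt_of_le (f := v)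
    (f' := fun u => -(qf F n u (v u))) hat.2 (hv.cont.mono hsub)
    (fun x hx => (hv.der x (hsub (Ioo_subset_Icc_self hx))).hasDerivAt
      (Icc_mem_nhds (hat.1.trans_lt hx.1) hx.2))
    (ContinuousOn.intervalIntegrable (by rwa [uIcc_of_le hat.2]))
  rw [hv.zero, intervalIntegral.integral_neg] at h1
  have h2 : v (c + (a - c) * t) = ∫ u in (c + (a - c) * t)..a, qf F n u (v u) := by linarith
  rw [h2]
  have h3 := intervalIntegral.mul_integral_comp_mul_add (a := 0) (b := 1)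
    (f := fun u => qf F n u (v u)) ((a - c) * (1 - t)) (c + (a - c) * t)
  rw [mul_zero, zero_add, mul_one,
    show (a - c) * (1 - t) + (c + (a - c) * t) = a by ring] at h3
  rw [← h3]
  congr 1
  refine intervalIntegral.integral_congr fun r _ => ?_
  show qf F n ((a - c) * (1 - t) * r + (c + (a - c) * t))
    (v ((a - c) * (1 - t) * r + (c + (a - c) * t))) = _
  rw [show (a - c) * (1 - t) * r + (c + (a - c) * t) = c + (a - c) * (t + (1 - t) * r) by ring]

end NearD

open NearD Pool.Agent.CritPer.L.Per in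
theorem near_outer {F : ℝ[X]} {n : ℕ} {s : ℝ} (hn : 1 ≤ n) (h0 : 0 < F.coeff 0)
    (hs : Last F n s) (k : ℕ) {u0 : ℝ} (hu0 : 0 < u0) (hu0s : u0 < s) :
    ∃ C a1 : ℝ, 0 < C ∧ u0 < a1 ∧ a1 < s ∧ ∀ a b, a1 < a → a < b → b < s →
      |pI F n k u0 a - pI F n k u0 b| ≤ C * (b - a) := by
  have hv0 : IsW F n u0 s (vv F n s) := isW_vv hu0s.le (hs.ex u0 hu0 hu0s)
  obtain ⟨ψ, hψ, -, hev⟩ := dep hu0s hv0
  -- the path of parameters
  have hpath : ContDiff ℝ ω (fun a : ℝ => ((cf F n, u0, a) : (Fin (n + 1) → ℝ) × ℝ × ℝ)) :=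
    contDiff_const.prodMk (contDiff_const.prodMk contDiff_id)
  let y : ℝ → E := fun a => ψ (cf F n, u0, a)
  have hy : ContDiffAt ℝ ω y s :=
    ContDiffAt.comp (f := fun a : ℝ => ((cf F n, u0, a) : (Fin (n + 1) → ℝ) × ℝ × ℝ)) s hψ
      hpath.contDiffAt
  have hye : ∀ᶠ a in 𝓝 s, u0 < a ∧
      IsW F n u0 a (fun u => IccExtend zero_le_one (y a) ((u - u0) / (a - u0))) := by
    have h2 : Tendsto (fun a : ℝ => ((cf F n, u0, a) : (Fin (n + 1) → ℝ) × ℝ × ℝ)) (𝓝 s)
        (𝓝 (cf F n, u0, s)) := hpath.continuous.tendsto s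
    filter_upwards [h2.eventually hev] with a ha
    exact ⟨ha.1, ha.2 F rfl⟩
  -- values of the solution
  have hval : ∀ a : ℝ, u0 < a → ∀ x : ℝ, IccExtend zero_le_one (y a)
      ((u0 + (a - u0) * x - u0) / (a - u0)) = IccExtend zero_le_one (y a) x := by
    intro a ha x
    have h1 : a - u0 ≠ 0 := (sub_pos.2 ha).ne'
    congr 1
    field_simp
    ring
  let ι : E := ⟨fun t => (t : ℝ), continuous_subtype_val⟩
  let U : ℝ → E := fun a => u0 • (1 : E) + (a - u0) • ι
  have hUap : ∀ a (t : Icc (0 : ℝ) 1), U a t = u0 + (a - u0) * t := by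
    intro a t
    change u0 * 1 + (a - u0) * (t : ℝ) = _
    rw [mul_one]
  have hU : ContDiffAt ℝ ω U s :=
    contDiffAt_const.add ((contDiffAt_id.sub contDiffAt_const).smul contDiffAt_const)
  obtain ⟨A, hA⟩ := exists_op (X := Icc (0 : ℝ) 1) (fun t r => (t : ℝ) + (1 - t) * r)
    (by unfold Function.uncurry; fun_prop) 1
  obtain ⟨L, hL⟩ := exists_op (X := Unit) (fun _ r => 1 - r ^ 2)
    (by unfold Function.uncurry; fun_prop) 1
  let Ql : ℝ → E := fun b => ∑ j ∈ Finset.range (n + 1),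
    F.coeff j • ((U b) ^ (n - j) * (y b) ^ j)
  have hQ : ContDiffAt ℝ ω Ql s :=
    ContDiffAt.sum fun j _ => (((hU.pow (n - j)).mul (hy.pow j)).const_smul (F.coeff j))
  have hQap : ∀ a (t : Icc (0 : ℝ) 1), Ql a t = qf F n (u0 + (a - u0) * t) (y a t) := by
    intro a t
    change (∑ j ∈ Finset.range (n + 1), F.coeff j • ((U a) ^ (n - j) * (y a) ^ j) : E) t = _
    rw [ContinuousMap.sum_apply]
    unfold qf
    refine Finset.sum_congr rfl fun j _ => ?_
    rw [ContinuousMap.smul_apply, ContinuousMap.mul_apply, ContinuousMap.pow_apply,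
      ContinuousMap.pow_apply, hUap, smul_eq_mul, mul_assoc]
  have hw : ContDiffAt ℝ ω (fun b => A (Ql b)) s := A.contDiff.contDiffAt.comp s hQ
  -- the solution in terms of `A (Ql a)`
  have hsol : ∀ᶠ a in 𝓝 s, ∀ t : Icc (0 : ℝ) 1,
      y a t = (a - u0) * (1 - t) * A (Ql a) t := by
    filter_upwards [hye] with a ha t
    have h1 := eq_int ha.1 ha.2 t.2
    simp only [hval a ha.1] at h1
    rw [IccExtend_of_mem _ _ t.2] at h1
    rw [hA]
    change y a t = _ at h1
    rw [h1]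
    congr 1
    refine intervalIntegral.integral_congr fun r hr => ?_
    rw [uIcc_of_le zero_le_one] at hr
    have hmem := mem_conv t.2 hr
    change qf F n _ (IccExtend zero_le_one (y a) ((t : ℝ) + (1 - t) * r)) =
      IccExtend zero_le_one (Ql a) ((t : ℝ) + (1 - t) * r)
    rw [IccExtend_of_mem _ _ hmem, IccExtend_of_mem _ _ hmem, hQap]
  have hypos : ∀ t : Icc (0 : ℝ) 1, (t : ℝ) < 1 → 0 < y s t := by
    intro t ht
    have h1 := hye.self_of_nhds
    have h2 := h1.2.pos h0 hu0.le (u0 + (s - u0) * t) ⟨(mem_seg hu0s t.2).1, by nlinarith⟩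
    simp only [hval s hu0s] at h2
    rwa [IccExtend_of_mem _ _ t.2] at h2
  have hwpos : ∀ t : Icc (0 : ℝ) 1, 0 < A (Ql s) t := by
    intro t
    rcases t.2.2.eq_or_lt with h1 | h1
    · have hy1 : y s t = 0 := by
        rw [hsol.self_of_nhds t, h1, sub_self, mul_zero, zero_mul]
      have h2 : A (Ql s) t = Ql s t := by
        rw [hA]
        have : ∀ r : ℝ, IccExtend (zero_le_one : (0 : ℝ) ≤ 1) (Ql s) ((t : ℝ) + (1 - t) * r) =
            Ql s t := by
          intro r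
          rw [h1, sub_self, zero_mul, add_zero, IccExtend_of_mem _ _ ⟨zero_le_one, le_rfl⟩]
          congr 1
          exact Subtype.ext h1.symm
        simp only [this]
        rw [intervalIntegral.integral_const]
        simp
      rw [h2, hQap, hy1, qf_zero]
      refine mul_pos h0 (pow_pos ?_ n)
      rw [h1]
      linarith
    · have h2 := hypos t h1
      rw [hsol.self_of_nhds t] at h2
      have h3 : 0 < (s - u0) * (1 - (t : ℝ)) := mul_pos (by linarith) (by linarith)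
      exact (mul_pos_iff_of_pos_left h3).1 h2
  obtain ⟨sw, hsw, hswe⟩ := exists_sqrt hw hwpos
  have hUpos : ∀ t : Icc (0 : ℝ) 1, 0 < U s t := by
    intro t
    rw [hUap]
    have := mul_nonneg (sub_pos.2 hu0s).le t.2.1
    linarith
  obtain ⟨su, hsu, hsue⟩ := exists_sqrt hU hUpos
  let G : ℝ → E := fun b => su b * sw b * (U b + y b) ^ k
  have hG : ContDiffAt ℝ ω G s := (hsu.mul hsw).mul ((hU.add hy).pow k)
  have hGpos : ∀ᶠ a in 𝓝 s, ∀ t : Icc (0 : ℝ) 1, 0 < G a t := by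
    filter_upwards [hswe, hsue, hye, hsol] with a h1 h2 h3 h4 t
    change 0 < su a t * sw a t * (U a t + y a t) ^ k
    refine mul_pos (mul_pos (h2.1 t) (h1.1 t)) (pow_pos ?_ k)
    have h5 : 0 ≤ y a t := by
      rw [h4 t]
      have h6 : 0 < A (Ql a) t := by
        rw [← h1.2, ContinuousMap.mul_apply]
        exact mul_pos (h1.1 t) (h1.1 t)
      exact mul_nonneg (mul_nonneg (by linarith [h3.1]) (by linarith [t.2.2])) h6.le
    rw [hUap]
    have := mul_nonneg (sub_pos.2 h3.1).le t.2.1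
    linarith
  have hinv : ContDiffAt ℝ ω (fun b => Ring.inverse (G b)) s := by
    obtain ⟨u, hu⟩ := isUnit_of_pos hGpos.self_of_nhds
    have h1 : ContDiffAt ℝ ω Ring.inverse (G s) := by
      rw [← hu]
      exact contDiffAt_ringInverse ℝ u
    exact h1.comp s hG
  have hL1 : ContDiffAt ℝ ω (fun b => L (Ring.inverse (G b))) s :=
    L.contDiff.contDiffAt.comp s hinv
  let ev : C(Unit, ℝ) →L[ℝ] ℝ := ContinuousMap.evalCLM ℝ ()
  have hL2 : ContDiffAt ℝ ω (fun b => ev (L (Ring.inverse (G b)))) s :=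
    ev.contDiff.contDiffAt.comp s hL1
  have hfin : ContDiffAt ℝ ω (fun b => Real.sqrt (b - u0) * ev (L (Ring.inverse (G b)))) s :=
    ((contDiffAt_id.sub contDiffAt_const).sqrt (sub_pos.2 hu0s).ne').mul hL2
  obtain ⟨K, T, hT, hK⟩ := (hfin.of_le (by exact le_top)).exists_lipschitzOnWith
  -- identification for `a < s`
  have hid : ∀ᶠ a in 𝓝 s, a < s →
      pI F n k u0 a = Real.sqrt (a - u0) * ev (L (Ring.inverse (G a))) := by
    filter_upwards [hye, hsol, hswe, hsue, hGpos] with a h1 h2 h3 h4 h5 has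
    have hok : Ok F n a := hs.ok a (hu0.trans h1.1) has
    have hwp : ∀ t : Icc (0 : ℝ) 1, 0 < A (Ql a) t := by
      intro t
      rw [← h3.2, ContinuousMap.mul_apply]
      exact mul_pos (h3.1 t) (h3.1 t)
    have hr2 : ∀ r ∈ Icc (0 : ℝ) 1, 1 - r ^ 2 ∈ Icc (0 : ℝ) 1 := by
      intro r hr
      constructor
      · nlinarith [hr.1, hr.2]
      · nlinarith [sq_nonneg r]
    have hvs : ∀ t : Icc (0 : ℝ) 1, vs F n a (u0 + (a - u0) * t) = y a t := by
      intro t
      have h6 := hok.eq_of_isW hu0.le h1.2 (mem_seg h1.1 t.2)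
      simp only [hval a h1.1] at h6
      rw [IccExtend_of_mem _ _ t.2] at h6
      exact h6.symm
    have hcw : Continuous (fun r : ℝ => IccExtend (zero_le_one : (0 : ℝ) ≤ 1) (A (Ql a))
        (1 - r ^ 2)) := ((A (Ql a)).continuous.Icc_extend' (h := zero_le_one)).comp (by fun_prop)
    rw [pI_eq hok hu0 h1.1 k (w := fun r => IccExtend (zero_le_one : (0 : ℝ) ≤ 1) (A (Ql a))
      (1 - r ^ 2)) hcw.continuousOn]
    · congr 1
      change _ = L (Ring.inverse (G a)) ()
      rw [hL]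
      refine intervalIntegral.integral_congr fun r hr => ?_
      rw [uIcc_of_le zero_le_one] at hr
      have hm := hr2 r hr
      have e1 : a - (a - u0) * r ^ 2 = U a ⟨1 - r ^ 2, hm⟩ := by
        rw [hUap]
        change _ = u0 + (a - u0) * (1 - r ^ 2)
        ring
      have e2 : (a - u0) * r ^ 2 * A (Ql a) ⟨1 - r ^ 2, hm⟩ = y a ⟨1 - r ^ 2, hm⟩ := by
        rw [h2 ⟨1 - r ^ 2, hm⟩]
        change _ = (a - u0) * (1 - (1 - r ^ 2)) * _
        ring
      have e3 : Real.sqrt (U a ⟨1 - r ^ 2, hm⟩) = su a ⟨1 - r ^ 2, hm⟩ := by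
        rw [← h4.2, ContinuousMap.mul_apply, Real.sqrt_mul_self (h4.1 _).le]
      have e4 : Real.sqrt (A (Ql a) ⟨1 - r ^ 2, hm⟩) = sw a ⟨1 - r ^ 2, hm⟩ := by
        rw [← h3.2, ContinuousMap.mul_apply, Real.sqrt_mul_self (h3.1 _).le]
      rw [IccExtend_of_mem _ _ hm, IccExtend_of_mem _ _ hm, ringInverse_apply h5, e2, e1, e3, e4]
      rfl
    · intro r hr
      rw [IccExtend_of_mem _ _ (hr2 r hr)]
      exact hwp _
    · intro r hr
      rw [IccExtend_of_mem _ _ (hr2 r hr)]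
      have h6 := hvs ⟨1 - r ^ 2, hr2 r hr⟩
      have h7 : u0 + (a - u0) * (1 - r ^ 2) = a - (a - u0) * r ^ 2 := by ring
      rw [← h7]
      rw [show vs F n a (u0 + (a - u0) * (1 - r ^ 2)) = y a ⟨1 - r ^ 2, hr2 r hr⟩ from h6,
        h2 ⟨1 - r ^ 2, hr2 r hr⟩]
      change (a - u0) * (1 - (1 - r ^ 2)) * _ = _
      ring
  obtain ⟨η, hη, hball⟩ := Metric.eventually_nhds_iff_ball.1 (hid.and (Filter.eventually_mem_set.2 hT))
  have hmax : max (s - η) u0 < s := max_lt (by linarith) hu0s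
  refine ⟨K + 1, (max (s - η) u0 + s) / 2, by positivity, ?_, by linarith, ?_⟩
  · have := le_max_right (s - η) u0
    linarith
  · intro a b ha hab hbs
    have hm1 := le_max_left (s - η) u0
    have ha1 : a ∈ Metric.ball s η := by
      rw [Metric.mem_ball, Real.dist_eq, abs_lt]
      constructor <;> linarith
    have hb1 : b ∈ Metric.ball s η := by
      rw [Metric.mem_ball, Real.dist_eq, abs_lt]
      constructor <;> linarith
    obtain ⟨ha2, ha3⟩ := hball a ha1
    obtain ⟨hb2, hb3⟩ := hball b hb1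
    rw [ha2 (hab.trans hbs), hb2 hbs]
    have h1 := hK.dist_le_mul a ha3 b hb3
    rw [Real.dist_eq, Real.dist_eq, abs_sub_comm a b, abs_of_pos (sub_pos.2 hab)] at h1
    refine h1.trans ?_
    nlinarith [sub_pos.2 hab]

end Pool.Agent.CritPer.M
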