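import Pool.Agent.CritPer.M.NearB
import Pool.Agent.CritPer.M.NearC
import Pool.Agent.CritPer.M.NearD

/-!
The period is decreasing near the last orbit.
-/

open Set Filter Topology Polynomial MeasureTheory

namespace Pool.Agent.CritPer.M

open Pool.Agent.CritPer.L

/-- The reciprocal of a power of a large number is small. -/
private theorem near_recip {d : ℕ} (hd : 2 ≤ d) {η : ℝ} (hη : 0 < η) {v : ℝ}
    (hv : max 1 (1 / η) < v) : 1 / v ^ (d - 1) ≤ η := by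
  have h1 : 1 < v := lt_of_le_of_lt (le_max_left _ _) hv
  have h2 : 1 / η < v := lt_of_le_of_lt (le_max_right _ _) hv
  have hv0 : 0 < v := one_pos.trans h1
  have h3 : v ≤ v ^ (d - 1) := by
    have := pow_le_pow_right₀ h1.le (show 1 ≤ d - 1 by omega)
    simpa using this
  have h4 : 1 / v ^ (d - 1) ≤ 1 / v := one_div_le_one_div_of_le hv0 h3
  refine h4.trans ?_
  rw [div_le_iff₀ hv0]
  rw [div_lt_iff₀ hη] at h2
  linarith

theorem dec_near {S : ℝ[X]} {d n k : ℕ} (hF : Fam S d n)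
    (hcond : d - 1 + (n - d + 1) * (2 * k + 1) ≤ (n - d + 1) * (2 * (d - 1)))
    {ε δ : ℝ} (hε : 0 < ε) (hδ : 0 < δ) (h : Esc (fam S d ε δ) n) {A : ℝ}
    (hA : Ok (fam S d ε δ) n A) :
    ∃ a b, A ≤ a ∧ a < b ∧ Ok (fam S d ε δ) n b ∧
      Ts (fam S d ε δ) n k b < Ts (fam S d ε δ) n k a := by
  have hn : 1 ≤ n := by
    have h1 := hF.hd
    have h2 := hF.hdn
    omega
  have hc0 : 0 < (fam S d ε δ).coeff 0 := by
    rw [hF.coeff_zero]
    exact one_pos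
  obtain ⟨y0, m, M, hP, hanti⟩ := exists_PhB hF hε hδ
  obtain ⟨s, hs⟩ := exists_last hF hδ h
  obtain ⟨u0, a1, hu0, hu01, hu0a1, ha1s, hnear⟩ := near_u0 hF hs hP.hy
  have hu0s : u0 < s := hu0a1.trans ha1s
  obtain ⟨c1, a2, hc1, -, ha2s, hgap⟩ := near_gap hF hs hu0 hu0s
  obtain ⟨c, C2, hc, hC2, hin⟩ := near_inner (k := k) hF.hd hF.hdn (hF.natDegree ε δ) hcond hP hanti
    hu0 hu01
  obtain ⟨C, a3, hC, -, ha3s, hout⟩ := near_outer hn hc0 hs k hu0 hu0s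
  have hsq : 0 < Real.sqrt u0 := Real.sqrt_pos.2 hu0
  obtain ⟨Λ, hΛ⟩ : ∃ Λ, Λ = (C + 1) / (c * c1) := ⟨_, rfl⟩
  have hΛ0 : 0 < Λ := by rw [hΛ]; positivity
  obtain ⟨x0, hx0⟩ : ∃ x0, x0 = Real.sqrt u0 * Real.exp (-Λ) := ⟨_, rfl⟩
  have hx0p : 0 < x0 := by rw [hx0]; positivity
  have hx0le : x0 ≤ Real.sqrt u0 := by
    rw [hx0]
    have : Real.exp (-Λ) ≤ 1 := Real.exp_le_one_iff.2 (by linarith)
    nlinarith
  have hlog : Real.log (Real.sqrt u0 / x0) = Λ := by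
    have : Real.sqrt u0 / x0 = Real.exp Λ := by
      rw [hx0, Real.exp_neg]
      field_simp
    rw [this, Real.log_exp]
  have hη : 0 < C2 * x0 ^ (2 * (n - d + 1)) := by positivity
  obtain ⟨a4, -, ha4s, hsmall⟩ := near_small_gap hF hs hu0 hu0s hη
  obtain ⟨a5, -, ha5s, hzero⟩ := near_zero hF hP hs (max 1 (1 / (C2 * x0 ^ (2 * (n - d + 1)))))
  have hAs : A < s := by
    by_contra hcon
    exact hs.not (hA.mono hs.pos (not_lt.1 hcon))
  obtain ⟨a0, ha0s, hA0, h10, h20, h30, h40, h50⟩ : ∃ a0, a0 < s ∧ A ≤ a0 ∧ a1 ≤ a0 ∧ a2 ≤ a0 ∧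
      a3 ≤ a0 ∧ a4 ≤ a0 ∧ a5 ≤ a0 := by
    refine ⟨max A (max a1 (max a2 (max a3 (max a4 a5)))), ?_, ?_, ?_, ?_, ?_, ?_, ?_⟩
    · simp only [max_lt_iff]
      exact ⟨hAs, ha1s, ha2s, ha3s, ha4s, ha5s⟩
    all_goals simp only [le_max_iff, le_refl, true_or, or_true]
  obtain ⟨a, haa0, hab'⟩ := exists_between ha0s
  obtain ⟨b, hab, hbs⟩ := exists_between hab'
  have hua : u0 < a := by linarith
  have hub : u0 < b := hua.trans hab
  have hOa : Ok (fam S d ε δ) n a := hs.ok a (hu0.trans hua) (hab.trans hbs)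
  have hOb : Ok (fam S d ε δ) n b := hs.ok b (hu0.trans hub) hbs
  have g1 := hgap a b (by linarith) hab hbs
  have g2 := hsmall a b (by linarith) hab hbs
  have g3 := near_recip hF.hd hη (hzero b (by linarith) hbs)
  have g4 := hin a b hOa hOb hua hab (hnear a (by linarith) (hab.trans hbs)) x0 hx0p hx0le g2 g3
  have g5 := (abs_le.1 (hout a b (by linarith) hab hbs)).1
  rw [hlog] at g4
  have hba : 0 < b - a := sub_pos.2 hab
  have g6 : (C + 1) * (b - a) ≤ c * (1 / vs (fam S d ε δ) n a u0 ^ (d - 1) -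
      1 / vs (fam S d ε δ) n b u0 ^ (d - 1)) * Λ := by
    have e1 : (C + 1) * (b - a) = c * (c1 * (b - a)) * Λ := by
      rw [hΛ]
      field_simp
    rw [e1]
    exact mul_le_mul_of_nonneg_right (mul_le_mul_of_nonneg_left g1 hc.le) hΛ0.le
  refine ⟨a, b, by linarith, hab, hOb, ?_⟩
  rw [Ts_split hOa hu0 hua k, Ts_split hOb hu0 hub k]
  nlinarith

end Pool.Agent.CritPer.M
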