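import Pool.Agent.CritPer.M.NearA

/-!
The gap between two orbits near the last one, at a fixed `u0 > 0`.
-/

open Set Filter Topology Polynomial MeasureTheory

namespace Pool.Agent.CritPer.M

open Pool.Agent.CritPer.L

variable {S : ℝ[X]} {d n : ℕ}

/-- `y^N - x^N ≥ (y-x) x^(N-1)` in quotient form. -/
theorem nearB_alg {x y V : ℝ} {N : ℕ} (hN : 1 ≤ N) (hx : 0 < x) (hxy : x ≤ y) (hyV : y ≤ V) :
    (y - x) * x ^ (N - 1) / V ^ (2 * N) ≤ 1 / x ^ N - 1 / y ^ N := by
  obtain ⟨M, rfl⟩ : ∃ M, N = M + 1 := ⟨N - 1, by omega⟩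
  have hy : 0 < y := hx.trans_le hxy
  have hV : 0 < V := hy.trans_le hyV
  have hM : x ^ M ≤ y ^ M := pow_le_pow_left₀ hx.le hxy M
  have hxM : 0 < x ^ M := pow_pos hx M
  have e1 : (1 : ℝ) / x ^ (M + 1) - 1 / y ^ (M + 1) =
      (y ^ (M + 1) - x ^ (M + 1)) / (x ^ (M + 1) * y ^ (M + 1)) := by
    have h1 : x ^ (M + 1) ≠ 0 := (pow_pos hx _).ne'
    have h2 : y ^ (M + 1) ≠ 0 := (pow_pos hy _).ne'
    field_simp
  rw [e1, Nat.add_sub_cancel]
  have h3 : (y - x) * x ^ M ≤ y ^ (M + 1) - x ^ (M + 1) := by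
    rw [pow_succ, pow_succ]
    nlinarith
  have h4 : x ^ (M + 1) * y ^ (M + 1) ≤ V ^ (2 * (M + 1)) := by
    have h5 : x ^ (M + 1) ≤ V ^ (M + 1) := pow_le_pow_left₀ hx.le (hxy.trans hyV) _
    have h6 : y ^ (M + 1) ≤ V ^ (M + 1) := pow_le_pow_left₀ hy.le hyV _
    calc x ^ (M + 1) * y ^ (M + 1) ≤ V ^ (M + 1) * V ^ (M + 1) := by
          gcongr
      _ = V ^ (2 * (M + 1)) := by rw [← pow_add]; congr 1; omega
  have h0 : 0 ≤ y ^ (M + 1) - x ^ (M + 1) := by
    have : 0 ≤ (y - x) * x ^ M := mul_nonneg (by linarith) hxM.le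
    linarith
  exact div_le_div₀ h0 h3 (by positivity) h4

/-- Gronwall from below, to the left. -/
theorem nearB_gron {D D' : ℝ → ℝ} {c a L : ℝ} (hca : c ≤ a) (hc : ContinuousOn D (Icc c a))
    (hd : ∀ u ∈ Ioo c a, HasDerivAt D (D' u) u) (hL : ∀ u ∈ Ioo c a, D' u ≤ L * D u) :
    D a * Real.exp (-L * (a - c)) ≤ D c := by
  have hanti : AntitoneOn (fun u => D u * Real.exp (-L * u)) (Icc c a) := by
    have hder : ∀ u ∈ Ioo c a, HasDerivAt (fun u => D u * Real.exp (-L * u))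
        (D' u * Real.exp (-L * u) + D u * (Real.exp (-L * u) * (-L))) u := by
      intro u hu
      have h3 : HasDerivAt (fun u => Real.exp (-L * u)) (Real.exp (-L * u) * (-L)) u := by
        have := ((hasDerivAt_id u).const_mul (-L)).exp
        simpa using this
      exact (hd u hu).mul h3
    refine antitoneOn_of_deriv_nonpos (convex_Icc c a) ?_ ?_ ?_
    · exact hc.mul (by fun_prop)
    · rw [interior_Icc]
      intro u hu
      exact (hder u hu).differentiableAt.differentiableWithinAt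
    · rw [interior_Icc]
      intro u hu
      rw [(hder u hu).deriv]
      have h4 := hL u hu
      have h5 := Real.exp_pos (-L * u)
      nlinarith
  have h6 := hanti (left_mem_Icc.2 hca) (right_mem_Icc.2 hca) hca
  simp only at h6
  have h7 : Real.exp (-L * (a - c)) = Real.exp (-L * a) * Real.exp (L * c) := by
    rw [← Real.exp_add]
    congr 1
    ring
  have h8 : Real.exp (-L * c) * Real.exp (L * c) = 1 := by
    rw [← Real.exp_add]
    simp
  have h9 := Real.exp_pos (L * c)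
  calc D a * Real.exp (-L * (a - c)) = D a * Real.exp (-L * a) * Real.exp (L * c) := by
        rw [h7]; ring
    _ ≤ D c * Real.exp (-L * c) * Real.exp (L * c) := by
        exact mul_le_mul_of_nonneg_right h6 h9.le
    _ = D c := by rw [mul_assoc, h8, mul_one]

theorem near_gap (hF : Fam S d n) {ε δ : ℝ} {s : ℝ} (hs : Last (fam S d ε δ) n s) {u0 : ℝ}
    (hu0 : 0 < u0) (hu0s : u0 < s) :
    ∃ c a1 : ℝ, 0 < c ∧ u0 < a1 ∧ a1 < s ∧ ∀ a b, a1 < a → a < b → b < s →
      c * (b - a) ≤ 1 / vs (fam S d ε δ) n a u0 ^ (d - 1) -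
        1 / vs (fam S d ε δ) n b u0 ^ (d - 1) := by
  set F := fam S d ε δ with hFdef
  have hF0 : F.coeff 0 = 1 := hF.coeff_zero ε δ
  have hF0' : 0 < F.coeff 0 := by rw [hF0]; exact one_pos
  have hd := hF.hd
  have hs0 : 0 < s := hs.pos
  have hexs : Ex F n u0 s := hs.ex u0 hu0 hu0s
  -- the bound
  have hvc : ContinuousOn (vv F n s) (Icc u0 s) := (isW_vv hu0s.le hexs).cont
  obtain ⟨V1, hV1⟩ := isCompact_Icc.exists_bound_of_continuousOn hvc
  set V : ℝ := max V1 1 with hVdef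
  have hV : 0 < V := lt_of_lt_of_le one_pos (le_max_right _ _)
  have hvV : ∀ a, u0 < a → a < s → ∀ u ∈ Icc u0 a, vs F n a u ≤ V := by
    intro a ha has u hu
    have ha0 : 0 < a := hu0.trans ha
    have hok := hs.ok a ha0 has
    have h1 := (Ex.comparison hF0' hF0' hu0.le ha has.le (fun _ _ _ _ => le_rfl) hexs).2 u hu
    rw [hok.vv_eq ⟨hu0.le.trans hu.1, hu.2⟩] at h1
    exact h1.trans ((le_abs_self _).trans ((hV1 u ⟨hu.1, hu.2.trans has.le⟩).trans (le_max_left _ _)))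
  -- bound and Lipschitz constant of q
  obtain ⟨Q1, hQ1⟩ := (isCompact_Icc (a := (0 : ℝ)) (b := s)).prod
    (isCompact_Icc (a := (0 : ℝ)) (b := V)) |>.exists_bound_of_continuousOn
    (continuous_qf F n).continuousOn
  set Q : ℝ := max Q1 0 with hQdef
  have hQ0 : 0 ≤ Q := le_max_right _ _
  have hQ : ∀ u ∈ Icc 0 s, ∀ v ∈ Icc 0 V, |qf F n u v| ≤ Q := fun u hu v hv =>
    (hQ1 (u, v) ⟨hu, hv⟩).trans (le_max_left _ _)
  set L : ℝ := ∑ j ∈ Finset.range (n + 1), |F.coeff j| * s ^ (n - j) * (j * V ^ (j - 1)) with hLdef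
  have hL0 : 0 ≤ L := Finset.sum_nonneg fun j _ => by positivity
  have hL : ∀ u ∈ Icc 0 s, ∀ x ∈ Icc 0 V, ∀ y ∈ Icc 0 V,
      |qf F n u x - qf F n u y| ≤ L * |x - y| := fun u hu x hx y hy =>
    qf_lip F n hV.le (by rw [abs_of_nonneg hu.1]; exact hu.2)
      (by rw [abs_of_nonneg hx.1]; exact hx.2) (by rw [abs_of_nonneg hy.1]; exact hy.2)
  -- q is bounded below near (s,0)
  set m0 : ℝ := s ^ n / 2 with hm0def
  have hm0 : 0 < m0 := by positivity
  have hq0 : m0 < qf F n s 0 := by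
    rw [qf_zero, hF0, one_mul, hm0def]
    have : 0 < s ^ n := pow_pos hs0 n
    linarith
  have hev : ∀ᶠ z : ℝ × ℝ in 𝓝 (s, 0), m0 < qf F n z.1 z.2 :=
    (continuous_qf F n).continuousAt.eventually_const_lt hq0
  rw [Metric.eventually_nhds_iff] at hev
  obtain ⟨ρ, hρ, hρ2⟩ := hev
  have hlow : ∀ u v : ℝ, |u - s| < ρ → |v| < ρ → m0 < qf F n u v := by
    intro u v h1 h2
    refine hρ2 (y := (u, v)) ?_
    rw [Prod.dist_eq, max_lt_iff, Real.dist_eq, Real.dist_eq, sub_zero]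
    exact ⟨h1, h2⟩
  -- the choice of a1
  set t : ℝ := min ((s - u0) / 2) (ρ / (2 * (Q + 1))) with htdef
  have ht0 : 0 < t := lt_min (by linarith) (by positivity)
  have ht1 : t ≤ (s - u0) / 2 := min_le_left _ _
  have ht2 : t ≤ ρ / (2 * (Q + 1)) := min_le_right _ _
  have ht2' : t * (2 * (Q + 1)) ≤ ρ := by
    rwa [le_div_iff₀ (by positivity)] at ht2
  have ht3 : t < ρ := by nlinarith
  have ht4 : Q * t < ρ := by nlinarith
  set a1 : ℝ := s - t with ha1def
  have ha1u : u0 < a1 := by rw [ha1def]; linarith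
  have ha1s : a1 < s := by rw [ha1def]; linarith
  have hok1 := hs.ok a1 (hu0.trans ha1u) ha1s
  set x1 := vs F n a1 u0 with hx1def
  have hx1 : 0 < x1 := hok1.pos ⟨hu0.le, ha1u⟩
  set N := d - 1 with hNdef
  have hN : 1 ≤ N := by omega
  refine ⟨m0 * Real.exp (-L * s) * x1 ^ (N - 1) / V ^ (2 * N), a1, by positivity, ha1u, ha1s, ?_⟩
  intro a b ha hab hbs
  have has : a < s := hab.trans hbs
  have hua : u0 < a := ha1u.trans ha
  have hub : u0 < b := hua.trans hab
  have ha0 : 0 < a := hu0.trans hua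
  have hb0 : 0 < b := hu0.trans hub
  have hoka := hs.ok a ha0 has
  have hokb := hs.ok b hb0 hbs
  -- v_b on [a,b]
  have hvb : ∀ u ∈ Icc a b, vs F n b u ∈ Icc 0 V := fun u hu =>
    ⟨hokb.nonneg ⟨ha0.le.trans hu.1, hu.2⟩, hvV b hub hbs u ⟨hua.le.trans hu.1, hu.2⟩⟩
  have hbup : ∀ u ∈ Icc a b, |vs F n b u| < ρ := by
    intro u hu
    have h1 : ∀ x ∈ Icc a b, HasDerivWithinAt (vs F n b) (-(qf F n x (vs F n b x))) (Icc a b) x :=
      fun x hx => (hokb.deriv ⟨ha0.le.trans hx.1, hx.2⟩).mono (Icc_subset_Icc_left ha0.le)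
    have h2 : ∀ x ∈ Icc a b, ‖-(qf F n x (vs F n b x))‖ ≤ Q := fun x hx => by
      rw [norm_neg, Real.norm_eq_abs]
      exact hQ x ⟨ha0.le.trans hx.1, hx.2.trans hbs.le⟩ _ (hvb x hx)
    have h3 := (convex_Icc a b).norm_image_sub_le_of_norm_hasDerivWithin_le h1 h2
      (right_mem_Icc.2 hab.le) hu
    rw [hokb.self, sub_zero, Real.norm_eq_abs, Real.norm_eq_abs] at h3
    refine h3.trans_lt (lt_of_le_of_lt ?_ ht4)
    refine mul_le_mul_of_nonneg_left ?_ hQ0
    rw [abs_le]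
    constructor <;> linarith [hu.1, hu.2]
  have hblow : m0 * (b - a) ≤ vs F n b a := by
    have hder : ∀ u ∈ Ioo a b, HasDerivAt (fun u => vs F n b u + m0 * u)
        (-(qf F n u (vs F n b u)) + m0) u := by
      intro u hu
      have h1 := hokb.isW.derAt (u := u) ⟨ha0.trans hu.1, hu.2⟩
      have h2 : HasDerivAt (fun u : ℝ => m0 * u) m0 u := by
        simpa using (hasDerivAt_id u).const_mul m0
      exact h1.add h2
    have hanti : AntitoneOn (fun u => vs F n b u + m0 * u) (Icc a b) := by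
      refine antitoneOn_of_deriv_nonpos (convex_Icc a b) ?_ ?_ ?_
      · exact (hokb.contOn.mono (Icc_subset_Icc_left ha0.le)).add (by fun_prop)
      · rw [interior_Icc]
        intro u hu
        exact (hder u hu).differentiableAt.differentiableWithinAt
      · rw [interior_Icc]
        intro u hu
        rw [(hder u hu).deriv]
        have h1 := hlow u (vs F n b u) (by rw [abs_lt]; constructor <;> linarith [hu.1, hu.2])
          (hbup u ⟨hu.1.le, hu.2.le⟩)
        linarith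
    have h1 := hanti (left_mem_Icc.2 hab.le) (right_mem_Icc.2 hab.le) hab.le
    simp only [hokb.self] at h1
    linarith
  -- Gronwall on [u0,a]
  have hlt := hoka.lt hokb hab
  have hsub : Icc u0 a ⊆ Icc 0 a := Icc_subset_Icc_left hu0.le
  have hsubb : Icc u0 a ⊆ Icc 0 b := Icc_subset_Icc hu0.le hab.le
  have hg := nearB_gron (D := fun u => vs F n b u - vs F n a u)
    (D' := fun u => -(qf F n u (vs F n b u)) - -(qf F n u (vs F n a u))) (L := L) hua.le
    ((hokb.contOn.mono hsubb).sub (hoka.contOn.mono hsub))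
    (fun u hu => (hokb.isW.derAt ⟨hu0.trans hu.1, hu.2.trans hab⟩).sub
      (hoka.isW.derAt ⟨hu0.trans hu.1, hu.2⟩)) (fun u hu => by
      have hu' : u ∈ Icc u0 a := ⟨hu.1.le, hu.2.le⟩
      have h1 := hL u ⟨hu0.le.trans hu.1.le, hu.2.le.trans has.le⟩ (vs F n b u)
        ⟨hokb.nonneg (hsubb hu'), hvV b hub hbs u ⟨hu.1.le, hu.2.le.trans hab.le⟩⟩ (vs F n a u)
        ⟨hoka.nonneg (hsub hu'), hvV a hua has u hu'⟩
      have h2 := hlt u (hsub hu')
      rw [abs_of_nonneg (by linarith : (0 : ℝ) ≤ vs F n b u - vs F n a u)] at h1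
      have h3 := (abs_le.1 h1).1
      linarith)
  simp only [hoka.self, sub_zero] at hg
  -- conclusion
  have hx0 : x1 ≤ vs F n a u0 := by
    rcases ha.le.lt_or_eq with h | h
    · exact (hok1.lt hoka h u0 ⟨hu0.le, ha1u.le⟩).le
    · exact absurd h ha.ne
  have hxy := hlt u0 ⟨hu0.le, hua.le⟩
  have hyV := hvV b hub hbs u0 (left_mem_Icc.2 hub.le)
  have hxpos : 0 < vs F n a u0 := hoka.pos ⟨hu0.le, hua⟩
  refine le_trans ?_ (nearB_alg hN hxpos hxy.le hyV)
  have hexp : Real.exp (-L * s) ≤ Real.exp (-L * (a - u0)) := by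
    apply Real.exp_le_exp.2
    nlinarith
  have hep := Real.exp_pos (-L * s)
  have h1 : m0 * (b - a) * Real.exp (-L * s) ≤ vs F n b u0 - vs F n a u0 := by
    refine le_trans ?_ hg
    refine mul_le_mul hblow hexp hep.le ?_
    exact (mul_nonneg hm0.le (by linarith)).trans hblow
  have h2 : x1 ^ (N - 1) ≤ vs F n a u0 ^ (N - 1) := pow_le_pow_left₀ hx1.le hx0 _
  have h3 : 0 < V ^ (2 * N) := pow_pos hV _
  rw [div_mul_eq_mul_div]
  refine div_le_div_of_nonneg_right ?_ h3.le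
  have h4 : 0 ≤ m0 * (b - a) * Real.exp (-L * s) :=
    mul_nonneg (mul_nonneg hm0.le (by linarith)) hep.le
  calc m0 * Real.exp (-L * s) * x1 ^ (N - 1) * (b - a)
      = m0 * (b - a) * Real.exp (-L * s) * x1 ^ (N - 1) := by ring
    _ ≤ (vs F n b u0 - vs F n a u0) * vs F n a u0 ^ (N - 1) := by
        refine mul_le_mul h1 h2 (pow_pos hx1 _).le (h4.trans h1)

theorem near_small_gap (hF : Fam S d n) {ε δ : ℝ} {s : ℝ} (hs : Last (fam S d ε δ) n s) {u0 : ℝ}
    (hu0 : 0 < u0) (hu0s : u0 < s) {η : ℝ} (hη : 0 < η) :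
    ∃ a1 : ℝ, u0 < a1 ∧ a1 < s ∧ ∀ a b, a1 < a → a < b → b < s →
      1 / vs (fam S d ε δ) n a u0 ^ (d - 1) - 1 / vs (fam S d ε δ) n b u0 ^ (d - 1) ≤ η := by
  set F := fam S d ε δ with hFdef
  have hF0 : F.coeff 0 = 1 := hF.coeff_zero ε δ
  have hF0' : 0 < F.coeff 0 := by rw [hF0]; exact one_pos
  have hexs : Ex F n u0 s := hs.ex u0 hu0 hu0s
  have hpos : 0 < vv F n s u0 :=
    (isW_vv hu0s.le hexs).pos hF0' hu0.le u0 ⟨le_rfl, hu0s⟩
  have hc : ContinuousAt (fun b => 1 / vv F n b u0 ^ (d - 1)) s :=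
    continuousAt_const.div ((vv_continuousAt hu0s hexs).pow (d - 1)) (pow_pos hpos _).ne'
  rw [Metric.continuousAt_iff] at hc
  obtain ⟨ρ, hρ, hρ2⟩ := hc (η / 2) (by linarith)
  set t : ℝ := min ((s - u0) / 2) (ρ / 2) with htdef
  have ht0 : 0 < t := lt_min (by linarith) (by positivity)
  have ht1 : t ≤ (s - u0) / 2 := min_le_left _ _
  have ht2 : t ≤ ρ / 2 := min_le_right _ _
  refine ⟨s - t, by linarith, by linarith, fun a b ha hab hbs => ?_⟩
  have has : a < s := hab.trans hbs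
  have h1 := hρ2 (x := a) (by rw [Real.dist_eq, abs_lt]; constructor <;> linarith)
  have h2 := hρ2 (x := b) (by rw [Real.dist_eq, abs_lt]; constructor <;> linarith)
  rw [Real.dist_eq] at h1 h2
  have hoka := hs.ok a (by linarith) has
  have hokb := hs.ok b (by linarith) hbs
  rw [hoka.vv_eq ⟨hu0.le, by linarith⟩] at h1
  rw [hokb.vv_eq ⟨hu0.le, by linarith⟩] at h2
  have h3 := abs_lt.1 h1
  have h4 := abs_lt.1 h2
  linarith [h3.2, h4.1]

end Pool.Agent.CritPer.M
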