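import Pool.Agent.CritPer.M.Wf
import Pool.Agent.CritPer.L.Orbit

open Set Filter Topology Polynomial MeasureTheory

namespace Pool.Agent.CritPer.M

open Pool.Agent.CritPer.L

variable {S : ℝ[X]} {n : ℕ} {a b : ℝ}

theorem orb_crv_snd_sq (h : Ok S n (b ^ 2)) (p : ℝ) :
    (crv S n b p).2 ^ 2 = Vp S n (b ^ 2) p := by
  rw [Vp_eq h]
  unfold crv
  ring

/-- `y^2 = v(x^2)` on the orbit. -/
theorem crv_sq (h : Ok S n (b ^ 2)) (p : ℝ) :
    (crv S n b p).2 ^ 2 = vs S n (b ^ 2) ((crv S n b p).1 ^ 2) := by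
  rw [orb_crv_snd_sq h, orb_crv_fst_sq]
  rfl

theorem orb_hasDerivAt_Vp (h : Ok S n a) (p : ℝ) :
    HasDerivAt (Vp S n a)
      (-(qf S n (a * Real.cos p ^ 2) (Vp S n a p)) * (a * (2 * Real.cos p * -Real.sin p))) p := by
  have h1 := h.deriv (orb_cos_mem h.ha p)
  have h2 : HasDerivAt (fun p => a * Real.cos p ^ 2) (a * (2 * Real.cos p * -Real.sin p)) p := by
    have := ((Real.hasDerivAt_cos p).pow 2).const_mul a
    simpa using this
  exact h1.comp_hasDerivAt p h2 (Eventually.of_forall fun x => orb_cos_mem h.ha x)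

theorem hasDerivAt_crv (h : Ok S n (b ^ 2)) (hb : 0 < b) (p : ℝ) :
    HasDerivAt (crv S n b) ((crv S n b p).2 / Wr S n (b ^ 2) p,
      -((crv S n b p).1 * qf S n ((crv S n b p).1 ^ 2) ((crv S n b p).2 ^ 2)) /
        Wr S n (b ^ 2) p) p := by
  have ha : 0 < b ^ 2 := pow_pos hb 2
  have hW := Wr_pos h p
  have hW0 := hW.ne'
  have hWc : ContinuousAt (Wr S n (b ^ 2)) p := (continuous_Wr h).continuousAt
  have hX : HasDerivAt (fun p => b * Real.cos p) ((crv S n b p).2 / Wr S n (b ^ 2) p) p := by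
    refine ((Real.hasDerivAt_cos p).const_mul b).congr_deriv ?_
    unfold crv
    field_simp
  refine HasDerivAt.prodMk hX ?_
  rw [orb_crv_snd_sq h, orb_crv_fst_sq]
  by_cases hs : Real.sin p = 0
  · have h1 := (orb_deriv_mul_zero (Real.hasDerivAt_sin p) hs hWc).const_mul (-b)
    have h2 : HasDerivAt (fun p => -(b * Real.sin p * Wr S n (b ^ 2) p))
        (-b * (Real.cos p * Wr S n (b ^ 2) p)) p := by
      refine h1.congr_of_eventuallyEq (Eventually.of_forall fun x => ?_)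
      show -(b * Real.sin x * Wr S n (b ^ 2) x) = -b * (Real.sin x * Wr S n (b ^ 2) x)
      ring
    refine h2.congr_deriv ?_
    have hc : Real.cos p ^ 2 = 1 := by
      have := Real.sin_sq_add_cos_sq p
      rw [hs] at this
      linarith
    have hV : Vp S n (b ^ 2) p = 0 := by
      unfold Vp
      rw [hc, mul_one, h.self]
    have hW2 : Wr S n (b ^ 2) p ^ 2 = S.coeff 0 * (b ^ 2) ^ n := by
      have h3 := ws_pos h (t := 1) ⟨zero_le_one, le_refl _⟩
      unfold Wr
      rw [hc, Real.sq_sqrt h3.le, ws_one h, Polynomial.coeff_zero_eq_eval_zero]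
    rw [hV, hc, mul_one, qf_zero, ← hW2]
    unfold crv
    field_simp
  · have hYc : ContinuousAt (fun p => -(b * Real.sin p * Wr S n (b ^ 2) p)) p :=
      ((continuousAt_const.mul Real.continuous_sin.continuousAt).mul hWc).neg
    have h1 := orb_deriv_of_sq hYc (fun x => orb_crv_snd_sq h x) (orb_hasDerivAt_Vp h p)
      (by
        show -(b * Real.sin p * Wr S n (b ^ 2) p) ≠ 0
        exact neg_ne_zero.2 (mul_ne_zero (mul_ne_zero hb.ne' hs) hW0))
    refine h1.congr_deriv ?_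
    unfold crv
    field_simp

/-- The periodic solution through `(b,0)`. -/
theorem exists_orbit (h : Ok S n (b ^ 2)) (k : ℕ) (hb : 0 < b) :
    ∃ γ : ℝ → ℝ × ℝ, IsSol (vf (PL k) (QL S n k)) γ ∧ γ 0 = (b, 0) ∧
      range γ = range (crv S n b) ∧ (∀ t, γ (t + Ts S n k (b ^ 2)) = γ t) ∧
      0 < Ts S n k (b ^ 2) ∧ (∀ t, γ t = γ 0 → ∃ m : ℤ, t = m * Ts S n k (b ^ 2)) := by
  have ha : 0 < b ^ 2 := pow_pos hb 2
  have h0 : crv S n b 0 = (b, 0) := by
    unfold crv
    simp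
  have key := exists_sol_of_curve (X := vf (PL k) (QL S n k)) (g := crv S n b)
    (g' := fun p => ((crv S n b p).2 / Wr S n (b ^ 2) p,
      -((crv S n b p).1 * qf S n ((crv S n b p).1 ^ 2) ((crv S n b p).2 ^ 2)) /
        Wr S n (b ^ 2) p))
    (w := fun p => Wr S n (b ^ 2) p * (b ^ 2 * Real.cos p ^ 2 + Vp S n (b ^ 2) p) ^ k)
    ?_ ?_ ?_ (hasDerivAt_crv h hb) ?_ ?_ ?_
  · rw [h0] at key
    exact key
  · exact (continuous_Wr h).mul (((continuous_const.mul (Real.continuous_cos.pow 2)).add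
      (continuous_Vp h)).pow k)
  · intro p
    exact mul_pos (Wr_pos h p) (pow_pos (uv_pos h p) k)
  · intro p
    simp only [Wr, Vp, Real.cos_add_two_pi]
  · intro p
    have hW0 := (Wr_pos h p).ne'
    rw [vf_L]
    have e : (crv S n b p).1 ^ 2 + (crv S n b p).2 ^ 2 =
        b ^ 2 * Real.cos p ^ 2 + Vp S n (b ^ 2) p := by
      rw [orb_crv_snd_sq h, orb_crv_fst_sq]
    rw [e]
    ext
    · simp only [Prod.smul_fst, smul_eq_mul]
      field_simp
    · simp only [Prod.smul_snd, smul_eq_mul]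
      field_simp
  · intro p
    simp only [crv, Wr, Real.cos_add_two_pi, Real.sin_add_two_pi]
  · intro p hp
    rw [h0] at hp
    have h1 : b * Real.cos p = b := congrArg Prod.fst hp
    have h2 : Real.cos p = 1 := by
      have h3 : b * Real.cos p = b * 1 := by rw [h1, mul_one]
      exact mul_left_cancel₀ hb.ne' h3
    obtain ⟨m, hm⟩ := (Real.cos_eq_one_iff p).1 h2
    exact ⟨m, hm.symm⟩

theorem minPeriod_L (h : Ok S n (b ^ 2)) (k : ℕ) (hb : 0 < b) :
    minPeriod (vf (PL k) (QL S n k)) (b, 0) = Ts S n k (b ^ 2) := by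
  obtain ⟨γ, h1, h2, -, h4, h5, h6⟩ := exists_orbit h k hb
  rw [← h2]
  exact minPeriod_eq (contDiff_vf _ _) h1 h5 h4 h6

end Pool.Agent.CritPer.M
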