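import Pool.Agent.CritPer.M.Esc

/-!
All orbits are closed when the top coefficient is negative or very small; the threshold.
-/

open Set Filter Topology Polynomial MeasureTheory

namespace Pool.Agent.CritPer.M

open Pool.Agent.CritPer.L

variable {S : ℝ[X]} {d n : ℕ}

/-- For `v` large the power `v^k` dominates `q(u,v)`, `0 ≤ u ≤ U`. -/
private theorem thr_qf_le (S : ℝ[X]) {k : ℕ} (hS : S.natDegree < k) {U ε : ℝ} (hU : 0 ≤ U)
    (hε : 0 < ε) : ∃ B : ℝ, 1 ≤ B ∧ ∀ u ∈ Icc 0 U, ∀ m, B ≤ m → qf S k u m ≤ ε * m ^ k := by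
  set A : ℝ := ∑ j ∈ Finset.range k, |S.coeff j| * U ^ (k - j) with hA
  have hA0 : 0 ≤ A := Finset.sum_nonneg fun j _ => by positivity
  refine ⟨1 + A / ε, by have := div_nonneg hA0 hε.le; linarith, fun u hu m hm => ?_⟩
  have hm1 : 1 ≤ m := by have := div_nonneg hA0 hε.le; linarith
  have hm0 : 0 ≤ m := by linarith
  have hAm : A ≤ ε * m := by
    have h1 : A / ε ≤ m := by linarith
    rw [div_le_iff₀ hε] at h1
    linarith
  have h1 : qf S k u m = ∑ j ∈ Finset.range k, S.coeff j * u ^ (k - j) * m ^ j := by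
    unfold qf
    rw [Finset.sum_range_succ, coeff_eq_zero_of_natDegree_lt hS]
    ring
  have h2 : ∀ j ∈ Finset.range k, S.coeff j * u ^ (k - j) * m ^ j ≤
      |S.coeff j| * U ^ (k - j) * m ^ (k - 1) := by
    intro j hj
    rw [Finset.mem_range] at hj
    have e1 : u ^ (k - j) ≤ U ^ (k - j) := pow_le_pow_left₀ hu.1 hu.2 _
    have e2 : m ^ j ≤ m ^ (k - 1) := pow_le_pow_right₀ hm1 (by omega)
    have e3 : 0 ≤ u ^ (k - j) := pow_nonneg hu.1 _
    have e4 : 0 ≤ m ^ j := pow_nonneg hm0 _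
    calc S.coeff j * u ^ (k - j) * m ^ j ≤ |S.coeff j| * u ^ (k - j) * m ^ j := by
          have := le_abs_self (S.coeff j)
          gcongr
      _ ≤ |S.coeff j| * U ^ (k - j) * m ^ (k - 1) := by
          gcongr
  rw [h1]
  calc _ ≤ ∑ j ∈ Finset.range k, |S.coeff j| * U ^ (k - j) * m ^ (k - 1) := Finset.sum_le_sum h2
    _ = A * m ^ (k - 1) := by rw [hA, Finset.sum_mul]
    _ ≤ ε * m * m ^ (k - 1) := by
        have : 0 ≤ m ^ (k - 1) := pow_nonneg hm0 _
        gcongr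
    _ = ε * m ^ k := by
        have : m ^ k = m * m ^ (k - 1) := by
          rw [← pow_succ']
          congr 1
          omega
        rw [this]
        ring

private theorem thr_qf_mul {S : ℝ[X]} {k n : ℕ} (hS : S.natDegree ≤ k) (hkn : k ≤ n) (u v : ℝ) :
    qf S n u v = u ^ (n - k) * qf S k u v := by
  unfold qf
  have h1 : ∑ j ∈ Finset.range (n + 1), S.coeff j * u ^ (n - j) * v ^ j =
      ∑ j ∈ Finset.range (k + 1), S.coeff j * u ^ (n - j) * v ^ j := by
    symm
    refine Finset.sum_subset (fun j hj => ?_) (fun j _ hj => ?_)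
    · rw [Finset.mem_range] at hj ⊢
      omega
    · rw [Finset.mem_range, not_lt] at hj
      rw [coeff_eq_zero_of_natDegree_lt (by omega)]
      ring
  rw [h1, Finset.mul_sum]
  refine Finset.sum_congr rfl fun j hj => ?_
  rw [Finset.mem_range] at hj
  have e1 : u ^ (n - j) = u ^ (n - k) * u ^ (k - j) := by
    rw [← pow_add]
    congr 1
    omega
  rw [e1]
  ring

theorem ok_small_delta (hF : Fam S d n) {ε : ℝ} (hε : 0 < ε) :
    ∃ δ1 : ℝ, 0 < δ1 ∧ ∀ δ ∈ Icc 0 δ1, ∀ a, 0 < a → Ok (fam S d ε δ) n a := by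
  have hd := hF.hd
  have hdn := hF.hdn
  have hdeg := hF.deg
  have hSd : S.natDegree < d - 1 := by omega
  -- the slope of the ray
  obtain ⟨κ, hκ1, hκ⟩ := thr_qf_le S hSd (U := 1) zero_le_one (half_pos hε)
  have hκ0 : 0 < κ := by linarith
  have hSκ : S.eval κ - ε * κ ^ (d - 1) ≤ -(ε / 2) := by
    have h1 := hκ 1 ⟨zero_le_one, le_rfl⟩ κ le_rfl
    rw [qf_eq hSd.le one_ne_zero, one_pow, one_mul, div_one] at h1
    have h2 : 1 ≤ κ ^ (d - 1) := one_le_pow₀ hκ1
    nlinarith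
  set μ : ℝ := ε / 4 with hμ
  have hμ0 : 0 < μ := by positivity
  set u0 : ℝ := max 1 (κ / μ) with hu0
  have hu01 : 1 ≤ u0 := le_max_left _ _
  have hu00 : 0 < u0 := by linarith
  have hu0κ : κ ≤ μ * u0 := by
    have : κ / μ ≤ u0 := le_max_right _ _
    rw [div_le_iff₀ hμ0] at this
    linarith
  -- the barrier on [0,u0]
  obtain ⟨B0, hB01, hB0⟩ := thr_qf_le S hSd (U := u0) hu00.le hε
  set B : ℝ := max B0 (κ * u0) with hB
  have hB1 : 1 ≤ B := hB01.trans (le_max_left _ _)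
  have hBpos : 0 < B := by linarith
  have hBκ : κ * u0 ≤ B := le_max_right _ _
  set δ1 : ℝ := min (μ / κ ^ d) (B / (u0 * (u0 ^ (n - d) * (2 * B) ^ d))) with hδ1
  have hδ1a : δ1 ≤ μ / κ ^ d := min_le_left _ _
  have hδ1b : δ1 ≤ B / (u0 * (u0 ^ (n - d) * (2 * B) ^ d)) := min_le_right _ _
  refine ⟨δ1, lt_min (by positivity) (by positivity), fun δ hδ a ha => ?_⟩
  have hc0 : 0 < (fam S d ε δ).coeff 0 := by rw [hF.coeff_zero]; exact one_pos
  refine ⟨by omega, hc0, ha, ?_⟩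
  refine ex_of_bdd hc0 le_rfl ha (M := κ * a + 2 * B) (by positivity) ?_
  intro c hc v hv
  -- the value of the polynomial at κ
  have hFκ : (fam S d ε δ).eval κ ≤ -μ := by
    rw [eval_fam]
    have h1 : δ * κ ^ d ≤ μ := by
      have : δ ≤ μ / κ ^ d := hδ.2.trans hδ1a
      rwa [le_div_iff₀ (by positivity)] at this
    have h2 : ε / 2 = 2 * μ := by rw [hμ]; ring
    linarith
  -- on [max c u0, a]
  have hray : ∀ u ∈ Icc (max c u0) a, v u ≤ κ * u := by
    have hsub : Icc (max c u0) a ⊆ Icc c a := Icc_subset_Icc_left (le_max_left _ _)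
    refine le_of_barrier (S := fam S d ε δ) (n := n) (m := fun u => κ * u) (m' := fun _ => κ)
      (hv.cont.mono hsub) (by fun_prop) (fun u hu => hv.derAt ⟨(le_max_left _ _).trans_lt hu.1, hu.2⟩)
      (fun u _ => by simpa using (hasDerivAt_id u).const_mul κ) ?_ ?_
    · rw [hv.zero]
      positivity
    · intro u hu
      have hu1 : u0 < u := (le_max_right _ _).trans_lt hu.1
      have hupos : 0 < u := by linarith
      have hdegF : (fam S d ε δ).natDegree ≤ n := (hF.natDegree ε δ).trans hdn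
      rw [qf_eq hdegF hupos.ne', mul_div_assoc, div_self hupos.ne', mul_one]
      have h1 : u ≤ u ^ n := le_self_pow₀ (by linarith) (by omega)
      have h2 : u0 ≤ u ^ n := by linarith
      have h3 : μ * u0 ≤ μ * u ^ n := mul_le_mul_of_nonneg_left h2 hμ0.le
      have h4 : u ^ n * (fam S d ε δ).eval κ ≤ u ^ n * (-μ) :=
        mul_le_mul_of_nonneg_left hFκ (by positivity)
      linarith
  -- on [c, min a u0]
  have hlow : ∀ u ∈ Icc c (min a u0), v u ≤ B * (2 - u / u0) := by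
    rcases lt_or_ge (min a u0) c with hlt | hge
    · intro u hu
      exact absurd (hu.1.trans hu.2) (not_le.2 hlt)
    have hsub : Icc c (min a u0) ⊆ Icc c a := Icc_subset_Icc_right (min_le_left _ _)
    refine le_of_barrier (S := fam S d ε δ) (n := n) (m := fun u => B * (2 - u / u0))
      (m' := fun _ => -(B / u0))
      (hv.cont.mono hsub) (by fun_prop) (fun u hu => hv.derAt ⟨hu.1, hu.2.trans_le (min_le_left _ _)⟩)
      (fun u _ => ?_) ?_ ?_
    · have h1 := (((hasDerivAt_id u).div_const u0).const_sub 2).const_mul B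
      have h2 : B * -(1 / u0) = -(B / u0) := by ring
      rw [h2] at h1
      exact h1
    · have h1 : min a u0 / u0 ≤ 1 := by
        rw [div_le_one hu00]
        exact min_le_right _ _
      have h2 : B ≤ B * (2 - min a u0 / u0) := by nlinarith
      refine le_trans ?_ h2
      rcases le_or_gt a u0 with h3 | h3
      · rw [min_eq_left h3, hv.zero]
        exact hBpos.le
      · rw [min_eq_right h3.le] at hge ⊢
        exact (hray u0 ⟨max_le hge le_rfl, h3.le⟩).trans hBκ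
    · intro u hu
      have hu1 : 0 < u := lt_trans hc.1 hu.1
      have hu2 : u < u0 := hu.2.trans_le (min_le_right _ _)
      have hq1 : 0 < u / u0 := by positivity
      have hq2 : u / u0 < 1 := (div_lt_one hu00).2 hu2
      set m : ℝ := B * (2 - u / u0) with hm
      have hm1 : B ≤ m := by nlinarith
      have hm2 : m ≤ 2 * B := by nlinarith
      have hm0 : 0 ≤ m := by linarith
      have hbr : qf S (d - 1) u m ≤ ε * m ^ (d - 1) :=
        hB0 u ⟨hu1.le, hu2.le⟩ m ((le_max_left _ _).trans hm1)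
      have h1 : qf (fam S d ε δ) n u m ≤ δ * u ^ (n - d) * m ^ d := by
        rw [hF.qf_fam, thr_qf_mul (k := d - 1) hSd.le (by omega)]
        have h2 : u ^ (n - (d - 1)) * qf S (d - 1) u m ≤ u ^ (n - (d - 1)) * (ε * m ^ (d - 1)) :=
          mul_le_mul_of_nonneg_left hbr (by positivity)
        linarith
      have h3 : δ * u ^ (n - d) * m ^ d ≤ δ1 * (u0 ^ (n - d) * (2 * B) ^ d) := by
        rw [mul_assoc]
        have e1 : u ^ (n - d) ≤ u0 ^ (n - d) := pow_le_pow_left₀ hu1.le hu2.le _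
        have e2 : m ^ d ≤ (2 * B) ^ d := pow_le_pow_left₀ hm0 hm2 _
        have e3 : δ ≤ δ1 := hδ.2
        have e4 : 0 ≤ δ := hδ.1
        have e5 : 0 ≤ δ1 := e4.trans e3
        gcongr
      have h4 : δ1 * (u0 ^ (n - d) * (2 * B) ^ d) ≤ B / u0 := by
        rw [le_div_iff₀ (by positivity)] at hδ1b
        rw [le_div_iff₀ hu00]
        linarith
      linarith
  intro u hu
  rcases le_or_gt u u0 with h1 | h1
  · have h2 := hlow u ⟨hu.1, le_min hu.2 h1⟩
    have h3 : 0 ≤ u := hc.1.le.trans hu.1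
    have h4 : 0 ≤ u / u0 := by positivity
    have h5 : 0 ≤ κ * a := by positivity
    nlinarith
  · have h2 := hray u ⟨max_le hu.1 h1.le, hu.2⟩
    have h3 : κ * u ≤ κ * a := mul_le_mul_of_nonneg_left hu.2 hκ0.le
    linarith

theorem ok_neg (hn : 1 ≤ n) (hS : S.natDegree < n) (h0 : 0 < S.coeff 0) {ε : ℝ} (hε : 0 < ε)
    {a : ℝ} (ha : 0 < a) : Ok (fam S (n + 1) ε 0) n a := by
  have hc0 : 0 < (fam S (n + 1) ε 0).coeff 0 := by
    rw [coeff_fam, if_neg (by omega), if_neg (by omega)]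
    linarith
  obtain ⟨B, hB1, hB⟩ := thr_qf_le S hS (U := a) ha.le hε
  refine ⟨hn, hc0, ha, ex_of_bdd hc0 le_rfl ha (M := B) (by linarith) ?_⟩
  intro c hc v hv
  refine le_of_barrier (S := fam S (n + 1) ε 0) (n := n) (m := fun _ => B) (m' := fun _ => 0)
    hv.cont (by fun_prop) (fun u hu => hv.derAt hu) (fun u _ => hasDerivAt_const u B) ?_ ?_
  · rw [hv.zero]
    linarith
  · intro u hu
    have h1 : qf (fam S (n + 1) ε 0) n u B = qf S n u B - ε * B ^ n := by
      unfold qf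
      simp only [coeff_fam]
      have e : ∀ j, (S.coeff j - (if j = n + 1 - 1 then ε else 0) + if j = n + 1 then (0 : ℝ) else 0) *
          u ^ (n - j) * B ^ j = S.coeff j * u ^ (n - j) * B ^ j -
          (if j = n then ε * u ^ (n - j) * B ^ j else 0) := by
        intro j
        rw [Nat.add_sub_cancel]
        split_ifs <;> ring
      simp only [e]
      rw [Finset.sum_sub_distrib, Finset.sum_ite_eq', if_pos (Finset.mem_range.2 (by omega)),
        Nat.sub_self]
      ring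
    have h2 := hB u ⟨hc.1.le.trans hu.1.le, hu.2.le⟩ B le_rfl
    rw [h1]
    linarith

theorem threshold (hF : Fam S d n) {ε δ0 : ℝ} (hε : 0 < ε) (hδ0 : 0 < δ0)
    (h : Esc (fam S d ε δ0) n) :
    ∃ δs : ℝ, 0 < δs ∧ δs < δ0 ∧ ¬ Esc (fam S d ε δs) n ∧
      ∀ δ, δs < δ → Esc (fam S d ε δ) n := by
  have hF0 : ∀ δ, 0 < (fam S d ε δ).coeff 0 := fun δ => by rw [hF.coeff_zero]; exact one_pos
  have hn : 1 ≤ n := by have := hF.hd; have := hF.hdn; omega
  obtain ⟨δ1, hδ1, hok⟩ := ok_small_delta hF hε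
  have hne1 : ∀ δ, 0 < δ → δ ≤ δ1 → ¬ Esc (fam S d ε δ) n := by
    intro δ hδ hδ' hesc
    obtain ⟨a, ha, hna⟩ := not_ok_of_esc hn (hF0 δ) hesc
    exact hna (hok δ ⟨hδ.le, hδ'⟩ a ha)
  set B : Set ℝ := {δ | 0 < δ ∧ Esc (fam S d ε δ) n} with hB
  have hne : B.Nonempty := ⟨δ0, hδ0, h⟩
  have hbd : BddBelow B := ⟨0, fun δ hδ => hδ.1.le⟩
  have hlow : δ1 ≤ sInf B := by
    refine le_csInf hne fun δ hδ => ?_
    by_contra hlt
    exact hne1 δ hδ.1 (not_le.1 hlt).le hδ.2
  have hpos : 0 < sInf B := lt_of_lt_of_le hδ1 hlow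
  have hopen : ∀ δ, 0 < δ → Esc (fam S d ε δ) n → sInf B < δ := by
    intro δ hδ hesc
    have h1 := esc_eventually hF hδ hesc
    have h2 : Tendsto (fun x : ℝ => ((ε, x) : ℝ × ℝ)) (𝓝 δ) (𝓝 (ε, δ)) := by
      have : Continuous (fun x : ℝ => ((ε, x) : ℝ × ℝ)) := by fun_prop
      exact this.tendsto δ
    have h3 : ∀ᶠ x in 𝓝[<] δ, Esc (fam S d ε x) n := nhdsWithin_le_nhds (h2.eventually h1)
    have h4 : ∀ᶠ x in 𝓝[<] δ, 0 < x := nhdsWithin_le_nhds (lt_mem_nhds hδ)
    obtain ⟨x, ⟨hx1, hx2⟩, hx3⟩ := ((h3.and h4).and self_mem_nhdsWithin).exists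
    exact lt_of_le_of_lt (csInf_le hbd ⟨hx2, hx1⟩) hx3
  refine ⟨sInf B, hpos, hopen δ0 hδ0 h, fun hesc => ?_, fun δ hδ => ?_⟩
  · exact lt_irrefl _ (hopen _ hpos hesc)
  · obtain ⟨x, hx, hxδ⟩ := exists_lt_of_csInf_lt hne hδ
    exact esc_mono hF hxδ.le hx.2

end Pool.Agent.CritPer.M
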