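import Pool.Agent.CritPer.M.Esc

/-!
Two solutions cannot both blow up exactly at `u = 0`.
-/

open Set Filter Topology Polynomial MeasureTheory

namespace Pool.Agent.CritPer.M

open Pool.Agent.CritPer.L

private theorem ub_lt {F : ℝ[X]} {n : ℕ} (h0 : 0 < F.coeff 0) {a b : ℝ} (hab : a < b)
    (hEx : ∀ c a' : ℝ, 0 < c → c < a' → Ex F n c a') {u : ℝ} (hu0 : 0 < u) (hua : u ≤ a) :
    vv F n a u < vv F n b u := by
  have h2 : IsW F n u b (vv F n b) := isW_vv (hua.trans hab.le) (hEx u b hu0 (hua.trans_lt hab))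
  rcases hua.eq_or_lt with rfl | hlt
  · have e : vv F n u u = 0 := by
      have hz : IsW F n u u (fun _ => 0) := by
        refine ⟨rfl, fun x hx => ?_⟩
        have hxu : x = u := le_antisymm hx.2 hx.1
        subst hxu
        rw [Icc_self]
        rw [hasDerivWithinAt_iff_tendsto_slope]
        simp
      rw [vv_eq hz (left_mem_Icc.2 le_rfl)]
    rw [e]
    exact h2.pos h0 hu0.le u ⟨le_rfl, hab⟩
  · have h1 : IsW F n u a (vv F n a) := isW_vv hua (hEx u a hu0 hlt)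
    by_contra hcon
    rw [not_lt] at hcon
    have hsub : Icc u a ⊆ Icc u b := Icc_subset_Icc_right hab.le
    have hpos : 0 < vv F n b a := h2.pos h0 hu0.le a ⟨hua, hab⟩
    have hc1 : ContinuousOn (fun u => vv F n b u - vv F n a u) (Icc u a) :=
      (h2.cont.mono hsub).sub h1.cont
    have hiv := intermediate_value_Icc hua hc1
    have h00 : (0 : ℝ) ∈ Icc (vv F n b u - vv F n a u) (vv F n b a - vv F n a a) := by
      rw [h1.zero]
      constructor <;> linarith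
    obtain ⟨c, hc, hc0⟩ := hiv h00
    have := sol_unique F n (c := u) (d := a) (v := vv F n b) (w := vv F n a)
      (fun x hx => (h2.der x (hsub hx)).mono hsub) (fun x hx => h1.der x hx) hc
      (by simp only at hc0; linarith) a (right_mem_Icc.2 hua)
    rw [h1.zero] at this
    linarith

theorem ok_of_not_esc {S : ℝ[X]} {d n : ℕ} (hF : Fam S d n) {ε δ : ℝ} (hε : 0 < ε) (hδ : 0 < δ)
    (h : ¬ Esc (fam S d ε δ) n) {a : ℝ} (ha : 0 < a) : Ok (fam S d ε δ) n a := by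
  have h0 : 0 < (fam S d ε δ).coeff 0 := by
    rw [hF.coeff_zero]
    exact one_pos
  have hd2 := hF.hd
  have hdn := hF.hdn
  have hn : 1 ≤ n := by omega
  have hdeg := hF.natDegree ε δ
  obtain ⟨y0, m, M, hP, hanti⟩ := exists_PhB hF hε hδ
  set F := fam S d ε δ with hFdef
  by_contra hnot
  have hEx : ∀ c a' : ℝ, 0 < c → c < a' → Ex F n c a' := by
    intro c a' hc hca
    by_contra hex
    exact h ⟨c, a', hc, hca, hex⟩
  have hex1 : ¬ Ex F n 0 a := fun hex => hnot ⟨hn, h0, ha, hex⟩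
  have hab : a < 2 * a := by linarith
  have hy := hP.hy
  -- the solutions
  set v1 := vv F n a with hv1
  set v2 := vv F n (2 * a) with hv2
  have hlt : ∀ u, 0 < u → u ≤ a → v1 u < v2 u := fun u hu hua => ub_lt h0 hab hEx hu hua
  -- the first point
  obtain ⟨u1, hu1, w1, hw1, hw1M⟩ := exists_large h0 le_rfl ha hex1 (a / y0)
  have e1 : v1 u1 = w1 u1 := vv_eq hw1 (left_mem_Icc.2 hu1.2.le)
  have hbig1 : a / y0 < v1 u1 := by rw [e1]; exact hw1M
  have hpos1 : 0 < v1 u1 := lt_trans (div_pos ha hy) hbig1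
  have hle1 : u1 ≤ y0 * v1 u1 := by
    rw [div_lt_iff₀ hy] at hbig1
    linarith [hu1.2]
  have hlt1 := hlt u1 hu1.1 hu1.2.le
  have hd1 : d - 1 ≠ 0 := by omega
  have he : 0 < 1 / v1 u1 ^ (d - 1) - 1 / v2 u1 ^ (d - 1) := by
    have h3 : v1 u1 ^ (d - 1) < v2 u1 ^ (d - 1) := pow_lt_pow_left₀ hlt1 hpos1.le hd1
    have h4 := one_div_lt_one_div_of_lt (pow_pos hpos1 (d - 1)) h3
    linarith
  set e := 1 / v1 u1 ^ (d - 1) - 1 / v2 u1 ^ (d - 1) with hedef
  -- bound of v1 on [u1,a]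
  have hW1 : IsW F n u1 a v1 := isW_vv hu1.2.le (hEx u1 a hu1.1 hu1.2)
  obtain ⟨B, hB⟩ := isCompact_Icc.exists_bound_of_continuousOn hW1.cont
  obtain ⟨u2, hu2, w2, hw2, hw2M⟩ := exists_large h0 le_rfl ha hex1 (max B (max 1 (1 / e)))
  have e2 : v1 u2 = w2 u2 := vv_eq hw2 (left_mem_Icc.2 hu2.2.le)
  rw [← e2] at hw2M
  have hb1 : B < v1 u2 := lt_of_le_of_lt (le_max_left _ _) hw2M
  have hb2 : 1 < v1 u2 := lt_of_le_of_lt ((le_max_left _ _).trans (le_max_right _ _)) hw2M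
  have hb3 : 1 / e < v1 u2 := lt_of_le_of_lt ((le_max_right _ _).trans (le_max_right _ _)) hw2M
  have hu21 : u2 < u1 := by
    by_contra hcon
    rw [not_lt] at hcon
    have h3 := hB u2 ⟨hcon, hu2.2.le⟩
    have h4 := le_abs_self (v1 u2)
    rw [Real.norm_eq_abs] at h3
    linarith
  have hWa : IsW F n u2 a v1 := isW_vv hu2.2.le (hEx u2 a hu2.1 hu2.2)
  have hWb : IsW F n u2 (2 * a) v2 :=
    isW_vv (hu2.2.le.trans hab.le) (hEx u2 (2 * a) hu2.1 (hu2.2.trans hab))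
  have key := zeta_anti hd2 hdeg hdn hP hanti hu2.1.le hWa hWb (u1 := u1)
    ⟨hu21.le, hu1.2.le⟩ ⟨hu21.le, hu1.2.le.trans hab.le⟩
    (fun u hu => (hlt u (hu2.1.trans_le hu.1) (hu.2.trans hu1.2.le)).le) hpos1 hle1
  have hv2pos : 0 < v2 u2 := lt_trans (by linarith) (hlt u2 hu2.1 hu2.2.le)
  have h5 : 0 < 1 / v2 u2 ^ (d - 1) := by positivity
  have h6 : 1 / v1 u2 ^ (d - 1) ≤ 1 / v1 u2 :=
    one_div_le_one_div_of_le (by linarith) (le_self_pow₀ hb2.le hd1)
  have h7 : 1 / v1 u2 < e := by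
    rw [div_lt_iff₀ (by linarith)]
    rw [div_lt_iff₀ he] at hb3
    linarith
  linarith

end Pool.Agent.CritPer.M
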