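import Pool.Agent.CritPer.M.Per
import Pool.Agent.CritPer.M.Thr
import Pool.Agent.CritPer.M.UB
import Pool.Agent.CritPer.M.Inf0
import Pool.Agent.CritPer.M.Inc
import Pool.Agent.CritPer.M.Near
import Pool.Agent.CritPer.M.Base
import Pool.Agent.CritPer.M.Small

/-!
The induction step.
-/

open Set Filter Topology Polynomial MeasureTheory

namespace Pool.Agent.CritPer.M

open Pool.Agent.CritPer.L

theorem fam_zero (S : ℝ[X]) (d : ℕ) : fam S d 0 0 = S := by simp [fam]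

theorem deriv_fam (S : ℝ[X]) (d : ℕ) (ε δ K : ℝ) : (fam S d ε δ).derivative.eval K =
      S.derivative.eval K - ε * ((d - 1 : ℕ) * K ^ (d - 1 - 1)) + δ * (d * K ^ (d - 1)) := by
  unfold fam
  rw [derivative_add, derivative_sub, derivative_C_mul_X_pow, derivative_C_mul_X_pow, eval_add,
    eval_sub, eval_mul, eval_mul, eval_C, eval_C, eval_pow, eval_pow, eval_X]
  ring

theorem root_persist {S : ℝ[X]} {d : ℕ} {ε0 δ0 : ℝ} (h : Root (fam S d ε0 δ0)) :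
    ∀ᶠ p in 𝓝 ((ε0, δ0) : ℝ × ℝ), Root (fam S d p.1 p.2) := by
  obtain ⟨κ, hκ, h1, h2⟩ := h
  have c1 : Continuous (fun p : ℝ × ℝ => S.eval κ - p.1 * κ ^ (d - 1) + p.2 * κ ^ d) := by
    fun_prop
  have c2 : Continuous (fun z : (ℝ × ℝ) × ℝ => z.2 * (S.derivative.eval z.2 -
      z.1.1 * ((d - 1 : ℕ) * z.2 ^ (d - 1 - 1)) + z.1.2 * (d * z.2 ^ (d - 1))) -
      (S.eval z.2 - z.1.1 * z.2 ^ (d - 1) + z.1.2 * z.2 ^ d)) := by
    have h3 : Continuous (fun z : (ℝ × ℝ) × ℝ => S.eval z.2) :=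
      S.continuous.comp continuous_snd
    have h4 : Continuous (fun z : (ℝ × ℝ) × ℝ => S.derivative.eval z.2) :=
      S.derivative.continuous.comp continuous_snd
    refine (continuous_snd.mul ((h4.sub ?_).add ?_)).sub ((h3.sub ?_).add ?_)
    all_goals fun_prop
  have e1 : ∀ᶠ p in 𝓝 ((ε0, δ0) : ℝ × ℝ), (fam S d p.1 p.2).eval κ < 0 := by
    have h3 : S.eval κ - ε0 * κ ^ (d - 1) + δ0 * κ ^ d < 0 := by rwa [← eval_fam]
    filter_upwards [c1.continuousAt.eventually (gt_mem_nhds h3)] with p hp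
    rwa [eval_fam]
  have e2 : ∀ᶠ p in 𝓝 ((ε0, δ0) : ℝ × ℝ), ∀ K ∈ Icc 0 κ,
      K * (fam S d p.1 p.2).derivative.eval K - (fam S d p.1 p.2).eval K < 0 := by
    refine isCompact_Icc.eventually_forall_of_forall_eventually fun K hK => ?_
    have h3 := h2 K hK
    rw [deriv_fam, eval_fam] at h3
    filter_upwards [c2.continuousAt.eventually (gt_mem_nhds h3)] with z hz
    rwa [deriv_fam, eval_fam]
  filter_upwards [e1, e2] with p hp1 hp2
  exact ⟨κ, hκ, hp1, hp2⟩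

theorem Good.persist {S : ℝ[X]} {d n k M : ℕ} {ε0 δ0 : ℝ} (h : Good k n (fam S d ε0 δ0) M) :
    ∀ᶠ p in 𝓝 ((ε0, δ0) : ℝ × ℝ), (fam S d p.1 p.2).natDegree ≤ n →
      (fam S d p.1 p.2).coeff 0 = 1 → Good k n (fam S d p.1 p.2) M := by
  obtain ⟨a, b, h1, h2⟩ := h.pairs
  have key : ∀ i ∈ Finset.range M, ∀ᶠ p in 𝓝 ((ε0, δ0) : ℝ × ℝ), Ok (fam S d p.1 p.2) n (b i) ∧
      0 < (-1 : ℝ) ^ (i + 1) *
        (Ts (fam S d p.1 p.2) n k (b i) - Ts (fam S d p.1 p.2) n k (a i)) := by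
    intro i hi
    obtain ⟨h3, h4, h5, h6⟩ := h1 i (Finset.mem_range.1 hi)
    have h7 : Ok (fam S d ε0 δ0) n (a i) := h5.mono h3 h4.le
    set η := (-1 : ℝ) ^ (i + 1) *
      (Ts (fam S d ε0 δ0) n k (b i) - Ts (fam S d ε0 δ0) n k (a i)) with hη
    filter_upwards [Ts_fam h5 k (half_pos h6), Ts_fam h7 k (half_pos h6)] with p hp1 hp2
    refine ⟨hp1.1, ?_⟩
    have e1 := abs_lt.1 hp1.2
    have e2 := abs_lt.1 hp2.2
    rcases neg_one_pow_eq_or ℝ (i + 1) with e | e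
    · rw [e] at hη ⊢
      linarith [e1.1, e2.2]
    · rw [e] at hη ⊢
      linarith [e1.2, e2.1]
  have key2 := (eventually_all_finset (Finset.range M)).2 key
  filter_upwards [key2, root_persist h.root] with p hp1 hp2 hdeg hc0
  refine ⟨h.hn, hdeg, hc0, hp2, a, b, fun i hi => ?_, h2⟩
  obtain ⟨h3, h4, h5, h6⟩ := h1 i hi
  obtain ⟨h7, h8⟩ := hp1 i (Finset.mem_range.2 hi)
  exact ⟨h3, h4, h7, h8⟩

theorem Good.snoc {k n : ℕ} {S : ℝ[X]} {M : ℕ} (hM : 1 ≤ M) (h : Good k n S M)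
    (hx : ∀ A, Ok S n A → ∃ a b, A ≤ a ∧ a < b ∧ Ok S n b ∧
      0 < (-1 : ℝ) ^ (M + 1) * (Ts S n k b - Ts S n k a)) : Good k n S (M + 1) := by
  obtain ⟨a, b, h1, h2⟩ := h.pairs
  obtain ⟨g1, g2, g3, g4⟩ := h1 (M - 1) (by omega)
  obtain ⟨a', b', h3, h4, h5, h6⟩ := hx (b (M - 1)) g3
  refine ⟨h.hn, h.deg, h.c0, h.root, fun i => if i < M then a i else a',
    fun i => if i < M then b i else b', fun i hi => ?_, fun i hi => ?_⟩
  · rcases Nat.lt_succ_iff_lt_or_eq.1 hi with h7 | h7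
    · simp only [if_pos h7]
      exact h1 i h7
    · subst h7
      simp only [lt_irrefl, if_false]
      exact ⟨(g1.trans g2).trans_le h3, h4, h5, h6⟩
  · rcases Nat.lt_succ_iff_lt_or_eq.1 hi with h7 | h7
    · have h8 : i < M := by omega
      simp only [if_pos h7, if_pos h8]
      exact h2 i h7
    · have h8 : i < M := by omega
      have h9 : ¬ (i + 1 < M) := by omega
      have h10 : i = M - 1 := by omega
      simp only [if_pos h8, if_neg h9]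
      rw [h10]
      exact h3

/-- A new increasing interval, when all orbits are closed. -/
theorem inc_step {S : ℝ[X]} {d n k : ℕ} (hF : Fam S d n) {ε δ : ℝ} (hε : 0 < ε) (hδ : 0 < δ)
    (hr : Root (fam S d ε δ)) (hok : ∀ a, 0 < a → Ok (fam S d ε δ) n a) {A : ℝ}
    (hA : Ok (fam S d ε δ) n A) : ∃ a b, A ≤ a ∧ a < b ∧ Ok (fam S d ε δ) n b ∧
      0 < Ts (fam S d ε δ) n k b - Ts (fam S d ε δ) n k a := by
  rcases Nat.eq_zero_or_pos k with hk | hk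
  · subst hk
    obtain ⟨κ, hκ, h1, -⟩ := hr
    have h2 := Ts_top hA.hn ((hF.natDegree ε δ).trans hF.hdn) hκ h1 hok
    obtain ⟨b, hb1, hb2⟩ := ((h2.eventually_gt_atTop (Ts (fam S d ε δ) n 0 A)).and
      (eventually_gt_atTop A)).exists
    exact ⟨A, b, le_rfl, hb2, hok b (hA.ha.trans hb2), sub_pos.2 hb1⟩
  · obtain ⟨a, b, h1, h2, h3⟩ := inc_pair hF hε hδ hr hok hk A
    exact ⟨a, b, h1.le, h2, hok b ((hA.ha.trans h1).trans h2), sub_pos.2 h3⟩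

theorem step_core {S : ℝ[X]} {d n k M : ℕ} (hF : Fam S d n)
    (hcond : d - 1 + (n - d + 1) * (2 * k + 1) ≤ (n - d + 1) * (2 * (d - 1)))
    {ε δs : ℝ} (hε : 0 < ε) (hδs : 0 < δs) (hne : ¬ Esc (fam S d ε δs) n)
    (hesc : ∀ δ, δs < δ → Esc (fam S d ε δ) n) (hM : Odd M)
    (hG : Good k n (fam S d ε δs) M) :
    ∃ δ, Good k n (fam S d ε δ) (M + 2) ∧ Esc (fam S d ε δ) n := by
  have hok : ∀ a, 0 < a → Ok (fam S d ε δs) n a := fun a ha => ok_of_not_esc hF hε hδs hne ha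
  have hM1 : 1 ≤ M := hM.pos
  have hG1 : Good k n (fam S d ε δs) (M + 1) := by
    refine hG.snoc hM1 fun A hA => ?_
    obtain ⟨a, b, h1, h2, h3, h4⟩ := inc_step (k := k) hF hε hδs hG.root hok hA
    refine ⟨a, b, h1, h2, h3, ?_⟩
    rw [hM.add_one.neg_one_pow, one_mul]
    exact h4
  have h1 := hG1.persist
  have h2 : Tendsto (fun x : ℝ => ((ε, x) : ℝ × ℝ)) (𝓝 δs) (𝓝 (ε, δs)) := by
    have : Continuous (fun x : ℝ => ((ε, x) : ℝ × ℝ)) := by fun_prop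
    exact this.tendsto δs
  have h3 : ∀ᶠ x in 𝓝[>] δs, (fam S d ε x).natDegree ≤ n →
      (fam S d ε x).coeff 0 = 1 → Good k n (fam S d ε x) (M + 1) :=
    nhdsWithin_le_nhds (h2.eventually h1)
  obtain ⟨δ, hδ1, hδ2⟩ := (h3.and self_mem_nhdsWithin).exists
  have hδ2' : δs < δ := hδ2
  have hG2 := hδ1 ((hF.natDegree ε δ).trans hF.hdn) (hF.coeff_zero ε δ)
  have hE := hesc δ hδ2'
  refine ⟨δ, ?_, hE⟩
  refine hG2.snoc (by omega) fun A hA => ?_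
  obtain ⟨a, b, h4, h5, h6, h7⟩ := dec_near hF hcond hε (hδs.trans hδ2') hE hA
  refine ⟨a, b, h4, h5, h6, ?_⟩
  rw [(hM.add_one.add_one).neg_one_pow]
  linarith

theorem step {S : ℝ[X]} {d n k M : ℕ} (hF : Fam S d n)
    (hcond : d - 1 + (n - d + 1) * (2 * k + 1) ≤ (n - d + 1) * (2 * (d - 1)))
    (hM : Odd M) (hG : Good k n S M) (hE : Esc S n) :
    ∃ S' : ℝ[X], S'.natDegree ≤ d ∧ Good k n S' (M + 2) ∧ Esc S' n := by
  have hG0 : Good k n (fam S d 0 0) M := by rwa [fam_zero]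
  have h1 := hG0.persist
  obtain ⟨ρ, hρ, h2⟩ := Metric.eventually_nhds_iff.1 h1
  have hgood : ∀ ε δ : ℝ, |ε| < ρ → |δ| < ρ → Good k n (fam S d ε δ) M := by
    intro ε δ hε hδ
    refine h2 (y := (ε, δ)) ?_ ((hF.natDegree ε δ).trans hF.hdn) (hF.coeff_zero ε δ)
    rw [Prod.dist_eq]
    simpa [Real.dist_eq] using ⟨hε, hδ⟩
  have hE0 : Esc (fam S d 0 (ρ / 2)) n :=
    esc_mono hF (half_pos hρ).le (by rwa [fam_zero])
  have h3 := esc_eventually hF (half_pos hρ) hE0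
  have h4 : Tendsto (fun x : ℝ => ((x, ρ / 2) : ℝ × ℝ)) (𝓝 0) (𝓝 (0, ρ / 2)) := by
    have : Continuous (fun x : ℝ => ((x, ρ / 2) : ℝ × ℝ)) := by fun_prop
    exact this.tendsto 0
  have h5 : ∀ᶠ x in 𝓝[>] (0 : ℝ), Esc (fam S d x (ρ / 2)) n := nhdsWithin_le_nhds (h4.eventually h3)
  have h6 : ∀ᶠ x in 𝓝[>] (0 : ℝ), x < ρ := nhdsWithin_le_nhds (gt_mem_nhds hρ)
  obtain ⟨ε, ⟨hε1, hε2⟩, hε3⟩ := ((h5.and h6).and self_mem_nhdsWithin).exists
  have hε : 0 < ε := hε3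
  obtain ⟨δs, h7, h8, h9, h10⟩ := threshold hF hε (half_pos hρ) hε1
  have hG1 : Good k n (fam S d ε δs) M :=
    hgood ε δs (by rwa [abs_of_pos hε]) (by rw [abs_of_pos h7]; linarith)
  obtain ⟨δ, h11, h12⟩ := step_core hF hcond hε h7 h9 h10 hM hG1
  exact ⟨_, hF.natDegree ε δ, h11, h12⟩

/-- The period decreases near the center. -/
theorem first_pair {S : ℝ[X]} {n : ℕ} (hn : 1 ≤ n) (hdeg : S.natDegree ≤ n) (h0 : S.coeff 0 = 1)
    (hr : Root S) (k : ℕ) : Good k n S 1 := by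
  have h0' : 0 < S.coeff 0 := by rw [h0]; exact one_pos
  obtain ⟨b, hb, hok⟩ := ok_small hn h0'
  have h1 := (Ts_small hn h0' k).eventually_gt_atTop (Ts S n k b)
  have h2 : ∀ᶠ x in 𝓝[>] (0 : ℝ), x < b := nhdsWithin_le_nhds (gt_mem_nhds hb)
  obtain ⟨a, ⟨ha1, ha2⟩, ha3⟩ := ((h1.and h2).and self_mem_nhdsWithin).exists
  refine ⟨hn, hdeg, h0, hr, fun _ => a, fun _ => b, fun i hi => ?_, fun i hi => by omega⟩
  have hi0 : i = 0 := by omega
  subst hi0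
  refine ⟨ha3, ha2, (hok b ⟨hb, le_rfl⟩).1, ?_⟩
  simp only [zero_add, pow_one]
  linarith

theorem first {d n k : ℕ} (hd : 2 ≤ d) (hdn : d ≤ n)
    (hcond : d - 1 + (n - d + 1) * (2 * k + 1) ≤ (n - d + 1) * (2 * (d - 1))) :
    ∃ S' : ℝ[X], S'.natDegree ≤ d ∧ Good k n S' 3 ∧ Esc S' n := by
  have hF := fam_one hd hdn
  obtain ⟨δ0, h1, h2, h3⟩ := esc_base hd hdn
  obtain ⟨δs, h7, h8, h9, h10⟩ := threshold hF one_pos h1 h2
  have hG : Good k n (fam 1 d 1 δs) 1 :=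
    first_pair (by omega) ((hF.natDegree 1 δs).trans hdn) (hF.coeff_zero 1 δs) (h3 δs h7 h8) k
  obtain ⟨δ, h11, h12⟩ := step_core hF hcond one_pos h7 h9 h10 odd_one hG
  exact ⟨_, hF.natDegree 1 δ, h11, h12⟩

/-- The last step for `k = 0`: all orbits closed, period tending to infinity. -/
theorem last_step {S : ℝ[X]} {n M : ℕ} (hn : 1 ≤ n) (hS : S.natDegree < n) (hM : Odd M)
    (hG : Good 0 n S M) : ∃ S' : ℝ[X], Good 0 n S' (M + 1) := by
  have hdeg : ∀ ε : ℝ, (fam S (n + 1) ε 0).natDegree ≤ n := by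
    intro ε
    rw [natDegree_le_iff_coeff_eq_zero]
    intro j hj
    rw [coeff_fam, if_neg (by omega), coeff_eq_zero_of_natDegree_lt (by omega)]
    simp
  have hc0 : ∀ ε : ℝ, (fam S (n + 1) ε 0).coeff 0 = 1 := by
    intro ε
    rw [coeff_fam, if_neg (by omega), if_neg (by omega), hG.c0]
    ring
  have hG0 : Good 0 n (fam S (n + 1) 0 0) M := by rw [fam_zero]; exact hG
  have h4 : Tendsto (fun x : ℝ => ((x, 0) : ℝ × ℝ)) (𝓝 0) (𝓝 (0, 0)) := by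
    have : Continuous (fun x : ℝ => ((x, 0) : ℝ × ℝ)) := by fun_prop
    exact this.tendsto 0
  have h5 := h4.eventually hG0.persist
  have h6 : ∀ᶠ x in 𝓝[>] (0 : ℝ), (fam S (n + 1) x 0).natDegree ≤ n →
      (fam S (n + 1) x 0).coeff 0 = 1 → Good 0 n (fam S (n + 1) x 0) M := nhdsWithin_le_nhds h5
  obtain ⟨ε, hε1, hε2⟩ := (h6.and self_mem_nhdsWithin).exists
  have hε : 0 < ε := hε2
  have hG1 := hε1 (hdeg ε) (hc0 ε)
  have hok : ∀ a, 0 < a → Ok (fam S (n + 1) ε 0) n a := fun a ha =>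
    ok_neg hn hS (by rw [hG.c0]; exact one_pos) hε ha
  refine ⟨_, hG1.snoc hM.pos fun A hA => ?_⟩
  obtain ⟨κ, hκ, h7, -⟩ := hG1.root
  have h8 := Ts_top hn (hdeg ε) hκ h7 hok
  obtain ⟨b, hb1, hb2⟩ := ((h8.eventually_gt_atTop (Ts (fam S (n + 1) ε 0) n 0 A)).and
    (eventually_gt_atTop A)).exists
  refine ⟨A, b, le_rfl, hb2, hok b (hA.ha.trans hb2), ?_⟩
  rw [hM.add_one.neg_one_pow, one_mul]
  exact sub_pos.2 hb1

end Pool.Agent.CritPer.M
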