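import Pool.Agent.CritPer.M.Basic

open Set Filter Topology Polynomial MeasureTheory

namespace Pool.Agent.CritPer.M

open Pool.Agent.CritPer.L

variable {S : ℝ[X]} {n : ℕ} {a : ℝ}

theorem Wf.qv_continuousOn (h : Ok S n a) :
    ContinuousOn (fun u => qf S n u (vs S n a u)) (Icc 0 a) :=
  (continuous_qf S n).comp_continuousOn (continuousOn_id.prodMk (h.contOn))

theorem Wf.mem (ha : 0 < a) {t : ℝ} (ht : t ∈ Icc (0 : ℝ) 1) : a * t ∈ Icc 0 a :=
  ⟨mul_nonneg ha.le ht.1, by nlinarith [ht.2]⟩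

theorem vs_eq_ws (h : Ok S n a) {t : ℝ} (ht : t ∈ Icc (0 : ℝ) 1) :
    vs S n a (a * t) = a * (1 - t) * ws S n a t := by
  have hat := Wf.mem h.ha ht
  have hsub : Icc (a * t) a ⊆ Icc 0 a := Icc_subset_Icc_left hat.1
  have hc : ContinuousOn (fun u => -(qf S n u (vs S n a u))) (Icc (a * t) a) :=
    (Wf.qv_continuousOn h).neg.mono hsub
  have h1 := intervalIntegral.integral_eq_sub_of_hasDerivAt_of_le (f := vs S n a)
    (f' := fun u => -(qf S n u (vs S n a u))) hat.2 ((h.contOn).mono hsub)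
    (fun x hx => (h.deriv (hsub (Ioo_subset_Icc_self hx))).hasDerivAt
      (Icc_mem_nhds (hat.1.trans_lt hx.1) hx.2))
    (ContinuousOn.intervalIntegrable (by rwa [uIcc_of_le hat.2]))
  rw [h.self, intervalIntegral.integral_neg] at h1
  have h2 : vs S n a (a * t) = ∫ u in (a * t)..a, qf S n u (vs S n a u) := by linarith
  rw [h2]
  unfold ws
  have h3 := intervalIntegral.mul_integral_comp_mul_add (a := 0) (b := 1)
    (f := fun u => qf S n u (vs S n a u)) (a * (1 - t)) (a * t)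
  rw [mul_zero, zero_add, mul_one, show a * (1 - t) + a * t = a by ring] at h3
  rw [← h3]
  congr 1
  refine intervalIntegral.integral_congr fun r _ => ?_
  show qf S n (a * (1 - t) * r + a * t) (vs S n a (a * (1 - t) * r + a * t)) = _
  rw [show a * (1 - t) * r + a * t = a * (t + (1 - t) * r) by ring]

theorem ws_one (h : Ok S n a) : ws S n a 1 = S.eval 0 * a ^ n := by
  unfold ws
  have h1 : ∀ r : ℝ, a * (1 + (1 - 1) * r) = a := fun r => by ring
  simp only [h1, h.self, qf_zero]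
  rw [intervalIntegral.integral_const, ← Polynomial.coeff_zero_eq_eval_zero]
  simp

theorem ws_pos (h : Ok S n a) {t : ℝ} (ht : t ∈ Icc (0 : ℝ) 1) :
    0 < ws S n a t := by
  rcases ht.2.eq_or_lt with h1 | h1
  · rw [h1, ws_one h]
    rw [← Polynomial.coeff_zero_eq_eval_zero]
    exact mul_pos h.c0 (pow_pos h.ha n)
  · have h2 := vs_eq_ws h ht
    have h3 : 0 < vs S n a (a * t) := h.pos ⟨(Wf.mem h.ha ht).1, by nlinarith [h.ha]⟩
    rw [h2] at h3
    have h4 : 0 < a * (1 - t) := mul_pos h.ha (by linarith)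
    exact (mul_pos_iff_of_pos_left h4).1 h3

theorem ws_continuousOn (h : Ok S n a) :
    ContinuousOn (ws S n a) (Icc 0 1) := by
  set V : ℝ → ℝ := IccExtend h.ha.le ((Icc 0 a).domRestrict (vs S n a)) with hV
  have hVc : Continuous V := (continuousOn_iff_continuous_domRestrict.1 (h.contOn)).Icc_extend'
  have hVe : ∀ u ∈ Icc 0 a, V u = vs S n a u := fun u hu => by
    rw [hV, IccExtend_of_mem h.ha.le _ hu]
    rfl
  have hcont : Continuous (fun t : ℝ => ∫ r in (0 : ℝ)..1,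
      qf S n (a * (t + (1 - t) * r)) (V (a * (t + (1 - t) * r)))) := by
    apply intervalIntegral.continuous_parametric_intervalIntegral_of_continuous'
    have hu : Continuous (fun z : ℝ × ℝ => a * (z.1 + (1 - z.1) * z.2)) := by fun_prop
    exact (continuous_qf S n).comp (hu.prodMk (hVc.comp hu))
  refine hcont.continuousOn.congr fun t ht => ?_
  unfold ws
  refine intervalIntegral.integral_congr fun r hr => ?_
  rw [uIcc_of_le zero_le_one] at hr
  have hmem : a * (t + (1 - t) * r) ∈ Icc 0 a := by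
    refine Wf.mem h.ha ⟨?_, ?_⟩
    · nlinarith [ht.1, ht.2, hr.1, mul_nonneg (sub_nonneg.2 ht.2) hr.1]
    · nlinarith [ht.1, ht.2, hr.2, mul_nonneg (sub_nonneg.2 ht.2) (sub_nonneg.2 hr.2)]
  show qf S n (a * (t + (1 - t) * r)) (vs S n a (a * (t + (1 - t) * r))) =
    qf S n (a * (t + (1 - t) * r)) (V (a * (t + (1 - t) * r)))
  rw [hVe _ hmem]

theorem Wf.cos_mem (p : ℝ) : Real.cos p ^ 2 ∈ Icc (0 : ℝ) 1 :=
  ⟨sq_nonneg _, by nlinarith [Real.sin_sq_add_cos_sq p, sq_nonneg (Real.sin p)]⟩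

theorem continuous_Wr (h : Ok S n a) : Continuous (Wr S n a) := by
  have h1 : Continuous (fun p : ℝ => ws S n a (Real.cos p ^ 2)) :=
    (ws_continuousOn h).comp_continuous (by fun_prop) Wf.cos_mem
  exact h1.sqrt

theorem Wr_pos (h : Ok S n a) (p : ℝ) : 0 < Wr S n a p :=
  Real.sqrt_pos.2 (ws_pos h (Wf.cos_mem p))

theorem continuous_Vp (h : Ok S n a) : Continuous (Vp S n a) :=
  (h.contOn).comp_continuous (by fun_prop) (fun p => Wf.mem h.ha (Wf.cos_mem p))

theorem Vp_eq (h : Ok S n a) (p : ℝ) :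
    Vp S n a p = a * Real.sin p ^ 2 * Wr S n a p ^ 2 := by
  unfold Vp Wr
  rw [vs_eq_ws h (Wf.cos_mem p), Real.sq_sqrt (ws_pos h (Wf.cos_mem p)).le, Real.sin_sq]

theorem uv_pos (h : Ok S n a) (p : ℝ) :
    0 < a * Real.cos p ^ 2 + Vp S n a p := by
  by_cases hc : Real.cos p = 0
  · have h1 : Vp S n a p = vs S n a 0 := by
      unfold Vp
      rw [hc]
      norm_num
    rw [h1, hc]
    have h2 : 0 < vs S n a 0 := h.pos ⟨le_rfl, h.ha⟩
    simpa using h2
  · have h1 : 0 < Real.cos p ^ 2 := by positivity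
    have h2 : 0 ≤ Vp S n a p := h.nonneg (Wf.mem h.ha (Wf.cos_mem p))
    nlinarith [mul_pos h.ha h1]

end Pool.Agent.CritPer.M
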